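import Pool.Agent.Lib.MP_5fcc10_co.LLL

/-! The asymmetric Lovász local lemma on a finite product space, with supports. -/

set_option linter.unusedSectionVars false

namespace Pool.Agent.SK.Lin

open Finset

variable {V κ : Type*} [Fintype V] [DecidableEq V] [Fintype κ] [Nonempty κ]

lemma exp_le_one_sub {x : ℝ} (h0 : 0 ≤ x) (h1 : x ≤ 1 / 2) : Real.exp (-(2 * x)) ≤ 1 - x := by
  have h2 : Real.exp (-(2 * x)) = (Real.exp (2 * x))⁻¹ := Real.exp_neg _
  rw [h2]
  have h3 : 1 + 2 * x ≤ Real.exp (2 * x) := by
    have := Real.add_one_le_exp (2 * x); linarith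
  have h4 : (Real.exp (2 * x))⁻¹ ≤ (1 + 2 * x)⁻¹ := inv_anti₀ (by linarith) h3
  refine h4.trans ?_
  rw [inv_le_iff_one_le_mul₀ (by linarith)]
  nlinarith

theorem alll {ι : Type*} [Fintype ι] [DecidableEq ι] (A : ι → (V → κ) → Prop)
    (supp : ι → Finset V) (hdep : ∀ i, Dep (A i) (supp i))
    (x : ι → ℝ) (hx0 : ∀ i, 0 ≤ x i) (hx1 : ∀ i, x i ≤ 1 / 2) (σ : ℝ)
    (hσ : ∀ v, ∑ i ∈ univ.filter (fun i => v ∈ supp i), x i ≤ σ)
    (hp : ∀ i, P (A i) ≤ x i * Real.exp (-(2 * σ * (supp i).card))) :
    ∃ ψ : V → κ, ∀ i, ¬ A i ψ := by
  classical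
  have key : ∀ (N : ℕ) (T : Finset ι), T.card = N → ∀ i,
      P (fun φ => A i φ ∧ Avoid A T φ) ≤ x i * P (Avoid A T) := by
    intro N
    induction N using Nat.strong_induction_on with
    | _ N ih =>
      intro T hT i
      set T1 := T.filter (fun j => ¬ Disjoint (supp i) (supp j)) with hT1
      set T2 := T.filter (fun j => Disjoint (supp i) (supp j)) with hT2
      have hind : P (fun φ => A i φ ∧ Avoid A T2 φ) = P (A i) * P (Avoid A T2) := by
        refine P_indep (S := supp i) (T := T2.biUnion supp) (hdep i) ?_ ?_
        · intro φ ψ hv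
          apply propext
          constructor
          · intro hA j hj hAj
            refine hA j hj ?_
            rwa [hdep j φ ψ (fun v hvj => hv v (mem_biUnion.2 ⟨j, hj, hvj⟩))]
          · intro hA j hj hAj
            refine hA j hj ?_
            rwa [← hdep j φ ψ (fun v hvj => hv v (mem_biUnion.2 ⟨j, hj, hvj⟩))]
        · rw [disjoint_biUnion_right]
          intro j hj
          exact (mem_filter.1 hj).2
      have hle : P (fun φ => A i φ ∧ Avoid A T φ) ≤ P (A i) * P (Avoid A T2) := by
        calc P (fun φ => A i φ ∧ Avoid A T φ) ≤ P (fun φ => A i φ ∧ Avoid A T2 φ) :=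
              P_mono (fun φ hφ => ⟨hφ.1, fun j hj => hφ.2 j (mem_filter.1 hj).1⟩)
          _ = P (A i) * P (Avoid A T2) := hind
      have hT12 : T = T2 ∪ T1 := by
        ext j
        rw [mem_union, mem_filter, mem_filter]
        tauto
      have hdisj : Disjoint T2 T1 := by
        rw [Finset.disjoint_left]
        intro j h1 h2
        exact (mem_filter.1 h2).2 (mem_filter.1 h1).2
      -- adding the events of `T1` one by one
      have hadd : ∀ S : Finset ι, S ⊆ T1 →
          Real.exp (-(2 * ∑ j ∈ S, x j)) * P (Avoid A T2) ≤ P (Avoid A (T2 ∪ S)) := by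
        intro S
        induction S using Finset.induction_on with
        | empty => intro _; simp
        | insert j S hj ihS =>
          intro hS
          have hjT : j ∈ T1 := hS (mem_insert_self j S)
          have hS' : S ⊆ T1 := fun a ha => hS (mem_insert_of_mem ha)
          have h1 := ihS hS'
          have hcard : (T2 ∪ S).card < N := by
            rw [← hT]
            apply card_lt_card
            rw [ssubset_iff_of_subset]
            · refine ⟨j, ?_, ?_⟩
              · rw [hT12]; exact mem_union_right _ hjT
              · rw [mem_union]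
                rintro (h | h)
                · exact (Finset.disjoint_left.1 hdisj h) hjT
                · exact hj h
            · rw [hT12]; exact union_subset_union_right hS'
          have h2 := ih _ hcard (T2 ∪ S) rfl j
          have h3 := P_split (A j) (Avoid A (T2 ∪ S))
          have h4 : P (Avoid A (T2 ∪ insert j S))
              = P (fun φ => ¬ A j φ ∧ Avoid A (T2 ∪ S) φ) := by
            congr 1
            ext φ
            have : T2 ∪ insert j S = insert j (T2 ∪ S) := by
              ext a; simp only [mem_union, mem_insert]; tauto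
            rw [this]
            simp [Avoid]
          rw [sum_insert hj, h4]
          have h5 : Real.exp (-(2 * (x j + ∑ k ∈ S, x k)))
              = Real.exp (-(2 * x j)) * Real.exp (-(2 * ∑ k ∈ S, x k)) := by
            rw [← Real.exp_add]; congr 1; ring
          have h6 := exp_le_one_sub (hx0 j) (hx1 j)
          have h7 := P_nonneg (Avoid A (T2 ∪ S))
          calc Real.exp (-(2 * (x j + ∑ k ∈ S, x k))) * P (Avoid A T2)
              = Real.exp (-(2 * x j)) * (Real.exp (-(2 * ∑ k ∈ S, x k)) * P (Avoid A T2)) := by
                rw [h5, mul_assoc]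
            _ ≤ Real.exp (-(2 * x j)) * P (Avoid A (T2 ∪ S)) :=
                mul_le_mul_of_nonneg_left h1 (Real.exp_pos _).le
            _ ≤ (1 - x j) * P (Avoid A (T2 ∪ S)) := mul_le_mul_of_nonneg_right h6 h7
            _ ≤ P (fun φ => ¬ A j φ ∧ Avoid A (T2 ∪ S) φ) := by linarith
      have h1 := hadd T1 (subset_refl _)
      rw [← hT12] at h1
      -- the sum of the weights of the neighbours
      have hsum : ∑ j ∈ T1, x j ≤ σ * (supp i).card := by
        have h2 : ∑ j ∈ T1, x j ≤ ∑ v ∈ supp i, ∑ j ∈ univ.filter (fun j => v ∈ supp j), x j := by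
          rw [sum_comm' (t' := univ) (s' := fun j => (supp i).filter (fun v => v ∈ supp j))]
          · simp only [sum_const, nsmul_eq_mul]
            calc ∑ j ∈ T1, x j
                ≤ ∑ j ∈ T1, (((supp i).filter (fun v => v ∈ supp j)).card : ℝ) * x j := by
                  refine sum_le_sum (fun j hj => ?_)
                  have h3 := (mem_filter.1 hj).2
                  rw [Finset.not_disjoint_iff] at h3
                  obtain ⟨v, hv1, hv2⟩ := h3
                  have h4 : (1:ℝ) ≤ ((supp i).filter (fun v => v ∈ supp j)).card := by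
                    exact_mod_cast card_pos.2 ⟨v, mem_filter.2 ⟨hv1, hv2⟩⟩
                  have := hx0 j
                  nlinarith
              _ ≤ ∑ j, (((supp i).filter (fun v => v ∈ supp j)).card : ℝ) * x j := by
                  apply sum_le_sum_of_subset_of_nonneg (subset_univ _)
                  intro j _ _
                  exact mul_nonneg (Nat.cast_nonneg _) (hx0 j)
          · intro v j
            simp
        refine h2.trans ?_
        calc ∑ v ∈ supp i, ∑ j ∈ univ.filter (fun j => v ∈ supp j), x j
            ≤ ∑ v ∈ supp i, σ := sum_le_sum (fun v _ => hσ v)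
          _ = σ * (supp i).card := by rw [sum_const, nsmul_eq_mul, mul_comm]
      have hE : Real.exp (-(2 * σ * (supp i).card)) ≤ Real.exp (-(2 * ∑ j ∈ T1, x j)) := by
        apply Real.exp_le_exp.2
        linarith
      have hP2 := P_nonneg (Avoid A T2)
      calc P (fun φ => A i φ ∧ Avoid A T φ) ≤ P (A i) * P (Avoid A T2) := hle
        _ ≤ (x i * Real.exp (-(2 * σ * (supp i).card))) * P (Avoid A T2) :=
            mul_le_mul_of_nonneg_right (hp i) hP2
        _ = x i * (Real.exp (-(2 * σ * (supp i).card)) * P (Avoid A T2)) := by ring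
        _ ≤ x i * (Real.exp (-(2 * ∑ j ∈ T1, x j)) * P (Avoid A T2)) := by
            apply mul_le_mul_of_nonneg_left _ (hx0 i)
            exact mul_le_mul_of_nonneg_right hE hP2
        _ ≤ x i * P (Avoid A T) := mul_le_mul_of_nonneg_left h1 (hx0 i)
  have hpos : ∀ T : Finset ι, 0 < P (Avoid A T) := by
    intro T
    induction T using Finset.induction_on with
    | empty =>
      have h1 : P (Avoid A ∅) = P (fun _ : V → κ => True) := by
        congr 1
        ext φ
        simp [Avoid]
      rw [h1]
      unfold P
      simp [E_const]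
    | insert i T _ ih =>
      have h1 := P_split (A i) (Avoid A T)
      have h2 := key T.card T rfl i
      have h3 : P (Avoid A (insert i T)) = P (fun φ => ¬ A i φ ∧ Avoid A T φ) := by
        congr 1
        ext φ
        simp [Avoid]
      rw [h3]
      have h4 := hx1 i
      nlinarith
  have hfin := hpos univ
  by_contra hcon
  push Not at hcon
  have : P (Avoid A univ) = 0 := by
    have h1 : P (Avoid A univ) = P (fun _ : V → κ => False) := by
      congr 1
      ext φ
      simp only [iff_false, Avoid, not_forall, not_not]
      obtain ⟨i, hi⟩ := hcon φ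
      exact ⟨i, mem_univ i, hi⟩
    rw [h1]
    unfold P
    simp [E_const]
  linarith

end Pool.Agent.SK.Lin
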