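import Pool.Agent.Lib.MP_5fcc10_co_lin.Num2

/-! Numerical consequences, II: the conditions of the local lemma. -/

set_option linter.unusedSectionVars false

namespace Pool.Agent.SK.Lin

open Finset Filter

variable {k p : ℕ} {β : ℝ}

/-- the total weight at a coordinate -/
noncomputable def sg (k R : ℕ) : ℝ := ((2 * (k:ℝ) + 1) ^ (R + 3))⁻¹

lemma one_div_X (k R : ℕ) : 0 < (2 * (k:ℝ) + 1) ^ (R + 3) := by positivity

lemma Asy.X_ge (h : Asy k p β) (hβ : 10 ^ 8 ≤ β) : β ^ 64 ≤ 2 * (k:ℝ) + 1 := by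
  have h1 := h.k_ge hβ
  have : (0:ℝ) ≤ β ^ 64 := by positivity
  linarith

lemma Asy.pX (h : Asy k p β) (hβ : 10 ^ 8 ≤ β) : (p:ℝ) ≤ 2 * (k:ℝ) + 1 := by
  have h1 := h.p_le hβ
  have : (0:ℝ) ≤ k := Nat.cast_nonneg k
  linarith

lemma Asy.cs1 (h : Asy k p β) (hβ : 10 ^ 8 ≤ β) (R : ℕ) :
    sg k R * (2 * (k : ℝ) + 1) ^ (R + 1) ≤ 1 / 4 := by
  have h1 := h.X_ge hβ
  have h2 : (2:ℝ) ≤ β ^ 64 := by
    calc (2:ℝ) ≤ β := by linarith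
      _ = β ^ 1 := (pow_one β).symm
      _ ≤ β ^ 64 := pow_mono (by linarith) (by norm_num)
  have h3 : (2:ℝ) ≤ 2 * (k:ℝ) + 1 := h2.trans h1
  unfold sg
  rw [inv_mul_le_iff₀ (by positivity)]
  have h4 : (2 * (k:ℝ) + 1) ^ (R + 3) = (2 * (k:ℝ) + 1) ^ (R + 1) * (2 * (k:ℝ) + 1) ^ 2 := by
    ring
  rw [h4]
  have h5 : (4:ℝ) ≤ (2 * (k:ℝ) + 1) ^ 2 := by nlinarith
  have h6 : (0:ℝ) < (2 * (k:ℝ) + 1) ^ (R + 1) := by positivity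
  nlinarith

lemma Asy.cs2 (h : Asy k p β) (hβ : 10 ^ 8 ≤ β) (R : ℕ) (c : ℝ) (hc0 : 0 ≤ c) (hc : 4 * c ≤ β) :
    sg k R * c ≤ 1 / 4 := by
  have h1 := h.X_ge hβ
  have hβ1 : 1 ≤ β := by linarith
  have h2 : β ≤ β ^ 64 := by
    calc β = β ^ 1 := (pow_one β).symm
      _ ≤ β ^ 64 := pow_mono hβ1 (by norm_num)
  unfold sg
  rw [inv_mul_le_iff₀ (by positivity)]
  have h3 : (1:ℝ) ≤ 2 * (k:ℝ) + 1 := by
    have : (0:ℝ) ≤ k := Nat.cast_nonneg k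
    linarith
  have h4 : 2 * (k:ℝ) + 1 ≤ (2 * (k:ℝ) + 1) ^ (R + 3) := by
    calc 2 * (k:ℝ) + 1 = (2 * (k:ℝ) + 1) ^ 1 := (pow_one _).symm
      _ ≤ (2 * (k:ℝ) + 1) ^ (R + 3) := pow_le_pow_right₀ h3 (by omega)
  linarith

lemma Asy.cs3 (h : Asy k p β) (hβ : 10 ^ 8 ≤ β) (R : ℕ) :
    sg k R * (4 * (JJ k β : ℝ)) ≤ 1 / 4 := by
  have h1 := h.X_ge hβ
  have hβ1 : 1 ≤ β := by linarith
  have hJ : 2 * (JJ k β : ℝ) + 2 ≤ k := by exact_mod_cast h.J_k hβ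
  have hk0 : (0:ℝ) ≤ k := Nat.cast_nonneg k
  unfold sg
  rw [inv_mul_le_iff₀ (by positivity)]
  have h3 : (1:ℝ) ≤ 2 * (k:ℝ) + 1 := by linarith
  have h4 : (2 * (k:ℝ) + 1) ^ 2 ≤ (2 * (k:ℝ) + 1) ^ (R + 3) := pow_le_pow_right₀ h3 (by omega)
  have h5 : (10:ℝ) ^ 8 ≤ 2 * (k:ℝ) + 1 := by
    calc (10:ℝ) ^ 8 ≤ β := hβ
      _ = β ^ 1 := (pow_one β).symm
      _ ≤ β ^ 64 := pow_mono hβ1 (by norm_num)
      _ ≤ _ := h1
  nlinarith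

lemma c1_bound (R C : ℕ) : ∃ B : ℝ, 10 ^ 8 ≤ B ∧ ∀ (β : ℝ) (k p : ℕ), B ≤ β → Asy k p β →
    2 * ((2 * (k : ℝ) + 1) ^ R * (2 * p) * (2 * k + 1) * (β ^ C * Real.exp (-β)))
      ≤ sg k R / 4 := by
  obtain ⟨b, hb⟩ := exp_dominates (66 * (2 * R + 5) + C + 1)
  refine ⟨10 ^ 8 + |b|, by have := abs_nonneg b; linarith, ?_⟩
  intro β k p hB h
  have hβ8 : (10:ℝ) ^ 8 ≤ β := by have := abs_nonneg b; linarith
  have hbb : b ≤ β := (le_abs_self b).trans (by linarith)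
  have hβ0 : 0 < β := by linarith
  have h1 := hb β hbb
  have hX := h.x_le hβ8
  have hp := h.pX hβ8
  have hexp := Real.exp_pos (-β)
  set X : ℝ := 2 * (k:ℝ) + 1 with hXd
  have hX0 : 0 < X := by positivity
  have hsg : sg k R = (X ^ (R + 3))⁻¹ := rfl
  rw [hsg, inv_eq_one_div, div_div, le_div_iff₀ (by positivity)]
  calc 2 * (X ^ R * (2 * p) * X * (β ^ C * Real.exp (-β))) * (X ^ (R + 3) * 4)
      ≤ 2 * (X ^ R * (2 * X) * X * (β ^ C * Real.exp (-β))) * (X ^ (R + 3) * 4) := by gcongr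
    _ = 16 * (X ^ (2 * R + 5) * (β ^ C * Real.exp (-β))) := by ring
    _ ≤ 16 * ((β ^ 66) ^ (2 * R + 5) * (β ^ C * Real.exp (-β))) := by gcongr
    _ = 8 * (2 * (β ^ (66 * (2 * R + 5) + C) * Real.exp (-β))) := by
        rw [← pow_mul, pow_add]; ring
    _ ≤ 8 * (β * (β ^ (66 * (2 * R + 5) + C) * Real.exp (-β))) := by gcongr; linarith
    _ = 8 * (β ^ (66 * (2 * R + 5) + C + 1) * Real.exp (-β)) := by rw [pow_succ]; ring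
    _ ≤ 1 := h1

/-- the value of the chain weight -/
lemma zeta_bound (h : Asy k p β) (hβ : 10 ^ 8 ≤ β) (C1 : ℝ) (hC1 : 0 ≤ C1)
    (hC : C1 * (8 + 8 ^ 20) ≤ β) (γ : ℝ) (hγ : γ = ((2 * k : ℕ) : ℝ) / p) :
    γ = 8 * β ^ 4 ∧ C1 * (γ / p + γ ^ (17 + 3) / (p:ℝ) ^ 2) ≤ 1 / β ^ 39 := by
  have hβ0 : 0 < β := by linarith
  have hβ1 : 1 ≤ β := by linarith
  have hp := h.l
  have hp0 : (0:ℝ) < p := lt_of_lt_of_le (by positivity) hp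
  have e1 : γ = 8 * β ^ 4 := by
    rw [hγ]; push_cast
    rw [div_eq_iff hp0.ne', h.e]; ring
  refine ⟨e1, ?_⟩
  have h1 : γ / p ≤ 8 / β ^ 40 := by
    rw [e1, div_le_div_iff₀ hp0 (by positivity)]
    calc 8 * β ^ 4 * β ^ 40 = 8 * β ^ 44 := by ring
      _ ≤ 8 * β ^ 60 := by gcongr <;> first | exact hβ1 | norm_num
      _ ≤ 8 * p := by gcongr
  have h2 : γ ^ (17 + 3) / (p:ℝ) ^ 2 ≤ 8 ^ 20 / β ^ 40 := by
    rw [e1, div_le_div_iff₀ (by positivity) (by positivity)]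
    calc (8 * β ^ 4) ^ (17 + 3) * β ^ 40 = 8 ^ 20 * (β ^ 60) ^ 2 := by ring
      _ ≤ 8 ^ 20 * (p:ℝ) ^ 2 := by gcongr
  calc C1 * (γ / p + γ ^ (17 + 3) / (p:ℝ) ^ 2) ≤ C1 * (8 / β ^ 40 + 8 ^ 20 / β ^ 40) := by
        gcongr
    _ = (C1 * (8 + 8 ^ 20)) / β ^ 40 := by ring
    _ ≤ β / β ^ 40 := by gcongr
    _ = 1 / β ^ 39 := by field_simp

lemma Asy.c2 (h : Asy k p β) (hβ : 10 ^ 8 ≤ β) (R d0 : ℕ) (ζ : ℝ) (hζ0 : 0 ≤ ζ)
    (hζ : ζ ≤ 1 / β ^ 39) :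
    2 * ((2 * (k : ℝ) + 1) ^ (17 + d0) * p * ζ ^ (2 * (R + d0 + 21))) ≤ sg k R / 4 := by
  have hβ0 : 0 < β := by linarith
  have hβ1 : 1 ≤ β := by linarith
  have hX := h.x_le hβ
  have hp := h.pX hβ
  set X : ℝ := 2 * (k:ℝ) + 1 with hXd
  have hX0 : 0 < X := by positivity
  have hsg : sg k R = (X ^ (R + 3))⁻¹ := rfl
  rw [hsg, inv_eq_one_div, div_div, le_div_iff₀ (by positivity)]
  have h1 : ζ ^ (2 * (R + d0 + 21)) ≤ 1 / (β ^ 39) ^ (2 * (R + d0 + 21)) := by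
    calc ζ ^ (2 * (R + d0 + 21)) ≤ (1 / β ^ 39) ^ (2 * (R + d0 + 21)) :=
          pow_le_pow_left₀ hζ0 hζ _
      _ = _ := by rw [div_pow, one_pow]
  calc 2 * (X ^ (17 + d0) * p * ζ ^ (2 * (R + d0 + 21))) * (X ^ (R + 3) * 4)
      ≤ 2 * (X ^ (17 + d0) * X * (1 / (β ^ 39) ^ (2 * (R + d0 + 21)))) * (X ^ (R + 3) * 4) := by
        gcongr
    _ = 8 * X ^ (R + d0 + 21) / (β ^ 39) ^ (2 * (R + d0 + 21)) := by
        have : X ^ (R + d0 + 21) = X ^ (17 + d0) * X * X ^ (R + 3) := by ring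
        rw [this]; ring
    _ ≤ 8 * (β ^ 66) ^ (R + d0 + 21) / (β ^ 39) ^ (2 * (R + d0 + 21)) := by gcongr
    _ ≤ 1 := by
        rw [div_le_one (by positivity)]
        calc 8 * (β ^ 66) ^ (R + d0 + 21) ≤ β * (β ^ 66) ^ (R + d0 + 21) := by
              gcongr; linarith
          _ = β ^ (1 + 66 * (R + d0 + 21)) := by
              rw [pow_add β 1 (66 * (R + d0 + 21)), pow_mul, pow_one]
          _ ≤ β ^ (39 * (2 * (R + d0 + 21))) := pow_mono hβ1 (by omega)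
          _ = _ := by rw [pow_mul]

lemma Asy.c3 (h : Asy k p β) (hβ : 10 ^ 8 ≤ β) (R d0 : ℕ) (hd0 : d0 = 4 * R + 24) :
    2 * ∑ d ∈ Finset.Ioc d0 (2 * JJ k β), (p : ℝ) ^ 2 * (4 * d * (2 * (k : ℝ)) ^ (d - 1)
      * d.factorial) * (1 / (p : ℝ)) ^ (2 * d) ≤ sg k R / 4 := by
  have hβ0 : 0 < β := by linarith
  have hβ1 : 1 ≤ β := by linarith
  have hX := h.x_le hβ
  have hpX := h.pX hβ
  have hp := h.l
  have hp0 : (0:ℝ) < p := lt_of_lt_of_le (by positivity) hp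
  have hJ := h.J_le hβ
  have hkge := h.k_ge hβ
  have h64 : (1:ℝ) ≤ β ^ 64 := one_le_pow₀ hβ1
  have hk1 : (1:ℝ) ≤ k := by linarith
  set J : ℝ := (JJ k β : ℝ) with hJd
  have hJ0 : 0 ≤ J := Nat.cast_nonneg _
  set ρ : ℝ := 4 * k * J / (p:ℝ) ^ 2 with hρ
  have hρ0 : 0 ≤ ρ := by positivity
  have hρ1 : ρ ≤ 1 / β ^ 21 := by
    rw [hρ, div_le_div_iff₀ (by positivity) (by positivity), h.e]
    calc 4 * (4 * p * β ^ 4) * J * β ^ 21 = 16 * β ^ 25 * J * p := by ring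
      _ ≤ 16 * β ^ 25 * β ^ 34 * p := by gcongr
      _ = 16 * β ^ 59 * p := by ring
      _ ≤ β * β ^ 59 * p := by gcongr; linarith
      _ = β ^ 60 * p := by ring
      _ ≤ p * p := by gcongr
      _ = 1 * (p:ℝ) ^ 2 := by ring
  have hρ2 : ρ ≤ 1 := by
    refine hρ1.trans ?_
    rw [div_le_one (by positivity)]
    exact one_le_pow₀ hβ1
  have hterm : ∀ d ∈ Finset.Ioc d0 (2 * JJ k β), (p : ℝ) ^ 2 * (4 * d * (2 * (k : ℝ)) ^ (d - 1)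
      * d.factorial) * (1 / (p : ℝ)) ^ (2 * d) ≤ 8 * J * (p:ℝ) ^ 2 * ρ ^ (d0 + 1) := by
    intro d hd
    rw [mem_Ioc] at hd
    have hdJ : (d:ℝ) ≤ 2 * J := by
      have : (d:ℝ) ≤ ((2 * JJ k β : ℕ) : ℝ) := by exact_mod_cast hd.2
      push_cast at this; exact this
    have h1 : (d.factorial : ℝ) ≤ (2 * J) ^ d := by
      calc (d.factorial : ℝ) ≤ (d:ℝ) ^ d := by exact_mod_cast Nat.factorial_le_pow d
        _ ≤ (2 * J) ^ d := pow_le_pow_left₀ (Nat.cast_nonneg _) hdJ d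
    have h2 : (2 * (k:ℝ)) ^ (d - 1) ≤ (2 * (k:ℝ)) ^ d :=
      pow_le_pow_right₀ (by linarith) (by omega)
    calc (p : ℝ) ^ 2 * (4 * d * (2 * (k : ℝ)) ^ (d - 1) * d.factorial) * (1 / (p : ℝ)) ^ (2 * d)
        ≤ (p : ℝ) ^ 2 * (4 * (2 * J) * (2 * (k : ℝ)) ^ d * (2 * J) ^ d)
          * (1 / (p : ℝ)) ^ (2 * d) := by gcongr
      _ = 8 * J * (p:ℝ) ^ 2 * ρ ^ d := by
          rw [hρ, pow_mul (1 / (p:ℝ)) 2 d, div_pow, div_pow, one_pow, div_pow, one_pow]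
          have : (4 * (k:ℝ) * J) ^ d = (2 * k) ^ d * (2 * J) ^ d := by
            rw [← mul_pow]; congr 1; ring
          rw [this]
          ring
      _ ≤ 8 * J * (p:ℝ) ^ 2 * ρ ^ (d0 + 1) := by
          apply mul_le_mul_of_nonneg_left _ (by positivity)
          exact pow_le_pow_of_le_one hρ0 hρ2 (by omega)
  have hsum : ∑ d ∈ Finset.Ioc d0 (2 * JJ k β), (p : ℝ) ^ 2 * (4 * d * (2 * (k : ℝ)) ^ (d - 1)
      * d.factorial) * (1 / (p : ℝ)) ^ (2 * d) ≤ 2 * J * (8 * J * (p:ℝ) ^ 2 * ρ ^ (d0 + 1)) := by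
    refine (sum_le_sum hterm).trans ?_
    rw [sum_const, nsmul_eq_mul, Nat.card_Ioc]
    apply mul_le_mul_of_nonneg_right _ (by positivity)
    have : ((2 * JJ k β - d0 : ℕ) : ℝ) ≤ ((2 * JJ k β : ℕ) : ℝ) := by
      exact_mod_cast Nat.sub_le _ _
    push_cast at this
    exact this
  refine (mul_le_mul_of_nonneg_left hsum (by norm_num)).trans ?_
  set X : ℝ := 2 * (k:ℝ) + 1 with hXd
  have hX0 : 0 < X := by positivity
  have hsg : sg k R = (X ^ (R + 3))⁻¹ := rfl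
  rw [hsg, inv_eq_one_div, div_div, le_div_iff₀ (by positivity)]
  have h1 : ρ ^ (d0 + 1) ≤ 1 / (β ^ 21) ^ (d0 + 1) := by
    calc ρ ^ (d0 + 1) ≤ (1 / β ^ 21) ^ (d0 + 1) := pow_le_pow_left₀ hρ0 hρ1 _
      _ = _ := by rw [div_pow, one_pow]
  calc 2 * (2 * J * (8 * J * (p:ℝ) ^ 2 * ρ ^ (d0 + 1))) * (X ^ (R + 3) * 4)
      ≤ 2 * (2 * β ^ 34 * (8 * β ^ 34 * (β ^ 66) ^ 2 * (1 / (β ^ 21) ^ (d0 + 1))))
        * ((β ^ 66) ^ (R + 3) * 4) := by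
        have hpX' : (p:ℝ) ≤ β ^ 66 := hpX.trans hX
        gcongr
    _ = 128 * β ^ (200 + 66 * (R + 3)) / (β ^ 21) ^ (d0 + 1) := by
        rw [pow_add β 200 (66 * (R + 3)), pow_mul β 66 (R + 3)]; ring
    _ ≤ 1 := by
        rw [div_le_one (by positivity)]
        calc 128 * β ^ (200 + 66 * (R + 3)) ≤ β * β ^ (200 + 66 * (R + 3)) := by
              gcongr; linarith
          _ = β ^ (1 + (200 + 66 * (R + 3))) := by rw [pow_add β 1, pow_one]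
          _ ≤ β ^ (21 * (d0 + 1)) := pow_mono hβ1 (by omega)
          _ = _ := by rw [pow_mul]

end Pool.Agent.SK.Lin
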