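import Pool.Agent.Lib.MP_5fcc10_co_lin.EvenD
import Pool.Agent.Lib.MP_5fcc10_co_lin.Num3
import Pool.Agent.Lib.MP_5fcc10_co_lin_h26.DP1

/-! The even case: conclusion. -/

set_option linter.unusedSectionVars false

namespace Pool.Agent.SK.Lin

open Finset Filter

theorem even_lin (δ : ℝ) (hδ : 0 < δ) : ∃ k0 : ℕ, ∀ k ≥ k0, ∃ N : ℕ, (1 - δ) * (k:ℝ) ≤ N ∧
    ∃ c : Fin N → Finset (Fin (2 * k)) → Finset (Fin (2 * k)),
      (∀ i x, (c i x).card = k) ∧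
      (∀ i x y, c i x = c i y → x ⊆ y ∨ y ⊆ x) ∧
      (∀ i j, i ≠ j → ∀ x y, x ≠ y → c i x = c i y → c j x ≠ c j y) := by
  obtain ⟨K, R, C, β0, hK, hstage⟩ := stage 66 66
  set δ1 : ℝ := min (δ / 2) (1 / 2) with hδ1d
  have hδ1 : 0 < δ1 := lt_min (by linarith) (by norm_num)
  have hδ1' : δ1 ≤ 1 / 2 := min_le_right _ _
  have hδ1'' : δ1 ≤ δ / 2 := min_le_left _ _
  set d0 : ℕ := 4 * R + 24 with hd0
  set T : ℕ := 2 * (R + d0 + 21) with hT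
  set u0 : ℕ := T * (17 + 2 * d0) with hu0
  obtain ⟨C1, hC1, hsw⟩ := H26.step_weight 17 d0 u0
  obtain ⟨B1, hB1, hpar⟩ := par_even 66 le_rfl K δ1 hK hδ1 hδ1' T d0
  obtain ⟨B2, hB2, hc1⟩ := c1_bound R C
  have hB1' : 0 ≤ B1 := by linarith
  have hB2' : 0 ≤ B2 := by linarith
  obtain ⟨k0, hk0⟩ := exists_asy (B1 + B2 + |β0| + C1 * (8 + 8 ^ 20) + 4 * u0 + 17 + 1 / δ)
  refine ⟨k0, fun k hk => ?_⟩
  obtain ⟨p, β, hβ, h⟩ := hk0 k hk
  have a1 := abs_nonneg β0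
  have a2 : 0 ≤ C1 * (8 + 8 ^ 20) := by positivity
  have a3 : (0:ℝ) ≤ 4 * u0 := by positivity
  have a4 : 0 ≤ 1 / δ := by positivity
  have hβ8 : (10:ℝ) ^ 8 ≤ β := by linarith
  have hβ1 : 1 ≤ β := by linarith
  have hβ00 : 0 < β := by linarith
  have hβ0 : β0 ≤ β := (le_abs_self β0).trans (by linarith)
  have hβB1 : B1 ≤ β := by linarith
  have hβB2 : B2 ≤ β := by linarith
  have hβC1 : C1 * (8 + 8 ^ 20) ≤ β := by linarith
  have hβu : 4 * (u0:ℝ) + 17 ≤ β := by linarith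
  have hβδ : 1 / δ ≤ β := by linarith
  have hp1 : 1 ≤ p := by
    have h1 : (1:ℝ) ≤ β ^ 60 := one_le_pow₀ hβ1
    have h2 : (1:ℝ) ≤ p := h1.trans h.l
    exact_mod_cast h2
  haveI : NeZero p := ⟨by omega⟩
  have hP := hpar β k p hβB1 hp1 h
  have hp0 : (0:ℝ) < p := by exact_mod_cast hp1
  have hβ4 : β ≤ β ^ 4 := le_pow_of_le hβ1 le_rfl 4 (by norm_num)
  -- the number
  refine ⟨2 * p * DD k p δ1, ?_, ?_⟩
  · have hDl : (1 - δ1) * ((k:ℝ) / (2 * p)) < DD k p δ1 + 1 := Nat.lt_floor_add_one _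
    have e1 : (1 - δ1) * (k:ℝ) = 2 * p * ((1 - δ1) * ((k:ℝ) / (2 * p))) := by field_simp
    have h1 : (1 - δ1) * (k:ℝ) ≤ 2 * p * (DD k p δ1 + 1) := by
      rw [e1]
      exact mul_le_mul_of_nonneg_left hDl.le (by positivity)
    have h2 : 2 * (p:ℝ) ≤ δ / 2 * k := by
      rw [h.e]
      have h3 : 1 ≤ δ * β ^ 4 := by
        rw [div_le_iff₀ hδ] at hβδ
        nlinarith
      nlinarith
    have hk0' : (0:ℝ) ≤ k := Nat.cast_nonneg k
    push_cast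
    nlinarith
  · set γ : ℝ := ((2 * k : ℕ) : ℝ) / p with hγ
    obtain ⟨g1, g2⟩ := zeta_bound h hβ8 C1 hC1 hβC1 γ hγ
    set ζ := C1 * (γ / p + γ ^ (17 + 3) / (p:ℝ) ^ 2) with hζ
    have hζ0 : 0 ≤ ζ := by positivity
    have hk1 := h.k_ge hβ8
    refine even_core_lin 66 66 K R C β0 (fun β n t p _ cl Dl hb he => hstage β n t p cl Dl hb he)
      (J := JJ k β) (p := p) (D := DD k p δ1) (d0 := d0) (mr := 17) (T := T)
      (K2 := 2 * (T * (17 + 2 * d0))) hP hβ0 (h.x_le hβ8) ζ (sg k R) hζ0 (by omega) (by omega)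
      ?_ (hc1 β k p hβB2 h) (h.c2 hβ8 R d0 ζ hζ0 g2) (h.c3 hβ8 R d0 hd0) (h.cs1 hβ8 R) ?_
      (h.cs3 hβ8 R) (by omega)
    · intro v i U ψ0 hU F hF
      refine hsw (2 * k) p inferInstance v i U ψ0 γ hU hγ ?_ ?_ ?_ F hF
      · rw [g1]; push_cast; linarith
      · rw [g1]; linarith
      · rw [g1]
        have h5 := h.l
        calc 2 * (8 * β ^ 4) = 16 * β ^ 4 := by ring
          _ ≤ β * β ^ 4 := by gcongr; linarith
          _ = β ^ 5 := by ring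
          _ ≤ β ^ 60 := pow_mono hβ1 (by norm_num)
          _ ≤ p := h5
    · have := h.cs2 hβ8 R (u0:ℝ) (by positivity) (by linarith)
      rw [hu0] at this
      push_cast at this ⊢
      exact this

end Pool.Agent.SK.Lin
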