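import Pool.Agent.Lib.MP_5fcc10_co_lin.OddFin
import Pool.Agent.Lib.MP_5fcc10_co_lin.EvenE
import Pool.Agent.Lib.MP_5fcc10_co.Transfer

/-! Both parities. -/

set_option linter.unusedSectionVars false

namespace Pool.Agent.SK.Lin

open Finset Filter

theorem all_lin (δ : ℝ) (hδ : 0 < δ) : ∃ N0 : ℕ, ∀ n : ℕ, N0 ≤ n → ∀ m : ℕ,
    (m : ℝ) ≤ (1 / 2 - δ) * n →
      ∃ C : Fin m → Finset (Fin n) → Fin (n.choose (n / 2)),
        (∀ i x y, C i x = C i y → x ⊆ y ∨ y ⊆ x) ∧
        (∀ i j, i ≠ j →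
          (∀ x y, x ≠ y → C i x = C i y → C j x ≠ C j y) ∧
          ¬ (∀ x y, (C i x = C i y ↔ C j x = C j y))) := by
  obtain ⟨k1, h1⟩ := even_lin δ hδ
  obtain ⟨k2, h2⟩ := odd_lin δ hδ
  obtain ⟨k3, h3⟩ := exists_nat_gt (1 / δ)
  refine ⟨2 * (k1 + k2 + k3) + 3, fun n hn m hm => ?_⟩
  rcases Nat.even_or_odd' n with ⟨k, hk | hk⟩
  · subst hk
    obtain ⟨N, hN, c, c1, c2, c3⟩ := h1 k (by omega)
    have hmN : m ≤ N := by
      have hk0 : (0:ℝ) ≤ k := Nat.cast_nonneg k
      have h4 : (m:ℝ) ≤ N := by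
        refine hm.trans (le_trans ?_ hN)
        push_cast
        nlinarith
      exact_mod_cast h4
    exact transfer (by omega) (by omega) (fun i => c (Fin.castLE hmN i))
      (fun i x => c1 _ x) (fun i x y h => c2 _ x y h)
      (fun i j hij x y hxy h => c3 _ _ (fun h5 => hij (Fin.castLE_injective hmN h5)) x y hxy h)
  · subst hk
    obtain ⟨N, hN, c, c1, c2, c3⟩ := h2 k (by omega)
    have hmN : m ≤ N := by
      have hk3 : (k3:ℝ) ≤ k := by exact_mod_cast (by omega : k3 ≤ k)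
      have h5 : 1 ≤ δ * k := by
        rw [div_lt_iff₀ hδ] at h3
        nlinarith
      have h4 : (m:ℝ) ≤ N := by
        refine hm.trans (le_trans ?_ hN)
        push_cast
        nlinarith
      exact_mod_cast h4
    exact transfer (by omega) (by omega) (fun i => c (Fin.castLE hmN i))
      (fun i x => c1 _ x) (fun i x y h => c2 _ x y h)
      (fun i j hij x y hxy h => c3 _ _ (fun h5 => hij (Fin.castLE_injective hmN h5)) x y hxy h)

end Pool.Agent.SK.Lin
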