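import Pool.Agent.Lib.MP_5fcc10_co_lin.DPDefs
import Pool.Agent.Lib.MP_5fcc10_co.LLL

/-! Module DP3: long double paths. -/

set_option linter.unusedSectionVars false

namespace Pool.Agent.SK.Lin

open Finset
open scoped symmDiff

/-! ### counting -/

lemma card_fix (n d : ℕ) (l : Fin d) (e : Fin n) :
    ((univ : Finset (Fin d → Fin n)).filter (fun a => a l = e)).card = n ^ (d - 1) := by
  have h : (univ : Finset (Fin d → Fin n)).filter (fun a => a l = e)
      = Fintype.piFinset (fun r => if r = l then {e} else univ) := by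
    ext a
    rw [mem_filter, Fintype.mem_piFinset]
    constructor
    · rintro ⟨_, h⟩ r
      by_cases hr : r = l
      · rw [if_pos hr, hr, mem_singleton, h]
      · rw [if_neg hr]; exact mem_univ _
    · intro h
      refine ⟨mem_univ _, ?_⟩
      have := h l
      rw [if_pos rfl, mem_singleton] at this
      exact this
  rw [h, Fintype.card_piFinset, ← mul_prod_erase univ _ (mem_univ l), if_pos rfl, card_singleton,
    one_mul]
  rw [prod_congr rfl (g := fun _ => n) (fun r hr => by
    rw [if_neg (ne_of_mem_erase hr), card_univ, Fintype.card_fin])]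
  rw [prod_const, card_erase_of_mem (mem_univ l), card_univ, Fintype.card_fin]

/-- the candidates: `c : Bool` tells whether the edge is traversed from above -/
def candA {n : ℕ} (d : ℕ) (u : Finset (Fin n)) (e : Fin n) (x : Fin d × Bool) :
    Finset (Finset (Fin n) × (Fin d → Fin n) × Equiv.Perm (Fin d)) :=
  ((univ.filter (fun a : Fin d → Fin n => a x.1 = e)) ×ˢ
    (univ : Finset (Equiv.Perm (Fin d)))).image
    (fun q => ((if x.2 then insert e u else u) ∆ (univ.filter (fun r : Fin d => r.val < x.1.val)).image q.1,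
      q.1, q.2))

def candB {n : ℕ} (d : ℕ) (u : Finset (Fin n)) (e : Fin n) (x : Fin d × Bool) :
    Finset (Finset (Fin n) × (Fin d → Fin n) × Equiv.Perm (Fin d)) :=
  ((univ.filter (fun a : Fin d → Fin n => a x.1 = e)) ×ˢ
    (univ : Finset (Equiv.Perm (Fin d)))).image
    (fun q => ((if x.2 then insert e u else u) ∆ (univ.filter (fun r : Fin d => r.val < x.1.val)).image q.1,
      q.1 ∘ q.2.symm, q.2))

lemma card_candA {n : ℕ} (d : ℕ) (u : Finset (Fin n)) (e : Fin n) (x : Fin d × Bool) :
    (candA d u e x).card ≤ n ^ (d - 1) * d.factorial := by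
  refine card_image_le.trans ?_
  rw [card_product, card_fix, card_univ, Fintype.card_perm, Fintype.card_fin]

lemma card_candB {n : ℕ} (d : ℕ) (u : Finset (Fin n)) (e : Fin n) (x : Fin d × Bool) :
    (candB d u e x).card ≤ n ^ (d - 1) * d.factorial := by
  refine card_image_le.trans ?_
  rw [card_product, card_fix, card_univ, Fintype.card_perm, Fintype.card_fin]

lemma pes_mem_cases {n : ℕ} {d : ℕ} {w : Finset (Fin n)} {a : Fin d → Fin n} {y : Ix n}
    (h : y ∈ pes w a) : ∃ (l : Fin d) (c : Bool), y.2 = some (a l) ∧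
      w = (if c then insert (a l) y.1 else y.1) ∆
        (univ.filter (fun r : Fin d => r.val < l.val)).image a := by
  unfold pes at h
  rw [mem_image] at h
  obtain ⟨l, _, hl⟩ := h
  have h1 : y.1 = (pv w a l).erase (a l) := by rw [← hl]; rfl
  have h2 : y.2 = some (a l) := by rw [← hl]; rfl
  have h3 : w = pv w a l ∆ (univ.filter (fun r : Fin d => r.val < l.val)).image a := by
    unfold pv
    rw [symmDiff_symmDiff_cancel_right]
  by_cases hm : a l ∈ pv w a l
  · refine ⟨l, true, h2, ?_⟩
    rw [if_pos rfl, h1, insert_erase hm]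
    exact h3
  · refine ⟨l, false, h2, ?_⟩
    rw [if_neg (by simp), h1, erase_eq_of_notMem hm]
    exact h3

/-- The total weight of the long double paths through a given edge. -/
theorem long_weight {n p : ℕ} [NeZero p] (d : ℕ) (hd : 2 ≤ d) (y : Ix n)
    (F : Finset (Finset (Fin n) × (Fin d → Fin n) × Equiv.Perm (Fin d)))
    (hF : ∀ x ∈ F, Function.Injective x.2.1 ∧ conn x.2.2 ∧
      (y ∈ pes x.1 x.2.1 ∨ y ∈ pes x.1 (x.2.1 ∘ x.2.2))) :
    F.card ≤ 4 * d * n ^ (d - 1) * d.factorial := by
  classical
  obtain ⟨u, o⟩ := y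
  cases o with
  | none =>
    have : F = ∅ := by
      rw [eq_empty_iff_forall_notMem]
      intro x hx
      obtain ⟨_, _, h | h⟩ := hF x hx
      · obtain ⟨l, c, h1, _⟩ := pes_mem_cases h
        cases h1
      · obtain ⟨l, c, h1, _⟩ := pes_mem_cases h
        cases h1
    rw [this, card_empty]
    exact Nat.zero_le _
  | some e =>
    have hsub : F ⊆ (univ : Finset (Fin d × Bool)).biUnion (candA d u e) ∪
        (univ : Finset (Fin d × Bool)).biUnion (candB d u e) := by
      intro x hx
      obtain ⟨w, a, π⟩ := x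
      obtain ⟨_, _, h | h⟩ := hF _ hx
      · obtain ⟨l, c, h1, h2⟩ := pes_mem_cases h
        have h1' : e = a l := Option.some.inj h1
        rw [mem_union]; left
        rw [mem_biUnion]
        refine ⟨(l, c), mem_univ _, ?_⟩
        unfold candA
        rw [mem_image]
        refine ⟨(a, π), mem_product.2 ⟨mem_filter.2 ⟨mem_univ _, h1'.symm⟩, mem_univ _⟩, ?_⟩
        simp only at h2 ⊢
        rw [h1', ← h2]
      · obtain ⟨l, c, h1, h2⟩ := pes_mem_cases h
        have h1' : e = (a ∘ π) l := Option.some.inj h1
        rw [mem_union]; right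
        rw [mem_biUnion]
        refine ⟨(l, c), mem_univ _, ?_⟩
        unfold candB
        rw [mem_image]
        refine ⟨(a ∘ π, π), mem_product.2 ⟨mem_filter.2 ⟨mem_univ _, h1'.symm⟩, mem_univ _⟩, ?_⟩
        simp only at h2 ⊢
        have h3 : (a ∘ π) ∘ π.symm = a := by
          funext r; simp
        rw [h3, h1', ← h2]
    calc F.card ≤ _ := card_le_card hsub
      _ ≤ _ := card_union_le _ _
      _ ≤ (univ : Finset (Fin d × Bool)).card * (n ^ (d - 1) * d.factorial)
          + (univ : Finset (Fin d × Bool)).card * (n ^ (d - 1) * d.factorial) := by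
        refine Nat.add_le_add ?_ ?_
        · refine card_biUnion_le.trans ?_
          rw [← smul_eq_mul, ← sum_const]
          exact sum_le_sum (fun x _ => card_candA d u e x)
        · refine card_biUnion_le.trans ?_
          rw [← smul_eq_mul, ← sum_const]
          exact sum_le_sum (fun x _ => card_candB d u e x)
      _ = 4 * d * n ^ (d - 1) * d.factorial := by
        rw [card_univ, Fintype.card_prod, Fintype.card_fin, Fintype.card_bool]
        ring

/-! ### probability -/

lemma pe_inj {n d : ℕ} (w : Finset (Fin n)) {a : Fin d → Fin n} (ha : Function.Injective a) :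
    Function.Injective (pe w a) := by
  intro k l h
  unfold pe ed at h
  exact ha (Option.some.inj (congrArg Prod.snd h))

lemma card_pes {n d : ℕ} (w : Finset (Fin n)) {a : Fin d → Fin n} (ha : Function.Injective a) :
    (pes w a).card = d := by
  unfold pes
  rw [card_image_of_injective _ (pe_inj w ha), card_univ, Fintype.card_fin]

lemma notMem_seg {n d : ℕ} {a : Fin d → Fin n} (ha : Function.Injective a) (k : Fin d) :
    a k ∉ (univ.filter (fun r : Fin d => r.val < k.val)).image a := by
  intro h
  rw [mem_image] at h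
  obtain ⟨r, hr, h1⟩ := h
  rw [ha h1, mem_filter] at hr
  exact lt_irrefl _ hr.2

/-- the two paths of a double path have no edge in common -/
lemma pes_disjoint {n d : ℕ} (hd : 2 ≤ d) (w : Finset (Fin n)) {a : Fin d → Fin n}
    {π : Equiv.Perm (Fin d)} (ha : Function.Injective a) (hπ : conn π) :
    Disjoint (pes w a) (pes w (a ∘ π)) := by
  rw [disjoint_left]
  intro y h1 h2
  unfold pes at h1 h2
  rw [mem_image] at h1 h2
  obtain ⟨k, _, hk⟩ := h1
  obtain ⟨l, _, hl⟩ := h2
  rw [← hl] at hk
  unfold pe ed at hk
  have e2 : a k = (a ∘ π) l := Option.some.inj (congrArg Prod.snd hk)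
  have e1 : (pv w a k).erase (a k) = (pv w (a ∘ π) l).erase ((a ∘ π) l) :=
    congrArg Prod.fst hk
  have haπ : Function.Injective (a ∘ π) := ha.comp π.injective
  have hkl : k = π l := ha e2
  rw [← e2] at e1
  have n1 := notMem_seg ha k
  have n2 := notMem_seg haπ l
  rw [← e2] at n2
  -- the two initial segments have the same set of directions
  have hseg : (univ.filter (fun r : Fin d => r.val < k.val)).image a
      = (univ.filter (fun r : Fin d => r.val < l.val)).image (a ∘ π) := by
    ext x
    by_cases hx : x = a k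
    · rw [hx]
      exact ⟨fun h => absurd h n1, fun h => absurd h n2⟩
    · have h3 : x ∈ (pv w a k).erase (a k) ↔ x ∈ (pv w (a ∘ π) l).erase (a k) := by rw [e1]
      rw [mem_erase, mem_erase] at h3
      unfold pv at h3
      rw [mem_symmDiff, mem_symmDiff] at h3
      tauto
  have hcard := congrArg Finset.card hseg
  rw [card_image_of_injective _ ha, card_image_of_injective _ haπ] at hcard
  have hc : ∀ m : Fin d, (univ.filter (fun r : Fin d => r.val < m.val)).card = m.val := by
    intro m
    have : univ.filter (fun r : Fin d => r.val < m.val) = Iio m := by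
      ext r
      rw [mem_filter, mem_Iio, Fin.lt_def]
      exact ⟨fun h => h.2, fun h => ⟨mem_univ _, h⟩⟩
    rw [this, Fin.card_Iio]
  rw [hc, hc] at hcard
  have hkl' : k = l := Fin.ext hcard
  have hfix : ∀ r : Fin d, r.val < l.val → (π r).val < l.val := by
    intro r hr
    have h4 : (a ∘ π) r ∈ (univ.filter (fun r : Fin d => r.val < l.val)).image (a ∘ π) :=
      mem_image.2 ⟨r, mem_filter.2 ⟨mem_univ _, hr⟩, rfl⟩
    rw [← hseg, mem_image] at h4
    obtain ⟨s, hs, h5⟩ := h4
    have h6 : s = π r := ha h5
    rw [← h6, ← hkl']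
    exact (mem_filter.1 hs).2
  have hl0 : l.val = 0 := by
    by_contra hne
    exact hπ l.val (Nat.pos_of_ne_zero hne) l.isLt hfix
  apply hπ 1 Nat.one_pos (by omega)
  intro r hr
  have hrl : r = l := Fin.ext (by omega)
  rw [hrl, ← hkl, hkl', hl0]
  exact Nat.one_pos

lemma coord_prob {n p : ℕ} [NeZero p] (x : Ix n) (c : ZMod p) :
    E (fun ψ : Ix n → Lb p => if (ψ x).1 = c then (1 : ℝ) else 0) = 1 / (p : ℝ) := by
  classical
  have hp : (0 : ℝ) < p := by exact_mod_cast Nat.pos_of_ne_zero (NeZero.ne p)
  have h1 := E_coord (κ := Lb p) x (fun b : Lb p => if b.1 = c then (1 : ℝ) else 0)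
  refine (h1.trans ?_)
  have h2 : ∑ b : Lb p, (if b.1 = c then (1 : ℝ) else 0) = 2 := by
    rw [Fintype.sum_prod_type]
    have h3 : ∀ x : ZMod p, (∑ _b : ZMod 2, if x = c then (1 : ℝ) else 0)
        = if x = c then 2 else 0 := by
      intro x
      rw [sum_const, card_univ, ZMod.card, nsmul_eq_mul]
      split_ifs <;> norm_num
    rw [sum_congr rfl (fun x _ => h3 x), sum_ite_eq' univ c, if_pos (mem_univ _)]
  rw [h2, Fintype.card_prod, ZMod.card, ZMod.card]
  push_cast
  field_simp

/-- The probability of a double path. -/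
theorem prob_DPo {n p : ℕ} [NeZero p] (d : ℕ) (hd : 2 ≤ d) (w : Finset (Fin n))
    (a : Fin d → Fin n) (π : Equiv.Perm (Fin d)) (ha : Function.Injective a) (hπ : conn π)
    (i j : ZMod p) :
    P (fun ψ : Ix n → Lb p => DPo ψ w a π i j) ≤ (1 / (p : ℝ)) ^ (2 * d) := by
  classical
  have hdis := pes_disjoint hd w ha hπ
  have haπ : Function.Injective (a ∘ π) := ha.comp π.injective
  have key : P (fun ψ : Ix n → Lb p => DPo ψ w a π i j)
      = E (fun ψ : Ix n → Lb p => ∏ x ∈ pes w a ∪ pes w (a ∘ π),
        (if (ψ x).1 = (if x ∈ pes w a then i else j) then (1 : ℝ) else 0)) := by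
    unfold P
    refine E_congr (fun ψ => ?_)
    rw [prod_ite_zero]
    have h1 : (DPo ψ w a π i j) ↔ (∀ x ∈ pes w a ∪ pes w (a ∘ π),
        (ψ x).1 = (if x ∈ pes w a then i else j)) := by
      unfold DPo
      constructor
      · rintro ⟨h1, h2⟩ x hx
        by_cases hxa : x ∈ pes w a
        · rw [if_pos hxa]; exact h1 x hxa
        · rw [if_neg hxa]
          rcases mem_union.1 hx with h | h
          · exact absurd h hxa
          · exact h2 x h
      · intro h
        refine ⟨fun x hx => ?_, fun x hx => ?_⟩
        · have := h x (mem_union_left _ hx)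
          rwa [if_pos hx] at this
        · have := h x (mem_union_right _ hx)
          rwa [if_neg (fun h' => disjoint_left.1 hdis h' hx)] at this
    by_cases hh : DPo ψ w a π i j
    · rw [if_pos hh, if_pos (h1.1 hh), prod_const_one]
    · rw [if_neg hh, if_neg (fun h' => hh (h1.2 h'))]
  have key2 := E_prod (V := Ix n) (κ := Lb p) (pes w a ∪ pes w (a ∘ π)) (fun x => {x})
    (fun b _ c _ hbc => by rw [disjoint_singleton]; exact hbc)
    (fun x ψ => if (ψ x).1 = (if x ∈ pes w a then i else j) then (1 : ℝ) else 0)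
    (fun b _ φ ψ h => by
      have := h b (mem_singleton_self b)
      simp only [this])
  rw [key, key2]
  rw [prod_congr rfl (fun x _ => coord_prob x (if x ∈ pes w a then i else j)), prod_const,
    card_union_of_disjoint hdis, card_pes w ha, card_pes w haπ, two_mul]

end Pool.Agent.SK.Lin
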