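import Pool.Agent.Lib.MP_5fcc10_co_lin.Model

/-! Double paths: two internally disjoint paths between two vertices at distance `d ≥ 3`, one with
all edges of colour `i`, the other with all edges of colour `j`. -/

set_option linter.unusedSectionVars false

namespace Pool.Agent.SK.Lin

open Finset
open scoped symmDiff

variable {n p : ℕ}

/-- the vertex reached from `Z` after `l` steps in the directions `a 0, a 1, ...` -/
def pv (Z : Finset (Fin n)) {d : ℕ} (a : Fin d → Fin n) (l : ℕ) : Finset (Fin n) :=
  Z ∆ (univ.filter (fun r : Fin d => r.val < l)).image a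

/-- the `l`-th edge of that path -/
def pe (Z : Finset (Fin n)) {d : ℕ} (a : Fin d → Fin n) (l : Fin d) : Ix n :=
  ed (pv Z a l) (a l)

/-- the edges of the path -/
def pes (Z : Finset (Fin n)) {d : ℕ} (a : Fin d → Fin n) : Finset (Ix n) := univ.image (pe Z a)

/-- no proper initial segment is mapped into itself: the two paths are internally disjoint -/
def conn {d : ℕ} (π : Equiv.Perm (Fin d)) : Prop :=
  ∀ l : ℕ, 0 < l → l < d → ¬ ∀ r : Fin d, r.val < l → (π r).val < l

/-- the double path at `w` with directions `a` (and `a ∘ π` for the second path) occurs -/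
def DPo (ψ : Ix n → Lb p) (w : Finset (Fin n)) {d : ℕ} (a : Fin d → Fin n)
    (π : Equiv.Perm (Fin d)) (i j : ZMod p) : Prop :=
  (∀ x ∈ pes w a, (ψ x).1 = i) ∧ ∀ x ∈ pes w (a ∘ π), (ψ x).1 = j

/-- codes of a path of length at most `m` followed by a double path of length at most `d0` -/
abbrev Str (n p m d0 : ℕ) :=
  (Σ l : Fin (m + 1), (Fin l.val → Fin n)) ×
    (Σ d : Fin (d0 + 1), (Fin d.val → Fin n) × Equiv.Perm (Fin d.val)) × ZMod p

namespace Str

variable {m d0 : ℕ}

/-- the end of the path -/
def w (v : Finset (Fin n)) (x : Str n p m d0) : Finset (Fin n) := pv v x.1.2 x.1.1.val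

/-- the edges of the path -/
def SA (v : Finset (Fin n)) (x : Str n p m d0) : Finset (Ix n) := pes v x.1.2

/-- the edges of the first path of the double path -/
def SP (v : Finset (Fin n)) (x : Str n p m d0) : Finset (Ix n) := pes (w v x) x.2.1.2.1

/-- the edges of the second path of the double path -/
def SQ (v : Finset (Fin n)) (x : Str n p m d0) : Finset (Ix n) :=
  pes (w v x) (x.2.1.2.1 ∘ x.2.1.2.2)

/-- all edges -/
def S (v : Finset (Fin n)) (x : Str n p m d0) : Finset (Ix n) := SA v x ∪ (SP v x ∪ SQ v x)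

/-- validity of a code -/
def ok (x : Str n p m d0) : Prop :=
  Function.Injective x.1.2 ∧ 3 ≤ x.2.1.1.val ∧ Function.Injective x.2.1.2.1 ∧ conn x.2.1.2.2

/-- the structure occurs: the path and the first path have colour `i`, the second path has the
colour of the code -/
def occ (ψ : Ix n → Lb p) (v : Finset (Fin n)) (i : ZMod p) (x : Str n p m d0) : Prop :=
  (∀ y ∈ SA v x, (ψ y).1 = i) ∧ (∀ y ∈ SP v x, (ψ y).1 = i) ∧ ∀ y ∈ SQ v x, (ψ y).1 = x.2.2

/-- the structure is compatible with the labels `ψ` on the coordinates of `U` -/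
def okU (ψ : Ix n → Lb p) (U : Finset (Ix n)) (v : Finset (Fin n)) (i : ZMod p)
    (x : Str n p m d0) : Prop :=
  (∀ y ∈ SA v x, y ∈ U → (ψ y).1 = i) ∧ (∀ y ∈ SP v x, y ∈ U → (ψ y).1 = i) ∧
    ∀ y ∈ SQ v x, y ∈ U → (ψ y).1 = x.2.2

end Str

end Pool.Agent.SK.Lin
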