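import Pool.Agent.Lib.MP_5fcc10_co_lin.SmH
import Pool.Agent.Lib.MP_5fcc10_co.GosJ

/-! The degrees of a class. -/

set_option linter.unusedSectionVars false

namespace Pool.Agent.SK.Lin

open Finset
open scoped symmDiff

variable {n p : ℕ} [NeZero p] {t : ℕ}

lemma card_Lb : (Fintype.card (Lb p) : ℝ) = 2 * p := by
  rw [Fintype.card_prod, ZMod.card, ZMod.card]
  push_cast; ring

lemma sum_fst (c : ZMod p) : ∑ b : Lb p, (if b.1 = c then (1:ℝ) else 0) = 2 := by
  rw [Fintype.sum_prod_type_right]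
  have h1 : ∀ y : ZMod 2, ∑ x : ZMod p, (if ((x, y) : Lb p).1 = c then (1:ℝ) else 0) = 1 := by
    intro y
    simp only
    rw [sum_ite_eq' univ c, if_pos (mem_univ _)]
  rw [sum_congr rfl (fun y _ => h1 y), sum_const, card_univ, ZMod.card, nsmul_eq_mul]
  norm_num

lemma sum_snd (c : ZMod 2) : ∑ b : Lb p, (if b.2 = c then (1:ℝ) else 0) = p := by
  rw [Fintype.sum_prod_type]
  simp only [sum_ite_eq', mem_univ, if_true]
  rw [sum_const, card_univ, ZMod.card, nsmul_eq_mul, mul_one]

lemma mix_erase_self {V κ : Type*} [Fintype V] [DecidableEq V] (v : V) (φ ψ : V → κ) :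
    mix (univ.erase v) φ ψ v = ψ v := mix_out (by simp)

lemma mix_erase_ne {V κ : Type*} [Fintype V] [DecidableEq V] {v w : V} (h : w ≠ v) (φ ψ : V → κ) :
    mix (univ.erase v) φ ψ w = φ w := mix_in (by simp [h])

/-- the average of the indicator of a class when the label of the base point is frozen -/
lemma E_opn_mix (cl : Lb p) (v : Finset (Fin n)) (e : Fin n) (ψ : Ix n → Lb p) :
    E (fun φ : Ix n → Lb p => opn cl (mix (univ.erase (v, none)) φ ψ) v e) = 1 / (2 * p) := by
  classical
  have hne1 : ((tg v e, none) : Ix n) ≠ (v, none) := by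
    intro h
    have h1 : tg v e = v := congrArg Prod.fst h
    have : e ∈ tg v e ↔ e ∈ v := by rw [h1]
    rw [mem_tg] at this
    tauto
  have hne2 : ed v e ≠ (v, none) := by
    intro h
    have := congrArg Prod.snd h
    simp [ed] at this
  have h0 : ∀ φ : Ix n → Lb p, opn cl (mix (univ.erase (v, none)) φ ψ) v e
      = (if (φ (ed v e)).1 = cl.1 then (1:ℝ) else 0)
        * (if (φ (tg v e, none)).2 = cl.2 + (pos v e + bt ψ v) then (1:ℝ) else 0) := by
    intro φ
    have two : ∀ a b x : ZMod 2, (a + b + x = cl.2 ↔ x = cl.2 + (a + b)) := by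
      have h2 : ∀ c a b x : ZMod 2, (a + b + x = c ↔ x = c + (a + b)) := by decide
      exact h2 cl.2
    have hiff : opP cl (mix (univ.erase (v, none)) φ ψ) v e ↔
        (φ (ed v e)).1 = cl.1 ∧ (φ (tg v e, none)).2 = cl.2 + (pos v e + bt ψ v) := by
      unfold opP col ty bt
      rw [mix_erase_ne hne1, mix_erase_ne hne2, mix_erase_self, two]
    by_cases h : opP cl (mix (univ.erase (v, none)) φ ψ) v e
    · rw [opn_one h, if_pos (hiff.1 h).1, if_pos (hiff.1 h).2, mul_one]
    · rw [opn_zero h]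
      rw [hiff, not_and_or] at h
      rcases h with h | h
      · rw [if_neg h, zero_mul]
      · rw [if_neg h, mul_zero]
  rw [E_congr h0]
  rw [E_mul (S := {ed v e}) (T := {(tg v e, none)})
    (f := fun φ : Ix n → Lb p => (if (φ (ed v e)).1 = cl.1 then (1:ℝ) else 0))
    (h := fun φ : Ix n → Lb p =>
      (if (φ (tg v e, none)).2 = cl.2 + (pos v e + bt ψ v) then (1:ℝ) else 0))]
  · rw [E_coord (ed v e) (fun b : Lb p => if b.1 = cl.1 then (1:ℝ) else 0),
      E_coord ((tg v e, none) : Ix n)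
        (fun b : Lb p => if b.2 = cl.2 + (pos v e + bt ψ v) then (1:ℝ) else 0),
      sum_fst, sum_snd, card_Lb]
    have : (p:ℝ) ≠ 0 := by exact_mod_cast NeZero.ne p
    field_simp
  · intro φ φ' h
    simp only [h (ed v e) (mem_singleton_self _)]
  · intro φ φ' h
    simp only [h (tg v e, none) (mem_singleton_self _)]
  · rw [disjoint_singleton]
    intro h
    have := congrArg Prod.snd h
    simp [ed] at this

theorem dg_tail (cl : Lb p) (v : Finset (Fin n)) (d : ℝ)
    (hd : d = ((nb t v).card : ℝ) / (2 * p)) (hd0 : 0 < d) (x : ℝ) (hx : 0 ≤ x) (hx1 : x ≤ 1) :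
    P (fun ψ : Ix n → Lb p => x * d < |dg t (opn cl ψ) v - d|)
      ≤ 2 * Real.exp (-(x ^ 2 * d / 4)) := by
  classical
  have hp0 : (0:ℝ) < p := by exact_mod_cast Nat.pos_of_ne_zero (NeZero.ne p)
  have hp1 : (1:ℝ) ≤ p := by exact_mod_cast Nat.pos_of_ne_zero (NeZero.ne p)
  have hδ0 : (0:ℝ) < 1 / (2 * p) := by positivity
  have hδ1 : 1 / (2 * (p:ℝ)) ≤ 1 := by rw [div_le_one (by positivity)]; linarith
  have htb := tail_bound (V := Ix n) (κ := Lb p) (univ.erase (v, none)) (nb t v)
    (fun e => {(tg v e, none), ed v e}) ?_ (fun e ψ => opn cl ψ v e - 1 / (2 * p)) ?_ 1 ?_ ?_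
    (fun _ _ => 1 / (2 * p)) ?_ d hd0 ?_ (x * d) (by positivity) (by nlinarith)
  · have h1 : ∀ ψ : Ix n → Lb p, ∑ e ∈ nb t v, (opn cl ψ v e - 1 / (2 * p))
        = dg t (opn cl ψ) v - d := by
      intro ψ
      rw [sum_sub_distrib, sum_const, nsmul_eq_mul, hd]
      unfold dg
      ring
    simp only [h1] at htb
    refine htb.trans (le_of_eq ?_)
    congr 3
    field_simp
  · intro e _ f _ hef
    rw [Finset.disjoint_left]
    intro a ha hb
    simp only [mem_insert, mem_singleton] at ha hb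
    have htg : tg v e ≠ tg v f := by
      intro h
      apply hef
      by_contra hne
      have h1 : e ∈ tg v e ↔ e ∈ tg v f := by rw [h]
      rw [mem_tg, mem_tg] at h1
      tauto
    rcases ha with ha | ha <;> rcases hb with hb | hb
    · exact htg (congrArg Prod.fst (ha.symm.trans hb))
    · have := congrArg Prod.snd (ha.symm.trans hb)
      simp [ed] at this
    · have := congrArg Prod.snd (hb.symm.trans ha)
      simp [ed] at this
    · have := congrArg Prod.snd (ha.symm.trans hb)
      simp [ed] at this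
      exact hef this
  · intro e _ ψ φ φ' h
    simp only
    congr 1
    have hne1 : ((tg v e, none) : Ix n) ≠ (v, none) := by
      intro h
      have h1 : tg v e = v := congrArg Prod.fst h
      have : e ∈ tg v e ↔ e ∈ v := by rw [h1]
      rw [mem_tg] at this
      tauto
    have hne2 : ed v e ≠ (v, none) := by
      intro h
      have := congrArg Prod.snd h
      simp [ed] at this
    apply opn_congr
    · rw [mix_erase_self, mix_erase_self]
    · rw [mix_erase_ne hne1, mix_erase_ne hne1]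
      exact h _ (by simp)
    · rw [mix_erase_ne hne2, mix_erase_ne hne2]
      exact h _ (by simp)
  · intro e _ ψ
    have h0 := (opn cl ψ).h0 v e
    have h1 := (opn cl ψ).h1 v e
    rw [abs_le]
    constructor <;> linarith
  · intro e _ ψ
    rw [E_sub (fun φ => opn cl (mix (univ.erase (v, none)) φ ψ) v e), E_opn_mix, E_const, sub_self]
  · intro e _ ψ
    have h1 : ∀ φ : Ix n → Lb p, (opn cl (mix (univ.erase (v, none)) φ ψ) v e - 1 / (2 * p)) ^ 2
        = (1 - 2 * (1 / (2 * p))) * opn cl (mix (univ.erase (v, none)) φ ψ) v e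
          + (1 / (2 * p)) ^ 2 := by
      intro φ
      by_cases h : opP cl (mix (univ.erase (v, none)) φ ψ) v e
      · rw [opn_one h]; ring
      · rw [opn_zero h]; ring
    rw [E_congr h1, E_add (fun φ => (1 - 2 * (1 / (2 * (p:ℝ)))) *
      opn cl (mix (univ.erase (v, none)) φ ψ) v e), E_mul_left, E_opn_mix, E_const]
    nlinarith
  · intro ψ
    rw [sum_const, nsmul_eq_mul, hd]
    apply le_of_eq; ring

lemma card_nb_low {v : Finset (Fin n)} (hv : v.card = t) : (nb t v).card = n - t := by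
  rw [nb_low hv, card_compl, Fintype.card_fin, hv]

lemma card_nb_high {v : Finset (Fin n)} (hv : v.card = t + 1) : (nb t v).card = t + 1 := by
  rw [nb_high hv, hv]

lemma env_lin {g : ℕ} {β : ℝ} (cl : Lb p) (δ : ℝ)
    (hδ : δ = 1 / (2 * (p : ℝ))) (hβ : 4 ≤ β) (htn : t < n) (hn : (n:ℝ) + 1 ≤ β ^ g)
    (hn4 : β ^ 4 ≤ n) (h1 : β ^ 4 ≤ δ * ((n - t : ℕ) : ℝ)) (h2 : β ^ 4 ≤ δ * ((t + 1 : ℕ) : ℝ))
    (h3 : δ * ((n - t : ℕ) : ℝ) ≤ 4 * β ^ 4) (h4 : δ * ((t + 1 : ℕ) : ℝ) ≤ 4 * β ^ 4) :
    Env g β n t p cl (Dn n t δ) := by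
  have hβp : 0 < β := by linarith
  have hβ4 : 0 < β ^ 4 := by positivity
  refine ⟨by linarith, by omega, hn, hn4, ?_, ?_, ?_⟩
  · intro c; unfold Dn; split_ifs <;> assumption
  · intro c; unfold Dn; split_ifs <;> assumption
  · intro v hv
    have hexp : ∀ X : ℝ, β ^ 4 ≤ X → 2 * Real.exp (-((1/β) ^ 2 * X / 4)) ≤ 2 * Real.exp (-β) := by
      intro X hX
      apply mul_le_mul_of_nonneg_left _ (by norm_num)
      apply Real.exp_le_exp.2
      apply neg_le_neg
      rw [le_div_iff₀ (by norm_num), div_pow, one_pow, one_div, inv_mul_eq_div,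
        le_div_iff₀ (by positivity)]
      refine le_trans ?_ hX
      have : β * 4 * β ^ 2 = 4 * β ^ 3 := by ring
      rw [this]
      have : β ^ 4 = β * β ^ 3 := by ring
      rw [this]
      exact mul_le_mul_of_nonneg_right hβ (by positivity)
    have hmain : Dn n t δ v.card = ((nb t v).card : ℝ) / (2 * p) ∧ β ^ 4 ≤ Dn n t δ v.card := by
      rcases hv with hv | hv
      · rw [hv, Dn_low, card_nb_low hv]
        refine ⟨?_, h1⟩
        rw [hδ]; ring
      · rw [hv, Dn_high, card_nb_high hv]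
        refine ⟨?_, h2⟩
        rw [hδ]; ring
    obtain ⟨m1, m2⟩ := hmain
    have hpos : 0 < Dn n t δ v.card := lt_of_lt_of_le hβ4 m2
    have htail := dg_tail (t := t) cl v (Dn n t δ v.card) m1 hpos (1/β) (by positivity) (by
      rw [div_le_one hβp]; linarith)
    refine le_trans (P_mono (fun ψ hψ => ?_)) (htail.trans (hexp _ m2))
    have e2 : dg t (opn cl ψ) v / Dn n t δ v.card - 1
        = (dg t (opn cl ψ) v - Dn n t δ v.card) / Dn n t δ v.card := by
      rw [sub_div, div_self hpos.ne']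
    rw [e2, abs_div, abs_of_pos hpos, lt_div_iff₀ hpos] at hψ
    exact hψ

end Pool.Agent.SK.Lin
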