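import Pool.Agent.Lib.MP_5fcc10_co_lin.DPDefs

/-! Deleted edges. -/

set_option linter.unusedSectionVars false

namespace Pool.Agent.SK.Lin

open Finset
open scoped symmDiff

/-- the edge `(w, e)` is the first edge of the first path (of colour `i`) of a short double
path -/
def Del {n p : ℕ} (d0 : ℕ) (ψ : Ix n → Lb p) (i : ZMod p) (w : Finset (Fin n)) (e : Fin n) :
    Prop :=
  ∃ (d : ℕ) (a : Fin d → Fin n) (π : Equiv.Perm (Fin d)) (j : ZMod p) (h : 0 < d),
    3 ≤ d ∧ d ≤ d0 ∧ Function.Injective a ∧ conn π ∧ DPo ψ w a π i j ∧ a ⟨0, h⟩ = e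

end Pool.Agent.SK.Lin
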