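import Pool.Agent.Lib.MP_5fcc10_co_lin_h26.CLS
import Pool.Agent.Lib.MP_5fcc10_co_lin_h49.SEP
import Pool.Agent.Lib.MP_5fcc10_co_lin_h68.KD
import Pool.Agent.Lib.MP_5fcc10_co_lin_h16.FEW
import Pool.Agent.Lib.MP_5fcc10_co_lin_h87.GOOD
import Pool.Agent.Lib.MP_5fcc10_co_lin.DP3
import Pool.Agent.Lib.MP_5fcc10_co.GosI

/-! Step functions of a class at a stage. -/

set_option linter.unusedSectionVars false

namespace Pool.Agent.SK.Lin

open Finset
open scoped symmDiff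

variable {n t : ℕ}

/-- the weight of a pair -/
noncomputable def wp (f : Finset (Fin n) → Fin n → ℝ) (x y : Finset (Fin n)) : ℝ :=
  ∑ e ∈ x ∆ y, f x e

lemma symmDiff_tg (x : Finset (Fin n)) (e : Fin n) : x ∆ tg x e = {e} := by
  unfold tg
  rw [← symmDiff_assoc, symmDiff_self, bot_symmDiff]

lemma wp_tg (f : Finset (Fin n) → Fin n → ℝ) (x : Finset (Fin n)) (e : Fin n) :
    wp f x (tg x e) = f x e := by
  unfold wp
  rw [symmDiff_tg, sum_singleton]

lemma tg_of_up {x y : Finset (Fin n)} (hx : x.card = t) (h : y ∈ up x) :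
    ∃ e ∈ nb t x, y = tg x e := by
  rw [up_eq, mem_image] at h
  obtain ⟨e, he, rfl⟩ := h
  exact ⟨e, by rw [nb_low hx]; exact he, (tg_of_notMem (mem_compl.1 he)).symm⟩

lemma tg_of_dn {x y : Finset (Fin n)} (hy : y.card = t + 1) (h : x ∈ dn y) :
    ∃ e ∈ nb t y, x = tg y e := by
  rw [dn_eq, mem_image] at h
  obtain ⟨e, he, rfl⟩ := h
  exact ⟨e, by rw [nb_high hy]; exact he, (tg_of_mem he).symm⟩

/-- `D` disjoint step injections along edges satisfying `Q`, with private lists -/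
def Many (n t D M c0 : ℕ) (Q : Finset (Fin n) → Fin n → Prop) (F : Finset (Finset (Fin n)))
    (S : Finset (Fin n) → Finset (Finset (Fin n))) : Prop :=
  ∃ (f : Fin D → Finset (Fin n) → Finset (Fin n))
    (g : Fin D → Finset (Fin n) → Fin M → Finset (Fin n)),
    (∀ j, ∀ x : Finset (Fin n), x.card = c0 → ∃ e ∈ nb t x, f j x = tg x e ∧ Q x e) ∧
    (∀ j, ∀ x x' : Finset (Fin n), x.card = c0 → x'.card = c0 → f j x = f j x' → x = x') ∧
    (∀ j, ∀ v ∈ F, ∀ r, g j v r ∈ S v) ∧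
    (∀ j, ∀ v ∈ F, ∀ v' ∈ F, ∀ r r', g j v r = g j v' r' → v = v' ∧ r = r') ∧
    (∀ j, ∀ x : Finset (Fin n), x.card = c0 → ∀ v ∈ F, ∀ r, f j x ≠ g j v r) ∧
    (∀ j j', ∀ x : Finset (Fin n), x.card = c0 → f j x = f j' x → j = j')

lemma many_low (f : Finset (Fin n) → Fin n → ℝ) (hsymm : ∀ v e, e ∈ nb t v → f (tg v e) e = f v e)
    (h01 : ∀ v e, inL t v → e ∈ nb t v → 0 ≤ f v e ∧ f v e ≤ 1) (D : ℕ)
    (hrow : ∀ v : Finset (Fin n), v.card = t → ∑ e ∈ nb t v, f v e = D) (load : ℝ)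
    (hcol : ∀ v : Finset (Fin n), v.card = t + 1 → ∑ e ∈ nb t v, f v e ≤ D * (1 - load))
    (F : Finset (Finset (Fin n))) (S : Finset (Fin n) → Finset (Finset (Fin n)))
    (hS : ∀ v ∈ F, S v ⊆ (lev n t).Y) (hSD : ∀ v ∈ F, 1 ≤ (S v).card ∧ D ≤ (S v).card) (M : ℕ)
    (hload : ∀ y ∈ (lev n t).Y,
      (M : ℝ) * ∑ v ∈ F.filter (fun v => y ∈ S v), 1 / ((S v).card : ℝ) ≤ load) :
    Many n t D M t (fun x e => f x e ≠ 0) F S := by
  have hG := step_many (lev n t) D (wp f) ?_ ?_ load ?_ F S hS hSD M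
    (by intro y hy; convert hload y hy)
  · obtain ⟨F', G', h1, h2, h3, h4, h5, h6⟩ := hG
    refine ⟨F', G', ?_, ?_, h3, h4, ?_, ?_⟩
    · intro j x hx
      obtain ⟨a1, a2⟩ := h1 j x (lev_X.2 hx)
      obtain ⟨e, he, hxe⟩ := tg_of_up hx a1
      refine ⟨e, he, hxe, ?_⟩
      rw [hxe, wp_tg] at a2
      exact a2
    · exact fun j x x' hx hx' h => h2 j x (lev_X.2 hx) x' (lev_X.2 hx') h
    · exact fun j x hx v hv r => h5 j x (lev_X.2 hx) v hv r
    · exact fun j j' x hx h => h6 j j' x (lev_X.2 hx) h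
  · intro x hx y hy
    have hxc := lev_X.1 hx
    obtain ⟨e, he, rfl⟩ := tg_of_up hxc hy
    rw [wp_tg]
    exact h01 x e (Or.inl hxc) he
  · intro x hx
    have hxc := lev_X.1 hx
    change ∑ y ∈ up x, wp f x y = _
    rw [← sum_nb_up hxc (fun y => wp f x y), ← hrow x hxc]
    exact sum_congr rfl (fun e _ => wp_tg f x e)
  · intro y hy
    have hyc := lev_Y.1 hy
    change ∑ x ∈ dn y, wp f x y ≤ _
    rw [← sum_nb_dn hyc (fun x => wp f x y)]
    refine le_trans (le_of_eq ?_) (hcol y hyc)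
    refine sum_congr rfl (fun e he => ?_)
    have : wp f (tg y e) y = f (tg y e) e := by
      have h := wp_tg f (tg y e) e
      rwa [tg_tg] at h
    rw [this, hsymm y e he]

lemma many_high (f : Finset (Fin n) → Fin n → ℝ) (hsymm : ∀ v e, e ∈ nb t v → f (tg v e) e = f v e)
    (h01 : ∀ v e, inL t v → e ∈ nb t v → 0 ≤ f v e ∧ f v e ≤ 1) (D : ℕ)
    (hrow : ∀ v : Finset (Fin n), v.card = t + 1 → ∑ e ∈ nb t v, f v e = D) (load : ℝ)
    (hcol : ∀ v : Finset (Fin n), v.card = t → ∑ e ∈ nb t v, f v e ≤ D * (1 - load))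
    (F : Finset (Finset (Fin n))) (S : Finset (Fin n) → Finset (Finset (Fin n)))
    (hS : ∀ v ∈ F, S v ⊆ (lev n t).X) (hSD : ∀ v ∈ F, 1 ≤ (S v).card ∧ D ≤ (S v).card) (M : ℕ)
    (hload : ∀ y ∈ (lev n t).X,
      (M : ℝ) * ∑ v ∈ F.filter (fun v => y ∈ S v), 1 / ((S v).card : ℝ) ≤ load) :
    Many n t D M (t + 1) (fun x e => f x e ≠ 0) F S := by
  have hG := step_many (lev n t).swap D (wp f) ?_ ?_ load ?_ F S
    hS hSD M (by intro y hy; convert hload y hy)
  · obtain ⟨F', G', h1, h2, h3, h4, h5, h6⟩ := hG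
    refine ⟨F', G', ?_, ?_, h3, h4, ?_, ?_⟩
    · intro j x hx
      obtain ⟨a1, a2⟩ := h1 j x (lev_Y.2 hx)
      obtain ⟨e, he, hxe⟩ := tg_of_dn hx a1
      refine ⟨e, he, hxe, ?_⟩
      rw [hxe, wp_tg] at a2
      exact a2
    · exact fun j x x' hx hx' h => h2 j x (lev_Y.2 hx) x' (lev_Y.2 hx') h
    · exact fun j x hx v hv r => h5 j x (lev_Y.2 hx) v hv r
    · exact fun j j' x hx h => h6 j j' x (lev_Y.2 hx) h
  · intro x hx y hy
    have hxc : x.card = t + 1 := lev_Y.1 hx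
    obtain ⟨e, he, rfl⟩ := tg_of_dn hxc hy
    rw [wp_tg]
    exact h01 x e (Or.inr hxc) he
  · intro x hx
    have hxc : x.card = t + 1 := lev_Y.1 hx
    change ∑ y ∈ dn x, wp f x y = _
    rw [← sum_nb_dn hxc (fun y => wp f x y), ← hrow x hxc]
    exact sum_congr rfl (fun e _ => wp_tg f x e)
  · intro y hy
    have hyc : y.card = t := lev_X.1 hy
    change ∑ x ∈ up y, wp f x y ≤ _
    rw [← sum_nb_up hyc (fun x => wp f x y)]
    refine le_trans (le_of_eq ?_) (hcol y hyc)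
    refine sum_congr rfl (fun e he => ?_)
    have : wp f (tg y e) y = f (tg y e) e := by
      have h := wp_tg f (tg y e) e
      rwa [tg_tg] at h
    rw [this, hsymm y e he]

/-- the relation of one of the step functions -/
def RR {n N : ℕ} (k lo hi : ℕ) (fL fH : Fin N → ℕ → Finset (Fin n) → Finset (Fin n)) (i : Fin N)
    (t : ℕ) (x y : Finset (Fin n)) : Prop :=
  lo ≤ t ∧ t < hi ∧ ((t < k ∧ x.card = t ∧ y = fL i t x) ∨
    (k ≤ t ∧ y.card = t + 1 ∧ x = fH i t y))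

/-- assembly of the even case -/
theorem even_asm {k J p D M d0 : ℕ} (ψ : Ix (2 * k) → Lb p) (hJ1 : 1 ≤ J) (hJk : J < k)
    {N : ℕ} (cls : Fin N ≃ Lb p × Fin D)
    (hlow : ∀ (cl : Lb p) (t : ℕ), k - J ≤ t → t < k → Many (2 * k) t D M t
      (fun x e => opP cl ψ x e ∧ ¬ Del d0 ψ cl.1 x e)
      (if t + 1 = k then farlow (2 * k) (k - J) else ∅) (above k))
    (hhigh : ∀ (cl : Lb p) (t : ℕ), k ≤ t → t < k + J → Many (2 * k) t D M (t + 1)
      (fun x e => opP cl ψ x e ∧ ¬ Del d0 ψ cl.1 x e)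
      (if t = k then farhigh (2 * k) (k + J) else ∅) (below k))
    (hlong : ∀ d, d0 < d → d ≤ 2 * J → ∀ (Z : Finset (Fin (2 * k))) (a : Fin d → Fin (2 * k))
      (π : Equiv.Perm (Fin d)) (i j : ZMod p), Function.Injective a → conn π →
      ¬ DPo ψ Z a π i j)
    (hM : N * (2 * k + 1) < M) :
    ∃ c : Fin N → Finset (Fin (2 * k)) → Finset (Fin (2 * k)), (∀ i x, (c i x).card = k) ∧
      (∀ i x y, c i x = c i y → x ⊆ y ∨ y ⊆ x) ∧
      (∀ i j, i ≠ j → ∀ x y, x ≠ y → c i x = c i y → c j x ≠ c j y) := by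
  classical
  unfold Many at hlow hhigh
  choose! fL gL l1 l2 l3 l4 l5 l6 using hlow
  choose! fH gH h1 h2 h3 h4 h5 h6 using hhigh
  set FL : Fin N → ℕ → Finset (Fin (2 * k)) → Finset (Fin (2 * k)) :=
    fun i t => fL (cls i).1 t (cls i).2 with hFL
  set FH : Fin N → ℕ → Finset (Fin (2 * k)) → Finset (Fin (2 * k)) :=
    fun i t => fH (cls i).1 t (cls i).2 with hFH
  set R := RR (n := 2 * k) k (k - J) (k + J) FL FH with hRdef
  obtain ⟨SD⟩ := stepdata_of_ok (n := 2 * k) (m := N) (a := k) (b := k) (lo := k - J) (hi := k + J)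
    (M := M) (κ := Finset (Fin (2 * k))) R id le_rfl (by omega) (by omega)
    (by
      intro i t ht1 ht2
      refine ⟨FL i t, gL (cls i).1 t (cls i).2, ?_, ?_, ?_, ?_, ?_⟩
      · intro x hx
        have hxc := lev_X.1 hx
        obtain ⟨e, he, hxe, _⟩ := l1 (cls i).1 t ht1 ht2 (cls i).2 x hxc
        refine ⟨?_, ht1, by omega, Or.inl ⟨ht2, hxc, rfl⟩⟩
        change fL (cls i).1 t (cls i).2 x ∈ up x
        rw [hxe, up_eq, mem_image]
        rw [nb_low hxc] at he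
        exact ⟨e, he, (tg_of_notMem (mem_compl.1 he)).symm⟩
      · intro x hx x' hx' h
        exact l2 (cls i).1 t ht1 ht2 (cls i).2 x x' (lev_X.1 hx) (lev_X.1 hx') h
      · exact l3 (cls i).1 t ht1 ht2 (cls i).2
      · exact l4 (cls i).1 t ht1 ht2 (cls i).2
      · exact fun x hx v hv r => l5 (cls i).1 t ht1 ht2 (cls i).2 x (lev_X.1 hx) v hv r)
    (by
      intro i t ht1 ht2
      refine ⟨FH i t, gH (cls i).1 t (cls i).2, ?_, ?_, ?_, ?_, ?_⟩
      · intro x hx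
        have hxc : x.card = t + 1 := lev_Y.1 hx
        obtain ⟨e, he, hxe, _⟩ := h1 (cls i).1 t ht1 ht2 (cls i).2 x hxc
        refine ⟨?_, by omega, ht2, Or.inr ⟨ht1, hxc, rfl⟩⟩
        change fH (cls i).1 t (cls i).2 x ∈ dn x
        rw [hxe, dn_eq, mem_image]
        rw [nb_high hxc] at he
        exact ⟨e, he, (tg_of_mem he).symm⟩
      · intro x hx x' hx' h
        exact h2 (cls i).1 t ht1 ht2 (cls i).2 x x' (lev_Y.1 hx) (lev_Y.1 hx') h
      · exact h3 (cls i).1 t ht1 ht2 (cls i).2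
      · exact h4 (cls i).1 t ht1 ht2 (cls i).2
      · exact fun x hx v hv r => h5 (cls i).1 t ht1 ht2 (cls i).2 x (lev_Y.1 hx) v hv r)
  refine assembly SD le_rfl (by omega) (by omega) ?_ hM
  intro i j hij s t hs hst ht x y c1 c2
  refine sep (n := 2 * k) k k (k - J) (k + J) d0 (2 * J) (by omega) (by omega) ψ
    (fun i => (cls i).1) R ?_ ?_ hlong i j hij s t hs hst ht x y c1 c2
  · rintro i t x y ⟨ht1, ht2, ⟨ht3, hx, rfl⟩ | ⟨ht3, hy, rfl⟩⟩
    · obtain ⟨e, he, hxe, hop, hdel⟩ := l1 (cls i).1 t ht1 ht3 (cls i).2 x hx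
      rw [nb_low hx, mem_compl] at he
      refine ⟨hx, e, he, ?_, hop, fun _ => hdel, fun h => absurd h (by omega)⟩
      change fL (cls i).1 t (cls i).2 x = _
      rw [hxe, tg_of_notMem he]
    · obtain ⟨e, he, hye, hop, hdel⟩ := h1 (cls i).1 t ht3 ht2 (cls i).2 y hy
      have he2 := he
      rw [nb_high hy] at he
      have hfe : FH i t y = y.erase e := by
        change fH (cls i).1 t (cls i).2 y = _
        rw [hye, tg_of_mem he]
      have hfe2 : FH i t y = tg y e := hye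
      have hc : (FH i t y).card = t := by rw [hfe, card_erase_of_mem he, hy]; rfl
      refine ⟨hc, e, ?_, ?_, ?_, fun h => absurd h (by omega), fun _ => hdel⟩
      · rw [hfe]; simp
      · rw [hfe, insert_erase he]
      · rw [hfe2, opP_symm]; exact hop
  · rintro i j t x y hij ⟨ht1, ht2, ⟨ht3, hx, hy⟩ | ⟨ht3, hy, hx⟩⟩ ⟨_, _, ⟨ht3', hx', hy'⟩ |
      ⟨ht3', hy', hx'⟩⟩
    · obtain ⟨e, he, hxe, hop, _⟩ := l1 (cls i).1 t ht1 ht3 (cls i).2 x hx
      obtain ⟨e', he', hxe', hop', _⟩ := l1 (cls j).1 t ht1 ht3 (cls j).2 x hx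
      have e1 : fL (cls i).1 t (cls i).2 x = fL (cls j).1 t (cls j).2 x := hy.symm.trans hy'
      have e2 : e = e' := by
        have h7 : tg x e = tg x e' := by rw [← hxe, ← hxe', e1]
        have h8 : x ∆ tg x e = x ∆ tg x e' := by rw [h7]
        rw [symmDiff_tg, symmDiff_tg] at h8
        exact singleton_injective h8
      have e3 : (cls i).1 = (cls j).1 := by
        rw [← e2] at hop'
        exact Prod.ext (hop.1.symm.trans hop'.1) (hop.2.symm.trans hop'.2)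
      rw [← e3] at e1
      have e4 := l6 (cls i).1 t ht1 ht3 _ _ x hx e1
      exact hij (cls.injective (Prod.ext e3 e4))
    · omega
    · omega
    · obtain ⟨e, he, hxe, hop, _⟩ := h1 (cls i).1 t ht3 ht2 (cls i).2 y hy
      obtain ⟨e', he', hxe', hop', _⟩ := h1 (cls j).1 t ht3 ht2 (cls j).2 y hy
      have e1 : fH (cls i).1 t (cls i).2 y = fH (cls j).1 t (cls j).2 y := hx.symm.trans hx'
      have e2 : e = e' := by
        have h7 : tg y e = tg y e' := by rw [← hxe, ← hxe', e1]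
        have h8 : y ∆ tg y e = y ∆ tg y e' := by rw [h7]
        rw [symmDiff_tg, symmDiff_tg] at h8
        exact singleton_injective h8
      have e3 : (cls i).1 = (cls j).1 := by
        rw [← e2] at hop'
        exact Prod.ext (hop.1.symm.trans hop'.1) (hop.2.symm.trans hop'.2)
      rw [← e3] at e1
      have e4 := h6 (cls i).1 t ht3 ht2 _ _ y hy e1
      exact hij (cls.injective (Prod.ext e3 e4))

end Pool.Agent.SK.Lin
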