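import Pool.Agent.Lib.MP_5fcc10_co_lin.EvenB

/-! The even case with explicit parameters. -/

set_option linter.unusedSectionVars false

namespace Pool.Agent.SK.Lin

open Finset
open scoped symmDiff

variable {k J p D M d0 mr T K2 Ms : ℕ} {K β δ1 : ℝ}

lemma env_even [NeZero p] {g t : ℕ} (hP : Par k J p D M d0 mr T K2 Ms K β δ1) (cl : Lb p)
    (hβg : 2 * (k:ℝ) + 1 ≤ β ^ g) (ht1 : k - J ≤ t) (ht2 : t < k + J) :
    Env g β (2 * k) t p cl (Dn (2 * k) t (1 / (2 * p))) := by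
  have hJk := hP.hJk
  refine env_lin cl _ rfl hP.hβ4 (by omega) (by push_cast; exact hβg) ?_ ?_ ?_ ?_ ?_
  · obtain ⟨h1, h2, _⟩ := hP.basic
    rw [hP.hβ]
    push_cast
    rw [div_le_iff₀ (by positivity)]
    have : (1:ℝ) ≤ p := by exact_mod_cast hP.hp
    nlinarith
  · exact hP.dlow _ (by omega)
  · exact hP.dlow _ (by omega)
  · exact hP.dhigh _ (by omega)
  · exact hP.dhigh _ (by omega)

open Classical in
theorem even_core_lin (g Ms : ℕ) (K : ℝ) (R C : ℕ) (β0 : ℝ)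
    (hstage : ∀ (β : ℝ) (n t : ℕ) (p : ℕ) [NeZero p] (cl : Lb p) (Dl : ℕ → ℝ), β0 ≤ β →
      Env g β n t p cl Dl → ∃ h k Bd, Out Ms K R C β n t p cl Dl h k Bd)
    {k J p D M d0 mr T K2 : ℕ} [NeZero p] {β δ1 : ℝ} (hP : Par k J p D M d0 mr T K2 Ms K β δ1)
    (hββ : β0 ≤ β) (hβg : 2 * (k:ℝ) + 1 ≤ β ^ g) (ζ σ : ℝ) (hζ0 : 0 ≤ ζ) (hT : 1 ≤ T)
    (hd0 : 2 ≤ d0)
    (hζ : ∀ (v : Finset (Fin (2 * k))) (i : ZMod p) (U : Finset (Ix (2 * k)))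
      (ψ0 : Ix (2 * k) → Lb p), U.card ≤ T * (mr + 2 * d0) →
      ∀ F : Finset (Str (2 * k) p mr d0), (∀ x ∈ F, x.ok ∧ ¬ x.S v ⊆ U ∧ x.okU ψ0 U v i) →
      ∑ x ∈ F, (1 / (p : ℝ)) ^ (x.S v \ U).card ≤ ζ)
    (h1 : 2 * ((2 * (k : ℝ) + 1) ^ R * (2 * p) * (2 * k + 1) * (β ^ C * Real.exp (-β)))
      ≤ σ / 4)
    (h2 : 2 * ((2 * (k : ℝ) + 1) ^ (mr + d0) * p * ζ ^ T) ≤ σ / 4)
    (h3 : 2 * ∑ d ∈ Finset.Ioc d0 (2 * J), (p : ℝ) ^ 2 * (4 * d * (2 * (k : ℝ)) ^ (d - 1)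
      * d.factorial) * (1 / (p : ℝ)) ^ (2 * d) ≤ σ / 4)
    (hs1 : σ * (2 * (k : ℝ) + 1) ^ (R + 1) ≤ 1 / 4) (hs2 : σ * (T * (mr + 2 * d0)) ≤ 1 / 4)
    (hs3 : σ * (4 * J) ≤ 1 / 4) (hM : 2 * p * D * (2 * k + 1) < M) :
    ∃ c : Fin (2 * p * D) → Finset (Fin (2 * k)) → Finset (Fin (2 * k)),
      (∀ i x, (c i x).card = k) ∧
      (∀ i x y, c i x = c i y → x ⊆ y ∨ y ⊆ x) ∧
      (∀ i j, i ≠ j → ∀ x y, x ≠ y → c i x = c i y → c j x ≠ c j y) := by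
  have hJk := hP.hJk
  obtain ⟨hk0, hp0, hβ0, _⟩ := hP.basic
  have hex : ∀ (cl : Lb p) (t : ℕ), ∃ (h : (Ix (2 * k) → Lb p) → Finset (Fin (2 * k)) → ℝ)
      (kk : ℕ → ℝ) (Bd : Finset (Fin (2 * k)) → (Ix (2 * k) → Lb p) → Prop),
      k - J ≤ t → t < k + J →
      Out Ms K R C β (2 * k) t p cl (Dn (2 * k) t (1 / (2 * p))) h kk Bd := by
    intro cl t
    by_cases hb : k - J ≤ t ∧ t < k + J
    · obtain ⟨h, kk, Bd, ho⟩ := hstage β (2 * k) t p cl _ hββ (env_even hP cl hβg hb.1 hb.2)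
      exact ⟨h, kk, Bd, fun _ _ => ho⟩
    · exact ⟨fun _ _ => 0, fun _ => 0, fun _ _ => False, fun h1 h2 => absurd ⟨h1, h2⟩ hb⟩
  choose h kk Bd ho using hex
  have hσ0 : 0 ≤ σ := by
    have : 0 ≤ 2 * ((2 * (k : ℝ) + 1) ^ R * (2 * p) * (2 * k + 1) * (β ^ C * Real.exp (-β))) := by
      positivity
    linarith
  obtain ⟨ψ, hψ, hno, hlong, _⟩ := good_labels (n := 2 * k) (p := p) (m := mr) (d0 := d0) (T := T)
    (R := R) (L := 2 * J) (k - J) (k + J) Bd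
    (fun c t ht1 ht2 v => (ho c t ht1 ht2).dep v) (β ^ C * Real.exp (-β)) (by positivity)
    (fun c t ht1 ht2 v hv => (ho c t ht1 ht2).prob v hv) ζ hζ0 hT hd0 hζ
    (ι4 := Fin 0) (fun _ _ => False) (fun _ => ∅) (fun i => i.elim0) (fun _ => 0)
    (fun i => i.elim0) (fun i => i.elim0) σ
    (by intro y; rw [univ_eq_empty, filter_empty, sum_empty]; linarith)
    (fun i => i.elim0) (by push_cast; exact h1) (by push_cast; exact h2)
    (by push_cast; exact h3) (by push_cast; exact hs1) hs2 (by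
      push_cast
      calc σ * (2 * (2 * (J:ℝ))) = σ * (4 * J) := by ring
        _ ≤ 1 / 4 := hs3)
  have hcard : Fintype.card (Fin (2 * p * D)) = Fintype.card (Lb p × Fin D) := by
    rw [Fintype.card_fin, Fintype.card_prod, Fintype.card_prod, ZMod.card, ZMod.card,
      Fintype.card_fin]
    ring
  exact even_asm (N := 2 * p * D) (d0 := d0) ψ hP.hJ1 (by omega) (Fintype.equivOfCardEq hcard)
    (fun cl t ht1 ht2 => low_even hP cl (ho cl t ht1 (by omega)) ψ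
      (fun v hv => hψ cl t ht1 (by omega) v hv) ht1 ht2 hno)
    (fun cl t ht1 ht2 => high_even hP cl (ho cl t (by omega) ht2) ψ
      (fun v hv => hψ cl t (by omega) ht2 v hv) ht1 ht2 hno)
    hlong hM

end Pool.Agent.SK.Lin
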