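import Pool.Agent.Lib.MP_5fcc10_co_lin.Num

/-! Numerical consequences. -/

set_option linter.unusedSectionVars false

namespace Pool.Agent.SK.Lin

open Finset Filter

variable {k p : ℕ} {β : ℝ}

lemma pow_mono {β : ℝ} (h : 1 ≤ β) {a b : ℕ} (hab : a ≤ b) : β ^ a ≤ β ^ b :=
  pow_le_pow_right₀ h hab

lemma Asy.x_le (h : Asy k p β) (hβ : 10 ^ 8 ≤ β) : 2 * (k:ℝ) + 1 ≤ β ^ 66 := by
  have h1 := h.u
  have h2 : (10:ℝ) ^ 16 ≤ β ^ 2 := by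
    calc (10:ℝ) ^ 16 = (10 ^ 8) ^ 2 := by norm_num
      _ ≤ β ^ 2 := pow_le_pow_left₀ (by norm_num) hβ 2
  have h3 : (1:ℝ) ≤ β ^ 64 := one_le_pow₀ (by linarith)
  calc 2 * (k:ℝ) + 1 ≤ 2 * (8 ^ 16 * β ^ 64) + β ^ 64 := by linarith
    _ = (2 * 8 ^ 16 + 1) * β ^ 64 := by ring
    _ ≤ 10 ^ 16 * β ^ 64 := by
        apply mul_le_mul_of_nonneg_right _ (by positivity)
        norm_num
    _ ≤ β ^ 2 * β ^ 64 := mul_le_mul_of_nonneg_right h2 (by positivity)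
    _ = β ^ 66 := by ring

lemma Asy.p_le (h : Asy k p β) (hβ : 10 ^ 8 ≤ β) : (p:ℝ) ≤ k := by
  rw [h.e]
  have : (1:ℝ) ≤ β ^ 4 := one_le_pow₀ (by linarith)
  have h2 : (0:ℝ) ≤ p := Nat.cast_nonneg p
  nlinarith

lemma Asy.k_ge (h : Asy k p β) (hβ : 10 ^ 8 ≤ β) : 4 * β ^ 64 ≤ (k:ℝ) := by
  rw [h.e]
  have h1 := h.l
  have : (0:ℝ) ≤ β ^ 4 := by positivity
  calc 4 * β ^ 64 = 4 * β ^ 60 * β ^ 4 := by ring
    _ ≤ 4 * p * β ^ 4 := by gcongr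

/-- the half width of the band -/
noncomputable def JJ (k : ℕ) (β : ℝ) : ℕ := ⌈Real.sqrt ((2 * k + 1) * β)⌉₊

lemma JJ_ge (hβ : 0 ≤ β) : (2 * (k:ℝ) + 1) * β ≤ (JJ k β : ℝ) ^ 2 := by
  have h1 : Real.sqrt ((2 * k + 1) * β) ≤ JJ k β := Nat.le_ceil _
  calc (2 * (k:ℝ) + 1) * β = Real.sqrt ((2 * k + 1) * β) ^ 2 := (Real.sq_sqrt (by positivity)).symm
    _ ≤ (JJ k β : ℝ) ^ 2 := pow_le_pow_left₀ (Real.sqrt_nonneg _) h1 2

lemma Asy.J_le (h : Asy k p β) (hβ : 10 ^ 8 ≤ β) : (JJ k β : ℝ) ≤ β ^ 34 := by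
  have h1 : (JJ k β : ℝ) < Real.sqrt ((2 * k + 1) * β) + 1 := Nat.ceil_lt_add_one (Real.sqrt_nonneg _)
  have h2 : Real.sqrt ((2 * k + 1) * β) ≤ β ^ 34 - 1 := by
    have h4 : (1:ℝ) ≤ β ^ 34 := one_le_pow₀ (by linarith)
    have h5 : (2:ℝ) ≤ β ^ 34 := by
      calc (2:ℝ) ≤ β := by linarith
        _ = β ^ 1 := (pow_one β).symm
        _ ≤ β ^ 34 := pow_mono (by linarith) (by norm_num)
    rw [show β ^ 34 - 1 = Real.sqrt ((β ^ 34 - 1) ^ 2) from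
      (Real.sqrt_sq (by linarith)).symm]
    apply Real.sqrt_le_sqrt
    have h3 := h.x_le hβ
    have h6 : (2 * (k:ℝ) + 1) * β ≤ β ^ 67 := by
      calc (2 * (k:ℝ) + 1) * β ≤ β ^ 66 * β := by gcongr
        _ = β ^ 67 := by ring
    have h7 : (β ^ 34 / 2) ^ 2 ≤ (β ^ 34 - 1) ^ 2 := by
      apply pow_le_pow_left₀ (by positivity)
      linarith
    have h8 : β ^ 67 ≤ (β ^ 34 / 2) ^ 2 := by
      have : (β ^ 34 / 2) ^ 2 = β ^ 67 * (β / 4) := by ring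
      rw [this]
      have h9 : 1 ≤ β / 4 := by linarith
      have : 0 ≤ β ^ 67 := by positivity
      nlinarith
    linarith
  linarith

lemma Asy.J_pos (h : Asy k p β) (hβ : 10 ^ 8 ≤ β) : 1 ≤ JJ k β := by
  have h1 := h.k_ge hβ
  have h2 : (1:ℝ) ≤ β ^ 64 := one_le_pow₀ (by linarith)
  have : 0 < Real.sqrt ((2 * k + 1) * β) := Real.sqrt_pos.2 (by
    have : (0:ℝ) < k := by linarith
    have : 0 < β := by linarith
    positivity)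
  exact Nat.ceil_pos.2 this

lemma Asy.J_k (h : Asy k p β) (hβ : 10 ^ 8 ≤ β) : 2 * JJ k β + 2 ≤ k := by
  have h1 := h.k_ge hβ
  have h2 := h.J_le hβ
  have h3 : β ^ 34 ≤ β ^ 64 := pow_mono (by linarith) (by norm_num)
  have h4 : (2:ℝ) ≤ β ^ 64 := by
      calc (2:ℝ) ≤ β := by linarith
        _ = β ^ 1 := (pow_one β).symm
        _ ≤ β ^ 64 := pow_mono (by linarith) (by norm_num)
  have h5 : 2 * (JJ k β : ℝ) + 2 ≤ k := by linarith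
  exact_mod_cast h5

/-- the tail outside the band -/
lemma Asy.tail (h : Asy k p β) (hβ : 10 ^ 8 ≤ β) (hB : 8 * (β ^ 264 * Real.exp (-β)) ≤ 1) (M : ℝ)
    (hM : M ≤ (2 * (k:ℝ) + 1) ^ 2) (hM0 : 0 ≤ M) (n : ℝ) (hn0 : 0 < n) (hn : n ≤ 2 * k + 1) :
    M * (k * Real.exp (-((JJ k β : ℝ) ^ 2 / n))) ≤ 1 / (4 * k) := by
  have hx := h.x_le hβ
  have hk := h.k_ge hβ
  have h64 : (1:ℝ) ≤ β ^ 64 := one_le_pow₀ (by linarith)
  have hk0 : (0:ℝ) < k := by linarith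
  have hβ0 : 0 < β := by linarith
  have h1 : Real.exp (-((JJ k β : ℝ) ^ 2 / n)) ≤ Real.exp (-β) := by
    apply Real.exp_le_exp.2
    apply neg_le_neg
    rw [le_div_iff₀ hn0]
    have := JJ_ge (k := k) hβ0.le
    calc β * n ≤ β * (2 * k + 1) := mul_le_mul_of_nonneg_left hn hβ0.le
      _ = (2 * k + 1) * β := by ring
      _ ≤ _ := this
  have hexp := Real.exp_pos (-β)
  rw [le_div_iff₀ (by positivity)]
  calc M * (k * Real.exp (-((JJ k β : ℝ) ^ 2 / n))) * (4 * k)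
      ≤ (2 * (k:ℝ) + 1) ^ 2 * (k * Real.exp (-β)) * (4 * k) := by gcongr
    _ = (2 * (k:ℝ) + 1) ^ 2 * (2 * k) ^ 2 * Real.exp (-β) := by ring
    _ ≤ (2 * (k:ℝ) + 1) ^ 2 * (2 * k + 1) ^ 2 * Real.exp (-β) := by gcongr; linarith
    _ = (2 * (k:ℝ) + 1) ^ 4 * Real.exp (-β) := by ring
    _ ≤ (β ^ 66) ^ 4 * Real.exp (-β) := by gcongr
    _ = β ^ 264 * Real.exp (-β) := by ring
    _ ≤ 1 := by
        have : 0 ≤ β ^ 264 * Real.exp (-β) := by positivity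
        linarith

end Pool.Agent.SK.Lin
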