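import Pool.Agent.Lib.MP_5fcc10_co_lin.EvenC
import Pool.Agent.Lib.MP_5fcc10_co_lin.Num2

/-! The even case: asymptotics. -/

set_option linter.unusedSectionVars false

namespace Pool.Agent.SK.Lin

open Finset Filter

/-- the number of matchings of a class -/
noncomputable def DD (k p : ℕ) (δ1 : ℝ) : ℕ := ⌊(1 - δ1) * ((k:ℝ) / (2 * p))⌋₊

lemma le_pow_of_le {a β : ℝ} (hβ : 1 ≤ β) (h : a ≤ β) (q : ℕ) (hq : 1 ≤ q) : a ≤ β ^ q := by
  refine h.trans ?_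
  calc β = β ^ 1 := (pow_one β).symm
    _ ≤ β ^ q := pow_mono hβ hq

theorem par_even (Ms : ℕ) (hMs : 66 ≤ Ms) (K δ1 : ℝ) (hK : 0 ≤ K) (hδ1 : 0 < δ1)
    (hδ1' : δ1 ≤ 1 / 2) (T d0 : ℕ) :
    ∃ B : ℝ, 10 ^ 8 ≤ B ∧ ∀ (β : ℝ) (k p : ℕ), B ≤ β → 1 ≤ p → Asy k p β →
      Par k (JJ k β) p (DD k p δ1) (2 * p * DD k p δ1 * (2 * k + 1) + 1) d0 17 T
        (2 * (T * (17 + 2 * d0))) Ms K β δ1 := by
  obtain ⟨b1, hb1⟩ := exp_dominates 264
  set K2 : ℕ := 2 * (T * (17 + 2 * d0)) with hK2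
  set c1 : ℝ := 16 * (K + 1) / δ1 with hc1
  set c2 : ℝ := 64 * K * 8 ^ 16 with hc2
  set c3 : ℝ := 16 * (K2:ℝ) ^ 2 * (17 : ℕ).factorial * 16 ^ 17 / δ1 with hc3
  set c4 : ℝ := 4 * ((K2:ℝ) + 17) with hc4
  set c5 : ℝ := 8 * 8 ^ 16 * (K2:ℝ) ^ 2 * (17 : ℕ).factorial * 2 ^ 17 with hc5
  have p1 : 0 ≤ c1 := by positivity
  have p2 : 0 ≤ c2 := by positivity
  have p3 : 0 ≤ c3 := by positivity
  have p4 : 0 ≤ c4 := by positivity
  have p5 : 0 ≤ c5 := by positivity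
  have pb := abs_nonneg b1
  have hB8 : (10:ℝ) ^ 8 ≤ 10 ^ 8 + |b1| + c1 + c2 + c3 + c4 + c5 := by linarith
  refine ⟨10 ^ 8 + |b1| + c1 + c2 + c3 + c4 + c5, hB8, ?_⟩
  intro β k p hB hp h
  have hβ8 : (10:ℝ) ^ 8 ≤ β := hB8.trans hB
  have hβ1 : 1 ≤ β := le_trans (by norm_num) hβ8
  have hβ0 : 0 < β := by linarith
  have hb : b1 ≤ β := (le_abs_self b1).trans (by linarith)
  have q1 : c1 ≤ β := by linarith
  have q2 : c2 ≤ β := by linarith
  have q3 : c3 ≤ β := by linarith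
  have q4 : c4 ≤ β := by linarith
  have q5 : c5 ≤ β := by linarith
  have hpr : (1:ℝ) ≤ p := by exact_mod_cast hp
  have hp0 : (0:ℝ) < p := by linarith
  have hkge := h.k_ge hβ8
  have h64 : (1:ℝ) ≤ β ^ 64 := one_le_pow₀ hβ1
  have hk0 : (0:ℝ) < k := by linarith
  have hk2p : (k:ℝ) / (2 * p) = 2 * β ^ 4 := by
    rw [div_eq_iff (by positivity), h.e]; ring
  have hβ4 : β ≤ β ^ 4 := le_pow_of_le hβ1 le_rfl 4 (by norm_num)
  have hJk := h.J_k hβ8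
  have hJkr : 2 * (JJ k β : ℝ) + 2 ≤ k := by exact_mod_cast hJk
  have hDu : (DD k p δ1 : ℝ) ≤ (1 - δ1) * (k / (2 * p)) := by
    apply Nat.floor_le
    have : 0 ≤ (k:ℝ) / (2 * p) := by positivity
    have : 0 ≤ 1 - δ1 := by linarith
    positivity
  have hDl : (1 - δ1) * (k / (2 * p)) < DD k p δ1 + 1 := Nat.lt_floor_add_one _
  rw [hk2p] at hDl
  have hDl2 : β ^ 4 < DD k p δ1 + 1 := by nlinarith
  have hMk : (2 * p * DD k p δ1 : ℝ) ≤ k := by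
    rw [hk2p] at hDu
    calc (2 * p * DD k p δ1 : ℝ) ≤ 2 * p * ((1 - δ1) * (2 * β ^ 4)) := by gcongr
      _ ≤ 2 * p * (1 * (2 * β ^ 4)) := by gcongr; linarith
      _ = k := by rw [h.e]; ring
  refine
    { hk := ?_
      hp := hp
      hJ1 := h.J_pos hβ8
      hJk := hJk
      hβ := ?_
      hβ4 := le_trans (by norm_num) hβ8
      hK := hK
      hδ1 := hδ1
      hδ1' := hδ1'
      hε := ?_
      hη := ?_
      hDu := hDu
      hDl := ?_
      hD1 := ?_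
      hmr := by decide
      hK2 := rfl
      hsmall := ?_
      hbm := ?_
      hτ := ?_
      hF := ?_ }
  · have : (4:ℝ) ≤ k := by linarith
    exact_mod_cast this
  · rw [eq_div_iff (by positivity), h.e]; ring
  · rw [div_le_iff₀ hβ0]
    rw [hc1, div_le_iff₀ hδ1] at q1
    linarith
  · rw [← mul_div_assoc, div_le_div_iff₀ (by positivity) (by positivity)]
    have h1 := h.u
    calc 8 * K * (8 * k) ≤ 8 * K * (8 * (8 ^ 16 * β ^ 64)) := by gcongr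
      _ = c2 * β ^ 64 := by rw [hc2]; ring
      _ ≤ β * β ^ 64 := by gcongr
      _ = β ^ 65 := by ring
      _ ≤ β ^ (Ms + 1) := pow_mono hβ1 (by omega)
      _ = 1 * β ^ (Ms + 1) := (one_mul _).symm
  · have h1 : ((k:ℝ) + JJ k β) / (2 * p) ≤ 3 * β ^ 4 := by
      rw [div_le_iff₀ (by positivity)]
      have h2 : (k:ℝ) + JJ k β ≤ 3 / 2 * k := by linarith
      calc (k:ℝ) + JJ k β ≤ 3 / 2 * k := h2
        _ = 3 * β ^ 4 * (2 * p) := by rw [h.e]; ring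
    linarith
  · have : (0:ℝ) < DD k p δ1 := by linarith
    exact_mod_cast this
  · have h1 : c3 ≤ β ^ 4 := q3.trans hβ4
    rw [hc3, div_le_iff₀ hδ1] at h1
    have e : 2 * (K2:ℝ) ^ 2 * (17 : ℕ).factorial * 16 ^ 17
        = (16 * (K2:ℝ) ^ 2 * (17 : ℕ).factorial * 16 ^ 17) / 8 := by ring
    have e2 : δ1 / 8 * β ^ 4 = (β ^ 4 * δ1) / 8 := by ring
    rw [e, e2]
    exact div_le_div_of_nonneg_right h1 (by norm_num)
  · have h1 : c4 ≤ β ^ 4 := q4.trans hβ4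
    rw [hc4] at h1
    push_cast
    exact h1
  · rw [div_pow, ← mul_div_assoc, div_le_div_iff₀ (by positivity) (by positivity)]
    have h1 := h.u
    calc (K2:ℝ) ^ 2 * (17 : ℕ).factorial * 2 ^ 17 * (8 * k)
        ≤ (K2:ℝ) ^ 2 * (17 : ℕ).factorial * 2 ^ 17 * (8 * (8 ^ 16 * β ^ 64)) := by gcongr
      _ = c5 * β ^ 64 := by rw [hc5]; ring
      _ ≤ β ^ 4 * β ^ 64 := by
          apply mul_le_mul_of_nonneg_right (q5.trans hβ4) (by positivity)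
      _ = 1 * (β ^ 4) ^ 17 := by ring
  · refine h.tail hβ8 (hb1 β hb) _ ?_ (by positivity) _ (by push_cast; positivity) ?_
    · push_cast
      have : (1:ℝ) ≤ k := by linarith
      nlinarith
    · push_cast; linarith

end Pool.Agent.SK.Lin
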