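import Pool.Agent.Lib.MP_5fcc10_co_lin.Model
import Pool.Agent.Lib.MP_5fcc10_co.Prob

/-! The middle stage of odd cubes: definitions. -/

set_option linter.unusedSectionVars false

namespace Pool.Agent.SK.Lin

open Finset
open scoped symmDiff

variable {n p : ℕ}

/-- the boundary of a set `Q` of vertices in the graph between the levels `k` and `k + 1`: pairs
(vertex of `Q`, direction leaving `Q`) -/
def bdy (k : ℕ) (Q : Finset (Finset (Fin n))) : Finset (Finset (Fin n) × Fin n) :=
  (Q ×ˢ univ).filter (fun x => x.2 ∈ nb k x.1 ∧ tg x.1 x.2 ∉ Q)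

/-- the five other edges of the hexagon of the edge `(x, a)` in the directions `b`, `c` have
type `s` -/
def Hex (ψ : Ix n → Lb p) (s : ZMod 2) (x : Finset (Fin n)) (a b c : Fin n) : Prop :=
  ty ψ x b = s ∧ ty ψ (tg x b) c = s ∧ ty ψ (tg (tg x b) c) a = s ∧
    ty ψ (tg (tg (tg x b) c) a) b = s ∧ ty ψ (tg (tg (tg (tg x b) c) a) b) c = s

/-- some edge at `x` of the wrong type has no good hexagon -/
def BypBad (k : ℕ) (s : ZMod 2) (x : Finset (Fin n)) (ψ : Ix n → Lb p) : Prop :=
  x.card = k ∧ ∃ a, a ∉ x ∧ ty ψ x a ≠ s ∧ ∀ b c, b ∉ x → b ≠ a → c ∈ x → ¬ Hex ψ s x a b c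

/-- an edge of the first half of a class -/
def op0 (cl : Lb p) (ψ : Ix n → Lb p) (v : Finset (Fin n)) (e : Fin n) : Prop :=
  opP cl ψ v e ∧ (ψ (ed v e)).2 = 0

open Classical in
/-- indicator of the first half of a class -/
noncomputable def opn0 (c : Lb p) (ψ : Ix n → Lb p) : Wt n where
  f v e := if op0 c ψ v e then 1 else 0
  h0 v e := by split_ifs <;> norm_num
  h1 v e := by split_ifs <;> norm_num

open Classical in
/-- the ball of radius `ρ` about `r` in the first half of a class -/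
noncomputable def KB (k : ℕ) (cl : Lb p) (ψ : Ix n → Lb p) (r : Finset (Fin n)) :
    ℕ → Finset (Finset (Fin n))
  | 0 => {r}
  | ρ + 1 => univ.filter (fun w => w ∈ KB k cl ψ r ρ ∨
      ∃ v ∈ KB k cl ψ r ρ, ∃ e ∈ nb k v, op0 cl ψ v e ∧ w = tg v e)

/-- the union of the balls of radius `2 ρ` about the elements of `S` -/
noncomputable def KS (k : ℕ) (cl : Lb p) (ψ : Ix n → Lb p) (ρ : ℕ)
    (S : Finset (Finset (Fin n))) : Finset (Finset (Fin n)) :=
  S.biUnion (fun r => KB k cl ψ r (2 * ρ))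

open Classical in
/-- the edges of the right type in the boundary of this union that do not belong to the first
half -/
noncomputable def TS (k : ℕ) (cl : Lb p) (ρ : ℕ) (S : Finset (Finset (Fin n)))
    (ψ : Ix n → Lb p) : Finset (Ix n) :=
  ((bdy k (KS k cl ψ ρ S)).filter (fun x => ty ψ x.1 x.2 = cl.2 ∧
    ψ (ed x.1 x.2) ≠ (cl.1, 0))).image (fun x => ed x.1 x.2)

open Classical in
/-- few of these edges belong to the second half -/
def BSev (k : ℕ) (cl : Lb p) (ρ m0 : ℕ) (S : Finset (Finset (Fin n))) (ψ : Ix n → Lb p) : Prop :=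
  m0 * S.card ≤ (TS k cl ρ S ψ).card ∧
    ((TS k cl ρ S ψ).filter (fun y => ψ y = (cl.1, 1))).card ≤ S.card

end Pool.Agent.SK.Lin
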