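import Pool.Agent.Lib.MP_5fcc10_co_lin.Paths
import Pool.Agent.Lib.MP_5fcc10_co.GosD

/-! The random model: colours on the edges of the cube, bits on its vertices, and the types of the
edges (the sign of the edge twisted by the bits). In every two-dimensional face exactly one of the
two monotone paths has two edges of the same type. -/

set_option linter.unusedSectionVars false

namespace Pool.Agent.SK.Lin

open Finset
open scoped symmDiff

/-- coordinates: `(u, none)` is the vertex `u`, `(u, some e)` with `e ∉ u` the edge from `u` to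
`insert e u` -/
abbrev Ix (n : ℕ) := Finset (Fin n) × Option (Fin n)

/-- labels: a colour and a bit -/
abbrev Lb (p : ℕ) := ZMod p × ZMod 2

variable {n p : ℕ}

/-- the coordinate of the edge from `v` toggling `e` -/
def ed (v : Finset (Fin n)) (e : Fin n) : Ix n := (v.erase e, some e)

lemma tg_erase (v : Finset (Fin n)) (e : Fin n) : (tg v e).erase e = v.erase e := by
  ext a
  simp only [mem_erase, mem_tg]
  constructor
  · rintro ⟨h1, h2 | h2⟩
    · exact ⟨h1, h2.1⟩
    · exact absurd h2.1 h1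
  · rintro ⟨h1, h2⟩
    exact ⟨h1, Or.inl ⟨h2, h1⟩⟩

lemma ed_tg (v : Finset (Fin n)) (e : Fin n) : ed (tg v e) e = ed v e := by
  unfold ed; rw [tg_erase]

/-- the sign of an edge -/
def pos (v : Finset (Fin n)) (e : Fin n) : ZMod 2 := ((v.filter (· < e)).card : ZMod 2)

lemma filter_tg_of_not {v : Finset (Fin n)} {e f : Fin n} (h : ¬ e < f) :
    (tg v e).filter (· < f) = v.filter (· < f) := by
  ext a
  simp only [mem_filter, mem_tg]
  constructor
  · rintro ⟨h1 | h1, h2⟩
    · exact ⟨h1.1, h2⟩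
    · exact absurd (h1.1 ▸ h2) h
  · rintro ⟨h1, h2⟩
    exact ⟨Or.inl ⟨h1, fun h3 => h (h3 ▸ h2)⟩, h2⟩

lemma pos_tg_self (v : Finset (Fin n)) (e : Fin n) : pos (tg v e) e = pos v e := by
  unfold pos; rw [filter_tg_of_not (lt_irrefl e)]

lemma pos_tg (v : Finset (Fin n)) (e f : Fin n) :
    pos (tg v e) f = pos v f + (if e < f then 1 else 0) := by
  by_cases h : e < f
  · rw [if_pos h]
    have h1 : (tg v e).filter (· < f) = tg (v.filter (· < f)) e := by
      ext a
      simp only [mem_filter, mem_tg]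
      constructor
      · rintro ⟨h1 | h1, h2⟩
        · exact Or.inl ⟨⟨h1.1, h2⟩, h1.2⟩
        · exact Or.inr ⟨h1.1, fun h3 => h1.2 h3.1⟩
      · rintro (⟨⟨h1, h2⟩, h3⟩ | ⟨h1, h2⟩)
        · exact ⟨Or.inl ⟨h1, h3⟩, h2⟩
        · exact ⟨Or.inr ⟨h1, fun h3 => h2 ⟨h3, h1 ▸ h⟩⟩, h1 ▸ h⟩
    unfold pos
    rw [h1]
    by_cases he : e ∈ v.filter (· < f)
    · rw [tg_of_mem he]
      have h2 := card_erase_add_one he
      rw [← h2]
      push_cast
      rw [add_assoc]
      have : (1 : ZMod 2) + 1 = 0 := by decide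
      rw [this, add_zero]
    · rw [tg_of_notMem he, card_insert_of_notMem he]
      push_cast
      rfl
  · rw [if_neg h, add_zero]
    unfold pos
    rw [filter_tg_of_not h]

lemma tg_comm (v : Finset (Fin n)) (e f : Fin n) : tg (tg v e) f = tg (tg v f) e := by
  unfold tg
  rw [symmDiff_right_comm]

/-- the bit of a vertex -/
def bt (ψ : Ix n → Lb p) (v : Finset (Fin n)) : ZMod 2 := (ψ (v, none)).2

/-- the colour of an edge -/
def col (ψ : Ix n → Lb p) (v : Finset (Fin n)) (e : Fin n) : ZMod p := (ψ (ed v e)).1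

/-- the type of an edge -/
def ty (ψ : Ix n → Lb p) (v : Finset (Fin n)) (e : Fin n) : ZMod 2 :=
  pos v e + bt ψ v + bt ψ (tg v e)

lemma col_tg (ψ : Ix n → Lb p) (v : Finset (Fin n)) (e : Fin n) :
    col ψ (tg v e) e = col ψ v e := by
  unfold col; rw [ed_tg]

lemma ty_tg (ψ : Ix n → Lb p) (v : Finset (Fin n)) (e : Fin n) :
    ty ψ (tg v e) e = ty ψ v e := by
  unfold ty; rw [pos_tg_self, tg_tg]; ring

/-- the edge belongs to the class `c` -/
def opP (c : Lb p) (ψ : Ix n → Lb p) (v : Finset (Fin n)) (e : Fin n) : Prop :=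
  col ψ v e = c.1 ∧ ty ψ v e = c.2

/-- no monotone path of type constant pairs on both sides of a square -/
lemma square (ψ : Ix n → Lb p) (v : Finset (Fin n)) (e f : Fin n) (hef : e ≠ f) (s s' : ZMod 2)
    (h1 : ty ψ v e = s) (h2 : ty ψ (tg v e) f = s) (h3 : ty ψ v f = s')
    (h4 : ty ψ (tg v f) e = s') : False := by
  unfold ty at h1 h2 h3 h4
  rw [pos_tg] at h2 h4
  rw [tg_comm v f e] at h4
  have key : (if e < f then (1 : ZMod 2) else 0) + (if f < e then 1 else 0) = 1 := by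
    rcases lt_or_gt_of_ne hef with h | h
    · rw [if_pos h, if_neg (not_lt.2 h.le), add_zero]
    · rw [if_neg (not_lt.2 h.le), if_pos h, zero_add]
  have h5 : pos v e + bt ψ v + bt ψ (tg v e) + (pos v f + (if e < f then 1 else 0)
      + bt ψ (tg v e) + bt ψ (tg (tg v e) f)) + (pos v f + bt ψ v + bt ψ (tg v f)
      + (pos v e + (if f < e then 1 else 0) + bt ψ (tg v f) + bt ψ (tg (tg v e) f)))
      = s + s + (s' + s') := by rw [h1, h2, h3, h4]
  have two : ∀ x : ZMod 2, x + x = 0 := by decide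
  rw [two s, two s', add_zero] at h5
  have h6 : pos v e + bt ψ v + bt ψ (tg v e) + (pos v f + (if e < f then 1 else 0)
      + bt ψ (tg v e) + bt ψ (tg (tg v e) f)) + (pos v f + bt ψ v + bt ψ (tg v f)
      + (pos v e + (if f < e then 1 else 0) + bt ψ (tg v f) + bt ψ (tg (tg v e) f)))
      = (pos v e + pos v e) + (pos v f + pos v f) + (bt ψ v + bt ψ v)
      + (bt ψ (tg v e) + bt ψ (tg v e)) + (bt ψ (tg v f) + bt ψ (tg v f))
      + (bt ψ (tg (tg v e) f) + bt ψ (tg (tg v e) f))
      + ((if e < f then (1 : ZMod 2) else 0) + (if f < e then 1 else 0)) := by ring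
  rw [h6, key] at h5
  simp only [two, zero_add] at h5
  exact absurd h5 (by decide)

open Classical in
/-- indicator of a class -/
noncomputable def opn (c : Lb p) (ψ : Ix n → Lb p) : Wt n where
  f v e := if opP c ψ v e then 1 else 0
  h0 v e := by split_ifs <;> norm_num
  h1 v e := by split_ifs <;> norm_num

lemma opn_eq_of_iff {c : Lb p} {ψ ψ' : Ix n → Lb p} {v v' : Finset (Fin n)} {e e' : Fin n}
    (h : opP c ψ v e ↔ opP c ψ' v' e') : opn c ψ v e = opn c ψ' v' e' := by
  unfold opn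
  simp only
  by_cases h1 : opP c ψ v e
  · rw [if_pos h1, if_pos (h.1 h1)]
  · rw [if_neg h1, if_neg (fun h2 => h1 (h.2 h2))]

lemma opn_one {c : Lb p} {ψ : Ix n → Lb p} {v : Finset (Fin n)} {e : Fin n} (h : opP c ψ v e) :
    opn c ψ v e = 1 := by
  unfold opn; simp only; rw [if_pos h]

lemma opn_zero {c : Lb p} {ψ : Ix n → Lb p} {v : Finset (Fin n)} {e : Fin n}
    (h : ¬ opP c ψ v e) : opn c ψ v e = 0 := by
  unfold opn; simp only; rw [if_neg h]

lemma opP_of_ne {c : Lb p} {ψ : Ix n → Lb p} {v : Finset (Fin n)} {e : Fin n}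
    (h : opn c ψ v e ≠ 0) : opP c ψ v e := by
  by_contra hcon; exact h (opn_zero hcon)

lemma opn_congr {c : Lb p} {ψ ψ' : Ix n → Lb p} {v : Finset (Fin n)} {e : Fin n}
    (h1 : ψ (v, none) = ψ' (v, none)) (h2 : ψ (tg v e, none) = ψ' (tg v e, none))
    (h3 : ψ (ed v e) = ψ' (ed v e)) : opn c ψ v e = opn c ψ' v e := by
  apply opn_eq_of_iff
  unfold opP col ty bt
  rw [h1, h2, h3]

lemma opP_symm {c : Lb p} {ψ : Ix n → Lb p} {v : Finset (Fin n)} {e : Fin n} :
    opP c ψ (tg v e) e ↔ opP c ψ v e := by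
  unfold opP; rw [col_tg, ty_tg]

lemma opn_symm (c : Lb p) (ψ : Ix n → Lb p) (v : Finset (Fin n)) (e : Fin n) :
    opn c ψ (tg v e) e = opn c ψ v e := opn_eq_of_iff opP_symm

/-! ### symmetries -/

/-- the coboundary correction of a permutation -/
def beta (σ : Equiv.Perm (Fin n)) (v : Finset (Fin n)) : ZMod 2 :=
  ∑ a ∈ v, ∑ b ∈ v, if a < b ∧ σ b < σ a then 1 else 0

lemma pos_eq_sum (v : Finset (Fin n)) (e : Fin n) :
    pos v e = ∑ a ∈ v, if a < e then (1 : ZMod 2) else 0 := by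
  unfold pos
  rw [sum_boole]

lemma beta_insert (σ : Equiv.Perm (Fin n)) (v : Finset (Fin n)) (e : Fin n) (he : e ∉ v) :
    beta σ (insert e v) = beta σ v + (pos v e + pos (ma σ v) (σ e)) := by
  unfold beta
  rw [sum_insert he, sum_insert he]
  have h1 : ∀ a ∈ v, (∑ b ∈ insert e v, if a < b ∧ σ b < σ a then (1 : ZMod 2) else 0)
      = (if a < e ∧ σ e < σ a then 1 else 0) + ∑ b ∈ v, if a < b ∧ σ b < σ a then 1 else 0 :=
    fun a _ => by rw [sum_insert he]
  rw [sum_congr rfl h1, sum_add_distrib]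
  have h2 : pos (ma σ v) (σ e) = ∑ a ∈ v, if σ a < σ e then (1 : ZMod 2) else 0 := by
    rw [pos_eq_sum]
    unfold ma
    rw [sum_map]
    rfl
  have h3 : (if e < e ∧ σ e < σ e then (1 : ZMod 2) else 0) = 0 := by
    rw [if_neg]; intro h; exact lt_irrefl _ h.1
  have two : ∀ x : ZMod 2, x + x = 0 := by decide
  have h4 : ∀ a ∈ v, (if e < a ∧ σ a < σ e then (1 : ZMod 2) else 0)
      + (if a < e ∧ σ e < σ a then 1 else 0)
      = (if a < e then 1 else 0) + (if σ a < σ e then 1 else 0) := by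
    intro a ha
    have hae : a ≠ e := fun h => he (h ▸ ha)
    have hσ : σ a ≠ σ e := fun h => hae (σ.injective h)
    rcases lt_or_gt_of_ne hae with h | h
    · rcases lt_or_gt_of_ne hσ with h' | h'
      · rw [if_neg (fun hh => absurd hh.1 (not_lt.2 h.le)),
          if_neg (fun hh => absurd hh.2 (not_lt.2 h'.le)), if_pos h, if_pos h']
        decide
      · rw [if_neg (fun hh => absurd hh.1 (not_lt.2 h.le)), if_pos ⟨h, h'⟩, if_pos h,
          if_neg (not_lt.2 h'.le)]
        decide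
    · rcases lt_or_gt_of_ne hσ with h' | h'
      · rw [if_pos ⟨h, h'⟩, if_neg (fun hh => absurd hh.1 (not_lt.2 h.le)),
          if_neg (not_lt.2 h.le), if_pos h']
        decide
      · rw [if_neg (fun hh => absurd hh.2 (not_lt.2 h'.le)),
          if_neg (fun hh => absurd hh.1 (not_lt.2 h.le)), if_neg (not_lt.2 h.le),
          if_neg (not_lt.2 h'.le)]
  have h5 := sum_congr rfl h4
  rw [sum_add_distrib, sum_add_distrib] at h5
  rw [h2, pos_eq_sum]
  linear_combination h5 + h3

lemma pos_ma (σ : Equiv.Perm (Fin n)) (v : Finset (Fin n)) (e : Fin n) :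
    pos (ma σ v) (σ e) = pos v e + beta σ v + beta σ (tg v e) := by
  have two : ∀ x : ZMod 2, x + x = 0 := by decide
  by_cases he : e ∈ v
  · have h0 : e ∉ v.erase e := by simp
    have h1 := beta_insert σ (v.erase e) e h0
    rw [insert_erase he] at h1
    have h2 : pos (v.erase e) e = pos v e := by
      rw [← tg_of_mem he, pos_tg_self]
    have h3 : pos (ma σ (v.erase e)) (σ e) = pos (ma σ v) (σ e) := by
      rw [← tg_of_mem he, ma_tg, pos_tg_self]
    rw [h2, h3] at h1
    rw [tg_of_mem he, h1]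
    have : pos v e + (beta σ (v.erase e) + (pos v e + pos (ma σ v) (σ e))) + beta σ (v.erase e)
        = (pos v e + pos v e) + (beta σ (v.erase e) + beta σ (v.erase e))
          + pos (ma σ v) (σ e) := by ring
    rw [this, two, two, zero_add, zero_add]
  · rw [tg_of_notMem he, beta_insert σ v e he]
    have : pos v e + beta σ v + (beta σ v + (pos v e + pos (ma σ v) (σ e)))
        = (pos v e + pos v e) + (beta σ v + beta σ v) + pos (ma σ v) (σ e) := by ring
    rw [this, two, two, zero_add, zero_add]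

/-- action of a permutation on the labelings -/
def act (σ : Equiv.Perm (Fin n)) (ψ : Ix n → Lb p) : Ix n → Lb p := fun x =>
  match x with
  | (u, none) => ψ (ma σ u, none) + (0, beta σ u)
  | (u, some e) => ψ (ma σ u, some (σ e))

/-- shift of the vertex labels -/
def shf (c : Lb p) (ψ : Ix n → Lb p) : Ix n → Lb p := fun x =>
  match x with
  | (u, none) => ψ (u, none) + c
  | (u, some e) => ψ (u, some e)

lemma ma_erase (σ : Equiv.Perm (Fin n)) (v : Finset (Fin n)) (e : Fin n) :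
    (ma σ v).erase (σ e) = ma σ (v.erase e) := by
  ext a
  rw [mem_erase, mem_ma', mem_ma', mem_erase, ne_eq, ne_eq, Equiv.symm_apply_eq]

lemma opn_ma (c : Lb p) (ψ : Ix n → Lb p) (σ : Equiv.Perm (Fin n)) (v : Finset (Fin n))
    (e : Fin n) : opn c ψ (ma σ v) (σ e) = opn c (act σ ψ) v e := by
  apply opn_eq_of_iff
  have h1 : col ψ (ma σ v) (σ e) = col (act σ ψ) v e := by
    unfold col ed
    rw [ma_erase]
    rfl
  have h2 : ty ψ (ma σ v) (σ e) = ty (act σ ψ) v e := by
    unfold ty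
    rw [pos_ma, ← ma_tg]
    have a1 : ∀ u, bt (act σ ψ) u = bt ψ (ma σ u) + beta σ u := fun u => rfl
    rw [a1, a1]
    ring
  unfold opP
  rw [h1, h2]

lemma opn_shift (c : Lb p) (ψ : Ix n → Lb p) (d : Lb p) (v : Finset (Fin n)) (e : Fin n) :
    opn c (shf d ψ) v e = opn c ψ v e := by
  apply opn_eq_of_iff
  have h1 : col (shf d ψ) v e = col ψ v e := rfl
  have h2 : ty (shf d ψ) v e = ty ψ v e := by
    unfold ty
    have a1 : ∀ u, bt (shf d ψ) u = bt ψ u + d.2 := fun u => rfl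
    rw [a1, a1]
    have two : ∀ x : ZMod 2, x + x = 0 := by decide
    have : pos v e + (bt ψ v + d.2) + (bt ψ (tg v e) + d.2)
        = pos v e + bt ψ v + bt ψ (tg v e) + (d.2 + d.2) := by ring
    rw [this, two, add_zero]
  unfold opP
  rw [h1, h2]

/-! ### balls of coordinates -/

/-- the coordinates inside a ball -/
def hamI (v : Finset (Fin n)) (r : ℕ) : Finset (Ix n) :=
  univ.filter (fun x => x.1 ∈ ham v r ∧ ∀ e, x.2 = some e → tg x.1 e ∈ ham v r)

lemma mem_hamI_none {v u : Finset (Fin n)} {r : ℕ} : (u, none) ∈ hamI v r ↔ u ∈ ham v r := by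
  unfold hamI
  rw [mem_filter]
  simp

lemma mem_hamI_some {v u : Finset (Fin n)} {e : Fin n} {r : ℕ} :
    (u, some e) ∈ hamI v r ↔ u ∈ ham v r ∧ tg u e ∈ ham v r := by
  unfold hamI
  rw [mem_filter]
  simp

lemma tg_erase_cases (u : Finset (Fin n)) (e : Fin n) :
    (u.erase e = u ∧ tg (u.erase e) e = tg u e) ∨ (u.erase e = tg u e ∧ tg (u.erase e) e = u) := by
  by_cases he : e ∈ u
  · right
    rw [← tg_of_mem he, tg_tg]
    exact ⟨rfl, rfl⟩
  · left
    rw [erase_eq_of_notMem he]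
    exact ⟨rfl, rfl⟩

lemma ed_mem_hamI {v u : Finset (Fin n)} {e : Fin n} {r : ℕ} (h1 : u ∈ ham v r)
    (h2 : tg u e ∈ ham v r) : ed u e ∈ hamI v r := by
  unfold ed
  rw [mem_hamI_some]
  rcases tg_erase_cases u e with ⟨h3, h4⟩ | ⟨h3, h4⟩
  · rw [h4, h3]; exact ⟨h1, h2⟩
  · rw [h4, h3]; exact ⟨h2, h1⟩

lemma ed_mem_hamI_iff {v u : Finset (Fin n)} {e : Fin n} {r : ℕ} :
    ed u e ∈ hamI v r ↔ u ∈ ham v r ∧ tg u e ∈ ham v r := by
  constructor
  · intro h
    unfold ed at h
    rw [mem_hamI_some] at h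
    rcases tg_erase_cases u e with ⟨h3, h4⟩ | ⟨h3, h4⟩
    · rw [h4, h3] at h; exact h
    · rw [h4, h3] at h; exact ⟨h.2, h.1⟩
  · rintro ⟨h1, h2⟩; exact ed_mem_hamI h1 h2

lemma hamI_mono {v : Finset (Fin n)} {r s : ℕ} (h : r ≤ s) : hamI v r ⊆ hamI v s := by
  intro x hx
  unfold hamI at *
  rw [mem_filter] at *
  exact ⟨mem_univ _, ham_mono h hx.2.1, fun e he => ham_mono h (hx.2.2 e he)⟩

lemma hamI_trans {u v : Finset (Fin n)} {x : Ix n} {r s : ℕ} (h1 : v ∈ ham u r)
    (h2 : x ∈ hamI v s) : x ∈ hamI u (r + s) := by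
  unfold hamI at *
  rw [mem_filter] at *
  exact ⟨mem_univ _, ham_trans h1 h2.2.1, fun e he => ham_trans h1 (h2.2.2 e he)⟩

lemma fst_mem_of_hamI {v : Finset (Fin n)} {x : Ix n} {r : ℕ} (h : x ∈ hamI v r) :
    x.1 ∈ ham v r := (mem_filter.1 h).2.1

lemma card_hamI (v : Finset (Fin n)) (r : ℕ) : (hamI v r).card ≤ (n + 1) ^ (r + 1) := by
  have h1 : hamI v r ⊆ (ham v r) ×ˢ (univ : Finset (Option (Fin n))) := by
    intro x hx
    rw [mem_product]
    exact ⟨fst_mem_of_hamI hx, mem_univ _⟩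
  refine (card_le_card h1).trans ?_
  rw [card_product, card_univ, Fintype.card_option, Fintype.card_fin, pow_succ]
  exact Nat.mul_le_mul_right _ (card_ham v r)

end Pool.Agent.SK.Lin
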