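import Pool.Agent.Lib.MP_5fcc10_co.Core3

/-! Parameters. -/

set_option linter.unusedSectionVars false

namespace Pool.Agent.SK.Lin

open Finset Filter

/-- the relations between the parameters -/
structure Asy (k p : ℕ) (β : ℝ) : Prop where
  e : (k:ℝ) = 4 * p * β ^ 4
  u : (k:ℝ) ≤ 8 ^ 16 * β ^ 64
  l : β ^ 60 ≤ p

lemma asy_a1 {s : ℕ} (h : 2 ≤ s) : s + 1 ≤ s * s := by nlinarith

lemma asy_a2 {k p s : ℝ} (h1 : k ≤ (p + 1) * s) (h2 : s + 1 ≤ p) : k ≤ (s + 1) * p := by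
  linarith

lemma asy_a3 {p s : ℝ} (h1 : 1 ≤ s) (h2 : 0 ≤ p) : (s + 1) * p ≤ (2 * p) * s := by nlinarith

theorem exists_asy (B : ℝ) : ∃ k0 : ℕ, ∀ k ≥ k0, ∃ (p : ℕ) (β : ℝ), B ≤ β ∧ Asy k p β := by
  obtain ⟨s0, hs0⟩ := exists_nat_gt (4 * (|B| + 1) ^ 4 + 1)
  refine ⟨(s0 + 2) ^ 16, fun k hk => ?_⟩
  obtain ⟨s, hs1, hs2⟩ : ∃ s : ℕ, s ^ 16 ≤ k ∧ k < (s + 1) ^ 16 := by
    refine ⟨Nat.findGreatest (fun s => s ^ 16 ≤ k) k, ?_, ?_⟩
    · exact Nat.findGreatest_spec (P := fun s => s ^ 16 ≤ k) (Nat.zero_le k) (by simp)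
    · by_contra hcon
      push Not at hcon
      set r := Nat.findGreatest (fun s => s ^ 16 ≤ k) k with hr
      have h1 : r + 1 ≤ k := le_trans (Nat.le_self_pow (by norm_num) _) hcon
      have h2 := Nat.findGreatest_is_greatest (P := fun s => s ^ 16 ≤ k) (n := k)
        (Nat.lt_succ_self r) h1
      exact h2 hcon
  have hss0 : s0 + 2 ≤ s := by
    by_contra hcon
    push Not at hcon
    have h1 : (s + 1) ^ 16 ≤ (s0 + 2) ^ 16 := Nat.pow_le_pow_left (by omega) 16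
    omega
  have hs0' : 0 < s := by omega
  have hk0 : 0 < k := lt_of_lt_of_le (Nat.pow_pos hs0') hs1
  set p := k / s with hp
  have hps : p * s ≤ k := Nat.div_mul_le_self k s
  have hps2 : k < (p + 1) * s := by
    have := Nat.lt_succ_self (k / s)
    rw [hp]
    exact (Nat.div_lt_iff_lt_mul hs0').1 (Nat.lt_succ_self _)
  have hs2' : s * (s + 1) ≤ k := by
    refine le_trans ?_ hs1
    calc s * (s + 1) ≤ s * (s * s) := by
          exact Nat.mul_le_mul_left _ (asy_a1 (by omega))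
      _ = s ^ 3 := by ring
      _ ≤ s ^ 16 := Nat.pow_le_pow_right hs0' (by norm_num)
  have hp1 : s + 1 ≤ p := by
    rw [hp, Nat.le_div_iff_mul_le hs0']
    calc (s + 1) * s = s * (s + 1) := by ring
      _ ≤ k := hs2'
  have hp0 : 0 < p := by omega
  have hsr : (0:ℝ) < s := by exact_mod_cast hs0'
  have hpr : (0:ℝ) < p := by exact_mod_cast hp0
  have hkr : (0:ℝ) < k := by exact_mod_cast hk0
  -- bounds for k / p
  have b1 : (s:ℝ) ≤ k / p := by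
    rw [le_div_iff₀ hpr]
    have : (p:ℝ) * s ≤ k := by exact_mod_cast hps
    linarith
  have b2 : (k:ℝ) / p ≤ s + 1 := by
    rw [div_le_iff₀ hpr]
    have h1 : (k:ℝ) ≤ (p + 1) * s := by exact_mod_cast hps2.le
    have h2 : (s:ℝ) + 1 ≤ p := by exact_mod_cast hp1
    exact asy_a2 h1 h2
  have hX : (0:ℝ) < k / (4 * p) := div_pos hkr (mul_pos (by norm_num) hpr)
  have hBB : (0:ℝ) ≤ |B| + 1 := by linarith [abs_nonneg B]
  refine ⟨p, ((k:ℝ) / (4 * p)) ^ (1/4 : ℝ), ?_, ?_⟩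
  · have h1 : (4 * (|B| + 1) ^ 4 + 1 : ℝ) < s := by
      have : (s0:ℝ) ≤ s := by exact_mod_cast (by omega : s0 ≤ s)
      linarith
    have h2 : (|B| + 1) ^ 4 ≤ (k:ℝ) / (4 * p) := by
      have : (k:ℝ) / (4 * p) = k / p / 4 := by rw [mul_comm 4 (p:ℝ), div_div]
      rw [this]
      linarith
    have h3 : |B| + 1 ≤ ((k:ℝ) / (4 * p)) ^ (1/4 : ℝ) := by
      have h4 : ((|B| + 1) ^ 4) ^ (1/4 : ℝ) ≤ ((k:ℝ) / (4 * p)) ^ (1/4 : ℝ) :=
        Real.rpow_le_rpow (pow_nonneg hBB 4) h2 (by norm_num)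
      have h5 : ((|B| + 1) ^ 4) ^ (1/4 : ℝ) = |B| + 1 := by
        rw [← Real.rpow_natCast, ← Real.rpow_mul hBB]
        norm_num
      rwa [h5] at h4
    have := le_abs_self B
    linarith
  · have hβ4 : (((k:ℝ) / (4 * p)) ^ (1/4 : ℝ)) ^ 4 = (k:ℝ) / (4 * p) := by
      rw [← Real.rpow_natCast, ← Real.rpow_mul hX.le]
      norm_num
    have hβ00 : 0 ≤ ((k:ℝ) / (4 * p)) ^ (1/4 : ℝ) := Real.rpow_nonneg hX.le _
    set β := ((k:ℝ) / (4 * p)) ^ (1/4 : ℝ) with hβ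
    have hs4 : (s:ℝ) ≤ 4 * β ^ 4 := by
      rw [hβ4]
      have : 4 * ((k:ℝ) / (4 * p)) = k / p := by field_simp
      rw [this]; exact b1
    have hs5 : 4 * β ^ 4 ≤ s + 1 := by
      rw [hβ4]
      have : 4 * ((k:ℝ) / (4 * p)) = k / p := by field_simp
      rw [this]; exact b2
    have hs1r : (1:ℝ) ≤ s := by exact_mod_cast hs0'
    refine ⟨?_, ?_, ?_⟩
    · rw [hβ4]; field_simp
    · have h1 : (k:ℝ) ≤ (s + 1) ^ 16 := by exact_mod_cast hs2.le
      calc (k:ℝ) ≤ (s + 1) ^ 16 := h1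
        _ ≤ (2 * (4 * β ^ 4)) ^ 16 := by
            apply pow_le_pow_left₀ (by linarith)
            linarith
        _ = 8 ^ 16 * β ^ 64 := by ring
    · have h1 : (s:ℝ) ^ 16 ≤ k := by exact_mod_cast hs1
      have h2 : (s:ℝ) ^ 15 ≤ 2 * p := by
        have h3 : (k:ℝ) ≤ (s + 1) * p := by
          rw [div_le_iff₀ hpr] at b2; exact b2
        have h4 : (s:ℝ) ^ 15 * s ≤ (2 * p) * s := by
          have h10 : (s:ℝ) ^ 15 * s = (s:ℝ) ^ 16 := by ring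
          have h11 : ((s:ℝ) + 1) * p ≤ (2 * p) * s := asy_a3 hs1r hpr.le
          linarith
        exact le_of_mul_le_mul_right h4 hsr
      have h5 : 2 * β ^ 4 ≤ s := by linarith
      have h6 : (2 * β ^ 4) ^ 15 ≤ 2 * p := (pow_le_pow_left₀ (mul_nonneg (by norm_num) (pow_nonneg hβ00 4)) h5 15).trans h2
      have h7 : (2 * β ^ 4) ^ 15 = 2 ^ 15 * β ^ 60 := by ring
      rw [h7] at h6
      have h8 : 0 ≤ β ^ 60 := pow_nonneg hβ00 60
      linarith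

end Pool.Agent.SK.Lin
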