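import Pool.Agent.Lib.MP_5fcc10_co_lin.Num3

/-! Numerical consequences, III: the conditions of the local lemma, general form. -/

set_option linter.unusedSectionVars false

namespace Pool.Agent.SK.Lin

open Finset Filter

variable {k p : ℕ} {β X : ℝ}

/-- the number of vertices of a ball of radius one -/
structure AX (k p : ℕ) (β X : ℝ) : Prop where
  h : Asy k p β
  b : 10 ^ 8 ≤ β
  x1 : 2 * (k:ℝ) + 1 ≤ X
  x2 : X ≤ β ^ 66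

lemma AX.basic (h : AX k p β X) : 0 < β ∧ 1 ≤ β ∧ 1 ≤ X ∧ β ^ 64 ≤ X ∧ (p:ℝ) ≤ X ∧
    2 * (JJ k β : ℝ) + 2 ≤ X ∧ β ≤ X := by
  have hb := h.b
  have h1 := h.h.X_ge hb
  have h2 := h.h.pX hb
  have h3 : 2 * (JJ k β : ℝ) + 2 ≤ k := by exact_mod_cast h.h.J_k hb
  have h4 : (0:ℝ) ≤ k := Nat.cast_nonneg k
  have hβ1 : 1 ≤ β := by linarith
  have h5 : β ≤ β ^ 64 := by
    calc β = β ^ 1 := (pow_one β).symm
      _ ≤ β ^ 64 := pow_mono hβ1 (by norm_num)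
  have hx := h.x1
  exact ⟨by linarith, hβ1, by linarith, by linarith, by linarith, by linarith, by linarith⟩

lemma AX.cs1 (h : AX k p β X) (R : ℕ) (r : ℕ) (hr : r ≤ R + 1) :
    (X ^ (R + 3))⁻¹ * X ^ r ≤ 1 / 4 := by
  obtain ⟨h0, h1, h2, h3, h4, h5, h6⟩ := h.basic
  have hb := h.b
  rw [inv_mul_le_iff₀ (by positivity)]
  have h7 : X ^ r ≤ X ^ (R + 1) := pow_le_pow_right₀ h2 hr
  have h8 : X ^ (R + 3) = X ^ (R + 1) * X ^ 2 := by ring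
  rw [h8]
  have h9 : (4:ℝ) ≤ X ^ 2 := by nlinarith
  have h10 : (0:ℝ) < X ^ (R + 1) := by positivity
  nlinarith

lemma AX.cs2 (h : AX k p β X) (R : ℕ) (c : ℝ) (hc : 4 * c ≤ β) :
    (X ^ (R + 3))⁻¹ * c ≤ 1 / 4 := by
  obtain ⟨h0, h1, h2, h3, h4, h5, h6⟩ := h.basic
  rw [inv_mul_le_iff₀ (by positivity)]
  have h7 : X ≤ X ^ (R + 3) := by
    calc X = X ^ 1 := (pow_one _).symm
      _ ≤ X ^ (R + 3) := pow_le_pow_right₀ h2 (by omega)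
  linarith

lemma AX.cs3 (h : AX k p β X) (R : ℕ) :
    (X ^ (R + 3))⁻¹ * (4 * (JJ k β : ℝ) + 2) ≤ 1 / 4 := by
  obtain ⟨h0, h1, h2, h3, h4, h5, h6⟩ := h.basic
  have hb := h.b
  rw [inv_mul_le_iff₀ (by positivity)]
  have h7 : X ^ 2 ≤ X ^ (R + 3) := pow_le_pow_right₀ h2 (by omega)
  nlinarith

lemma AX.c1 (R C : ℕ) : ∃ B : ℝ, ∀ (β X : ℝ) (k p : ℕ), B ≤ β → AX k p β X →
    2 * (X ^ R * (2 * p) * X * (β ^ C * Real.exp (-β))) ≤ (X ^ (R + 3))⁻¹ / 4 := by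
  obtain ⟨b, hb⟩ := exp_dominates (66 * (2 * R + 5) + C + 1)
  refine ⟨b, ?_⟩
  intro β X k p hB h
  obtain ⟨h0, hβ1, h2, h3, hp, h5, h6⟩ := h.basic
  have hb8 := h.b
  have h1 := hb β hB
  have hX := h.x2
  have hexp := Real.exp_pos (-β)
  have hX0 : 0 < X := by linarith
  rw [inv_eq_one_div, div_div, le_div_iff₀ (by positivity)]
  calc 2 * (X ^ R * (2 * p) * X * (β ^ C * Real.exp (-β))) * (X ^ (R + 3) * 4)
      ≤ 2 * (X ^ R * (2 * X) * X * (β ^ C * Real.exp (-β))) * (X ^ (R + 3) * 4) := by gcongr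
    _ = 16 * (X ^ (2 * R + 5) * (β ^ C * Real.exp (-β))) := by ring
    _ ≤ 16 * ((β ^ 66) ^ (2 * R + 5) * (β ^ C * Real.exp (-β))) := by gcongr
    _ = 8 * (2 * (β ^ (66 * (2 * R + 5) + C) * Real.exp (-β))) := by
        rw [← pow_mul, pow_add]; ring
    _ ≤ 8 * (β * (β ^ (66 * (2 * R + 5) + C) * Real.exp (-β))) := by gcongr; linarith
    _ = 8 * (β ^ (66 * (2 * R + 5) + C + 1) * Real.exp (-β)) := by rw [pow_succ]; ring
    _ ≤ 1 := h1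

/-- the value of the chain weight -/
lemma AX.zeta (h : AX k p β X) (C1 : ℝ) (hC1 : 0 ≤ C1)
    (hC : C1 * (16 + 16 ^ 20) ≤ β) (γ : ℝ) (hγ : γ = ((2 * k + 1 : ℕ) : ℝ) / p) :
    8 * β ^ 4 ≤ γ ∧ γ ≤ 16 * β ^ 4 ∧ C1 * (γ / p + γ ^ (17 + 3) / (p:ℝ) ^ 2) ≤ 1 / β ^ 39 := by
  obtain ⟨hβ0, hβ1, h2, h3, hpX, h5, h6⟩ := h.basic
  have hβ := h.b
  have hp := h.h.l
  have hp0 : (0:ℝ) < p := lt_of_lt_of_le (by positivity) hp
  have hk := h.h.e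
  have hkge := h.h.k_ge hβ
  have h64 : (1:ℝ) ≤ β ^ 64 := one_le_pow₀ hβ1
  have e0 : 8 * β ^ 4 ≤ γ := by
    rw [hγ, le_div_iff₀ hp0]; push_cast; rw [hk]; linarith
  have e1 : γ ≤ 16 * β ^ 4 := by
    rw [hγ, div_le_iff₀ hp0]; push_cast
    have : 16 * β ^ 4 * p = 4 * k := by rw [hk]; ring
    rw [this]; linarith
  have hγ0 : 0 ≤ γ := le_trans (by positivity) e0
  refine ⟨e0, e1, ?_⟩
  have h1 : γ / p ≤ 16 / β ^ 40 := by
    rw [div_le_div_iff₀ hp0 (by positivity)]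
    calc γ * β ^ 40 ≤ 16 * β ^ 4 * β ^ 40 := by gcongr
      _ = 16 * β ^ 44 := by ring
      _ ≤ 16 * β ^ 60 := by
          apply mul_le_mul_of_nonneg_left (pow_mono hβ1 (by norm_num)) (by norm_num)
      _ ≤ 16 * p := by gcongr
  have h2 : γ ^ (17 + 3) / (p:ℝ) ^ 2 ≤ 16 ^ 20 / β ^ 40 := by
    rw [div_le_div_iff₀ (by positivity) (by positivity)]
    calc γ ^ (17 + 3) * β ^ 40 ≤ (16 * β ^ 4) ^ (17 + 3) * β ^ 40 := by gcongr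
      _ = 16 ^ 20 * (β ^ 60) ^ 2 := by ring
      _ ≤ 16 ^ 20 * (p:ℝ) ^ 2 := by gcongr
  calc C1 * (γ / p + γ ^ (17 + 3) / (p:ℝ) ^ 2) ≤ C1 * (16 / β ^ 40 + 16 ^ 20 / β ^ 40) := by
        gcongr
    _ = (C1 * (16 + 16 ^ 20)) / β ^ 40 := by ring
    _ ≤ β / β ^ 40 := by gcongr
    _ = 1 / β ^ 39 := by field_simp

lemma AX.c2 (h : AX k p β X) (R d0 : ℕ) (ζ : ℝ) (hζ0 : 0 ≤ ζ) (hζ : ζ ≤ 1 / β ^ 39) :
    2 * (X ^ (17 + d0) * p * ζ ^ (2 * (R + d0 + 21))) ≤ (X ^ (R + 3))⁻¹ / 4 := by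
  obtain ⟨hβ0, hβ1, h2, h3, hp, h5, h6⟩ := h.basic
  have hβ := h.b
  have hX := h.x2
  have hX0 : 0 < X := by linarith
  rw [inv_eq_one_div, div_div, le_div_iff₀ (by positivity)]
  have h1 : ζ ^ (2 * (R + d0 + 21)) ≤ 1 / (β ^ 39) ^ (2 * (R + d0 + 21)) := by
    calc ζ ^ (2 * (R + d0 + 21)) ≤ (1 / β ^ 39) ^ (2 * (R + d0 + 21)) :=
          pow_le_pow_left₀ hζ0 hζ _
      _ = _ := by rw [div_pow, one_pow]
  calc 2 * (X ^ (17 + d0) * p * ζ ^ (2 * (R + d0 + 21))) * (X ^ (R + 3) * 4)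
      ≤ 2 * (X ^ (17 + d0) * X * (1 / (β ^ 39) ^ (2 * (R + d0 + 21)))) * (X ^ (R + 3) * 4) := by
        gcongr
    _ = 8 * X ^ (R + d0 + 21) / (β ^ 39) ^ (2 * (R + d0 + 21)) := by
        have : X ^ (R + d0 + 21) = X ^ (17 + d0) * X * X ^ (R + 3) := by ring
        rw [this]; ring
    _ ≤ 8 * (β ^ 66) ^ (R + d0 + 21) / (β ^ 39) ^ (2 * (R + d0 + 21)) := by gcongr
    _ ≤ 1 := by
        rw [div_le_one (by positivity)]
        calc 8 * (β ^ 66) ^ (R + d0 + 21) ≤ β * (β ^ 66) ^ (R + d0 + 21) := by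
              gcongr; linarith
          _ = β ^ (1 + 66 * (R + d0 + 21)) := by
              rw [pow_add β 1 (66 * (R + d0 + 21)), pow_mul, pow_one]
          _ ≤ β ^ (39 * (2 * (R + d0 + 21))) := pow_mono hβ1 (by omega)
          _ = _ := by rw [pow_mul]

lemma AX.c3 (h : AX k p β X) (R d0 : ℕ) (hd0 : d0 = 4 * R + 24) :
    2 * ∑ d ∈ Finset.Ioc d0 (2 * JJ k β + 1), (p : ℝ) ^ 2 *
      (4 * d * ((2 * k + 1 : ℕ) : ℝ) ^ (d - 1) * d.factorial) * (1 / (p : ℝ)) ^ (2 * d)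
      ≤ (X ^ (R + 3))⁻¹ / 4 := by
  obtain ⟨hβ0, hβ1, h2, h3, hpX, h5, h6⟩ := h.basic
  have hβ := h.b
  have hX := h.x2
  have hX0 : 0 < X := by linarith
  have hp := h.h.l
  have hp0 : (0:ℝ) < p := lt_of_lt_of_le (by positivity) hp
  have hJ := h.h.J_le hβ
  have hkge := h.h.k_ge hβ
  have h64 : (1:ℝ) ≤ β ^ 64 := one_le_pow₀ hβ1
  have hk1 : (1:ℝ) ≤ k := by linarith
  have hJ1 : (1:ℝ) ≤ JJ k β := by exact_mod_cast h.h.J_pos hβ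
  set J : ℝ := (JJ k β : ℝ) with hJd
  set Y : ℝ := ((2 * k + 1 : ℕ) : ℝ) with hY
  have hY1 : 1 ≤ Y := by rw [hY]; push_cast; linarith
  have hYk : Y ≤ 12 * p * β ^ 4 := by
    rw [hY]; push_cast
    have : 12 * (p:ℝ) * β ^ 4 = 3 * k := by rw [h.h.e]; ring
    rw [this]; linarith
  set ρ : ℝ := 3 * Y * J / (p:ℝ) ^ 2 with hρ
  have hρ0 : 0 ≤ ρ := by positivity
  have hρ1 : ρ ≤ 1 / β ^ 21 := by
    rw [hρ, div_le_div_iff₀ (by positivity) (by positivity)]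
    calc 3 * Y * J * β ^ 21 ≤ 3 * (12 * p * β ^ 4) * β ^ 34 * β ^ 21 := by gcongr
      _ = 36 * β ^ 59 * p := by ring
      _ ≤ β * β ^ 59 * p := by gcongr; linarith
      _ = β ^ 60 * p := by ring
      _ ≤ p * p := by gcongr
      _ = 1 * (p:ℝ) ^ 2 := by ring
  have hρ2 : ρ ≤ 1 := by
    refine hρ1.trans ?_
    rw [div_le_one (by positivity)]
    exact one_le_pow₀ hβ1
  have hterm : ∀ d ∈ Finset.Ioc d0 (2 * JJ k β + 1), (p : ℝ) ^ 2 * (4 * d * Y ^ (d - 1)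
      * d.factorial) * (1 / (p : ℝ)) ^ (2 * d) ≤ 12 * J * (p:ℝ) ^ 2 * ρ ^ (d0 + 1) := by
    intro d hd
    rw [mem_Ioc] at hd
    have hdJ : (d:ℝ) ≤ 3 * J := by
      have : (d:ℝ) ≤ ((2 * JJ k β + 1 : ℕ) : ℝ) := by exact_mod_cast hd.2
      push_cast at this; linarith
    have h1 : (d.factorial : ℝ) ≤ (3 * J) ^ d := by
      calc (d.factorial : ℝ) ≤ (d:ℝ) ^ d := by exact_mod_cast Nat.factorial_le_pow d
        _ ≤ (3 * J) ^ d := pow_le_pow_left₀ (Nat.cast_nonneg _) hdJ d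
    have h2 : Y ^ (d - 1) ≤ Y ^ d := pow_le_pow_right₀ hY1 (by omega)
    calc (p : ℝ) ^ 2 * (4 * d * Y ^ (d - 1) * d.factorial) * (1 / (p : ℝ)) ^ (2 * d)
        ≤ (p : ℝ) ^ 2 * (4 * (3 * J) * Y ^ d * (3 * J) ^ d)
          * (1 / (p : ℝ)) ^ (2 * d) := by gcongr
      _ = 12 * J * (p:ℝ) ^ 2 * ρ ^ d := by
          rw [hρ, pow_mul (1 / (p:ℝ)) 2 d, div_pow, div_pow, one_pow, div_pow, one_pow]
          have : (3 * Y * J) ^ d = Y ^ d * (3 * J) ^ d := by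
            rw [← mul_pow]; congr 1; ring
          rw [this]
          ring
      _ ≤ 12 * J * (p:ℝ) ^ 2 * ρ ^ (d0 + 1) := by
          apply mul_le_mul_of_nonneg_left _ (by positivity)
          exact pow_le_pow_of_le_one hρ0 hρ2 (by omega)
  have hsum : ∑ d ∈ Finset.Ioc d0 (2 * JJ k β + 1), (p : ℝ) ^ 2 * (4 * d * Y ^ (d - 1)
      * d.factorial) * (1 / (p : ℝ)) ^ (2 * d) ≤ 3 * J * (12 * J * (p:ℝ) ^ 2 * ρ ^ (d0 + 1)) := by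
    refine (sum_le_sum hterm).trans ?_
    rw [sum_const, nsmul_eq_mul, Nat.card_Ioc]
    apply mul_le_mul_of_nonneg_right _ (by positivity)
    have : ((2 * JJ k β + 1 - d0 : ℕ) : ℝ) ≤ ((2 * JJ k β + 1 : ℕ) : ℝ) := by
      exact_mod_cast Nat.sub_le _ _
    push_cast at this
    linarith
  refine (mul_le_mul_of_nonneg_left hsum (by norm_num)).trans ?_
  rw [inv_eq_one_div, div_div, le_div_iff₀ (by positivity)]
  have h1 : ρ ^ (d0 + 1) ≤ 1 / (β ^ 21) ^ (d0 + 1) := by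
    calc ρ ^ (d0 + 1) ≤ (1 / β ^ 21) ^ (d0 + 1) := pow_le_pow_left₀ hρ0 hρ1 _
      _ = _ := by rw [div_pow, one_pow]
  calc 2 * (3 * J * (12 * J * (p:ℝ) ^ 2 * ρ ^ (d0 + 1))) * (X ^ (R + 3) * 4)
      ≤ 2 * (3 * β ^ 34 * (12 * β ^ 34 * (β ^ 66) ^ 2 * (1 / (β ^ 21) ^ (d0 + 1))))
        * ((β ^ 66) ^ (R + 3) * 4) := by
        have hpX' : (p:ℝ) ≤ β ^ 66 := hpX.trans hX
        gcongr
    _ = 288 * β ^ (200 + 66 * (R + 3)) / (β ^ 21) ^ (d0 + 1) := by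
        rw [pow_add β 200 (66 * (R + 3)), pow_mul β 66 (R + 3)]; ring
    _ ≤ 1 := by
        rw [div_le_one (by positivity)]
        calc 288 * β ^ (200 + 66 * (R + 3)) ≤ β * β ^ (200 + 66 * (R + 3)) := by
              gcongr; linarith
          _ = β ^ (1 + (200 + 66 * (R + 3))) := by rw [pow_add β 1, pow_one]
          _ ≤ β ^ (21 * (d0 + 1)) := pow_mono hβ1 (by omega)
          _ = _ := by rw [pow_mul]

lemma Asy.x_le2 (h : Asy k p β) (hβ : 10 ^ 8 ≤ β) : 2 * (k:ℝ) + 2 ≤ β ^ 66 := by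
  have h1 := h.u
  have h2 : (10:ℝ) ^ 16 ≤ β ^ 2 := by
    calc (10:ℝ) ^ 16 = (10 ^ 8) ^ 2 := by norm_num
      _ ≤ β ^ 2 := pow_le_pow_left₀ (by norm_num) hβ 2
  have h3 : (1:ℝ) ≤ β ^ 64 := one_le_pow₀ (by linarith)
  calc 2 * (k:ℝ) + 2 ≤ 2 * (8 ^ 16 * β ^ 64) + 2 * β ^ 64 := by linarith
    _ = (2 * 8 ^ 16 + 2) * β ^ 64 := by ring
    _ ≤ 10 ^ 16 * β ^ 64 := by
        apply mul_le_mul_of_nonneg_right _ (by positivity)
        norm_num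
    _ ≤ β ^ 2 * β ^ 64 := mul_le_mul_of_nonneg_right h2 (by positivity)
    _ = β ^ 66 := by ring

end Pool.Agent.SK.Lin
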