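import Pool.Agent.Lib.MP_5fcc10_co_lin.Num4
import Pool.Agent.Lib.MP_5fcc10_co_lin.EvenD

/-! Numerical consequences, IV: the conditions specific to the odd case. -/

set_option linter.unusedSectionVars false

namespace Pool.Agent.SK.Lin

open Finset Filter

variable {k p : ℕ} {β X : ℝ}

/-- the total bad probability at one vertex -/
lemma AX.pbound (h : AX k p β X) (hX : X = 2 * (k:ℝ) + 2) (C : ℕ) :
    β ^ C * Real.exp (-β) + (2 * Real.exp (-(((k:ℝ) + 1) / (4 * p) / 16))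
      + ((2 * k + 1 : ℕ) : ℝ) * (15 / 16) ^ k) ≤ β ^ (C + 67) * Real.exp (-β) := by
  obtain ⟨hβ0, hβ1, h2, h3, hpX, h5, h6⟩ := h.basic
  have hβ := h.b
  have hp := h.h.l
  have hp0 : (0:ℝ) < p := lt_of_lt_of_le (by positivity) hp
  have hk := h.h.e
  have hkge := h.h.k_ge hβ
  have hX2 := h.x2
  have e1 : Real.exp (-(((k:ℝ) + 1) / (4 * p) / 16)) ≤ Real.exp (-β) := by
    apply Real.exp_le_exp.2
    apply neg_le_neg
    rw [div_div, le_div_iff₀ (by positivity)]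
    have h7 : 16 * β ≤ β ^ 4 := by
      have : β ^ 4 = β ^ 3 * β := by ring
      rw [this]
      apply mul_le_mul_of_nonneg_right _ hβ0.le
      exact le_pow_of_le hβ1 (by linarith) 3 (by norm_num)
    calc β * (4 * p * 16) = 4 * p * (16 * β) := by ring
      _ ≤ 4 * p * β ^ 4 := by gcongr
      _ = k := hk.symm
      _ ≤ (k:ℝ) + 1 := by linarith
  have e2 : ((15:ℝ) / 16) ^ k ≤ Real.exp (-β) := by
    have h8 : (15:ℝ) / 16 ≤ Real.exp (-(1/16)) := by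
      have := Real.add_one_le_exp (-(1/16:ℝ))
      linarith
    calc ((15:ℝ) / 16) ^ k ≤ (Real.exp (-(1/16))) ^ k := pow_le_pow_left₀ (by norm_num) h8 k
      _ = Real.exp (-((k:ℝ) / 16)) := by rw [← Real.exp_nat_mul]; congr 1; ring
      _ ≤ Real.exp (-β) := by
          apply Real.exp_le_exp.2
          apply neg_le_neg
          have h9 : 4 * β ≤ β ^ 64 := by
            have : β ^ 64 = β ^ 63 * β := by ring
            rw [this]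
            apply mul_le_mul_of_nonneg_right _ hβ0.le
            exact le_pow_of_le hβ1 (by linarith) 63 (by norm_num)
          linarith
  have e3 : ((2 * k + 1 : ℕ) : ℝ) ≤ β ^ 66 := by
    push_cast
    linarith
  have hexp := Real.exp_pos (-β)
  calc β ^ C * Real.exp (-β) + (2 * Real.exp (-(((k:ℝ) + 1) / (4 * p) / 16))
      + ((2 * k + 1 : ℕ) : ℝ) * (15 / 16) ^ k)
      ≤ β ^ C * Real.exp (-β) + (2 * Real.exp (-β) + β ^ 66 * Real.exp (-β)) := by gcongr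
    _ = (β ^ C + 2 + β ^ 66) * Real.exp (-β) := by ring
    _ ≤ β ^ (C + 67) * Real.exp (-β) := by
        apply mul_le_mul_of_nonneg_right _ hexp.le
        have h10 : β ^ C ≤ β ^ (C + 66) := pow_mono hβ1 (by omega)
        have h11 : β ^ 66 ≤ β ^ (C + 66) := pow_mono hβ1 (by omega)
        have h12 : 1 ≤ β ^ (C + 66) := one_le_pow₀ hβ1
        have h13 : β ^ (C + 67) = β * β ^ (C + 66) := by ring
        rw [h13]
        nlinarith

/-- global events -/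
lemma AX.b4 (R' : ℕ) : ∃ B : ℝ, ∀ (β X : ℝ) (k p : ℕ), B ≤ β → AX k p β X →
    X = 2 * (k:ℝ) + 2 →
    (2:ℝ) ^ (2 * k + 1) * Real.exp (-X ^ 2) ≤ 1 ∧
    2 * p * (2 * ((2:ℝ) ^ (2 * k + 1) * Real.exp (-X ^ 2))) ≤ (X ^ (R' + 3))⁻¹ / 4 := by
  obtain ⟨b, hb⟩ := exp_dominates (R' + 5)
  refine ⟨b, ?_⟩
  intro β X k p hB h hX
  obtain ⟨hβ0, hβ1, h2, h3, hpX, h5, h6⟩ := h.basic
  have hβ := h.b
  have hX0 : 0 < X := by linarith
  have h1 := hb X (hB.trans h6)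
  have e1 : (2:ℝ) ^ (2 * k + 1) * Real.exp (-X ^ 2) ≤ Real.exp (-X) := by
    have h7 : (2:ℝ) ≤ Real.exp 1 := by have := Real.add_one_le_exp (1:ℝ); linarith
    have h8 : (2:ℝ) ^ (2 * k + 1) ≤ Real.exp X := by
      calc (2:ℝ) ^ (2 * k + 1) ≤ (Real.exp 1) ^ (2 * k + 1) :=
            pow_le_pow_left₀ (by norm_num) h7 _
        _ = Real.exp (2 * k + 1) := by rw [← Real.exp_nat_mul, mul_one]; push_cast; rfl
        _ ≤ Real.exp X := by apply Real.exp_le_exp.2; linarith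
    calc (2:ℝ) ^ (2 * k + 1) * Real.exp (-X ^ 2) ≤ Real.exp X * Real.exp (-X ^ 2) := by gcongr
      _ = Real.exp (X - X ^ 2) := by rw [← Real.exp_add]; congr 1
      _ ≤ Real.exp (-X) := by
          apply Real.exp_le_exp.2
          nlinarith
  refine ⟨?_, ?_⟩
  · refine e1.trans ?_
    rw [show (1:ℝ) = Real.exp 0 by rw [Real.exp_zero]]
    apply Real.exp_le_exp.2
    linarith
  · have hexp := Real.exp_pos (-X)
    rw [inv_eq_one_div, div_div, le_div_iff₀ (by positivity)]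
    calc 2 * p * (2 * ((2:ℝ) ^ (2 * k + 1) * Real.exp (-X ^ 2))) * (X ^ (R' + 3) * 4)
        ≤ 2 * X * (2 * Real.exp (-X)) * (X ^ (R' + 3) * 4) := by gcongr
      _ = 8 * (2 * (X ^ (R' + 4) * Real.exp (-X))) := by ring
      _ ≤ 8 * (X * (X ^ (R' + 4) * Real.exp (-X))) := by gcongr; linarith
      _ = 8 * (X ^ (R' + 5) * Real.exp (-X)) := by ring
      _ ≤ 1 := h1

lemma AX.b1 (h : AX k p β X) (hX : X = 2 * (k:ℝ) + 2) :
    X ^ 2 + 2 ≤ (((16 * (2 * k + 2) ^ 4 : ℕ) : ℝ) - 1) / (8 * p) := by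
  obtain ⟨hβ0, hβ1, h2, h3, hpX, h5, h6⟩ := h.basic
  have hβ := h.b
  have hp := h.h.l
  have hp0 : (0:ℝ) < p := lt_of_lt_of_le (by positivity) hp
  have e : ((16 * (2 * k + 2) ^ 4 : ℕ) : ℝ) = 16 * X ^ 4 := by rw [hX]; push_cast; ring
  rw [e, le_div_iff₀ (by positivity)]
  have hX0 : 0 < X := by linarith
  have hX10 : 10 ≤ X := by linarith
  have h7 : 1 ≤ X ^ 4 := one_le_pow₀ h2
  have h8 : X ≤ X ^ 3 := by nlinarith [sq_nonneg X, mul_pos hX0 hX0]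
  have h9 : X ^ 3 * 10 ≤ X ^ 4 := by
    have : X ^ 4 = X ^ 3 * X := by ring
    rw [this]
    exact mul_le_mul_of_nonneg_left hX10 (by positivity)
  calc (X ^ 2 + 2) * (8 * p) ≤ (X ^ 2 + 2) * (8 * X) := by gcongr
    _ = 8 * X ^ 3 + 16 * X := by ring
    _ ≤ 16 * X ^ 4 - 1 := by linarith

lemma AX.rho (h : AX k p β X) (ρ : ℕ) (hρ : 4 * (ρ:ℝ) ≤ β) :
    2 * (ρ:ℝ) ≤ ((k:ℝ) + 1) / (8 * p) := by
  obtain ⟨hβ0, hβ1, h2, h3, hpX, h5, h6⟩ := h.basic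
  have hβ := h.b
  have hp := h.h.l
  have hp0 : (0:ℝ) < p := lt_of_lt_of_le (by positivity) hp
  have hk := h.h.e
  rw [le_div_iff₀ (by positivity)]
  have h7 : 4 * (ρ:ℝ) ≤ β ^ 4 := le_pow_of_le hβ1 hρ 4 (by norm_num)
  calc 2 * (ρ:ℝ) * (8 * p) = 4 * p * (4 * ρ) := by ring
    _ ≤ 4 * p * β ^ 4 := by gcongr
    _ = k := hk.symm
    _ ≤ _ := by linarith

lemma AX.ball (h : AX k p β X) (hX : X = 2 * (k:ℝ) + 2) (ρ : ℕ) (hρ : 182 ≤ ρ)
    (hc : (4:ℝ) ^ ρ * (ρ.factorial : ℝ) ≤ β) :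
    (((16 * (2 * k + 2) ^ 4 + 1) * (8 * (k + 1) ^ 2 * (2 * k + 1 + 1) ^ 5) : ℕ) : ℝ)
      ≤ (((k:ℝ) + 1) / (8 * p) / 2) ^ ρ / ρ.factorial := by
  obtain ⟨hβ0, hβ1, h2, h3, hpX, h5, h6⟩ := h.basic
  have hβ := h.b
  have hp := h.h.l
  have hp0 : (0:ℝ) < p := lt_of_lt_of_le (by positivity) hp
  have hk := h.h.e
  have hX2 := h.x2
  have hX0 : 0 < X := by linarith
  have e : (((16 * (2 * k + 2) ^ 4 + 1) * (8 * (k + 1) ^ 2 * (2 * k + 1 + 1) ^ 5) : ℕ) : ℝ)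
      = (16 * X ^ 4 + 1) * (2 * X ^ 2 * X ^ 5) := by rw [hX]; push_cast; ring
  rw [e]
  have h7 : 1 ≤ X ^ 4 := one_le_pow₀ h2
  have e1 : β ^ 4 / 4 ≤ ((k:ℝ) + 1) / (8 * p) / 2 := by
    rw [div_div, div_le_div_iff₀ (by norm_num) (by positivity)]
    have e3 : β ^ 4 * (8 * (p:ℝ) * 2) = 4 * (4 * p * β ^ 4) := by ring
    rw [e3, ← hk]
    linarith
  have hfac : (0:ℝ) < ρ.factorial := by exact_mod_cast Nat.factorial_pos ρ
  have e2 : (β ^ 4 / 4) ^ ρ / ρ.factorial ≤ (((k:ℝ) + 1) / (8 * p) / 2) ^ ρ / ρ.factorial := by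
    gcongr
  refine le_trans ?_ e2
  rw [le_div_iff₀ hfac, div_pow, le_div_iff₀ (by positivity)]
  calc (16 * X ^ 4 + 1) * (2 * X ^ 2 * X ^ 5) * (ρ.factorial : ℝ) * 4 ^ ρ
      = (16 * X ^ 4 + 1) * (2 * X ^ 7) * (4 ^ ρ * (ρ.factorial : ℝ)) := by ring
    _ ≤ (16 * X ^ 4 + X ^ 4) * (2 * X ^ 7) * β := by gcongr
    _ = 34 * X ^ 11 * β := by ring
    _ ≤ β * (β ^ 66) ^ 11 * β := by gcongr; linarith
    _ = β ^ 728 := by ring
    _ ≤ β ^ (4 * ρ) := pow_mono hβ1 (by omega)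
    _ = (β ^ 4) ^ ρ := by rw [pow_mul]

lemma AX.mid (h : AX k p β X) (ρ Ms : ℕ) (hMs : Ms = 66 * (4 * ρ + 9)) (K δ1 : ℝ) (hK : 0 ≤ K)
    (hδ1 : 0 < δ1) (hc : 32 * K / δ1 ≤ β) (D : ℕ) (hD : (D:ℝ) ≤ X) :
    32 * (D * (K / β ^ (Ms + 1))) * X ^ (4 * ρ + 8) ≤ δ1 := by
  obtain ⟨hβ0, hβ1, h2, h3, hpX, h5, h6⟩ := h.basic
  have hX2 := h.x2
  have hX0 : 0 < X := by linarith
  have e : 32 * (D * (K / β ^ (Ms + 1))) * X ^ (4 * ρ + 8)
      = 32 * K * (D * X ^ (4 * ρ + 8)) / β ^ (Ms + 1) := by ring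
  rw [e, div_le_iff₀ (by positivity)]
  rw [div_le_iff₀ hδ1] at hc
  calc 32 * K * (D * X ^ (4 * ρ + 8)) ≤ 32 * K * (X * X ^ (4 * ρ + 8)) := by gcongr
    _ = 32 * K * X ^ (4 * ρ + 9) := by ring
    _ ≤ 32 * K * (β ^ 66) ^ (4 * ρ + 9) := by gcongr
    _ = 32 * K * β ^ Ms := by rw [← pow_mul, ← hMs]
    _ ≤ (β * δ1) * β ^ Ms := by gcongr
    _ = δ1 * β ^ (Ms + 1) := by ring

end Pool.Agent.SK.Lin
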