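import Pool.Agent.Lib.MP_5fcc10_co_lin.EvenA

/-! Assembly of the odd case. -/

set_option linter.unusedSectionVars false

namespace Pool.Agent.SK.Lin

open Finset
open scoped symmDiff

variable {n t : ℕ}

/-- assembly of the odd case -/
theorem odd_asm {k J p D M d0 : ℕ} (ψ : Ix (2 * k + 1) → Lb p) (hJ1 : 1 ≤ J) (hJk : J < k)
    {N : ℕ} (cls : Fin N ≃ Lb p × Fin D)
    (hlow : ∀ (cl : Lb p) (t : ℕ), k - J ≤ t → t < k → Many (2 * k + 1) t D M t
      (fun x e => opP cl ψ x e ∧ ¬ Del d0 ψ cl.1 x e)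
      (if t + 1 = k then farlow (2 * k + 1) (k - J) else ∅) (above k))
    (hhigh : ∀ (cl : Lb p) (t : ℕ), k ≤ t → t < k + 1 + J → Many (2 * k + 1) t D M (t + 1)
      (fun x e => opP cl ψ x e ∧ (k + 1 ≤ t → ¬ Del d0 ψ cl.1 x e))
      (if t = k + 1 then farhigh (2 * k + 1) (k + 1 + J) else ∅) (below (k + 1)))
    (hlong : ∀ d, d0 < d → d ≤ 2 * J + 1 → ∀ (Z : Finset (Fin (2 * k + 1))) (a : Fin d → Fin (2 * k + 1))
      (π : Equiv.Perm (Fin d)) (i j : ZMod p), Function.Injective a → conn π →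
      ¬ DPo ψ Z a π i j)
    (hM : N * (2 * k + 1 + 1) < M) :
    ∃ c : Fin N → Finset (Fin (2 * k + 1)) → Finset (Fin (2 * k + 1)), (∀ i x, (c i x).card = k) ∧
      (∀ i x y, c i x = c i y → x ⊆ y ∨ y ⊆ x) ∧
      (∀ i j, i ≠ j → ∀ x y, x ≠ y → c i x = c i y → c j x ≠ c j y) := by
  classical
  unfold Many at hlow hhigh
  choose! fL gL l1 l2 l3 l4 l5 l6 using hlow
  choose! fH gH h1 h2 h3 h4 h5 h6 using hhigh
  set FL : Fin N → ℕ → Finset (Fin (2 * k + 1)) → Finset (Fin (2 * k + 1)) :=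
    fun i t => fL (cls i).1 t (cls i).2 with hFL
  set FH : Fin N → ℕ → Finset (Fin (2 * k + 1)) → Finset (Fin (2 * k + 1)) :=
    fun i t => fH (cls i).1 t (cls i).2 with hFH
  set R := RR (n := 2 * k + 1) k (k - J) (k + 1 + J) FL FH with hRdef
  obtain ⟨SD⟩ := stepdata_of_ok (n := 2 * k + 1) (m := N) (a := k) (b := k + 1) (lo := k - J) (hi := k + 1 + J)
    (M := M) (κ := Finset (Fin (2 * k + 1))) R id (by omega) (by omega) (by omega)
    (by
      intro i t ht1 ht2
      refine ⟨FL i t, gL (cls i).1 t (cls i).2, ?_, ?_, ?_, ?_, ?_⟩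
      · intro x hx
        have hxc := lev_X.1 hx
        obtain ⟨e, he, hxe, _⟩ := l1 (cls i).1 t ht1 ht2 (cls i).2 x hxc
        refine ⟨?_, ht1, by omega, Or.inl ⟨ht2, hxc, rfl⟩⟩
        change fL (cls i).1 t (cls i).2 x ∈ up x
        rw [hxe, up_eq, mem_image]
        rw [nb_low hxc] at he
        exact ⟨e, he, (tg_of_notMem (mem_compl.1 he)).symm⟩
      · intro x hx x' hx' h
        exact l2 (cls i).1 t ht1 ht2 (cls i).2 x x' (lev_X.1 hx) (lev_X.1 hx') h
      · exact l3 (cls i).1 t ht1 ht2 (cls i).2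
      · exact l4 (cls i).1 t ht1 ht2 (cls i).2
      · exact fun x hx v hv r => l5 (cls i).1 t ht1 ht2 (cls i).2 x (lev_X.1 hx) v hv r)
    (by
      intro i t ht1 ht2
      refine ⟨FH i t, gH (cls i).1 t (cls i).2, ?_, ?_, ?_, ?_, ?_⟩
      · intro x hx
        have hxc : x.card = t + 1 := lev_Y.1 hx
        obtain ⟨e, he, hxe, _⟩ := h1 (cls i).1 t ht1 ht2 (cls i).2 x hxc
        refine ⟨?_, by omega, ht2, Or.inr ⟨ht1, hxc, rfl⟩⟩
        change fH (cls i).1 t (cls i).2 x ∈ dn x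
        rw [hxe, dn_eq, mem_image]
        rw [nb_high hxc] at he
        exact ⟨e, he, (tg_of_mem he).symm⟩
      · intro x hx x' hx' h
        exact h2 (cls i).1 t ht1 ht2 (cls i).2 x x' (lev_Y.1 hx) (lev_Y.1 hx') h
      · exact h3 (cls i).1 t ht1 ht2 (cls i).2
      · exact h4 (cls i).1 t ht1 ht2 (cls i).2
      · exact fun x hx v hv r => h5 (cls i).1 t ht1 ht2 (cls i).2 x (lev_Y.1 hx) v hv r)
  refine assembly SD (by omega) (by omega) (by omega) ?_ hM
  intro i j hij s t hs hst ht x y c1 c2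
  refine sep (n := 2 * k + 1) k (k + 1) (k - J) (k + 1 + J) d0 (2 * J + 1) (by omega) (by omega) ψ
    (fun i => (cls i).1) R ?_ ?_ hlong i j hij s t hs hst ht x y c1 c2
  · rintro i t x y ⟨ht1, ht2, ⟨ht3, hx, rfl⟩ | ⟨ht3, hy, rfl⟩⟩
    · obtain ⟨e, he, hxe, hop, hdel⟩ := l1 (cls i).1 t ht1 ht3 (cls i).2 x hx
      rw [nb_low hx, mem_compl] at he
      refine ⟨hx, e, he, ?_, hop, fun _ => hdel, fun h => absurd h (by omega)⟩
      change fL (cls i).1 t (cls i).2 x = _
      rw [hxe, tg_of_notMem he]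
    · obtain ⟨e, he, hye, hop, hdel⟩ := h1 (cls i).1 t ht3 ht2 (cls i).2 y hy
      have he2 := he
      rw [nb_high hy] at he
      have hfe : FH i t y = y.erase e := by
        change fH (cls i).1 t (cls i).2 y = _
        rw [hye, tg_of_mem he]
      have hfe2 : FH i t y = tg y e := hye
      have hc : (FH i t y).card = t := by rw [hfe, card_erase_of_mem he, hy]; rfl
      refine ⟨hc, e, ?_, ?_, ?_, fun h => absurd h (by omega), hdel⟩
      · rw [hfe]; simp
      · rw [hfe, insert_erase he]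
      · rw [hfe2, opP_symm]; exact hop
  · rintro i j t x y hij ⟨ht1, ht2, ⟨ht3, hx, hy⟩ | ⟨ht3, hy, hx⟩⟩ ⟨_, _, ⟨ht3', hx', hy'⟩ |
      ⟨ht3', hy', hx'⟩⟩
    · obtain ⟨e, he, hxe, hop, _⟩ := l1 (cls i).1 t ht1 ht3 (cls i).2 x hx
      obtain ⟨e', he', hxe', hop', _⟩ := l1 (cls j).1 t ht1 ht3 (cls j).2 x hx
      have e1 : fL (cls i).1 t (cls i).2 x = fL (cls j).1 t (cls j).2 x := hy.symm.trans hy'
      have e2 : e = e' := by
        have h7 : tg x e = tg x e' := by rw [← hxe, ← hxe', e1]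
        have h8 : x ∆ tg x e = x ∆ tg x e' := by rw [h7]
        rw [symmDiff_tg, symmDiff_tg] at h8
        exact singleton_injective h8
      have e3 : (cls i).1 = (cls j).1 := by
        rw [← e2] at hop'
        exact Prod.ext (hop.1.symm.trans hop'.1) (hop.2.symm.trans hop'.2)
      rw [← e3] at e1
      have e4 := l6 (cls i).1 t ht1 ht3 _ _ x hx e1
      exact hij (cls.injective (Prod.ext e3 e4))
    · omega
    · omega
    · obtain ⟨e, he, hxe, hop, _⟩ := h1 (cls i).1 t ht3 ht2 (cls i).2 y hy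
      obtain ⟨e', he', hxe', hop', _⟩ := h1 (cls j).1 t ht3 ht2 (cls j).2 y hy
      have e1 : fH (cls i).1 t (cls i).2 y = fH (cls j).1 t (cls j).2 y := hx.symm.trans hx'
      have e2 : e = e' := by
        have h7 : tg y e = tg y e' := by rw [← hxe, ← hxe', e1]
        have h8 : y ∆ tg y e = y ∆ tg y e' := by rw [h7]
        rw [symmDiff_tg, symmDiff_tg] at h8
        exact singleton_injective h8
      have e3 : (cls i).1 = (cls j).1 := by
        rw [← e2] at hop'
        exact Prod.ext (hop.1.symm.trans hop'.1) (hop.2.symm.trans hop'.2)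
      rw [← e3] at e1
      have e4 := h6 (cls i).1 t ht3 ht2 _ _ y hy e1
      exact hij (cls.injective (Prod.ext e3 e4))

end Pool.Agent.SK.Lin
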