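import Pool.Agent.Lib.MP_5fcc10_co_lin.OddMid
import Pool.Agent.Lib.MP_5fcc10_co_lin_h37.BYP
import Pool.Agent.Lib.MP_5fcc10_co_lin_h53.BallSize
import Pool.Agent.Lib.MP_5fcc10_co_lin_h69.BALL
import Pool.Agent.Lib.MP_5fcc10_co.OddA
import Pool.Agent.Lib.MP_5fcc10_co_lin.EvenC

/-! The odd case with explicit parameters. -/

set_option linter.unusedSectionVars false

namespace Pool.Agent.SK.Lin

open Finset
open scoped symmDiff

variable {k J p D M d0 mr T K2 Ms : ℕ} {K β δ1 : ℝ}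

lemma env_odd [NeZero p] {g t : ℕ} (hP : Par k J p D M d0 mr T K2 Ms K β δ1) (cl : Lb p)
    (hβg : 2 * (k:ℝ) + 2 ≤ β ^ g) (ht1 : k - J ≤ t) (ht2 : t < k + 1 + J) :
    Env g β (2 * k + 1) t p cl (Dn (2 * k + 1) t (1 / (2 * p))) := by
  have hJk := hP.hJk
  refine env_lin cl _ rfl hP.hβ4 (by omega) (by push_cast; linarith) ?_ ?_ ?_ ?_ ?_
  · obtain ⟨h1, h2, _⟩ := hP.basic
    rw [hP.hβ]
    push_cast
    rw [div_le_iff₀ (by positivity)]
    have : (1:ℝ) ≤ p := by exact_mod_cast hP.hp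
    nlinarith
  · exact hP.dlow _ (by omega)
  · exact hP.dlow _ (by omega)
  · exact hP.dhigh _ (by omega)
  · exact hP.dhigh _ (by omega)

open Classical in
/-- the weight of the sets `S` -/
noncomputable def x4 {n p : ℕ} (X : ℝ) (i : Lb p × Finset (Finset (Fin n))) : ℝ :=
  if i.2.Nonempty then Real.exp (-(X ^ 2 * i.2.card)) else 0

lemma x4_nonneg {n p : ℕ} (X : ℝ) (i : Lb p × Finset (Finset (Fin n))) : 0 ≤ x4 X i := by
  unfold x4; split_ifs
  · exact (Real.exp_pos _).le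
  · exact le_rfl

lemma x4_half {n p : ℕ} (X : ℝ) (hX : 1 ≤ X) (i : Lb p × Finset (Finset (Fin n))) :
    x4 X i ≤ 1 / 2 := by
  unfold x4; split_ifs with h
  · have h1 : (1:ℝ) ≤ i.2.card := by exact_mod_cast card_pos.2 h
    have h2 : 1 ≤ X ^ 2 * i.2.card := by
      have : 1 ≤ X ^ 2 := one_le_pow₀ hX
      nlinarith
    have h3 : Real.exp (-(X ^ 2 * i.2.card)) ≤ Real.exp (-1) := by
      apply Real.exp_le_exp.2; linarith
    have h4 : Real.exp (-1) ≤ 1 / 2 := by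
      rw [Real.exp_neg, ← one_div]
      apply one_div_le_one_div_of_le (by norm_num)
      have := Real.add_one_le_exp (1:ℝ)
      linarith
    linarith
  · norm_num

lemma x4_sum {n p : ℕ} [NeZero p] (X : ℝ) (hz : (2:ℝ) ^ n * Real.exp (-X ^ 2) ≤ 1) :
    ∑ i : Lb p × Finset (Finset (Fin n)), x4 X i ≤ 2 * p * (2 * (2 ^ n * Real.exp (-X ^ 2))) := by
  classical
  set z := Real.exp (-X ^ 2) with hzd
  have hz0 : 0 < z := Real.exp_pos _
  rw [Fintype.sum_prod_type]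
  have h1 : ∀ cl : Lb p, ∑ S : Finset (Finset (Fin n)), x4 X (cl, S) = (1 + z) ^ (2 ^ n) - 1 := by
    intro cl
    have h2 := Fintype.sum_pow_mul_eq_add_pow (Finset (Fin n)) z (1:ℝ)
    simp only [one_pow, mul_one] at h2
    rw [Fintype.card_finset, Fintype.card_fin] at h2
    have h3 : ∑ S : Finset (Finset (Fin n)), x4 X (cl, S)
        = ∑ S : Finset (Finset (Fin n)), (z ^ S.card - if S = ∅ then 1 else 0) := by
      refine sum_congr rfl (fun S _ => ?_)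
      unfold x4
      by_cases hS : S = ∅
      · subst hS; simp
      · rw [if_pos (nonempty_iff_ne_empty.2 hS), if_neg hS, sub_zero, hzd, ← Real.exp_nat_mul]
        congr 1
        simp only
        ring
    rw [h3, sum_sub_distrib, h2, sum_ite_eq' univ ∅, if_pos (mem_univ _), add_comm]
  rw [sum_congr rfl (fun cl _ => h1 cl), sum_const, card_univ, nsmul_eq_mul, card_Lb]
  apply mul_le_mul_of_nonneg_left _ (by positivity)
  have h2 : (1 + z) ^ (2 ^ n) ≤ Real.exp (2 ^ n * z) := by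
    have h3 : 1 + z ≤ Real.exp z := by have := Real.add_one_le_exp z; linarith
    calc (1 + z) ^ (2 ^ n) ≤ (Real.exp z) ^ (2 ^ n) := pow_le_pow_left₀ (by linarith) h3 _
      _ = Real.exp (2 ^ n * z) := by rw [← Real.exp_nat_mul]; push_cast; rfl
  have h3 := Real.abs_exp_sub_one_le (x := 2 ^ n * z) (by rw [abs_of_nonneg (by positivity)]; exact hz)
  rw [abs_of_nonneg (show (0:ℝ) ≤ 2 ^ n * z by positivity)] at h3
  have h4 := le_abs_self (Real.exp (2 ^ n * z) - 1)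
  linarith

open Classical in
theorem odd_core_lin (g Ms : ℕ) (K : ℝ) (R C : ℕ) (β0 : ℝ)
    (hstage : ∀ (β : ℝ) (n t : ℕ) (p : ℕ) [NeZero p] (cl : Lb p) (Dl : ℕ → ℝ), β0 ≤ β →
      Env g β n t p cl Dl → ∃ h k Bd, Out Ms K R C β n t p cl Dl h k Bd)
    {k J p D M d0 mr T K2 : ℕ} [NeZero p] {β δ1 : ℝ} (hP : Par k J p D M d0 mr T K2 Ms K β δ1)
    (hp2 : 2 ≤ p) (hDl' : ((k : ℝ) + J + 1) / (2 * p) ≤ 4 * D)
    (hFo : M * (k * Real.exp (-((J:ℝ) ^ 2 / ((2 * k + 1 : ℕ) : ℝ)))) ≤ 1 / (4 * k))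
    (hββ : β0 ≤ β) (X : ℝ) (hX : X = 2 * (k:ℝ) + 2) (hβg : X ≤ β ^ g) (ζ σ : ℝ)
    (hζ0 : 0 ≤ ζ) (hT : 1 ≤ T) (hd0 : 2 ≤ d0) (R' ρ m0 : ℕ) (hR1 : R ≤ R') (hR2 : 3 ≤ R')
    (hζ : ∀ (v : Finset (Fin (2 * k + 1))) (i : ZMod p) (U : Finset (Ix (2 * k + 1)))
      (ψ0 : Ix (2 * k + 1) → Lb p), U.card ≤ T * (mr + 2 * d0) →
      ∀ F : Finset (Str (2 * k + 1) p mr d0), (∀ x ∈ F, x.ok ∧ ¬ x.S v ⊆ U ∧ x.okU ψ0 U v i) →
      ∑ x ∈ F, (1 / (p : ℝ)) ^ (x.S v \ U).card ≤ ζ)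
    (pb : ℝ) (hpb : β ^ C * Real.exp (-β) + (2 * Real.exp (-(((k:ℝ) + 1) / (4 * p) / 16))
      + ((2 * k + 1 : ℕ) : ℝ) * (15 / 16) ^ k) ≤ pb)
    (hσ0 : 0 ≤ σ)
    (h1 : 2 * (X ^ R' * (2 * p) * X * pb) ≤ σ / 4)
    (h2 : 2 * (X ^ (mr + d0) * p * ζ ^ T) ≤ σ / 4)
    (h3 : 2 * ∑ d ∈ Finset.Ioc d0 (2 * J + 1), (p : ℝ) ^ 2 *
      (4 * d * ((2 * k + 1 : ℕ) : ℝ) ^ (d - 1) * d.factorial) * (1 / (p : ℝ)) ^ (2 * d) ≤ σ / 4)
    (hs1 : σ * X ^ (R' + 1) ≤ 1 / 4) (hs2 : σ * (T * (mr + 2 * d0)) ≤ 1 / 4)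
    (hs3 : σ * (4 * J + 2) ≤ 1 / 4)
    (hm0 : 1 ≤ m0) (hB1 : X ^ 2 + 2 ≤ ((m0:ℝ) - 1) / (8 * p)) (hB2 : 2 * σ * X ^ (2 * ρ + 2) ≤ 1)
    (hB3 : (2:ℝ) ^ (2 * k + 1) * Real.exp (-X ^ 2) ≤ 1)
    (hB4 : 2 * p * (2 * ((2:ℝ) ^ (2 * k + 1) * Real.exp (-X ^ 2))) ≤ σ / 4)
    (hρ : 2 * (ρ:ℝ) ≤ ((k:ℝ) + 1) / (8 * p))
    (hball : (((m0 + 1) * (8 * (k + 1) ^ 2 * (2 * k + 1 + 1) ^ 5) : ℕ) : ℝ)
      ≤ (((k:ℝ) + 1) / (8 * p) / 2) ^ ρ / ρ.factorial)
    (hmid : 32 * (D * (K / β ^ (Ms + 1))) * X ^ (4 * ρ + 8) ≤ δ1)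
    (hM : 2 * p * D * (2 * k + 1 + 1) < M) :
    ∃ c : Fin (2 * p * D) → Finset (Fin (2 * k + 1)) → Finset (Fin (2 * k + 1)),
      (∀ i x, (c i x).card = k) ∧
      (∀ i x y, c i x = c i y → x ⊆ y ∨ y ⊆ x) ∧
      (∀ i j, i ≠ j → ∀ x y, x ≠ y → c i x = c i y → c j x ≠ c j y) := by
  have hJk := hP.hJk
  obtain ⟨hk0, hp0, hβ0, _⟩ := hP.basic
  have hX1 : 1 ≤ X := by rw [hX]; linarith
  have hX0 : 0 < X := by linarith
  have hXc : ((2 * k + 1 : ℕ) : ℝ) + 1 = X := by rw [hX]; push_cast; ring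
  have hex : ∀ (cl : Lb p) (t : ℕ), ∃ (h : (Ix (2 * k + 1) → Lb p) → Finset (Fin (2 * k + 1)) → ℝ)
      (kk : ℕ → ℝ) (Bd : Finset (Fin (2 * k + 1)) → (Ix (2 * k + 1) → Lb p) → Prop),
      k - J ≤ t → t < k + 1 + J →
      Out Ms K R C β (2 * k + 1) t p cl (Dn (2 * k + 1) t (1 / (2 * p))) h kk Bd := by
    intro cl t
    by_cases hb : k - J ≤ t ∧ t < k + 1 + J
    · obtain ⟨h, kk, Bd, ho⟩ := hstage β (2 * k + 1) t p cl _ hββ
        (env_odd hP cl (by rw [← hX]; exact hβg) hb.1 hb.2)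
      exact ⟨h, kk, Bd, fun _ _ => ho⟩
    · exact ⟨fun _ _ => 0, fun _ => 0, fun _ _ => False, fun h1 h2 => absurd ⟨h1, h2⟩ hb⟩
  choose h kk Bd ho using hex
  set dd : ℝ := ((k:ℝ) + 1) / (4 * p) with hdd
  have hdd0 : 0 < dd := by positivity
  have hnbc : ∀ v : Finset (Fin (2 * k + 1)), inL k v → dd = ((nb k v).card : ℝ) / (4 * p) := by
    intro v hv
    have : (nb k v).card = k + 1 := by
      rcases hv with hv | hv
      · rw [card_nb_low hv]; omega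
      · rw [card_nb_high hv]
    rw [this, hdd]; push_cast; ring
  -- the bad events at a vertex
  set BO : Lb p → ℕ → Finset (Fin (2 * k + 1)) → (Ix (2 * k + 1) → Lb p) → Prop :=
    fun c t v ψ => Bd c t v ψ ∨ (t = k ∧ (dg k (opn0 c ψ) v < dd / 2 ∨ BypBad k c.2 v ψ)) with hBO
  have hdepBO : ∀ c t, k - J ≤ t → t < k + 1 + J → ∀ v, Dep (BO c t v) (hamI v R') := by
    intro c t ht1 ht2 v φ ψ hφ
    have e1 : Bd c t v φ = Bd c t v ψ :=
      (ho c t ht1 ht2).dep v φ ψ (fun u hu => hφ u (hamI_mono hR1 hu))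
    have e2 : (dg k (opn0 c φ) v < dd / 2) = (dg k (opn0 c ψ) v < dd / 2) :=
      H53.dg0_dep c v (dd / 2) φ ψ (fun u hu => hφ u (hamI_mono (by omega) hu))
    have e3 : BypBad k c.2 v φ = BypBad k c.2 v ψ :=
      H37.dep_byp c.2 v φ ψ (fun u hu => hφ u (hamI_mono hR2 hu))
    simp only [hBO, e1, e2, e3]
  have hpb0 : 0 ≤ pb := le_trans (by positivity) hpb
  have hPBO : ∀ c t, k - J ≤ t → t < k + 1 + J → ∀ v, inL t v → P (BO c t v) ≤ pb := by
    intro c t ht1 ht2 v hv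
    refine le_trans ?_ hpb
    refine (P_or _ _).trans ?_
    refine add_le_add ((ho c t ht1 ht2).prob v hv) ?_
    by_cases htk : t = k
    · subst htk
      refine le_trans (P_mono (fun ψ hψ => hψ.2)) ((P_or _ _).trans ?_)
      refine add_le_add (H53.dg0_tail c v dd (hnbc v hv) hdd0) ?_
      exact H37.P_byp rfl c.2 v
    · have h0 : P (fun ψ : Ix (2 * k + 1) → Lb p => t = k ∧
          (dg k (opn0 c ψ) v < dd / 2 ∨ BypBad k c.2 v ψ)) ≤ 0 := by
        have h1 : P (fun _ : Ix (2 * k + 1) → Lb p => False) = 0 := by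
          unfold P; simp [E_const]
        rw [← h1]
        exact P_mono (fun ψ hψ => htk hψ.1)
      refine h0.trans (by positivity)
  -- the global events
  have hdep4 : ∀ i : Lb p × Finset (Finset (Fin (2 * k + 1))),
      Dep (fun ψ => i.2.Nonempty ∧ BSev k i.1 ρ m0 i.2 ψ)
        (i.2.biUnion (fun r => hamI r (2 * ρ + 1))) := by
    intro i φ ψ hφ
    have := dep_BS (k := k) i.1 ρ m0 i.2 φ ψ hφ
    simp only [this]
  have hP4 : ∀ i : Lb p × Finset (Finset (Fin (2 * k + 1))),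
      P (fun ψ => i.2.Nonempty ∧ BSev k i.1 ρ m0 i.2 ψ)
        ≤ x4 X i * Real.exp (-(2 * σ * (i.2.biUnion (fun r => hamI r (2 * ρ + 1))).card)) := by
    intro i
    by_cases hi : i.2.Nonempty
    · refine (P_mono (fun ψ hψ => hψ.2)).trans ((P_BS hp2 i.1 ρ m0 hm0 i.2).trans ?_)
      have hs : (1:ℝ) ≤ i.2.card := by exact_mod_cast card_pos.2 hi
      have hx : x4 X i = Real.exp (-(X ^ 2 * i.2.card)) := by unfold x4; rw [if_pos hi]
      rw [hx, ← Real.exp_add]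
      have hcard : ((i.2.biUnion (fun r => hamI r (2 * ρ + 1))).card : ℝ)
          ≤ i.2.card * X ^ (2 * ρ + 2) := by
        have h4 : (i.2.biUnion (fun r => hamI r (2 * ρ + 1))).card
            ≤ i.2.card * (2 * k + 1 + 1) ^ (2 * ρ + 1 + 1) :=
          card_biUnion_le_card_mul _ _ _ (fun r _ => card_hamI r _)
        have h5 : ((i.2.biUnion (fun r => hamI r (2 * ρ + 1))).card : ℝ)
            ≤ ((i.2.card * (2 * k + 1 + 1) ^ (2 * ρ + 1 + 1) : ℕ) : ℝ) := by exact_mod_cast h4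
        refine h5.trans (le_of_eq ?_)
        have h6 : ((2 * k + 1 + 1 : ℕ) : ℝ) = X := by rw [hX]; push_cast; ring
        push_cast
        push_cast at h6
        rw [h6]
      have h6 : 2 * σ * ((i.2.biUnion (fun r => hamI r (2 * ρ + 1))).card : ℝ) ≤ i.2.card := by
        calc 2 * σ * ((i.2.biUnion (fun r => hamI r (2 * ρ + 1))).card : ℝ)
            ≤ 2 * σ * (i.2.card * X ^ (2 * ρ + 2)) := by gcongr
          _ = (2 * σ * X ^ (2 * ρ + 2)) * i.2.card := by ring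
          _ ≤ 1 * i.2.card := by gcongr
          _ = i.2.card := one_mul _
      have h7 : (2:ℝ) ^ i.2.card ≤ Real.exp i.2.card := by
        have h8 : (2:ℝ) ≤ Real.exp 1 := by have := Real.add_one_le_exp (1:ℝ); linarith
        calc (2:ℝ) ^ i.2.card ≤ (Real.exp 1) ^ i.2.card := pow_le_pow_left₀ (by norm_num) h8 _
          _ = Real.exp i.2.card := by rw [← Real.exp_nat_mul, mul_one]
      calc (2:ℝ) ^ i.2.card * Real.exp (-((((m0 : ℝ) - 1) * i.2.card) / (8 * p)))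
          ≤ Real.exp i.2.card * Real.exp (-((((m0 : ℝ) - 1) * i.2.card) / (8 * p))) := by gcongr
        _ = Real.exp (i.2.card - (((m0 : ℝ) - 1) / (8 * p)) * i.2.card) := by
            rw [← Real.exp_add]; congr 1; ring
        _ ≤ _ := by
            apply Real.exp_le_exp.2
            have h9 : (X ^ 2 + 2) * i.2.card ≤ (((m0 : ℝ) - 1) / (8 * p)) * i.2.card :=
              mul_le_mul_of_nonneg_right hB1 (by linarith)
            linarith
    · have h0 : P (fun ψ : Ix (2 * k + 1) → Lb p => i.2.Nonempty ∧ BSev k i.1 ρ m0 i.2 ψ) ≤ 0 := by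
        have h1 : P (fun _ : Ix (2 * k + 1) → Lb p => False) = 0 := by
          unfold P; simp [E_const]
        rw [← h1]
        exact P_mono (fun ψ hψ => hi hψ.1)
      exact h0.trans (mul_nonneg (x4_nonneg X i) (Real.exp_pos _).le)
  obtain ⟨ψ, hψ, hno, hlong, hBS⟩ := good_labels (n := 2 * k + 1) (p := p) (m := mr) (d0 := d0)
    (T := T) (R := R') (L := 2 * J + 1) (k - J) (k + 1 + J) BO hdepBO pb hpb0 hPBO ζ hζ0 hT hd0 hζ
    (ι4 := Lb p × Finset (Finset (Fin (2 * k + 1))))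
    (fun i ψ => i.2.Nonempty ∧ BSev k i.1 ρ m0 i.2 ψ)
    (fun i => i.2.biUnion (fun r => hamI r (2 * ρ + 1))) hdep4 (x4 X) (x4_nonneg X)
    (x4_half X hX1) σ
    (by
      intro y
      refine le_trans ?_ ((x4_sum (n := 2 * k + 1) (p := p) X hB3).trans hB4)
      apply sum_le_sum_of_subset_of_nonneg (filter_subset _ _)
      intro i _ _
      exact x4_nonneg X i)
    hP4 (by rw [hXc]; exact h1) (by rw [hXc]; exact h2) h3 (by rw [hXc]; exact hs1) hs2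
    (by
      push_cast
      calc σ * (2 * (2 * (J:ℝ) + 1)) = σ * (4 * J + 2) := by ring
        _ ≤ 1 / 4 := hs3)
  have hcard : Fintype.card (Fin (2 * p * D)) = Fintype.card (Lb p × Fin D) := by
    rw [Fintype.card_fin, Fintype.card_prod, Fintype.card_prod, ZMod.card, ZMod.card,
      Fintype.card_fin]
    ring
  -- expansion
  have hexp : ∀ (cl : Lb p) (Q : Finset (Finset (Fin (2 * k + 1)))), (∀ v ∈ Q, inL k v) →
      Q.card ≤ (2 * k + 1).choose k → Q.card ≤ (2 * k + 1 + 1) ^ (4 * ρ + 8) *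
      ((bdy k Q).filter (fun x => opP cl ψ x.1 x.2)).card := by
    intro cl Q hQ hc
    refine H68.expansion_aux rfl cl ψ (fun Q hQ hc => H67.iso_mid rfl Q hQ hc) ?_ ρ m0 ?_ ?_ Q hQ hc
    · intro Q hQ
      refine H37.byp_bdy rfl ψ cl.2 (fun x hx => ?_) Q hQ
      exact hψ cl k (by omega) (by omega) x (Or.inl hx.1) (Or.inr ⟨rfl, Or.inr hx⟩)
    · intro S hS _ hbs
      exact hBS (cl, S) ⟨hS, hbs⟩
    · intro r hr
      have h5 := H53.ball_size cl ψ ρ (((k:ℝ) + 1) / (8 * p)) hρ (fun v hv => by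
        by_contra hcon
        push Not at hcon
        apply hψ cl k (by omega) (by omega) v hv
        right
        refine ⟨rfl, Or.inl ?_⟩
        refine lt_of_lt_of_le hcon (le_of_eq ?_)
        rw [hdd]; ring) r hr
      have h6 := hball.trans h5
      exact_mod_cast h6
  refine odd_asm (N := 2 * p * D) (d0 := d0) ψ hP.hJ1 (by omega) (Fintype.equivOfCardEq hcard)
    (fun cl t ht1 ht2 => low_odd hP hDl' hFo cl (ho cl t ht1 (by omega)) ψ
      (fun v hv hb => hψ cl t ht1 (by omega) v hv (Or.inl hb)) ht1 ht2 hno) ?_ hlong hM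
  intro cl t ht1 ht2
  by_cases htk : t = k
  · subst htk
    rw [if_neg (by omega)]
    have hm := mid_odd rfl hP cl (ho cl t (by omega) ht2) ψ
      (fun v hv hb => hψ cl t (by omega) ht2 v hv (Or.inl hb)) ((2 * t + 1 + 1) ^ (4 * ρ + 8))
      (hexp cl) (by
        have h6 : ((2 * t + 1 + 1 : ℕ) : ℝ) = X := by rw [hX]; push_cast; ring
        rw [Nat.cast_pow, h6]
        exact hmid) (below (t + 1))
    obtain ⟨F', G', g1, g2, g3, g4, g5, g6⟩ := hm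
    refine ⟨F', G', ?_, g2, g3, g4, g5, g6⟩
    intro j x hx
    obtain ⟨e, he, hxe, hf⟩ := g1 j x hx
    exact ⟨e, he, hxe, hf, fun h => absurd h (by omega)⟩
  · obtain ⟨F', G', g1, g2, g3, g4, g5, g6⟩ := high_odd hP hDl' hFo cl (ho cl t (by omega) ht2) ψ
      (fun v hv hb => hψ cl t (by omega) ht2 v hv (Or.inl hb)) (by omega) ht2 hno
    refine ⟨F', G', ?_, g2, g3, g4, g5, g6⟩
    intro j x hx
    obtain ⟨e, he, hxe, hf⟩ := g1 j x hx
    exact ⟨e, he, hxe, hf.1, fun _ => hf.2⟩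

end Pool.Agent.SK.Lin
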