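import Pool.Agent.Lib.MP_5fcc10_co_lin.OddCore
import Pool.Agent.Lib.MP_5fcc10_co_lin.Num5
import Pool.Agent.Lib.MP_5fcc10_co_lin_h26.DP1

/-! The odd case: conclusion. -/

set_option linter.unusedSectionVars false

namespace Pool.Agent.SK.Lin

open Finset Filter

theorem Par.setM {k J p D M d0 mr T K2 Ms : ℕ} {K β δ1 : ℝ}
    (hP : Par k J p D M d0 mr T K2 Ms K β δ1) (M' : ℕ)
    (hF : M' * (k * Real.exp (-((J:ℝ) ^ 2 / ((2 * k : ℕ) : ℝ)))) ≤ 1 / (4 * k)) :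
    Par k J p D M' d0 mr T K2 Ms K β δ1 :=
  { hP with hF := hF }

lemma Asy.tail2 {k p : ℕ} {β : ℝ} (h : Asy k p β) (hβ : 10 ^ 8 ≤ β)
    (hB : 8 * (β ^ 264 * Real.exp (-β)) ≤ 1) (hk0 : (0:ℝ) < k) (M : ℕ)
    (hM : (M:ℝ) ≤ (2 * (k:ℝ) + 1) ^ 2) :
    M * (k * Real.exp (-((JJ k β : ℝ) ^ 2 / ((2 * k : ℕ) : ℝ)))) ≤ 1 / (4 * k) ∧
    M * (k * Real.exp (-((JJ k β : ℝ) ^ 2 / ((2 * k + 1 : ℕ) : ℝ)))) ≤ 1 / (4 * k) := by
  refine ⟨?_, ?_⟩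
  · refine h.tail hβ hB _ hM (Nat.cast_nonneg _) _ (by push_cast; positivity) ?_
    push_cast; linarith
  · refine h.tail hβ hB _ hM (Nat.cast_nonneg _) _ (by push_cast; positivity) ?_
    push_cast; linarith

lemma num_ok {k p D : ℕ} {β δ δ1 : ℝ} (he : (k:ℝ) = 4 * p * β ^ 4) (hp0 : (0:ℝ) < p)
    (hδ : 0 < δ) (hβδ : 1 / δ ≤ β) (hβ4 : β ≤ β ^ 4) (hδ1 : δ1 ≤ δ / 2)
    (hDl : (1 - δ1) * ((k:ℝ) / (2 * p)) < D + 1) : (1 - δ) * (k:ℝ) ≤ 2 * p * D := by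
  have e1 : (1 - δ1) * (k:ℝ) = 2 * p * ((1 - δ1) * ((k:ℝ) / (2 * p))) := by field_simp
  have h1 : (1 - δ1) * (k:ℝ) ≤ 2 * p * (D + 1) := by
    rw [e1]
    exact mul_le_mul_of_nonneg_left hDl.le (by positivity)
  have h3 : 1 ≤ δ * β ^ 4 := by
    rw [div_le_iff₀ hδ] at hβδ
    nlinarith
  have h2 : 2 * (p:ℝ) ≤ δ / 2 * k := by
    rw [he]
    nlinarith
  have hk0 : (0:ℝ) ≤ k := Nat.cast_nonneg k
  nlinarith

lemma num_M {k x : ℝ} (hk : 0 ≤ k) (h : x ≤ k) : x * (2 * k + 1 + 1) + 1 ≤ (2 * k + 1) ^ 2 := by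
  have h1 : x * (2 * k + 1 + 1) ≤ k * (2 * k + 1 + 1) :=
    mul_le_mul_of_nonneg_right h (by linarith)
  nlinarith

lemma num_X {k p D : ℝ} (hp : 1 ≤ p) (hD : 0 ≤ D) (h : 2 * p * D ≤ k) : D ≤ 2 * k + 2 := by
  have h1 : D ≤ p * D := le_mul_of_one_le_left hD hp
  linarith

lemma num_D {b δ D : ℝ} (hb : 0 < b) (hδ : δ ≤ 1 / 2) (h : (1 - δ) * (2 * b) < D + 1) :
    b < D + 1 := by
  have h1 : δ * b ≤ 1 / 2 * b := mul_le_mul_of_nonneg_right hδ hb.le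
  linarith

theorem odd_lin (δ : ℝ) (hδ : 0 < δ) : ∃ k0 : ℕ, ∀ k ≥ k0, ∃ N : ℕ, (1 - δ) * (k:ℝ) ≤ N ∧
    ∃ c : Fin N → Finset (Fin (2 * k + 1)) → Finset (Fin (2 * k + 1)),
      (∀ i x, (c i x).card = k) ∧
      (∀ i x y, c i x = c i y → x ⊆ y ∨ y ⊆ x) ∧
      (∀ i j, i ≠ j → ∀ x y, x ≠ y → c i x = c i y → c j x ≠ c j y) := by
  set ρ : ℕ := 182 with hρ
  set Ms : ℕ := 66 * (4 * ρ + 9) with hMs
  have hρ182 : 182 ≤ ρ := le_rfl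
  clear_value ρ
  have hMs66 : 66 ≤ Ms := by omega
  clear_value Ms
  obtain ⟨K, R, C, β0, hK, hstage⟩ := stage 66 Ms
  set δ1 : ℝ := min (δ / 2) (1 / 2) with hδ1d
  have hδ1 : 0 < δ1 := lt_min (by linarith) (by norm_num)
  have hδ1' : δ1 ≤ 1 / 2 := min_le_right _ _
  have hδ1'' : δ1 ≤ δ / 2 := min_le_left _ _
  set R' : ℕ := R + 2 * ρ + 3 with hR'
  set d0 : ℕ := 4 * R' + 24 with hd0
  set T : ℕ := 2 * (R' + d0 + 21) with hT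
  set u0 : ℕ := T * (17 + 2 * d0) with hu0
  obtain ⟨C1, hC1, hsw⟩ := H26.step_weight 17 d0 u0
  obtain ⟨B1, hB1, hpar⟩ := par_even Ms hMs66 K δ1 hK hδ1 hδ1' T d0
  obtain ⟨B2, hc1⟩ := AX.c1 R' (C + 67)
  obtain ⟨B3, hb4⟩ := AX.b4 R'
  obtain ⟨B4, htail⟩ := exp_dominates 264
  have hB1' : 0 ≤ B1 := by linarith
  obtain ⟨k0, hk0⟩ := exists_asy (B1 + |B2| + |B3| + |B4| + |β0| + C1 * (16 + 16 ^ 20) + 4 * u0 + 17
    + 1 / δ + 32 * K / δ1 + 4 * ρ + 4 ^ ρ * (ρ.factorial : ℝ))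
  refine ⟨k0, fun k hk => ?_⟩
  obtain ⟨p, β, hβ, h⟩ := hk0 k hk
  have a1 := abs_nonneg β0
  have a2 : 0 ≤ C1 * (16 + 16 ^ 20) := by positivity
  have a3 : (0:ℝ) ≤ 4 * u0 := by positivity
  have a4 : 0 ≤ 1 / δ := by positivity
  have a5 := abs_nonneg B2
  have a6 := abs_nonneg B3
  have a7 := abs_nonneg B4
  have a8 : 0 ≤ 32 * K / δ1 := by positivity
  have a9 : (0:ℝ) ≤ 4 * ρ := by positivity
  have a10 : (0:ℝ) ≤ 4 ^ ρ * (ρ.factorial : ℝ) := by positivity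
  have hβ8 : (10:ℝ) ^ 8 ≤ β := by linarith
  have hβ1 : 1 ≤ β := by linarith
  have hβ00 : 0 < β := by linarith
  have hβ0 : β0 ≤ β := (le_abs_self β0).trans (by linarith)
  have hβB1 : B1 ≤ β := by linarith
  have hβB2 : B2 ≤ β := (le_abs_self B2).trans (by linarith)
  have hβB3 : B3 ≤ β := (le_abs_self B3).trans (by linarith)
  have hβB4 : B4 ≤ β := (le_abs_self B4).trans (by linarith)
  have hβC1 : C1 * (16 + 16 ^ 20) ≤ β := by linarith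
  have hβu : 4 * (u0:ℝ) + 17 ≤ β := by linarith
  have hβδ : 1 / δ ≤ β := by linarith
  have hβK : 32 * K / δ1 ≤ β := by linarith
  have hβρ : 4 * (ρ:ℝ) ≤ β := by linarith
  have hβf : 4 ^ ρ * (ρ.factorial : ℝ) ≤ β := by linarith
  have hp2 : 2 ≤ p := by
    have h1 : β ≤ β ^ 60 := le_pow_of_le hβ1 le_rfl 60 (by norm_num)
    have h2 : (2:ℝ) ≤ p := by
      have := h.l
      linarith
    exact_mod_cast h2
  have : NeZero p := ⟨by omega⟩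
  have hP := hpar β k p hβB1 (by omega) h
  have hp0 : (0:ℝ) < p := by exact_mod_cast (by omega : 0 < p)
  have hβ4 : β ≤ β ^ 4 := le_pow_of_le hβ1 le_rfl 4 (by norm_num)
  have hkge := h.k_ge hβ8
  have h64 : (1:ℝ) ≤ β ^ 64 := one_le_pow₀ hβ1
  have hk0 : (0:ℝ) < k := by linarith
  have hAX : AX k p β (2 * (k:ℝ) + 2) := ⟨h, hβ8, by linarith, h.x_le2 hβ8⟩
  have hJk := h.J_k hβ8
  have hJkr : 2 * (JJ k β : ℝ) + 2 ≤ k := by exact_mod_cast hJk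
  have hDl : (1 - δ1) * ((k:ℝ) / (2 * p)) < DD k p δ1 + 1 := Nat.lt_floor_add_one _
  have hDu := hP.hDu
  have hk2p : (k:ℝ) / (2 * p) = 2 * β ^ 4 := by
    rw [div_eq_iff (by positivity), h.e]; ring
  have hMk : (2 * p * DD k p δ1 : ℝ) ≤ k := by
    rw [hk2p] at hDu
    calc (2 * p * DD k p δ1 : ℝ) ≤ 2 * p * ((1 - δ1) * (2 * β ^ 4)) := by gcongr
      _ ≤ 2 * p * (1 * (2 * β ^ 4)) := by gcongr; linarith
      _ = k := by rw [h.e]; ring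
  have hMM : (((2 * p * DD k p δ1 * (2 * k + 1 + 1) + 1 : ℕ)) : ℝ) ≤ (2 * (k:ℝ) + 1) ^ 2 := by
    push_cast
    exact num_M hk0.le hMk
  have hFF := h.tail2 hβ8 (htail β hβB4) hk0 _ hMM
  have hP' : Par k (JJ k β) p (DD k p δ1) (2 * p * DD k p δ1 * (2 * k + 1 + 1) + 1) d0 17 T
        (2 * (T * (17 + 2 * d0))) Ms K β δ1 :=
    hP.setM _ hFF.1
  have hDX : (DD k p δ1 : ℝ) ≤ 2 * (k:ℝ) + 2 := by
    have h1 : (1:ℝ) ≤ p := by exact_mod_cast (by omega : 1 ≤ p)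
    exact num_X h1 (Nat.cast_nonneg _) hMk
  -- the number
  refine ⟨2 * p * DD k p δ1, ?_, ?_⟩
  · push_cast
    exact num_ok h.e hp0 hδ hβδ hβ4 hδ1'' hDl
  · have hβ40 : 0 < β ^ 4 := by positivity
    set γ : ℝ := ((2 * k + 1 : ℕ) : ℝ) / p with hγ
    obtain ⟨g1, g2, g3⟩ := hAX.zeta C1 hC1 hβC1 γ hγ
    set ζ := C1 * (γ / p + γ ^ (17 + 3) / (p:ℝ) ^ 2) with hζ
    have hβ40 : 0 < β ^ 4 := by positivity
    have hγ0 : 0 < γ := by linarith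
    have hζ0 : 0 ≤ ζ := by positivity
    obtain ⟨gb3, gb4⟩ := hb4 β _ k p hβB3 hAX rfl
    refine odd_core_lin 66 Ms K R C β0 (fun β n t p _ cl Dl hb he => hstage β n t p cl Dl hb he)
      (J := JJ k β) (p := p) (D := DD k p δ1)
      (M := 2 * p * DD k p δ1 * (2 * k + 1 + 1) + 1) (d0 := d0) (mr := 17) (T := T)
      (K2 := 2 * (T * (17 + 2 * d0))) hP' hp2 ?_ ?_ hβ0 (2 * (k:ℝ) + 2) rfl (h.x_le2 hβ8) ζ
      ((2 * (k:ℝ) + 2) ^ (R' + 3))⁻¹ hζ0 (by omega) (by omega) R' ρ (16 * (2 * k + 2) ^ 4)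
      (by omega) (by omega) ?_ (β ^ (C + 67) * Real.exp (-β)) (hAX.pbound rfl C)
      (by positivity) (hc1 β _ k p hβB2 hAX) (hAX.c2 R' d0 ζ hζ0 g3) (hAX.c3 R' d0 hd0)
      (hAX.cs1 R' _ le_rfl) ?_ (hAX.cs3 R') ?_ (hAX.b1 rfl) ?_ gb3 gb4 (hAX.rho ρ hβρ)
      (hAX.ball rfl ρ hρ182 hβf) (hAX.mid ρ Ms hMs K δ1 hK hδ1 hβK _ hDX) (by omega)
    · have h1 : ((k:ℝ) + JJ k β + 1) / (2 * p) ≤ 3 * β ^ 4 := by
        rw [div_le_iff₀ (by positivity)]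
        have h2 : (k:ℝ) + JJ k β + 1 ≤ 3 / 2 * k := by linarith
        calc (k:ℝ) + JJ k β + 1 ≤ 3 / 2 * k := h2
          _ = 3 * β ^ 4 * (2 * p) := by rw [h.e]; ring
      rw [hk2p] at hDl
      have h3 : β ^ 4 < DD k p δ1 + 1 := num_D hβ40 hδ1' hDl
      linarith
    · exact hFF.2
    · intro v i U ψ0 hU F hF
      refine hsw (2 * k + 1) p inferInstance v i U ψ0 γ hU hγ ?_ ?_ ?_ F hF
      · push_cast; linarith
      · linarith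
      · have h5 := h.l
        calc 2 * γ ≤ 2 * (16 * β ^ 4) := by linarith
          _ = 32 * β ^ 4 := by ring
          _ ≤ β * β ^ 4 := by gcongr; linarith
          _ = β ^ 5 := by ring
          _ ≤ β ^ 60 := pow_mono hβ1 (by norm_num)
          _ ≤ p := h5
    · have := hAX.cs2 R' (u0:ℝ) (by linarith)
      rw [hu0] at this
      push_cast at this ⊢
      exact this
    · have : 0 < (2 * k + 2) ^ 4 := by positivity
      omega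
    · have := hAX.cs1 R' (2 * ρ + 2) (by omega)
      linarith

end Pool.Agent.SK.Lin
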