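import Pool.Agent.Lib.MP_5fcc10_co_lin.OddSteps
import Pool.Agent.Lib.MP_5fcc10_co_lin_h77.FAC
import Pool.Agent.Lib.MP_5fcc10_co_lin_h67.ISO
import Pool.Agent.Lib.MP_5fcc10_co_lin_h68.EXP

/-! The middle stage of a class. -/

set_option linter.unusedSectionVars false

namespace Pool.Agent.SK.Lin

open Finset
open scoped symmDiff

lemma Sf_sumα {n t : ℕ} (α : Wt n) (Dl : ℕ → ℝ) (h : Finset (Fin n) → ℝ) (v : Finset (Fin n)) :
    Sf t α Dl h v = (∑ e ∈ nb t v, α v e * (1 + h v + h (tg v e))) / Dl v.card := by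
  unfold Sf Bop nsum dg
  rw [← mul_div_assoc, ← add_div, mul_sum, ← sum_add_distrib]
  congr 1
  exact sum_congr rfl (fun e _ => by ring)

/-- double counting -/
lemma double_mid {n t : ℕ} (w : Finset (Fin n) → Fin n → ℝ)
    (hw : ∀ v e, e ∈ nb t v → w (tg v e) e = w v e) :
    ∑ x ∈ powersetCard t (univ : Finset (Fin n)), ∑ e ∈ nb t x, w x e
      = ∑ y ∈ powersetCard (t + 1) (univ : Finset (Fin n)), ∑ e ∈ nb t y, w y e := by
  have h := sum_double (lev n t) (wp w)
  have e1 : ∑ x ∈ (lev n t).X, ∑ y ∈ (lev n t).N1 x, wp w x y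
      = ∑ x ∈ powersetCard t (univ : Finset (Fin n)), ∑ e ∈ nb t x, w x e := by
    refine sum_congr rfl (fun x hx => ?_)
    have hxc : x.card = t := lev_X.1 hx
    change ∑ y ∈ up x, wp w x y = _
    rw [← sum_nb_up hxc (fun y => wp w x y)]
    exact sum_congr rfl (fun e _ => wp_tg w x e)
  have e2 : ∑ y ∈ (lev n t).Y, ∑ x ∈ (lev n t).N2 y, wp w x y
      = ∑ y ∈ powersetCard (t + 1) (univ : Finset (Fin n)), ∑ e ∈ nb t y, w y e := by
    refine sum_congr rfl (fun y hy => ?_)
    have hyc : y.card = t + 1 := lev_Y.1 hy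
    change ∑ x ∈ dn y, wp w x y = _
    rw [← sum_nb_dn hyc (fun x => wp w x y)]
    refine sum_congr rfl (fun e he => ?_)
    have : wp w (tg y e) y = w (tg y e) e := by
      have h := wp_tg w (tg y e) e
      rwa [tg_tg] at h
    rw [this, hw y e he]
  rw [← e1, ← e2]
  exact h

variable {k J p D M d0 mr T K2 Ms : ℕ} {K β δ1 : ℝ}

theorem mid_odd {n : ℕ} [NeZero p] (hn : n = 2 * k + 1) (hP : Par k J p D M d0 mr T K2 Ms K β δ1) (cl : Lb p)
    {R C : ℕ} {h : (Ix n → Lb p) → Finset (Fin n) → ℝ} {kk : ℕ → ℝ}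
    {Bd : Finset (Fin n) → (Ix n → Lb p) → Prop}
    (ho : Out Ms K R C β n k p cl (Dn n k (1 / (2 * p))) h kk Bd)
    (ψ : Ix n → Lb p) (hψ : ∀ v, inL k v → ¬ Bd v ψ) (Cx : ℕ)
    (hexp : ∀ Q : Finset (Finset (Fin n)), (∀ v ∈ Q, inL k v) →
      Q.card ≤ n.choose k →
      Q.card ≤ Cx * (open scoped Classical in
        (bdy k Q).filter (fun x => opP cl ψ x.1 x.2)).card)
    (hsmall : 32 * (D * (K / β ^ (Ms + 1))) * Cx ≤ δ1)
    (S : Finset (Fin n) → Finset (Finset (Fin n))) :
    Many n k D M (k + 1) (fun x e => opP cl ψ x e) ∅ S := by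
  classical
  obtain ⟨hk0, hp0, hβ0, hη0, hη1, hKβ, h1β⟩ := hP.basic
  set η := K / β ^ (Ms + 1) with hη
  set Δ : ℝ := ((k:ℝ) + 1) / (2 * p) with hΔ
  have hΔ0 : 0 < Δ := by positivity
  have hk4 := hP.hk
  have hδ1 := hP.hδ1
  have hδ1' := hP.hδ1'
  have hDl1 : Dn n k (1 / (2 * (p:ℝ))) k = Δ := by
    rw [Dn_low, hΔ]
    have : (n - k : ℕ) = k + 1 := by omega
    rw [this]; push_cast; ring
  have hDl2 : Dn n k (1 / (2 * (p:ℝ))) (k + 1) = Δ := by
    rw [Dn_high, hΔ]; push_cast; ring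
  have hDlv : ∀ v : Finset (Fin n), inL k v → Dn n k (1 / (2 * (p:ℝ))) v.card = Δ := by
    intro v hv
    rcases hv with hv | hv
    · rw [hv]; exact hDl1
    · rw [hv]; exact hDl2
  set W : Finset (Fin n) → Fin n → ℝ := fun v e => opn cl ψ v e * (1 + h ψ v + h ψ (tg v e)) with hW
  have hWs : ∀ v e, e ∈ nb k v → W (tg v e) e = W v e := by
    intro v e _
    simp only [hW]
    rw [opn_symm, tg_tg]; ring
  have hsum : ∀ v, inL k v → ∑ e ∈ nb k v, W v e = Δ * Sf k (opn cl ψ) (Dn n k (1 / (2 * (p:ℝ)))) (h ψ) v := by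
    intro v hv
    rw [Sf_sumα, hDlv v hv]
    field_simp
    rfl
  have hS := ho.sf ψ hψ
  -- the two constants are close
  have hc : |kk (k + 1) - kk k| ≤ 2 * η := by
    have hd := double_mid (t := k) W hWs
    have hcards : (powersetCard k (univ : Finset (Fin n))).card
        = (powersetCard (k + 1) (univ : Finset (Fin n))).card := by
      rw [card_powersetCard, card_powersetCard, card_univ, Fintype.card_fin]
      rw [← Nat.choose_symm (by omega : k ≤ n)]
      congr 1
      omega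
    have hXc : (0:ℝ) < (powersetCard k (univ : Finset (Fin n))).card := by
      rw [card_powersetCard, card_univ, Fintype.card_fin]
      exact_mod_cast Nat.choose_pos (by omega)
    have h1 : |∑ x ∈ powersetCard k (univ : Finset (Fin n)), ∑ e ∈ nb k x, W x e
        - (powersetCard k (univ : Finset (Fin n))).card * (Δ * kk k)|
        ≤ (powersetCard k (univ : Finset (Fin n))).card * (Δ * η) := by
      rw [← nsmul_eq_mul, ← sum_const, ← sum_sub_distrib, ← nsmul_eq_mul, ← sum_const]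
      refine (abs_sum_le_sum_abs _ _).trans (sum_le_sum (fun x hx => ?_))
      have hxc := (mem_powersetCard.1 hx).2
      rw [hsum x (Or.inl hxc), ← mul_sub, abs_mul, abs_of_pos hΔ0]
      apply mul_le_mul_of_nonneg_left _ hΔ0.le
      have := hS x (Or.inl hxc)
      rw [hxc] at this
      exact this
    have h2 : |∑ y ∈ powersetCard (k + 1) (univ : Finset (Fin n)), ∑ e ∈ nb k y, W y e
        - (powersetCard (k + 1) (univ : Finset (Fin n))).card * (Δ * kk (k + 1))|
        ≤ (powersetCard (k + 1) (univ : Finset (Fin n))).card * (Δ * η) := by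
      rw [← nsmul_eq_mul, ← sum_const, ← sum_sub_distrib, ← nsmul_eq_mul, ← sum_const]
      refine (abs_sum_le_sum_abs _ _).trans (sum_le_sum (fun x hx => ?_))
      have hxc := (mem_powersetCard.1 hx).2
      rw [hsum x (Or.inr hxc), ← mul_sub, abs_mul, abs_of_pos hΔ0]
      apply mul_le_mul_of_nonneg_left _ hΔ0.le
      have := hS x (Or.inr hxc)
      rw [hxc] at this
      exact this
    rw [← hd, ← hcards] at h2
    set Nn : ℝ := ((powersetCard k (univ : Finset (Fin n))).card : ℝ) with hNn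
    have h3 : Nn * Δ * |kk (k + 1) - kk k| ≤ Nn * Δ * (2 * η) := by
      have e2 : Nn * Δ * |kk (k + 1) - kk k|
          = |(∑ x ∈ powersetCard k (univ : Finset (Fin n)), ∑ e ∈ nb k x, W x e - Nn * (Δ * kk k))
            - (∑ x ∈ powersetCard k (univ : Finset (Fin n)), ∑ e ∈ nb k x, W x e
              - Nn * (Δ * kk (k + 1)))| := by
        have e3 : Nn * Δ = |Nn * Δ| := (abs_of_pos (mul_pos hXc hΔ0)).symm
        rw [e3, ← abs_mul]
        congr 1
        ring
      rw [e2]
      refine (abs_sub _ _).trans ?_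
      linarith
    exact le_of_mul_le_mul_left h3 (mul_pos hXc hΔ0)
  obtain ⟨x0, hx0⟩ : ∃ x0 : Finset (Fin n), x0.card = k := by
    obtain ⟨x0, hx0⟩ : (powersetCard k (univ : Finset (Fin n))).Nonempty := by
      apply powersetCard_nonempty.2
      rw [card_univ, Fintype.card_fin]; omega
    exact ⟨x0, (mem_powersetCard.1 hx0).2⟩
  have hkk : |kk k - 1| ≤ δ1 / 16 := by
    have := ho.kf ψ hψ x0 (Or.inl hx0)
    rw [hx0] at this
    exact this.trans hKβ
  obtain ⟨hkk1, hkk2⟩ := abs_le.1 hkk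
  have hkk0 : 0 < kk k := by linarith
  have hSf : ∀ v, inL k v → |Sf k (opn cl ψ) (Dn n k (1 / (2 * (p:ℝ)))) (h ψ) v - kk k| ≤ 3 * η := by
    intro v hv
    rcases hv with hv | hv
    · have := hS v (Or.inl hv)
      rw [hv] at this
      linarith
    · have h1 := hS v (Or.inr hv)
      rw [hv] at h1
      have h2 := abs_le.1 h1
      have h3 := abs_le.1 hc
      rw [abs_le]
      constructor <;> linarith [h2.1, h2.2, h3.1, h3.2]
  have hh : ∀ v, inL k v → |h ψ v| ≤ δ1 / 16 := fun v hv => (ho.hf ψ hψ v hv).trans hKβ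
  have hDΔ1 : (D:ℝ) ≤ (1 - δ1) * Δ := by
    refine hP.hDu.trans ?_
    apply mul_le_mul_of_nonneg_left _ (by linarith)
    rw [hΔ]
    apply div_le_div_of_nonneg_right _ (by positivity)
    linarith
  have hDΔ2 : Δ ≤ 4 * D := by
    refine le_trans ?_ hP.hDl
    rw [hΔ]
    apply div_le_div_of_nonneg_right _ (by positivity)
    have : (1:ℝ) ≤ J := by exact_mod_cast hP.hJ1
    linarith
  have hD0 : (0:ℝ) ≤ D := Nat.cast_nonneg D
  set w : Finset (Fin n) → Fin n → ℝ := fun v e => D / (Δ * kk k) * W v e with hw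
  have hfac0 : 0 ≤ D / (Δ * kk k) := by positivity
  obtain ⟨f, f1, f2, f3, f4⟩ := H77.mid_factor (k := k) (n := n) hn (fun v e => opP cl ψ v e)
    (fun v e _ => opP_symm) w (fun v e he => by simp only [hw]; rw [hWs v e he]) δ1 hδ1 hδ1'
    (by
      intro v e hv he hop
      have a1 := abs_le.1 (hh v hv)
      have a2 := abs_le.1 (hh (tg v e) (inL_tg he))
      have hWv : W v e = 1 + h ψ v + h ψ (tg v e) := by
        simp only [hW]; rw [opn_one hop, one_mul]
      simp only [hw]
      rw [hWv]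
      constructor
      · rw [div_mul_eq_mul_div, le_div_iff₀ (by positivity)]
        have h1 : 1 - δ1 / 8 ≤ 1 + h ψ v + h ψ (tg v e) := by linarith [a1.1, a2.1]
        have h2 : Δ * kk k ≤ 4 * D * (1 + δ1 / 16) := by
          apply mul_le_mul hDΔ2 (by linarith) hkk0.le (by positivity)
        have h3 : (D:ℝ) * (1 - δ1 / 8) ≤ D * (1 + h ψ v + h ψ (tg v e)) :=
          mul_le_mul_of_nonneg_left h1 hD0
        nlinarith
      · rw [div_mul_eq_mul_div, div_le_iff₀ (by positivity)]
        have h1 : 1 + h ψ v + h ψ (tg v e) ≤ 1 + δ1 / 8 := by linarith [a1.2, a2.2]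
        have h1' : 0 ≤ 1 + h ψ v + h ψ (tg v e) := by linarith [a1.1, a2.1]
        calc (D:ℝ) * (1 + h ψ v + h ψ (tg v e)) ≤ ((1 - δ1) * Δ) * (1 + δ1 / 8) :=
              mul_le_mul hDΔ1 h1 h1' (by
                have : 0 ≤ 1 - δ1 := by linarith
                positivity)
          _ = Δ * ((1 - δ1) * (1 + δ1 / 8)) := by ring
          _ ≤ Δ * ((1 - δ1 / 2) * (1 - δ1 / 16)) := by
              apply mul_le_mul_of_nonneg_left _ hΔ0.le
              nlinarith
          _ ≤ Δ * ((1 - δ1 / 2) * kk k) := by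
              apply mul_le_mul_of_nonneg_left _ hΔ0.le
              apply mul_le_mul_of_nonneg_left _ (by linarith)
              linarith
          _ = (1 - δ1 / 2) * (Δ * kk k) := by ring)
    (by
      intro v e hv he hop
      simp only [hw, hW]
      rw [opn_zero hop]; ring)
    D (4 * η)
    (by
      intro v hv
      have e1 : ∑ e ∈ nb k v, w v e - D
          = D / kk k * (Sf k (opn cl ψ) (Dn n k (1 / (2 * (p:ℝ)))) (h ψ) v - kk k) := by
        simp only [hw]
        rw [← mul_sum, hsum v hv]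
        field_simp
      rw [e1, abs_mul, abs_of_nonneg (by positivity)]
      calc D / kk k * |Sf k (opn cl ψ) (Dn n k (1 / (2 * (p:ℝ)))) (h ψ) v - kk k|
          ≤ D / kk k * (3 * η) := mul_le_mul_of_nonneg_left (hSf v hv) (by positivity)
        _ ≤ D * (4 * η) := by
            rw [div_mul_eq_mul_div, div_le_iff₀ hkk0]
            have h5 : 3 * η ≤ 4 * η * kk k := by nlinarith
            calc (D:ℝ) * (3 * η) ≤ D * (4 * η * kk k) := mul_le_mul_of_nonneg_left h5 hD0
              _ = D * (4 * η) * kk k := by ring)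
    Cx hexp (by
      calc 8 * (D * (4 * η)) * Cx = 32 * (D * η) * Cx := by ring
        _ ≤ δ1 := hsmall)
  have hG := many_high f f1 (fun v e hv he => by
      rcases f2 v e hv he with h1 | h1 <;> rw [h1] <;> constructor <;> norm_num) D
    (fun v hv => f4 v (Or.inr hv)) 0 (fun v hv => by rw [f4 v (Or.inl hv)]; linarith)
    ∅ S (by simp) (by simp) M (fun y _ => load_empty y)
  obtain ⟨F', G', g1, g2, g3, g4, g5, g6⟩ := hG
  refine ⟨F', G', ?_, g2, g3, g4, g5, g6⟩
  intro j x hx
  obtain ⟨e, he, hxe, hf⟩ := g1 j x hx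
  exact ⟨e, he, hxe, f3 x e (Or.inr hx) he hf⟩

end Pool.Agent.SK.Lin
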