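import Pool.Agent.Lib.MP_5fcc10_co_lin.EvenB
import Pool.Agent.Lib.MP_5fcc10_co_lin.OddAsm

/-! The steps of a class, odd case. -/

set_option linter.unusedSectionVars false

namespace Pool.Agent.SK.Lin

open Finset
open scoped symmDiff

variable {k J p D M d0 mr T K2 Ms : ℕ} {K β δ1 : ℝ}

open Classical in
/-- exact weights of a class at a stage -/
theorem class_odd [NeZero p] {t : ℕ} (hP : Par k J p D M d0 mr T K2 Ms K β δ1)
    (hDl' : ((k : ℝ) + J + 1) / (2 * p) ≤ 4 * D) (cl : Lb p)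
    {R C : ℕ} {h : (Ix (2 * k + 1) → Lb p) → Finset (Fin (2 * k + 1)) → ℝ} {kk : ℕ → ℝ}
    {Bd : Finset (Fin (2 * k + 1)) → (Ix (2 * k + 1) → Lb p) → Prop}
    (ho : Out Ms K R C β (2 * k + 1) t p cl (Dn (2 * k + 1) t (1 / (2 * p))) h kk Bd)
    (ψ : Ix (2 * k + 1) → Lb p) (hψ : ∀ v, inL t v → ¬ Bd v ψ) (ht1 : k - J ≤ t)
    (ht2 : t < k + 1 + J)
    (hno : ∀ (v : Finset (Fin (2 * k + 1))) (i : ZMod p) (lam : Fin T → Str (2 * k + 1) p mr d0),
      (∀ r, (lam r).ok ∧ (lam r).occ ψ v i ∧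
      ¬ (lam r).S v ⊆ (univ.filter (fun s => s < r)).biUnion (fun s => (lam s).S v)) → False)
    (c0 c1 : ℕ) (hc : (c0 = t ∧ c1 = t + 1 ∧ t < k) ∨ (c0 = t + 1 ∧ c1 = t ∧ k + 1 ≤ t)) :
    ∃ f : Finset (Fin (2 * k + 1)) → Fin (2 * k + 1) → ℝ,
      (∀ v e, e ∈ nb t v → f (tg v e) e = f v e) ∧
      (∀ v e, inL t v → e ∈ nb t v → 0 ≤ f v e ∧ f v e ≤ 1) ∧
      (∀ v e, v.card = c0 → e ∈ nb t v → f v e ≠ 0 → opP cl ψ v e ∧ ¬ Del d0 ψ cl.1 v e) ∧
      (∀ v, v.card = c0 → ∑ e ∈ nb t v, f v e = D) ∧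
      (∀ v, v.card = c1 → ∑ e ∈ nb t v, f v e ≤ D * (1 - 1 / (4 * k))) := by
  obtain ⟨hk0, hp0, hβ0, hη0, hη1, hKβ, h1β⟩ := hP.basic
  have hJk := hP.hJk
  have hk4 := hP.hk
  have hδ0 : (0:ℝ) < 1 / (2 * p) := by positivity
  have hβ4 : 1 ≤ β ^ 4 := one_le_pow₀ (by linarith [hP.hβ4])
  have hkr : (4:ℝ) ≤ k := by exact_mod_cast hk4
  have hD1 : ∀ c, β ^ 4 ≤ Dn (2 * k + 1) t (1 / (2 * (p:ℝ))) c := by
    intro c
    unfold Dn
    split_ifs
    · exact hP.dlow _ (by omega)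
    · exact hP.dlow _ (by omega)
  have hD2 : ∀ c, Dn (2 * k + 1) t (1 / (2 * (p:ℝ))) c ≤ 4 * β ^ 4 := by
    intro c
    unfold Dn
    split_ifs
    · exact hP.dhigh _ (by omega)
    · exact hP.dhigh _ (by omega)
  have hc0 : Dn (2 * k + 1) t (1 / (2 * (p:ℝ))) c0 = 1 / (2 * p) * ((k:ℝ) + (if t < k then
      ((k + 1 - t : ℕ) : ℝ) else ((t + 1 - k : ℕ) : ℝ))) := by
    rcases hc with ⟨h1, _, h3⟩ | ⟨h1, _, h3⟩
    · rw [h1, Dn_low, if_pos h3]
      congr 1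
      have : (2 * k + 1 - t : ℕ) = k + (k + 1 - t) := by omega
      rw [this]; push_cast; ring
    · rw [h1, Dn_high, if_neg (by omega)]
      congr 1
      have : (t + 1 : ℕ) = k + (t + 1 - k) := by omega
      rw [this]; push_cast
      congr 1
      have : k + (t + 1 - k) - k = t + 1 - k := by omega
      rw [this]
  have hc1 : Dn (2 * k + 1) t (1 / (2 * (p:ℝ))) c1 = 1 / (2 * p) * ((k:ℝ) - (if t < k then
      ((k + 1 - t : ℕ) : ℝ) else ((t + 1 - k : ℕ) : ℝ)) + 2) := by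
    rcases hc with ⟨_, h1, h3⟩ | ⟨_, h1, h3⟩
    · rw [h1, Dn_high, if_pos h3]
      congr 1
      rw [Nat.cast_sub (by omega : t ≤ k + 1)]; push_cast; ring
    · rw [h1, Dn_low, if_neg (by omega)]
      congr 1
      rw [Nat.cast_sub (by omega : t ≤ 2 * k + 1), Nat.cast_sub (by omega : k ≤ t + 1)]
      push_cast; ring
  set j : ℝ := (if t < k then ((k + 1 - t : ℕ) : ℝ) else ((t + 1 - k : ℕ) : ℝ)) with hj
  have hj1 : 2 ≤ j := by
    rw [hj]
    split_ifs with h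
    · exact_mod_cast (by omega : 2 ≤ k + 1 - t)
    · exact_mod_cast (by omega : 2 ≤ t + 1 - k)
  have hjJ : j ≤ J + 1 := by
    rw [hj]
    split_ifs with h
    · exact_mod_cast (by omega : k + 1 - t ≤ J + 1)
    · exact_mod_cast (by omega : t + 1 - k ≤ J + 1)
  have hJkr : 2 * (J:ℝ) + 2 ≤ k := by exact_mod_cast hJk
  obtain ⟨f, f1, f2, f3, f4, f5⟩ := class_weights (n := 2 * k + 1) (t := t) (opn cl ψ)
    (fun v e _ => opn_symm cl ψ v e) (opn_01 cl ψ) c0 c1 (by tauto) (by omega)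
    (1 / (2 * (p:ℝ))) hδ0 (β ^ 4) hβ4 hD1 hD2 (h ψ) kk (δ1 / 16) (K / β ^ (Ms + 1))
    (fun v hv => (ho.hf ψ hψ v hv).trans hKβ) (fun v hv => (ho.kf ψ hψ v hv).trans hKβ)
    (ho.sf ψ hψ) (fun v hv => (ho.deg ψ hψ v hv).trans h1β) (Del d0 ψ cl.1) K2 mr hP.hmr
    (by
      intro v hv
      rw [hP.hK2]
      refine le_trans (card_le_card ?_) (few_del ψ hno t cl v)
      intro y hy
      rw [mem_filter] at hy ⊢
      obtain ⟨_, _, _, _, h4, h5⟩ := hy
      exact ⟨mem_univ _, h4, h5⟩)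
    D δ1 hP.hδ1 hP.hδ1'
    (by
      refine hP.hDu.trans ?_
      apply mul_le_mul_of_nonneg_left _ (by linarith [hP.hδ1'])
      rw [hc0, one_div, inv_mul_eq_div]
      apply div_le_div_of_nonneg_right _ (by positivity)
      linarith)
    (by
      refine le_trans ?_ hDl'
      rw [hc0, one_div, inv_mul_eq_div]
      apply div_le_div_of_nonneg_right _ (by positivity)
      linarith)
    le_rfl hη0 hη1 hP.hsmall hP.hbm
  refine ⟨f, f1, f2, ?_, f4, ?_⟩
  · intro v e hv he hf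
    obtain ⟨a1, a2⟩ := f3 v e hv he hf
    exact ⟨opP_of_ne a1, a2⟩
  · intro v hv
    refine (f5 v hv).trans ?_
    have hratio : Dn (2 * k + 1) t (1 / (2 * (p:ℝ))) c1 / Dn (2 * k + 1) t (1 / (2 * (p:ℝ))) c0
        ≤ 1 - 1 / (2 * k) := by
      rw [hc0, hc1, mul_div_mul_left _ _ hδ0.ne', div_le_iff₀ (by linarith)]
      have : (1 - 1 / (2 * (k:ℝ))) * (k + j) = k + j - (1 / 2 + j / (2 * k)) := by
        field_simp
      rw [this]
      have h5 : j / (2 * k) ≤ 1 / 2 := by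
        rw [div_le_div_iff₀ (by positivity) (by norm_num)]; linarith
      linarith
    have hDr : (1:ℝ) ≤ D := by exact_mod_cast hP.hD1
    have h6 : (1 + 8 * (K / β ^ (Ms + 1))) * (Dn (2 * k + 1) t (1 / (2 * (p:ℝ))) c1
        / Dn (2 * k + 1) t (1 / (2 * (p:ℝ))) c0) ≤ 1 - 1 / (2 * k) + 1 / (8 * k) := by
      have h7 : (1 + 8 * (K / β ^ (Ms + 1))) * (Dn (2 * k + 1) t (1 / (2 * (p:ℝ))) c1
        / Dn (2 * k + 1) t (1 / (2 * (p:ℝ))) c0) ≤ (1 + 8 * (K / β ^ (Ms + 1))) * (1 - 1 / (2 * k)) :=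
        mul_le_mul_of_nonneg_left hratio (by linarith)
      have h8 := hP.hη
      have h9 : 0 ≤ 1 / (2 * (k:ℝ)) := by positivity
      have h10 : 0 ≤ 8 * (K / β ^ (Ms + 1)) * (1 / (2 * (k:ℝ))) := by positivity
      nlinarith
    have h7 : (D:ℝ) * ((1 + 8 * (K / β ^ (Ms + 1))) * (Dn (2 * k + 1) t (1 / (2 * (p:ℝ))) c1
        / Dn (2 * k + 1) t (1 / (2 * (p:ℝ))) c0)) ≤ D * (1 - 1 / (2 * k) + 1 / (8 * k)) :=
      mul_le_mul_of_nonneg_left h6 (by linarith)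
    have h8 : (K2 : ℝ) ^ 2 * mr.factorial * (2 / β ^ 4) ^ mr ≤ D * (1 / (8 * k)) := by
      refine hP.hτ.trans ?_
      have : 0 ≤ 1 / (8 * (k:ℝ)) := by positivity
      nlinarith
    have h9 : (D:ℝ) * (1 - 1 / (2 * k) + 1 / (8 * k)) + D * (1 / (8 * k))
        = D * (1 - 1 / (4 * k)) := by
      field_simp; ring
    linarith

lemma hB_far_odd (k J : ℕ) : ∀ s < k - J, ((2 * k + 1).choose s : ℝ)
    ≤ Real.exp (-((J:ℝ) ^ 2 / ((2 * k + 1 : ℕ) : ℝ))) * (2 * k + 1).choose k := by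
  intro s hs
  exact choose_far (2 * k + 1) k J (by omega) s (by omega)

lemma load_odd (hFo : M * (k * Real.exp (-((J:ℝ) ^ 2 / ((2 * k + 1 : ℕ) : ℝ)))) ≤ 1 / (4 * k)) :
    (M:ℝ) * (((k - J : ℕ) : ℝ) * Real.exp (-((J:ℝ) ^ 2 / ((2 * k + 1 : ℕ) : ℝ)))) ≤ 1 / (4 * k) := by
  refine le_trans ?_ hFo
  apply mul_le_mul_of_nonneg_left _ (by positivity)
  apply mul_le_mul_of_nonneg_right _ (Real.exp_pos _).le
  exact_mod_cast Nat.sub_le k J

theorem low_odd [NeZero p] {t : ℕ} (hP : Par k J p D M d0 mr T K2 Ms K β δ1)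
    (hDl' : ((k : ℝ) + J + 1) / (2 * p) ≤ 4 * D)
    (hFo : M * (k * Real.exp (-((J:ℝ) ^ 2 / ((2 * k + 1 : ℕ) : ℝ)))) ≤ 1 / (4 * k)) (cl : Lb p)
    {R C : ℕ} {h : (Ix (2 * k + 1) → Lb p) → Finset (Fin (2 * k + 1)) → ℝ} {kk : ℕ → ℝ}
    {Bd : Finset (Fin (2 * k + 1)) → (Ix (2 * k + 1) → Lb p) → Prop}
    (ho : Out Ms K R C β (2 * k + 1) t p cl (Dn (2 * k + 1) t (1 / (2 * p))) h kk Bd)
    (ψ : Ix (2 * k + 1) → Lb p) (hψ : ∀ v, inL t v → ¬ Bd v ψ) (ht1 : k - J ≤ t) (ht2 : t < k)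
    (hno : ∀ (v : Finset (Fin (2 * k + 1))) (i : ZMod p) (lam : Fin T → Str (2 * k + 1) p mr d0),
      (∀ r, (lam r).ok ∧ (lam r).occ ψ v i ∧
      ¬ (lam r).S v ⊆ (univ.filter (fun s => s < r)).biUnion (fun s => (lam s).S v)) → False) :
    Many (2 * k + 1) t D M t (fun x e => opP cl ψ x e ∧ ¬ Del d0 ψ cl.1 x e)
      (if t + 1 = k then farlow (2 * k + 1) (k - J) else ∅) (above k) := by
  obtain ⟨f, f1, f2, f3, f4, f5⟩ := class_odd hP hDl' cl ho ψ hψ ht1 (by omega) hno t (t + 1)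
    (Or.inl ⟨rfl, rfl, ht2⟩)
  have hk4 := hP.hk
  have hJk := hP.hJk
  have hDk := hP.Dk
  have hk0 := hP.basic.1
  have hG := many_low f f1 f2 D f4 (1 / (4 * k)) f5
    (if t + 1 = k then farlow (2 * k + 1) (k - J) else ∅) (above k) ?_ ?_ M ?_
  · obtain ⟨F', G', g1, g2, g3, g4, g5, g6⟩ := hG
    refine ⟨F', G', ?_, g2, g3, g4, g5, g6⟩
    intro j x hx
    obtain ⟨e, he, hxe, hf⟩ := g1 j x hx
    exact ⟨e, he, hxe, f3 x e hx he hf⟩
  · intro v hv
    split_ifs at hv with h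
    · intro y hy
      rw [mem_above] at hy
      exact lev_Y.2 (hy.2.trans h.symm)
    · simp at hv
  · intro v hv
    split_ifs at hv with h
    · rw [farlow, mem_filter] at hv
      have h1 := card_above k v (by omega)
      have := choose_ge (2 * k + 1 - v.card) (2 * k + 1 - k) (by omega) (by omega)
      have h2 : D ≤ (above k v).card := by omega
      have h3 : 1 ≤ (above k v).card := by omega
      exact ⟨h3, h2⟩
    · simp at hv
  · intro y hy
    by_cases h : t + 1 = k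
    · rw [if_pos h]
      refine le_trans ?_ (load_odd hFo)
      apply mul_le_mul_of_nonneg_left _ (by positivity)
      have := load_above (n := 2 * k + 1) k (k - J) (by omega) _ (by omega) (hB_far_odd k J) y
        ((lev_Y.1 hy).trans h)
      exact this
    · rw [if_neg h]
      refine (load_empty y).trans (by positivity)

theorem high_odd [NeZero p] {t : ℕ} (hP : Par k J p D M d0 mr T K2 Ms K β δ1)
    (hDl' : ((k : ℝ) + J + 1) / (2 * p) ≤ 4 * D)
    (hFo : M * (k * Real.exp (-((J:ℝ) ^ 2 / ((2 * k + 1 : ℕ) : ℝ)))) ≤ 1 / (4 * k)) (cl : Lb p)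
    {R C : ℕ} {h : (Ix (2 * k + 1) → Lb p) → Finset (Fin (2 * k + 1)) → ℝ} {kk : ℕ → ℝ}
    {Bd : Finset (Fin (2 * k + 1)) → (Ix (2 * k + 1) → Lb p) → Prop}
    (ho : Out Ms K R C β (2 * k + 1) t p cl (Dn (2 * k + 1) t (1 / (2 * p))) h kk Bd)
    (ψ : Ix (2 * k + 1) → Lb p) (hψ : ∀ v, inL t v → ¬ Bd v ψ) (ht1 : k + 1 ≤ t)
    (ht2 : t < k + 1 + J)
    (hno : ∀ (v : Finset (Fin (2 * k + 1))) (i : ZMod p) (lam : Fin T → Str (2 * k + 1) p mr d0),
      (∀ r, (lam r).ok ∧ (lam r).occ ψ v i ∧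
      ¬ (lam r).S v ⊆ (univ.filter (fun s => s < r)).biUnion (fun s => (lam s).S v)) → False) :
    Many (2 * k + 1) t D M (t + 1) (fun x e => opP cl ψ x e ∧ ¬ Del d0 ψ cl.1 x e)
      (if t = k + 1 then farhigh (2 * k + 1) (k + 1 + J) else ∅) (below (k + 1)) := by
  obtain ⟨f, f1, f2, f3, f4, f5⟩ := class_odd hP hDl' cl ho ψ hψ (by omega) ht2 hno (t + 1) t
    (Or.inr ⟨rfl, rfl, ht1⟩)
  have hk4 := hP.hk
  have hJk := hP.hJk
  have hDk := hP.Dk
  have hk0 := hP.basic.1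
  have hG := many_high f f1 f2 D f4 (1 / (4 * k)) f5
    (if t = k + 1 then farhigh (2 * k + 1) (k + 1 + J) else ∅) (below (k + 1)) ?_ ?_ M ?_
  · obtain ⟨F', G', g1, g2, g3, g4, g5, g6⟩ := hG
    refine ⟨F', G', ?_, g2, g3, g4, g5, g6⟩
    intro j x hx
    obtain ⟨e, he, hxe, hf⟩ := g1 j x hx
    exact ⟨e, he, hxe, f3 x e hx he hf⟩
  · intro v hv
    split_ifs at hv with h
    · intro y hy
      rw [mem_below] at hy
      exact lev_X.2 (hy.2.trans h.symm)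
    · simp at hv
  · intro v hv
    split_ifs at hv with h
    · rw [farhigh, mem_filter] at hv
      have hvn := card_le_univ v
      rw [Fintype.card_fin] at hvn
      have h1 := card_below (k + 1) v
      have := choose_ge v.card (k + 1) (by omega) (by omega)
      have h2 : D ≤ (below (k + 1) v).card := by omega
      have h3 : 1 ≤ (below (k + 1) v).card := by omega
      exact ⟨h3, h2⟩
    · simp at hv
  · intro y hy
    by_cases h : t = k + 1
    · rw [if_pos h]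
      refine le_trans ?_ (load_odd hFo)
      apply mul_le_mul_of_nonneg_left _ (by positivity)
      have hsym : (2 * k + 1).choose (k + 1) = (2 * k + 1).choose k := by
        rw [← Nat.choose_symm (by omega : k ≤ 2 * k + 1)]
        congr 1; omega
      have hB : ∀ s < k - J, ((2 * k + 1).choose s : ℝ)
          ≤ Real.exp (-((J:ℝ) ^ 2 / ((2 * k + 1 : ℕ) : ℝ))) * (2 * k + 1).choose (k + 1) := by
        rw [hsym]; exact hB_far_odd k J
      have h2 := load_below (n := 2 * k + 1) (k + 1) (k - J) (by omega) _ (by omega) hB y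
        ((lev_X.1 hy).trans h)
      have h3 : farhigh (2 * k + 1) (k + 1 + J)
          = univ.filter (fun v : Finset (Fin (2 * k + 1)) => 2 * k + 1 - v.card < k - J) := by
        unfold farhigh
        apply filter_congr
        intro v _
        have := card_le_univ v
        rw [Fintype.card_fin] at this
        omega
      rw [h3]
      exact h2
    · rw [if_neg h]
      refine (load_empty y).trans (by positivity)

end Pool.Agent.SK.Lin
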