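import Pool.Agent.Lib.MP_5fcc10_co.GosC

/-! Path sums on a pair of consecutive levels, for a general weight on the edges. -/

set_option linter.unusedSectionVars false

namespace Pool.Agent.SK.Lin

open Finset
open scoped symmDiff

/-- a weight on the pairs (set, toggled element) with values in `[0,1]` -/
structure Wt (n : ℕ) where
  f : Finset (Fin n) → Fin n → ℝ
  h0 : ∀ v e, 0 ≤ f v e
  h1 : ∀ v e, f v e ≤ 1

instance (n : ℕ) : CoeFun (Wt n) (fun _ => Finset (Fin n) → Fin n → ℝ) := ⟨Wt.f⟩

section ops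

variable {n : ℕ} (t : ℕ) (α : Wt n)

/-- weighted neighbour sum -/
noncomputable def nsum (f : Finset (Fin n) → ℝ) (v : Finset (Fin n)) : ℝ :=
  ∑ e ∈ nb t v, α v e * f (tg v e)

/-- degree -/
noncomputable def dg (v : Finset (Fin n)) : ℝ :=
  ∑ e ∈ nb t v, α v e

/-- the operator `B`, with normalisation `Dl` -/
noncomputable def Bop (Dl : ℕ → ℝ) (f : Finset (Fin n) → ℝ)
    (v : Finset (Fin n)) : ℝ := nsum t α f v / Dl v.card

variable {t α}

lemma Bop_add (Dl : ℕ → ℝ) (f g : Finset (Fin n) → ℝ) :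
    Bop t α Dl (fun v => f v + g v) = fun v => Bop t α Dl f v + Bop t α Dl g v := by
  funext v
  unfold Bop nsum
  rw [← add_div, ← sum_add_distrib]
  congr 1
  exact sum_congr rfl (fun e _ => by ring)

lemma Bop_smul (Dl : ℕ → ℝ) (c : ℝ) (f : Finset (Fin n) → ℝ) :
    Bop t α Dl (fun v => c * f v) = fun v => c * Bop t α Dl f v := by
  funext v
  unfold Bop nsum
  rw [← mul_div_assoc, mul_sum]
  congr 1
  exact sum_congr rfl (fun e _ => by ring)

lemma Bop_sum {ι : Type*} (s : Finset ι) (Dl : ℕ → ℝ)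
    (f : ι → Finset (Fin n) → ℝ) :
    Bop t α Dl (fun v => ∑ i ∈ s, f i v) = fun v => ∑ i ∈ s, Bop t α Dl (f i) v := by
  funext v
  unfold Bop nsum
  rw [← sum_div]
  congr 1
  rw [sum_comm]
  refine sum_congr rfl (fun e _ => ?_)
  rw [mul_sum]

/-- iterates of `B` -/
noncomputable def Bit (t : ℕ) (α : Wt n) (Dl : ℕ → ℝ)
    (f : Finset (Fin n) → ℝ) : ℕ → Finset (Fin n) → ℝ
  | 0 => f
  | (i+1) => Bop t α Dl (Bit t α Dl f i)

/-- the correction -/
noncomputable def theta (t : ℕ) (α : Wt n) (Dl : ℕ → ℝ) (L : ℕ)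
    (ρ : Finset (Fin n) → ℝ) (v : Finset (Fin n)) : ℝ :=
  ∑ i ∈ range L, (-1 : ℝ) ^ (i + 1) * Bit t α Dl ρ i v

/-- the vertex sums produced by the potential `h` -/
noncomputable def Sf (t : ℕ) (α : Wt n) (Dl : ℕ → ℝ)
    (h : Finset (Fin n) → ℝ) (v : Finset (Fin n)) : ℝ :=
  (1 + h v) * (dg t α v / Dl v.card) + Bop t α Dl h v

lemma theta_B (Dl : ℕ → ℝ) (L : ℕ) (ρ : Finset (Fin n) → ℝ)
    (v : Finset (Fin n)) :
    theta t α Dl L ρ v + Bop t α Dl (theta t α Dl L ρ) v
      = - ρ v + (-1 : ℝ) ^ L * Bit t α Dl ρ L v := by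
  have h1 : Bop t α Dl (theta t α Dl L ρ) v
      = ∑ i ∈ range L, (-1 : ℝ) ^ (i + 1) * Bit t α Dl ρ (i + 1) v := by
    have : theta t α Dl L ρ = fun v => ∑ i ∈ range L, (-1 : ℝ) ^ (i + 1) * Bit t α Dl ρ i v := rfl
    rw [this, Bop_sum]
    simp only
    refine sum_congr rfl (fun i _ => ?_)
    rw [Bop_smul]
    rfl
  rw [h1]
  unfold theta
  rw [← sum_add_distrib]
  induction L with
  | zero => simp [Bit]
  | succ L ih =>
    rw [sum_range_succ, ih ?_]
    · ring
    · have : theta t α Dl L ρ = fun v => ∑ i ∈ range L, (-1 : ℝ) ^ (i + 1) * Bit t α Dl ρ i v := rfl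
      rw [this, Bop_sum]
      simp only
      refine sum_congr rfl (fun i _ => ?_)
      rw [Bop_smul]
      rfl

/-- one step of the smoothing -/
lemma Sf_step (Dl : ℕ → ℝ) (L : ℕ) (hL : Even L)
    (h : Finset (Fin n) → ℝ) (κ' : ℕ → ℝ) (v : Finset (Fin n)) :
    Sf t α Dl (fun u => h u + theta t α Dl L (fun u => Sf t α Dl h u - κ' u.card) u) v
      = κ' v.card + Bit t α Dl (fun u => Sf t α Dl h u - κ' u.card) L v
        + (dg t α v / Dl v.card - 1)
          * theta t α Dl L (fun u => Sf t α Dl h u - κ' u.card) v := by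
  set ρ : Finset (Fin n) → ℝ := fun u => Sf t α Dl h u - κ' u.card with hρ
  have h1 := theta_B (t := t) (α := α) Dl L ρ v
  rw [hL.neg_one_pow, one_mul] at h1
  have h2 : ρ v = (1 + h v) * (dg t α v / Dl v.card) + Bop t α Dl h v - κ' v.card := rfl
  unfold Sf
  rw [Bop_add]
  simp only
  linear_combination h1 - h2

end ops


section pathsum

variable {n : ℕ} (t : ℕ) (α : Wt n)

/-- sum over open outward paths of length `l` from `v`, avoiding the elements of `U` -/
noncomputable def OutA :
    ℕ → Finset (Fin n) → Finset (Fin n) → (Finset (Fin n) → Finset (Fin n) → ℝ) → ℝ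
  | 0, v, U, F => F v U
  | (l+1), v, U, F => ∑ e ∈ nb t v \ U, α v e * OutA l (tg v e) (insert e U) F

lemma OutA_zero (v U : Finset (Fin n))
    (F : Finset (Fin n) → Finset (Fin n) → ℝ) : OutA t α 0 v U F = F v U := rfl

lemma OutA_succ (l : ℕ) (v U : Finset (Fin n))
    (F : Finset (Fin n) → Finset (Fin n) → ℝ) : OutA t α (l+1) v U F
      = ∑ e ∈ nb t v \ U, α v e * OutA t α l (tg v e) (insert e U) F := rfl

lemma OutA_add (a b : ℕ) :
    ∀ (v U : Finset (Fin n)) (F : Finset (Fin n) → Finset (Fin n) → ℝ),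
    OutA t α (a + b) v U F = OutA t α a v U (fun w U' => OutA t α b w U' F) := by
  induction a with
  | zero => intro v U F; rw [zero_add, OutA_zero]
  | succ a ih =>
    intro v U F
    have : a + 1 + b = (a + b) + 1 := by omega
    rw [this, OutA_succ, OutA_succ]
    exact sum_congr rfl (fun e _ => by rw [ih])

lemma OutA_sum {ι : Type*} (s : Finset ι) (l : ℕ) :
    ∀ (v U : Finset (Fin n)) (F : ι → Finset (Fin n) → Finset (Fin n) → ℝ),
    OutA t α l v U (fun w U' => ∑ i ∈ s, F i w U') = ∑ i ∈ s, OutA t α l v U (F i) := by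
  induction l with
  | zero => intro v U F; rfl
  | succ l ih =>
    intro v U F
    rw [OutA_succ]
    have : ∀ i ∈ s, OutA t α (l+1) v U (F i)
        = ∑ e ∈ nb t v \ U, α v e * OutA t α l (tg v e) (insert e U) (F i) :=
      fun i _ => rfl
    rw [sum_congr rfl this, sum_comm]
    refine sum_congr rfl (fun e _ => ?_)
    rw [ih, mul_sum]

lemma OutA_smul (l : ℕ) (c : ℝ) :
    ∀ (v U : Finset (Fin n)) (F : Finset (Fin n) → Finset (Fin n) → ℝ),
    OutA t α l v U (fun w U' => c * F w U') = c * OutA t α l v U F := by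
  induction l with
  | zero => intro v U F; rfl
  | succ l ih =>
    intro v U F
    rw [OutA_succ, OutA_succ, mul_sum]
    refine sum_congr rfl (fun e _ => ?_)
    rw [ih]; ring

lemma OutA_sub (l : ℕ) :
    ∀ (v U : Finset (Fin n)) (F G : Finset (Fin n) → Finset (Fin n) → ℝ),
    OutA t α l v U (fun w U' => F w U' - G w U') = OutA t α l v U F - OutA t α l v U G := by
  induction l with
  | zero => intro v U F G; rfl
  | succ l ih =>
    intro v U F G
    rw [OutA_succ, OutA_succ, OutA_succ, ← sum_sub_distrib]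
    refine sum_congr rfl (fun e _ => ?_)
    rw [ih]; ring

lemma OutA_mono (l : ℕ) :
    ∀ (v U : Finset (Fin n)) (F G : Finset (Fin n) → Finset (Fin n) → ℝ), inL t v →
    (∀ w U', inL t w → F w U' ≤ G w U') → OutA t α l v U F ≤ OutA t α l v U G := by
  induction l with
  | zero => intro v U F G hv h; exact h v U hv
  | succ l ih =>
    intro v U F G hv h
    rw [OutA_succ, OutA_succ]
    refine sum_le_sum (fun e he => ?_)
    apply mul_le_mul_of_nonneg_left _ (α.h0 v e)
    exact ih _ _ _ _ (inL_tg (mem_sdiff.1 he).1) h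

lemma OutA_nonneg (l : ℕ) :
    ∀ (v U : Finset (Fin n)) (F : Finset (Fin n) → Finset (Fin n) → ℝ),
    (∀ w U', 0 ≤ F w U') → 0 ≤ OutA t α l v U F := by
  induction l with
  | zero => intro v U F h; exact h v U
  | succ l ih =>
    intro v U F h
    rw [OutA_succ]
    exact sum_nonneg (fun e _ => mul_nonneg (α.h0 v e) (ih _ _ _ h))

/-- number of open outward paths -/
noncomputable def NO (l : ℕ) (v U : Finset (Fin n)) : ℝ :=
  OutA t α l v U (fun _ _ => 1)

lemma NO_nonneg (l : ℕ) (v U : Finset (Fin n)) :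
    0 ≤ NO t α l v U := OutA_nonneg t α l v U _ (fun _ _ => zero_le_one)

lemma OutA_abs_le (l : ℕ) (v U : Finset (Fin n))
    (F : Finset (Fin n) → Finset (Fin n) → ℝ) (hv : inL t v) (c : ℝ)
    (h : ∀ w U', inL t w → |F w U'| ≤ c) : |OutA t α l v U F| ≤ c * NO t α l v U := by
  rw [abs_le]
  constructor
  · have h1 := OutA_mono t α l v U (fun _ _ => (-c) * 1) F hv
      (fun w U' hw => by rw [mul_one]; exact (abs_le.1 (h w U' hw)).1)
    rw [OutA_smul t α l (-c) v U (fun _ _ => 1)] at h1
    unfold NO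
    linarith
  · have h1 := OutA_mono t α l v U F (fun _ _ => c * 1) hv
      (fun w U' hw => by rw [mul_one]; exact (abs_le.1 (h w U' hw)).2)
    rw [OutA_smul t α l c v U (fun _ _ => 1)] at h1
    unfold NO
    linarith

/-- product of the normalisations along a path -/
noncomputable def PiL (Dl : ℕ → ℝ) : ℕ → ℕ → ℝ
  | 0, _ => 1
  | (l+1), c => Dl c * PiL Dl l (oth t c)

lemma sum_opn_le (v U : Finset (Fin n)) :
    ∑ e ∈ nb t v \ U, α v e ≤ dg t α v :=
  sum_le_sum_of_subset_of_nonneg sdiff_subset (fun e _ _ => α.h0 v e)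

lemma sum_opn_ge (v U : Finset (Fin n)) :
    dg t α v - U.card ≤ ∑ e ∈ nb t v \ U, α v e := by
  unfold dg
  rw [← sum_sdiff (inter_subset_left : nb t v ∩ U ⊆ nb t v), sdiff_inter_self_left]
  have : ∑ e ∈ nb t v ∩ U, α v e ≤ U.card := by
    calc ∑ e ∈ nb t v ∩ U, α v e ≤ ∑ e ∈ nb t v ∩ U, (1:ℝ) :=
          sum_le_sum (fun e _ => α.h1 v e)
      _ = ((nb t v ∩ U).card : ℝ) := by simp
      _ ≤ U.card := by exact_mod_cast card_le_card inter_subset_right
  linarith

lemma PiL_pos (Dl : ℕ → ℝ) (hD : ∀ c, 0 < Dl c) (l : ℕ) : ∀ c, 0 < PiL t Dl l c := by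
  induction l with
  | zero => intro c; exact one_pos
  | succ l ih => intro c; exact mul_pos (hD c) (ih _)

lemma NO_le (Dl : ℕ → ℝ) (hD : ∀ c, 0 < Dl c) (x : ℝ) (hx : 0 ≤ x)
    (hdg : ∀ v : Finset (Fin n), inL t v → dg t α v ≤ x * Dl v.card) (l : ℕ) :
    ∀ (v U : Finset (Fin n)), inL t v → NO t α l v U ≤ x ^ l * PiL t Dl l v.card := by
  induction l with
  | zero => intro v U _; simp [NO, OutA, PiL]
  | succ l ih =>
    intro v U hv
    unfold NO
    rw [OutA_succ]
    have h1 : ∀ e ∈ nb t v \ U, α v e * OutA t α l (tg v e) (insert e U) (fun _ _ => 1)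
        ≤ α v e * (x ^ l * PiL t Dl l (oth t v.card)) := by
      intro e he
      have he' := (mem_sdiff.1 he).1
      apply mul_le_mul_of_nonneg_left _ (α.h0 v e)
      have := ih (tg v e) (insert e U) (inL_tg he')
      rw [card_tg_nb he'] at this
      exact this
    refine (sum_le_sum h1).trans ?_
    rw [← sum_mul]
    have h2 := (sum_opn_le t α v U).trans (hdg v hv)
    have h3 := PiL_pos t Dl hD l (oth t v.card)
    calc (∑ e ∈ nb t v \ U, α v e) * (x ^ l * PiL t Dl l (oth t v.card))
        ≤ (x * Dl v.card) * (x ^ l * PiL t Dl l (oth t v.card)) :=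
          mul_le_mul_of_nonneg_right h2 (by positivity)
      _ = x ^ (l+1) * PiL t Dl (l+1) v.card := by
          change _ = x ^ (l+1) * (Dl v.card * PiL t Dl l (oth t v.card))
          ring

lemma NO_ge (Dl : ℕ → ℝ) (hD : ∀ c, 0 < Dl c) (x : ℝ) (hx : 0 ≤ x)
    (m : ℕ) (hdg : ∀ v : Finset (Fin n), inL t v → x * Dl v.card ≤ dg t α v - m) (l : ℕ) :
    ∀ (v U : Finset (Fin n)), inL t v → U.card + l ≤ m →
      x ^ l * PiL t Dl l v.card ≤ NO t α l v U := by
  induction l with
  | zero => intro v U _ _; simp [NO, OutA, PiL]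
  | succ l ih =>
    intro v U hv hU
    unfold NO
    rw [OutA_succ]
    have h1 : ∀ e ∈ nb t v \ U, α v e * (x ^ l * PiL t Dl l (oth t v.card))
        ≤ α v e * OutA t α l (tg v e) (insert e U) (fun _ _ => 1) := by
      intro e he
      have he' := (mem_sdiff.1 he).1
      apply mul_le_mul_of_nonneg_left _ (α.h0 v e)
      have hc : (insert e U).card ≤ U.card + 1 := card_insert_le e U
      have := ih (tg v e) (insert e U) (inL_tg he') (by omega)
      rw [card_tg_nb he'] at this
      exact this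
    refine le_trans ?_ (sum_le_sum h1)
    rw [← sum_mul]
    have h2 := sum_opn_ge t α v U
    have h2' := hdg v hv
    have h4 : (U.card : ℝ) ≤ m := by exact_mod_cast (by omega : U.card ≤ m)
    have h3 := PiL_pos t Dl hD l (oth t v.card)
    calc x ^ (l+1) * PiL t Dl (l+1) v.card
        = (x * Dl v.card) * (x ^ l * PiL t Dl l (oth t v.card)) := by
          change x ^ (l+1) * (Dl v.card * PiL t Dl l (oth t v.card)) = _
          ring
      _ ≤ (∑ e ∈ nb t v \ U, α v e) * (x ^ l * PiL t Dl l (oth t v.card)) :=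
          mul_le_mul_of_nonneg_right (by linarith) (by positivity)

section walk

variable {t α}

lemma PiL_Bit_succ (Dl : ℕ → ℝ) (hD : ∀ c, 0 < Dl c)
    (f : Finset (Fin n) → ℝ) (l : ℕ) (v : Finset (Fin n)) :
    PiL t Dl (l+1) v.card * Bit t α Dl f (l+1) v
      = ∑ e ∈ nb t v, α v e * (PiL t Dl l (tg v e).card * Bit t α Dl f l (tg v e)) := by
  change Dl v.card * PiL t Dl l (oth t v.card) * ((∑ e ∈ nb t v, α v e *
    Bit t α Dl f l (tg v e)) / Dl v.card) = _
  have h := (hD v.card).ne'
  rw [mul_comm (Dl v.card), mul_assoc, mul_div_cancel₀ _ h, mul_sum]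
  refine sum_congr rfl (fun e he => ?_)
  rw [card_tg_nb he]
  ring

lemma Bit_abs_le (Dl : ℕ → ℝ) (hD : ∀ c, 0 < Dl c)
    (f : Finset (Fin n) → ℝ) (x : ℝ) (hx : 0 ≤ x)
    (hdg : ∀ v : Finset (Fin n), inL t v → dg t α v ≤ x * Dl v.card)
    (τ : ℝ) (hτ : 0 ≤ τ) (hf : ∀ v, inL t v → |f v| ≤ τ) (l : ℕ) :
    ∀ v, inL t v → |Bit t α Dl f l v| ≤ x ^ l * τ := by
  induction l with
  | zero => intro v hv; simpa [Bit] using hf v hv
  | succ l ih =>
    intro v hv
    change |(∑ e ∈ nb t v, α v e * Bit t α Dl f l (tg v e)) / Dl v.card| ≤ _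
    rw [abs_div, abs_of_pos (hD v.card), div_le_iff₀ (hD v.card)]
    calc |∑ e ∈ nb t v, α v e * Bit t α Dl f l (tg v e)|
        ≤ ∑ e ∈ nb t v, |α v e * Bit t α Dl f l (tg v e)| := abs_sum_le_sum_abs _ _
      _ ≤ ∑ e ∈ nb t v, α v e * (x ^ l * τ) := by
          refine sum_le_sum (fun e he => ?_)
          rw [abs_mul, abs_of_nonneg (α.h0 v e)]
          exact mul_le_mul_of_nonneg_left (ih _ (inL_tg he)) (α.h0 v e)
      _ = dg t α v * (x ^ l * τ) := by rw [← sum_mul]; rfl
      _ ≤ (x * Dl v.card) * (x ^ l * τ) := by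
          apply mul_le_mul_of_nonneg_right (hdg v hv) (by positivity)
      _ = x ^ (l+1) * τ * Dl v.card := by ring

lemma walk_out (Dl : ℕ → ℝ) (hD : ∀ c, 0 < Dl c)
    (f : Finset (Fin n) → ℝ) (D : ℝ) (hD0 : 0 < D)
    (hdg : ∀ v : Finset (Fin n), inL t v → dg t α v ≤ D)
    (τ : ℝ) (hτ : 0 ≤ τ) (hf : ∀ v, inL t v → |f v| ≤ τ) (l : ℕ) :
    (∀ v, inL t v → |PiL t Dl l v.card * Bit t α Dl f l v| ≤ τ * D ^ l) ∧
    ∀ v U : Finset (Fin n), inL t v → D * |PiL t Dl l v.card * Bit t α Dl f l v
      - OutA t α l v U (fun w _ => f w)| ≤ τ * (l * (U.card + l)) * D ^ l := by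
  induction l with
  | zero =>
    constructor
    · intro v hv; simpa [PiL, Bit] using hf v hv
    · intro v U hv; simp [PiL, Bit, OutA]
  | succ l ih =>
    obtain ⟨ih1, ih2⟩ := ih
    have hw : ∀ v, inL t v → |PiL t Dl (l+1) v.card * Bit t α Dl f (l+1) v| ≤ τ * D ^ (l+1) := by
      intro v hv
      rw [PiL_Bit_succ Dl hD]
      calc |∑ e ∈ nb t v, α v e * (PiL t Dl l (tg v e).card * Bit t α Dl f l (tg v e))|
          ≤ ∑ e ∈ nb t v, |α v e * (PiL t Dl l (tg v e).card * Bit t α Dl f l (tg v e))| :=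
            abs_sum_le_sum_abs _ _
        _ ≤ ∑ e ∈ nb t v, α v e * (τ * D ^ l) := by
            refine sum_le_sum (fun e he => ?_)
            rw [abs_mul, abs_of_nonneg (α.h0 v e)]
            exact mul_le_mul_of_nonneg_left (ih1 _ (inL_tg he)) (α.h0 v e)
        _ = dg t α v * (τ * D ^ l) := by rw [← sum_mul]; rfl
        _ ≤ D * (τ * D ^ l) := mul_le_mul_of_nonneg_right (hdg v hv) (by positivity)
        _ = τ * D ^ (l+1) := by ring
    refine ⟨hw, ?_⟩
    intro v U hv
    rw [PiL_Bit_succ Dl hD, OutA_succ]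
    rw [← sum_sdiff (inter_subset_left : nb t v ∩ U ⊆ nb t v), sdiff_inter_self_left]
    have e1 : ∑ e ∈ nb t v \ U, α v e *
          (PiL t Dl l (tg v e).card * Bit t α Dl f l (tg v e))
        + ∑ e ∈ nb t v ∩ U, α v e *
          (PiL t Dl l (tg v e).card * Bit t α Dl f l (tg v e))
        - ∑ e ∈ nb t v \ U, α v e *
          OutA t α l (tg v e) (insert e U) (fun w _ => f w)
        = ∑ e ∈ nb t v \ U, α v e *
          (PiL t Dl l (tg v e).card * Bit t α Dl f l (tg v e)
            - OutA t α l (tg v e) (insert e U) (fun w _ => f w))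
        + ∑ e ∈ nb t v ∩ U, α v e *
          (PiL t Dl l (tg v e).card * Bit t α Dl f l (tg v e)) := by
      have : ∑ e ∈ nb t v \ U, α v e *
          (PiL t Dl l (tg v e).card * Bit t α Dl f l (tg v e)
            - OutA t α l (tg v e) (insert e U) (fun w _ => f w))
          = ∑ e ∈ nb t v \ U, α v e *
          (PiL t Dl l (tg v e).card * Bit t α Dl f l (tg v e))
          - ∑ e ∈ nb t v \ U, α v e *
          OutA t α l (tg v e) (insert e U) (fun w _ => f w) := by
        rw [← sum_sub_distrib]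
        exact sum_congr rfl (fun e _ => by ring)
      rw [this]; ring
    rw [e1]
    have b1 : D * |∑ e ∈ nb t v \ U, α v e *
          (PiL t Dl l (tg v e).card * Bit t α Dl f l (tg v e)
            - OutA t α l (tg v e) (insert e U) (fun w _ => f w))|
        ≤ τ * (l * (U.card + 1 + l)) * D ^ (l+1) := by
      calc D * |∑ e ∈ nb t v \ U, α v e *
          (PiL t Dl l (tg v e).card * Bit t α Dl f l (tg v e)
            - OutA t α l (tg v e) (insert e U) (fun w _ => f w))|
          ≤ D * ∑ e ∈ nb t v \ U, |α v e *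
          (PiL t Dl l (tg v e).card * Bit t α Dl f l (tg v e)
            - OutA t α l (tg v e) (insert e U) (fun w _ => f w))| :=
            mul_le_mul_of_nonneg_left (abs_sum_le_sum_abs _ _) hD0.le
        _ = ∑ e ∈ nb t v \ U, α v e * (D *
          |PiL t Dl l (tg v e).card * Bit t α Dl f l (tg v e)
            - OutA t α l (tg v e) (insert e U) (fun w _ => f w)|) := by
            rw [mul_sum]
            refine sum_congr rfl (fun e _ => ?_)
            rw [abs_mul, abs_of_nonneg (α.h0 v e)]
            ring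
        _ ≤ ∑ e ∈ nb t v \ U, α v e * (τ * (l * (U.card + 1 + l)) * D ^ l) := by
            refine sum_le_sum (fun e he => ?_)
            apply mul_le_mul_of_nonneg_left _ (α.h0 v e)
            have he' := (mem_sdiff.1 he).1
            refine (ih2 (tg v e) (insert e U) (inL_tg he')).trans ?_
            have hc : ((insert e U).card : ℝ) ≤ U.card + 1 := by
              exact_mod_cast card_insert_le e U
            gcongr
        _ ≤ D * (τ * (l * (U.card + 1 + l)) * D ^ l) := by
            rw [← sum_mul]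
            apply mul_le_mul_of_nonneg_right ((sum_opn_le t α v U).trans (hdg v hv)) (by positivity)
        _ = τ * (l * (U.card + 1 + l)) * D ^ (l+1) := by ring
    have b2 : D * |∑ e ∈ nb t v ∩ U, α v e *
          (PiL t Dl l (tg v e).card * Bit t α Dl f l (tg v e))| ≤ τ * U.card * D ^ (l+1) := by
      calc D * |∑ e ∈ nb t v ∩ U, α v e *
          (PiL t Dl l (tg v e).card * Bit t α Dl f l (tg v e))|
          ≤ D * ∑ e ∈ nb t v ∩ U, |α v e *
          (PiL t Dl l (tg v e).card * Bit t α Dl f l (tg v e))| :=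
            mul_le_mul_of_nonneg_left (abs_sum_le_sum_abs _ _) hD0.le
        _ ≤ D * ∑ e ∈ nb t v ∩ U, (τ * D ^ l) := by
            apply mul_le_mul_of_nonneg_left _ hD0.le
            refine sum_le_sum (fun e he => ?_)
            rw [abs_mul, abs_of_nonneg (α.h0 v e)]
            calc α v e * |PiL t Dl l (tg v e).card * Bit t α Dl f l (tg v e)|
                ≤ 1 * (τ * D ^ l) := by
                  apply mul_le_mul (α.h1 v e)
                    (ih1 _ (inL_tg (mem_inter.1 he).1)) (abs_nonneg _) zero_le_one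
              _ = τ * D ^ l := one_mul _
        _ = D * ((nb t v ∩ U).card * (τ * D ^ l)) := by rw [sum_const, nsmul_eq_mul]
        _ ≤ D * (U.card * (τ * D ^ l)) := by
            have : ((nb t v ∩ U).card : ℝ) ≤ U.card := by
              exact_mod_cast card_le_card inter_subset_right
            gcongr
        _ = τ * U.card * D ^ (l+1) := by ring
    have b3 := abs_add_le (∑ e ∈ nb t v \ U, α v e *
          (PiL t Dl l (tg v e).card * Bit t α Dl f l (tg v e)
            - OutA t α l (tg v e) (insert e U) (fun w _ => f w)))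
        (∑ e ∈ nb t v ∩ U, α v e *
          (PiL t Dl l (tg v e).card * Bit t α Dl f l (tg v e)))
    have b4 := mul_le_mul_of_nonneg_left b3 hD0.le
    rw [mul_add] at b4
    have b5 : τ * (l * (U.card + 1 + l)) * D ^ (l+1) + τ * U.card * D ^ (l+1)
        ≤ τ * (((l + 1 : ℕ) : ℝ) * (U.card + ((l + 1 : ℕ) : ℝ))) * D ^ (l+1) := by
      rw [← add_mul, ← mul_add]
      apply mul_le_mul_of_nonneg_right _ (by positivity)
      apply mul_le_mul_of_nonneg_left _ hτ
      push_cast
      have h1 : (0:ℝ) ≤ l := Nat.cast_nonneg l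
      have h2 : (0:ℝ) ≤ U.card := Nat.cast_nonneg _
      nlinarith
    linarith

end walk


end pathsum

section counting

variable {n : ℕ} (t : ℕ) (α : Wt n)

/-- number of open outward paths of length `l` from `v` to `w` avoiding `U` -/
noncomputable def cnt (l : ℕ) (v U w : Finset (Fin n)) : ℝ :=
  OutA t α l v U (fun w' _ => if w' = w then 1 else 0)

lemma cnt_nonneg (l : ℕ) (v U w : Finset (Fin n)) :
    0 ≤ cnt t α l v U w :=
  OutA_nonneg t α l v U _ (fun _ _ => by split_ifs <;> norm_num)

lemma cnt_succ (l : ℕ) (v U w : Finset (Fin n)) :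
    cnt t α (l+1) v U w
      = ∑ e ∈ nb t v \ U, α v e * cnt t α l (tg v e) (insert e U) w := rfl

lemma cnt_ne_zero (l : ℕ) : ∀ (v U w : Finset (Fin n)),
    cnt t α l v U w ≠ 0 → Disjoint (v ∆ w) U ∧ (v ∆ w).card = l := by
  induction l with
  | zero =>
    intro v U w h
    have : v = w := by
      by_contra hne
      apply h
      change (if v = w then (1:ℝ) else 0) = 0
      rw [if_neg hne]
    rw [this, symmDiff_self]
    exact ⟨disjoint_bot_left, card_empty⟩
  | succ l ih =>
    intro v U w h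
    rw [cnt_succ] at h
    obtain ⟨e, he, hne⟩ := exists_ne_zero_of_sum_ne_zero h
    obtain ⟨h1, h2⟩ := mem_sdiff.1 he
    have h3 : cnt t α l (tg v e) (insert e U) w ≠ 0 := right_ne_zero_of_mul hne
    obtain ⟨h4, h5⟩ := ih _ _ _ h3
    rw [symmDiff_tg_left] at h4 h5
    have he1 : e ∉ tg (v ∆ w) e := fun hh =>
      disjoint_left.1 h4 hh (mem_insert_self e U)
    have he2 : e ∈ v ∆ w := by
      by_contra hcon
      apply he1
      rw [mem_tg]
      exact Or.inr ⟨rfl, hcon⟩
    rw [tg_of_mem he2] at h4 h5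
    constructor
    · rw [disjoint_left]
      intro a ha haU
      by_cases hae : a = e
      · exact h2 (hae ▸ haU)
      · exact disjoint_left.1 h4 (mem_erase.2 ⟨hae, ha⟩) (mem_insert_of_mem haU)
    · rw [card_erase_of_mem he2] at h5
      have : 0 < (v ∆ w).card := card_pos.2 ⟨e, he2⟩
      omega

lemma cnt_succ_mem (l : ℕ) (v U w : Finset (Fin n)) (e : Fin n)
    (h : cnt t α l (tg v e) (insert e U) w ≠ 0) : e ∈ v ∆ w := by
  obtain ⟨h4, h5⟩ := cnt_ne_zero t α l _ _ _ h
  rw [symmDiff_tg_left] at h4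
  by_contra hcon
  refine disjoint_left.1 h4 ?_ (mem_insert_self e U)
  rw [mem_tg]
  exact Or.inr ⟨rfl, hcon⟩

lemma cnt_le (l : ℕ) : ∀ (v U w : Finset (Fin n)),
    cnt t α l v U w ≤ (l.factorial : ℝ) := by
  induction l with
  | zero =>
    intro v U w
    change (if v = w then (1:ℝ) else 0) ≤ _
    split_ifs <;> simp
  | succ l ih =>
    intro v U w
    by_cases h0 : cnt t α (l+1) v U w = 0
    · rw [h0]; positivity
    obtain ⟨_, hcard⟩ := cnt_ne_zero t α (l+1) v U w h0
    rw [cnt_succ]
    calc ∑ e ∈ nb t v \ U, α v e * cnt t α l (tg v e) (insert e U) w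
        ≤ ∑ e ∈ nb t v \ U, if e ∈ v ∆ w then (l.factorial : ℝ) else 0 := by
          refine sum_le_sum (fun e _ => ?_)
          by_cases hc : cnt t α l (tg v e) (insert e U) w = 0
          · rw [hc, mul_zero]
            split_ifs <;> positivity
          · rw [if_pos (cnt_succ_mem t α l v U w e hc)]
            calc α v e * cnt t α l (tg v e) (insert e U) w
                ≤ 1 * (l.factorial : ℝ) := by
                  apply mul_le_mul (α.h1 v e) (ih _ _ _) (cnt_nonneg t α l _ _ _)
                    zero_le_one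
              _ = _ := one_mul _
      _ ≤ ∑ e ∈ univ, if e ∈ v ∆ w then (l.factorial : ℝ) else 0 := by
          apply sum_le_sum_of_subset_of_nonneg (subset_univ _)
          intro e _ _
          split_ifs <;> positivity
      _ = (v ∆ w).card * (l.factorial : ℝ) := by
          rw [← sum_filter]
          have : univ.filter (fun e => e ∈ v ∆ w) = v ∆ w := by
            ext e; simp
          rw [this, sum_const, nsmul_eq_mul]
      _ = ((l+1).factorial : ℝ) := by
          rw [hcard, Nat.factorial_succ]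
          push_cast
          ring

lemma OutA_eq_cnt (l : ℕ) : ∀ (v U : Finset (Fin n))
    (F : Finset (Fin n) → Finset (Fin n) → ℝ),
    OutA t α l v U F = ∑ w : Finset (Fin n), cnt t α l v U w * F w (U ∪ (v ∆ w)) := by
  induction l with
  | zero =>
    intro v U F
    rw [OutA_zero, sum_eq_single v]
    · change _ = (if v = v then (1:ℝ) else 0) * _
      rw [if_pos rfl, one_mul, symmDiff_self]
      congr 1
      exact (union_empty U).symm
    · intro w _ hw
      change (if v = w then (1:ℝ) else 0) * _ = 0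
      rw [if_neg (Ne.symm hw), zero_mul]
    · intro h; exact absurd (mem_univ v) h
  | succ l ih =>
    intro v U F
    rw [OutA_succ]
    have h1 : ∀ w, cnt t α (l+1) v U w * F w (U ∪ (v ∆ w))
        = ∑ e ∈ nb t v \ U, α v e * (cnt t α l (tg v e) (insert e U) w
          * F w (insert e U ∪ ((tg v e) ∆ w))) := by
      intro w
      rw [cnt_succ, sum_mul]
      refine sum_congr rfl (fun e _ => ?_)
      by_cases hc : cnt t α l (tg v e) (insert e U) w = 0
      · rw [hc]; ring
      · have he := cnt_succ_mem t α l v U w e hc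
        have : insert e U ∪ ((tg v e) ∆ w) = U ∪ (v ∆ w) := by
          rw [symmDiff_tg_left, tg_of_mem he]
          ext a
          simp only [mem_union, mem_insert, mem_erase]
          by_cases hae : a = e
          · subst hae
            simp [he]
          · simp [hae]
        rw [this]
        ring
    rw [sum_congr rfl (fun w _ => h1 w), sum_comm]
    refine sum_congr rfl (fun e _ => ?_)
    rw [ih, mul_sum]

lemma sum_cnt (l : ℕ) (v U : Finset (Fin n)) :
    ∑ w : Finset (Fin n), cnt t α l v U w = NO t α l v U := by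
  unfold NO
  rw [OutA_eq_cnt]
  simp

/-- locality of outward sums -/
lemma OutA_congr {α α' : Wt n} (l : ℕ) : ∀ (v U : Finset (Fin n))
    (F F' : Finset (Fin n) → Finset (Fin n) → ℝ),
    (∀ u e, u ∈ ham v l → tg u e ∈ ham v l → α u e = α' u e) →
    (∀ w ∈ ham v l, ∀ U', F w U' = F' w U') → OutA t α l v U F = OutA t α' l v U F' := by
  induction l with
  | zero =>
    intro v U F F' _ h2
    exact h2 v (ham_self v 0) U
  | succ l ih =>
    intro v U F F' h1 h2
    rw [OutA_succ, OutA_succ]
    refine sum_congr rfl (fun e _ => ?_)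
    have hsub : ∀ u ∈ ham (tg v e) l, u ∈ ham v (l+1) := by
      intro u hu
      have := ham_trans (tg_mem_ham v e) hu
      rwa [add_comm 1 l] at this
    rw [h1 v e (ham_self v _) (hsub _ (ham_self _ _)),
      ih (tg v e) (insert e U) F F' (fun u e' hu hu' => h1 u e' (hsub u hu) (hsub _ hu'))
        (fun w hw => h2 w (hsub w hw))]

/-- indicator that all edges of the path are open -/
noncomputable def indl : Finset (Fin n) → List (Fin n) → ℝ
  | _, [] => 1
  | w, (e :: es) => α w e * indl (tg w e) es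

lemma OutA_eq_list (r : ℕ) : ∀ (w U : Finset (Fin n))
    (F : Finset (Fin n) → ℝ), OutA t α r w U (fun u _ => F u)
      = ∑ es ∈ PLf t r w U, indl α w es * F (endp w es) := by
  induction r with
  | zero => intro w U F; simp [OutA, PLf, indl, endp]
  | succ r ih =>
    intro w U F
    rw [OutA_succ]
    simp only [PLf]
    rw [sum_biUnion]
    · refine sum_congr rfl (fun e _ => ?_)
      rw [ih, sum_image (by intro a _ b _ h; exact (List.cons.inj h).2), mul_sum]
      refine sum_congr rfl (fun es _ => ?_)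
      simp only [indl, endp]
      ring
    · intro e _ e' _ hne
      rw [Function.onFun, Finset.disjoint_left]
      intro es h1 h2
      rw [mem_image] at h1 h2
      obtain ⟨a, _, ha⟩ := h1
      obtain ⟨b, _, hb⟩ := h2
      rw [← hb] at ha
      exact hne (List.cons.inj ha).1

lemma indl_nonneg (es : List (Fin n)) : ∀ w : Finset (Fin n),
    0 ≤ indl α w es := by
  induction es with
  | nil => intro w; exact zero_le_one
  | cons e es ih => intro w; exact mul_nonneg (α.h0 w e) (ih _)

lemma indl_le_one (es : List (Fin n)) : ∀ w : Finset (Fin n),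
    indl α w es ≤ 1 := by
  induction es with
  | nil => intro w; exact le_refl _
  | cons e es ih =>
    intro w
    exact mul_le_one₀ (α.h1 w e) (indl_nonneg α es _) (ih _)

/-- `indl` only depends on the weights along the path -/
lemma indl_congr {α α' : Wt n} {v : Finset (Fin n)} (es : List (Fin n)) :
    ∀ (w U : Finset (Fin n)), v ∆ w ⊆ U → okp t w U es →
    (∀ u e, (u = w ∨ (v ∆ w).card < (v ∆ u).card) → (v ∆ tg u e).card = (v ∆ u).card + 1 →
      α u e = α' u e) →
    indl α w es = indl α' w es := by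
  induction es with
  | nil => intro w U _ _ _; rfl
  | cons e es ih =>
    intro w U hU h hall
    obtain ⟨⟨h1, h2⟩, h3⟩ := h
    have he : e ∉ v ∆ w := fun hh => h2 (hU hh)
    have hsd : v ∆ (tg w e) = insert e (v ∆ w) := by
      rw [symmDiff_comm, symmDiff_tg_left, symmDiff_comm w v, tg_of_notMem he]
    have hcard : (v ∆ (tg w e)).card = (v ∆ w).card + 1 := by
      rw [hsd, card_insert_of_notMem he]
    change α w e * indl α (tg w e) es = α' w e * indl α' (tg w e) es
    rw [hall w e (Or.inl rfl) hcard]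
    congr 1
    apply ih (tg w e) (insert e U) (by rw [hsd]; exact insert_subset_insert _ hU) h3
    intro u e' hu hu'
    apply hall u e' _ hu'
    right
    rcases hu with hu | hu
    · rw [hu]; omega
    · omega

end counting

end Pool.Agent.SK.Lin
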