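import Pool.Agent.Lib.MP_5fcc10_co_lin.Paths

/-! Rerouting the missing flow of one side to the other side along outward paths. -/

set_option linter.unusedSectionVars false
set_option linter.unusedVariables false

namespace Pool.Agent.SK.Lin

open Finset
open scoped symmDiff

section rep

variable {n : ℕ} (t : ℕ) (α : Wt n)

lemma mem_nb_tg_iff {t : ℕ} {v : Finset (Fin n)} {e : Fin n} :
    e ∈ nb t (tg v e) ↔ e ∈ nb t v := by
  constructor
  · intro h
    have := mem_nb_tg h
    rwa [tg_tg] at this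
  · exact mem_nb_tg

lemma NO_succ (l : ℕ) (v U : Finset (Fin n)) :
    NO t α (l+1) v U = ∑ e ∈ nb t v \ U, α v e * NO t α l (tg v e) (insert e U) := rfl

lemma mem_symmDiff_tg_right {A u : Finset (Fin n)} {e : Fin n} :
    e ∈ A ∆ (tg u e) ↔ e ∉ A ∆ u := by
  rw [symmDiff_comm, symmDiff_tg_left, mem_tg, symmDiff_comm u A]
  tauto

lemma insert_symmDiff_tg {A u : Finset (Fin n)} {e : Fin n} (h : e ∈ A ∆ u) :
    insert e (A ∆ (tg u e)) = A ∆ u := by
  rw [symmDiff_comm A, symmDiff_tg_left, symmDiff_comm u A, tg_of_mem h, insert_erase h]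

/-- last step decomposition -/
lemma cnt_last (r : ℕ) (A u : Finset (Fin n)) :
    cnt t α (r+1) A ∅ u
      = ∑ e ∈ nb t u, if e ∈ A ∆ u then cnt t α r A ∅ (tg u e) * α (tg u e) e else 0 := by
  have h1 : cnt t α (r+1) A ∅ u
      = OutA t α r A ∅ (fun w U' => OutA t α 1 w U' (fun w' _ => if w' = u then 1 else 0)) :=
    OutA_add t α r 1 A ∅ _
  rw [h1, OutA_eq_cnt]
  have h2 : ∀ w : Finset (Fin n), cnt t α r A ∅ w
      * OutA t α 1 w (∅ ∪ (A ∆ w)) (fun w' _ => if w' = u then (1:ℝ) else 0)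
      = ∑ e : Fin n, if e ∈ nb t w \ (A ∆ w) ∧ tg w e = u then cnt t α r A ∅ w * α w e else 0 := by
    intro w
    rw [empty_union, OutA_succ, mul_sum, ← sum_filter]
    have : univ.filter (fun e => e ∈ nb t w \ (A ∆ w) ∧ tg w e = u)
        = (nb t w \ (A ∆ w)).filter (fun e => tg w e = u) := by
      ext e; simp
    rw [this, sum_filter]
    refine sum_congr rfl (fun e _ => ?_)
    rw [OutA_zero]
    split_ifs <;> ring
  rw [sum_congr rfl (fun w _ => h2 w), sum_comm]
  have h3 : ∀ e : Fin n, (∑ w : Finset (Fin n),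
      if e ∈ nb t w \ (A ∆ w) ∧ tg w e = u then cnt t α r A ∅ w * α w e else 0)
      = if e ∈ nb t u then (if e ∈ A ∆ u then cnt t α r A ∅ (tg u e) * α (tg u e) e else 0)
        else 0 := by
    intro e
    rw [sum_eq_single (tg u e)]
    · have hiff : (e ∈ nb t (tg u e) \ (A ∆ tg u e) ∧ tg (tg u e) e = u)
          ↔ (e ∈ nb t u ∧ e ∈ A ∆ u) := by
        rw [tg_tg, mem_sdiff, mem_nb_tg_iff, mem_symmDiff_tg_right, not_not]
        tauto
      by_cases h1 : e ∈ nb t u
      · by_cases h2 : e ∈ A ∆ u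
        · rw [if_pos (hiff.2 ⟨h1, h2⟩), if_pos h1, if_pos h2]
        · rw [if_neg (fun h => h2 (hiff.1 h).2), if_pos h1, if_neg h2]
      · rw [if_neg (fun h => h1 (hiff.1 h).1), if_neg h1]
    · intro w _ hw
      rw [if_neg]
      rintro ⟨_, h⟩
      apply hw
      rw [← h, tg_tg]
    · intro h; exact absurd (mem_univ _) h
  rw [sum_congr rfl (fun e _ => h3 e), ← sum_filter]
  congr 1
  ext e
  simp

/-- the flow sent from `A` through the edge toggling `e` at `u`, in the outward direction -/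
noncomputable def flo (m : ℕ) (A u : Finset (Fin n)) (e : Fin n) : ℝ :=
  ∑ r ∈ range m, (-1 : ℝ) ^ r * (cnt t α r A ∅ u *
    (if e ∈ A ∆ u then 0 else α u e * NO t α (m - r - 1) (tg u e) (insert e (A ∆ u))))

/-- the sum of the outgoing flow -/
lemma sum_flo_out (m : ℕ) (A u : Finset (Fin n)) :
    ∑ e ∈ nb t u, flo t α m A u e
      = ∑ r ∈ range m, (-1 : ℝ) ^ r * (cnt t α r A ∅ u * NO t α (m - r) u (A ∆ u)) := by
  unfold flo
  rw [sum_comm]
  refine sum_congr rfl (fun r hr => ?_)
  rw [← mul_sum, ← mul_sum]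
  congr 2
  have hr' := mem_range.1 hr
  obtain ⟨l, hl⟩ : ∃ l, m - r = l + 1 := ⟨m - r - 1, by omega⟩
  rw [hl, NO_succ, Nat.add_sub_cancel]
  rw [← sum_filter_add_sum_filter_not (nb t u) (fun e => e ∈ A ∆ u)]
  have e1 : ∑ e ∈ (nb t u).filter (fun e => e ∈ A ∆ u),
      (if e ∈ A ∆ u then (0:ℝ) else α u e * NO t α l (tg u e) (insert e (A ∆ u))) = 0 := by
    refine sum_eq_zero (fun e he => ?_)
    rw [if_pos (mem_filter.1 he).2]
  rw [e1, zero_add]
  have e2 : (nb t u).filter (fun e => e ∉ A ∆ u) = nb t u \ (A ∆ u) := by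
    ext e; simp [mem_sdiff]
  rw [e2]
  refine sum_congr rfl (fun e he => ?_)
  rw [if_neg (mem_sdiff.1 he).2]

/-- the sum of the incoming flow -/
lemma sum_flo_in (m : ℕ) (A u : Finset (Fin n)) :
    ∑ e ∈ nb t u, flo t α m A (tg u e) e
      = ∑ r ∈ range m, (-1 : ℝ) ^ r *
        (cnt t α (r + 1) A ∅ u * NO t α (m - (r + 1)) u (A ∆ u)) := by
  unfold flo
  rw [sum_comm]
  refine sum_congr rfl (fun r hr => ?_)
  rw [← mul_sum]
  congr 1
  rw [cnt_last, sum_mul]
  refine sum_congr rfl (fun e _ => ?_)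
  rw [tg_tg, Nat.sub_sub]
  by_cases h : e ∈ A ∆ u
  · rw [if_pos h, if_neg (by rw [mem_symmDiff_tg_right, not_not]; exact h),
      insert_symmDiff_tg h]
    ring
  · rw [if_neg h, if_pos (by rw [mem_symmDiff_tg_right]; exact h)]
    ring

/-- the total flow at a vertex -/
lemma sum_flo (m : ℕ) (hm : Odd m) (A u : Finset (Fin n)) :
    ∑ e ∈ nb t u, (flo t α m A u e + flo t α m A (tg u e) e)
      = (if A = u then NO t α m A ∅ else 0) + cnt t α m A ∅ u := by
  rw [sum_add_distrib, sum_flo_out, sum_flo_in]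
  set f : ℕ → ℝ := fun r => cnt t α r A ∅ u * NO t α (m - r) u (A ∆ u) with hf
  have key : ∀ k : ℕ, ∑ r ∈ range k, (-1 : ℝ) ^ r * f r
      + ∑ r ∈ range k, (-1 : ℝ) ^ r * f (r + 1) = f 0 - (-1 : ℝ) ^ k * f k := by
    intro k
    induction k with
    | zero => simp
    | succ k ih =>
      rw [sum_range_succ, sum_range_succ]
      have : (-1 : ℝ) ^ (k+1) = - (-1 : ℝ) ^ k := by rw [pow_succ]; ring
      rw [this]
      linear_combination ih
  have h1 := key m
  rw [hm.neg_one_pow] at h1
  have h0 : f 0 = if A = u then NO t α m A ∅ else 0 := by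
    change (if A = u then (1:ℝ) else 0) * NO t α (m - 0) u (A ∆ u) = _
    by_cases h : A = u
    · subst h
      rw [if_pos rfl, if_pos rfl, one_mul, symmDiff_self, Nat.sub_zero]
      rfl
    · rw [if_neg h, if_neg h, zero_mul]
  have h2 : f m = cnt t α m A ∅ u := by
    change cnt t α m A ∅ u * NO t α (m - m) u (A ∆ u) = _
    rw [Nat.sub_self]
    change cnt t α m A ∅ u * 1 = _
    rw [mul_one]
  rw [← h0, ← h2]
  linarith

/-- bound on the flow through an edge -/
lemma flo_abs_le (m : ℕ) (B : ℝ) (hB : 1 ≤ B)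
    (hNB : ∀ l v U, l ≤ m → inL t v → NO t α l v U ≤ B ^ l) (A u : Finset (Fin n)) (e : Fin n)
    (hu : inL t (tg u e)) :
    |flo t α m A u e| ≤ (m.factorial : ℝ) * B ^ (m - 1) * α u e := by
  have hB0 : 0 ≤ B := zero_le_one.trans hB
  have hα := α.h0 u e
  unfold flo
  by_cases hr : (A ∆ u).card < m
  · rw [sum_eq_single (A ∆ u).card]
    · rw [abs_mul, abs_pow, abs_neg, abs_one, one_pow, one_mul]
      set r := (A ∆ u).card with hrr
      by_cases he : e ∈ A ∆ u
      · rw [if_pos he, mul_zero, abs_zero]; positivity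
      · rw [if_neg he, abs_of_nonneg (mul_nonneg (cnt_nonneg t α _ _ _ _)
          (mul_nonneg hα (NO_nonneg t α _ _ _)))]
        have h1 : cnt t α r A ∅ u ≤ m.factorial :=
          (cnt_le t α r A ∅ u).trans (by exact_mod_cast Nat.factorial_le hr.le)
        have h2 : NO t α (m - r - 1) (tg u e) (insert e (A ∆ u)) ≤ B ^ (m - 1) :=
          (hNB _ _ _ (by omega) hu).trans (pow_le_pow_right₀ hB (by omega))
        calc cnt t α r A ∅ u * (α u e * NO t α (m - r - 1) (tg u e) (insert e (A ∆ u)))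
            ≤ m.factorial * (α u e * B ^ (m - 1)) := by
              apply mul_le_mul h1 (mul_le_mul_of_nonneg_left h2 hα)
                (mul_nonneg hα (NO_nonneg t α _ _ _)) (by positivity)
          _ = _ := by ring
    · intro r _ hne
      have : cnt t α r A ∅ u = 0 := by
        by_contra hc
        exact hne (cnt_ne_zero t α r A ∅ u hc).2.symm
      rw [this, zero_mul, mul_zero]
    · intro h
      exact absurd (mem_range.2 hr) h
  · rw [sum_eq_zero]
    · rw [abs_zero]; positivity
    · intro r hr'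
      have : cnt t α r A ∅ u = 0 := by
        by_contra hc
        have h1 := (cnt_ne_zero t α r A ∅ u hc).2
        have h2 := mem_range.1 hr'
        omega
      rw [this, zero_mul, mul_zero]

/-- the flow from `A` vanishes unless a path reaches `u` -/
lemma flo_eq_zero (m : ℕ) (A u : Finset (Fin n)) (e : Fin n)
    (h : ∀ l ≤ m, cnt t α l A ∅ u = 0) : flo t α m A u e = 0 := by
  unfold flo
  refine sum_eq_zero (fun r hr => ?_)
  rw [h r (mem_range.1 hr).le, zero_mul, mul_zero]

end rep

open Classical in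
/-- Rerouting the missing flow `q` of the vertices of one side to the other side, along the
outward paths of odd length `m`. -/
theorem repair {n t : ℕ} (α : Wt n) (hα : ∀ v e, e ∈ nb t v → α (tg v e) e = α v e) (c0 : ℕ)
    (hc0 : c0 = t ∨ c0 = t + 1) (m : ℕ) (hm : Odd m) (q : Finset (Fin n) → ℝ)
    (hq0 : ∀ v, 0 ≤ q v) (Q : ℝ) (hqQ : ∀ v, q v ≤ Q) (hqc : ∀ v, q v ≠ 0 → v.card = c0)
    (N0 : ℝ) (hN0 : 0 < N0) (hN : ∀ v, v.card = c0 → N0 ≤ NO t α m v ∅) (B : ℝ) (hB : 1 ≤ B)
    (hNB : ∀ l v U, l ≤ m → inL t v → NO t α l v U ≤ B ^ l) (K : ℕ)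
    (hK : ∀ v, inL t v → (univ.filter (fun w : Finset (Fin n) =>
      q w ≠ 0 ∧ ∃ l ≤ m, cnt t α l w ∅ v ≠ 0)).card ≤ K) :
    ∃ φ : Finset (Fin n) → Fin n → ℝ, (∀ v e, e ∈ nb t v → φ (tg v e) e = φ v e) ∧
      (∀ v e, e ∈ nb t v →
        |φ v e| ≤ α v e * (2 * K * Q * m.factorial * B ^ (m - 1) / N0)) ∧
      (∀ v, v.card = c0 → ∑ e ∈ nb t v, φ v e = q v) ∧
      (∀ v, inL t v → v.card ≠ c0 → |∑ e ∈ nb t v, φ v e| ≤ K * Q * m.factorial / N0) := by
  have hQ0 : 0 ≤ Q := (hq0 ∅).trans (hqQ ∅)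
  have hB0 : 0 ≤ B := zero_le_one.trans hB
  set c : Finset (Fin n) → ℝ := fun A => q A / NO t α m A ∅ with hc
  have hc_nonneg : ∀ A, 0 ≤ c A := fun A => div_nonneg (hq0 A) (NO_nonneg t α m A ∅)
  have hc_le : ∀ A, c A ≤ Q / N0 := by
    intro A
    by_cases h : q A = 0
    · change q A / _ ≤ _
      rw [h, zero_div]; positivity
    · exact div_le_div₀ hQ0 (hqQ A) hN0 (hN A (hqc A h))
  -- a general bound for sums over the sources
  have hgen : ∀ (v : Finset (Fin n)), inL t v → ∀ (G : Finset (Fin n) → ℝ) (M : ℝ), 0 ≤ M →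
      (∀ A, |G A| ≤ M) → (∀ A, (∀ l ≤ m, cnt t α l A ∅ v = 0) → G A = 0) →
      |∑ A, c A * G A| ≤ K * (Q / N0 * M) := by
    intro v hv G M hM hG hG0
    have h1 : ∑ A, c A * G A = ∑ A ∈ univ.filter (fun w : Finset (Fin n) =>
        q w ≠ 0 ∧ ∃ l ≤ m, cnt t α l w ∅ v ≠ 0), c A * G A := by
      symm
      apply sum_subset (subset_univ _)
      intro A _ hA
      rw [mem_filter] at hA
      by_cases hq : q A = 0
      · change q A / _ * _ = 0
        rw [hq, zero_div, zero_mul]
      · have : ∀ l ≤ m, cnt t α l A ∅ v = 0 := by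
          intro l hl
          by_contra hne
          exact hA ⟨mem_univ _, hq, l, hl, hne⟩
        rw [hG0 A this, mul_zero]
    rw [h1]
    calc |∑ A ∈ univ.filter (fun w : Finset (Fin n) =>
        q w ≠ 0 ∧ ∃ l ≤ m, cnt t α l w ∅ v ≠ 0), c A * G A|
        ≤ ∑ A ∈ univ.filter (fun w : Finset (Fin n) =>
        q w ≠ 0 ∧ ∃ l ≤ m, cnt t α l w ∅ v ≠ 0), |c A * G A| := abs_sum_le_sum_abs _ _
      _ ≤ ∑ A ∈ univ.filter (fun w : Finset (Fin n) =>
        q w ≠ 0 ∧ ∃ l ≤ m, cnt t α l w ∅ v ≠ 0), (Q / N0 * M) := by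
          refine sum_le_sum (fun A _ => ?_)
          rw [abs_mul, abs_of_nonneg (hc_nonneg A)]
          exact mul_le_mul (hc_le A) (hG A) (abs_nonneg _) (by positivity)
      _ = ((univ.filter (fun w : Finset (Fin n) =>
        q w ≠ 0 ∧ ∃ l ≤ m, cnt t α l w ∅ v ≠ 0)).card : ℝ) * (Q / N0 * M) := by
          rw [sum_const, nsmul_eq_mul]
      _ ≤ K * (Q / N0 * M) := by
          apply mul_le_mul_of_nonneg_right _ (by positivity)
          exact_mod_cast hK v hv
  -- the total at a vertex
  have htot : ∀ v : Finset (Fin n),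
      ∑ e ∈ nb t v, ((∑ A, c A * flo t α m A v e) + ∑ A, c A * flo t α m A (tg v e) e)
        = (if v.card = c0 then q v else 0) + ∑ A, c A * cnt t α m A ∅ v := by
    intro v
    have e1 : ∑ e ∈ nb t v, ((∑ A, c A * flo t α m A v e) + ∑ A, c A * flo t α m A (tg v e) e)
        = ∑ A, c A * ∑ e ∈ nb t v, (flo t α m A v e + flo t α m A (tg v e) e) := by
      have : ∀ e ∈ nb t v, ((∑ A, c A * flo t α m A v e) + ∑ A, c A * flo t α m A (tg v e) e)
          = ∑ A, c A * (flo t α m A v e + flo t α m A (tg v e) e) := by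
        intro e _
        rw [← sum_add_distrib]
        exact sum_congr rfl (fun A _ => by ring)
      rw [sum_congr rfl this, sum_comm]
      exact sum_congr rfl (fun A _ => by rw [mul_sum])
    rw [e1]
    have e2 : ∀ A : Finset (Fin n), c A * ∑ e ∈ nb t v, (flo t α m A v e + flo t α m A (tg v e) e)
        = (if A = v then (if v.card = c0 then q v else 0) else 0) + c A * cnt t α m A ∅ v := by
      intro A
      rw [sum_flo t α m hm, mul_add]
      congr 1
      by_cases h : A = v
      · subst h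
        rw [if_pos rfl, if_pos rfl]
        by_cases h' : A.card = c0
        · rw [if_pos h']
          exact div_mul_cancel₀ _ (hN0.trans_le (hN A h')).ne'
        · rw [if_neg h']
          have : q A = 0 := by
            by_contra hne
            exact h' (hqc A hne)
          change q A / _ * _ = 0
          rw [this, zero_div, zero_mul]
      · rw [if_neg h, if_neg h, mul_zero]
    rw [sum_congr rfl (fun A _ => e2 A), sum_add_distrib]
    congr 1
    rw [sum_ite_eq' univ v]
    simp
  refine ⟨fun v e => (∑ A, c A * flo t α m A v e) + ∑ A, c A * flo t α m A (tg v e) e,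
    ?_, ?_, ?_, ?_⟩
  · intro v e _
    simp only [tg_tg]
    ring
  · intro v e he
    have hv := inL_of_nb he
    have hv' := inL_tg he
    have hαv := α.h0 v e
    have b1 := hgen v hv (fun A => flo t α m A v e) ((m.factorial : ℝ) * B ^ (m - 1) * α v e)
      (by positivity) (fun A => flo_abs_le t α m B hB hNB A v e hv')
      (fun A h => flo_eq_zero t α m A v e h)
    have b2 := hgen (tg v e) hv' (fun A => flo t α m A (tg v e) e)
      ((m.factorial : ℝ) * B ^ (m - 1) * α v e)
      (by positivity) (fun A => by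
        have := flo_abs_le t α m B hB hNB A (tg v e) e (by rw [tg_tg]; exact hv)
        rwa [hα v e he] at this)
      (fun A h => flo_eq_zero t α m A (tg v e) e h)
    have b3 := abs_add_le (∑ A, c A * flo t α m A v e) (∑ A, c A * flo t α m A (tg v e) e)
    have e3 : α v e * (2 * K * Q * m.factorial * B ^ (m - 1) / N0)
        = K * (Q / N0 * ((m.factorial : ℝ) * B ^ (m - 1) * α v e))
          + K * (Q / N0 * ((m.factorial : ℝ) * B ^ (m - 1) * α v e)) := by ring
    rw [e3]
    exact b3.trans (add_le_add b1 b2)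
  · intro v hv
    rw [htot v, if_pos hv]
    have : ∑ A, c A * cnt t α m A ∅ v = 0 := by
      refine sum_eq_zero (fun A _ => ?_)
      by_cases hq : q A = 0
      · change q A / _ * _ = 0
        rw [hq, zero_div, zero_mul]
      · have hA := hqc A hq
        have : cnt t α m A ∅ v = 0 := by
          by_contra hne
          have h1 := (cnt_ne_zero t α m A ∅ v hne).2
          have h2 : (A ∆ v).card = (A \ v).card + (v \ A).card := by
            rw [← card_union_of_disjoint disjoint_sdiff_sdiff]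
            rfl
          have h3 := card_sdiff_add_card_inter A v
          have h4 := card_sdiff_add_card_inter v A
          rw [inter_comm v A] at h4
          obtain ⟨k, hk⟩ := hm
          omega
        rw [this, mul_zero]
    rw [this, add_zero]
  · intro v hv hvc
    rw [htot v, if_neg hvc, zero_add]
    have b := hgen v hv (fun A => cnt t α m A ∅ v) m.factorial (by positivity)
      (fun A => by
        rw [abs_of_nonneg (cnt_nonneg t α _ _ _ _)]
        exact cnt_le t α m A ∅ v) (fun A h => h m le_rfl)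
    refine b.trans (le_of_eq ?_)
    ring

end Pool.Agent.SK.Lin
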