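import Pool.Agent.Lib.MP_5fcc10_co_lin.DelDef
import Pool.Agent.Lib.MP_5fcc10_co_lin.Deg
import Pool.Agent.Lib.MP_5fcc10_co_lin.ALLL
import Pool.Agent.Lib.MP_5fcc10_co.Core2

set_option linter.unusedSectionVars false

namespace Pool.Agent.SK.Lin

open Finset
open scoped symmDiff

/-! ### module KD: decomposition of a fractional weighting into `D` disjoint injections -/

theorem kd {α β : Type*} [Fintype α] [Fintype β] [DecidableEq α] [DecidableEq β] (D : ℕ)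
    (w : α → β → ℝ) (h0 : ∀ a b, 0 ≤ w a b) (h1 : ∀ a b, w a b ≤ 1)
    (hrow : ∀ a, ∑ b, w a b = D) (hcol : ∀ b, ∑ a, w a b ≤ D) :
    ∃ f : Fin D → α → β, (∀ j, Function.Injective (f j)) ∧ (∀ j a, w a (f j a) ≠ 0) ∧
      ∀ a j j', f j a = f j' a → j = j' := sorry

open Classical in
theorem step_many {V : Type*} [Fintype V] [DecidableEq V] (G : BG V) (D : ℕ) (w : V → V → ℝ)
    (hw0 : ∀ x ∈ G.X, ∀ y ∈ G.N1 x, 0 ≤ w x y ∧ w x y ≤ 1)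
    (hsum : ∀ x ∈ G.X, ∑ y ∈ G.N1 x, w x y = D) (load : ℝ)
    (hcol : ∀ y ∈ G.Y, ∑ x ∈ G.N2 y, w x y ≤ D * (1 - load))
    (F : Finset V) (S : V → Finset V) (hS : ∀ v ∈ F, S v ⊆ G.Y)
    (hSD : ∀ v ∈ F, 1 ≤ (S v).card ∧ D ≤ (S v).card) (M : ℕ)
    (hload : ∀ y ∈ G.Y, (M : ℝ) * ∑ v ∈ F.filter (fun v => y ∈ S v), 1 / ((S v).card : ℝ) ≤ load) :
    ∃ (f : Fin D → V → V) (g : Fin D → V → Fin M → V),
      (∀ j, ∀ x ∈ G.X, f j x ∈ G.N1 x ∧ w x (f j x) ≠ 0) ∧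
      (∀ j, ∀ x ∈ G.X, ∀ x' ∈ G.X, f j x = f j x' → x = x') ∧
      (∀ j, ∀ v ∈ F, ∀ r, g j v r ∈ S v) ∧
      (∀ j, ∀ v ∈ F, ∀ v' ∈ F, ∀ r r', g j v r = g j v' r' → v = v' ∧ r = r') ∧
      (∀ j, ∀ x ∈ G.X, ∀ v ∈ F, ∀ r, f j x ≠ g j v r) ∧
      (∀ j j', ∀ x ∈ G.X, f j x = f j' x → j = j') := sorry

/-! ### module SEP: separation -/

theorem sep {n p N : ℕ} (a b lo hi d0 L : ℕ) (hb : b ≤ a + 2) (hL : hi ≤ lo + L)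
    (ψ : Ix n → Lb p) (cls : Fin N → Lb p)
    (R : Fin N → ℕ → Finset (Fin n) → Finset (Fin n) → Prop)
    (hR : ∀ i t x y, R i t x y → x.card = t ∧ ∃ e, e ∉ x ∧ y = insert e x ∧ opP (cls i) ψ x e ∧
      (t < a → ¬ Del d0 ψ (cls i).1 x e) ∧ (b ≤ t → ¬ Del d0 ψ (cls i).1 y e))
    (hdisj : ∀ i j t x y, i ≠ j → R i t x y → R j t x y → False)
    (hlong : ∀ d, d0 < d → d ≤ L → ∀ (Z : Finset (Fin n)) (a : Fin d → Fin n)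
      (π : Equiv.Perm (Fin d)) (i j : ZMod p), Function.Injective a → conn π →
      ¬ DPo ψ Z a π i j)
    (i j : Fin N) (hij : i ≠ j) (s t : ℕ) (hs : lo ≤ s) (hst : s < t) (ht : t ≤ hi)
    (x y : Finset (Fin n)) (h1 : Comp (R i) s t x y) (h2 : Comp (R j) s t x y) : False := sorry

/-! ### module FEW: few deleted edges near a vertex -/

open Classical in
theorem few_del {n p m d0 T : ℕ} [NeZero p] (ψ : Ix n → Lb p)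
    (hno : ∀ (v : Finset (Fin n)) (i : ZMod p) (lam : Fin T → Str n p m d0),
      (∀ r, (lam r).ok ∧ (lam r).occ ψ v i ∧
      ¬ (lam r).S v ⊆ (univ.filter (fun s => s < r)).biUnion (fun s => (lam s).S v)) → False)
    (t : ℕ) (cl : Lb p) (v : Finset (Fin n)) :
    ((univ : Finset (Finset (Fin n) × Fin n)).filter (fun y => Del d0 ψ cl.1 y.1 y.2 ∧
      ∃ l ≤ m, cnt t (opn cl ψ) l y.1 ∅ v ≠ 0)).card ≤ 2 * (T * (m + 2 * d0)) := sorry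

/-! ### module GOOD: good labelings -/

open Classical in
theorem good_labels {n p m d0 T R L : ℕ} [NeZero p] (lo hi : ℕ)
    (Bd : Lb p → ℕ → Finset (Fin n) → (Ix n → Lb p) → Prop)
    (hdep : ∀ c t, lo ≤ t → t < hi → ∀ v, Dep (Bd c t v) (hamI v R)) (pb : ℝ) (hpb0 : 0 ≤ pb)
    (hpb : ∀ c t, lo ≤ t → t < hi → ∀ v, inL t v → P (Bd c t v) ≤ pb)
    (ζ : ℝ) (hζ0 : 0 ≤ ζ) (hT : 1 ≤ T) (hd0 : 2 ≤ d0)
    (hζ : ∀ (v : Finset (Fin n)) (i : ZMod p) (U : Finset (Ix n)) (ψ0 : Ix n → Lb p),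
      U.card ≤ T * (m + 2 * d0) →
      ∀ F : Finset (Str n p m d0), (∀ x ∈ F, x.ok ∧ ¬ x.S v ⊆ U ∧ x.okU ψ0 U v i) →
      ∑ x ∈ F, (1 / (p : ℝ)) ^ (x.S v \ U).card ≤ ζ)
    {ι4 : Type} [Fintype ι4] (A4 : ι4 → (Ix n → Lb p) → Prop)
    (S4 : ι4 → Finset (Ix n)) (hdep4 : ∀ i, Dep (A4 i) (S4 i)) (x4 : ι4 → ℝ)
    (hx40 : ∀ i, 0 ≤ x4 i) (hx41 : ∀ i, x4 i ≤ 1 / 2) (σ : ℝ)
    (hσ4 : ∀ y, ∑ i ∈ univ.filter (fun i => y ∈ S4 i), x4 i ≤ σ / 4)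
    (hp4 : ∀ i, P (A4 i) ≤ x4 i * Real.exp (-(2 * σ * (S4 i).card)))
    (h1 : 2 * (((n : ℝ) + 1) ^ R * (2 * p) * (n + 1) * pb) ≤ σ / 4)
    (h2 : 2 * (((n : ℝ) + 1) ^ (m + d0) * p * ζ ^ T) ≤ σ / 4)
    (h3 : 2 * ∑ d ∈ Finset.Ioc d0 L, (p : ℝ) ^ 2 * (4 * d * (n : ℝ) ^ (d - 1) * d.factorial)
      * (1 / (p : ℝ)) ^ (2 * d) ≤ σ / 4)
    (hs1 : σ * ((n : ℝ) + 1) ^ (R + 1) ≤ 1 / 4) (hs2 : σ * (T * (m + 2 * d0)) ≤ 1 / 4)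
    (hs3 : σ * (2 * L) ≤ 1 / 4) :
    ∃ ψ : Ix n → Lb p, (∀ c t, lo ≤ t → t < hi → ∀ v, inL t v → ¬ Bd c t v ψ) ∧
      (∀ (v : Finset (Fin n)) (i : ZMod p) (lam : Fin T → Str n p m d0),
        (∀ r, (lam r).ok ∧ (lam r).occ ψ v i ∧
        ¬ (lam r).S v ⊆ (univ.filter (fun s => s < r)).biUnion (fun s => (lam s).S v)) → False) ∧
      (∀ d, d0 < d → d ≤ L → ∀ (Z : Finset (Fin n)) (a : Fin d → Fin n)
        (π : Equiv.Perm (Fin d)) (i j : ZMod p), Function.Injective a → conn π →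
        ¬ DPo ψ Z a π i j) ∧ ∀ i, ¬ A4 i ψ := sorry

/-! ### module CLS: exact weights of a class at a stage -/

open Classical in
theorem class_weights {n t : ℕ} (α : Wt n) (hα : ∀ v e, e ∈ nb t v → α (tg v e) e = α v e)
    (hα01 : ∀ v e, α v e = 0 ∨ α v e = 1) (c0 c1 : ℕ)
    (hc : (c0 = t ∧ c1 = t + 1) ∨ (c0 = t + 1 ∧ c1 = t)) (hn : t < n) (δ : ℝ) (hδ : 0 < δ)
    (b : ℝ) (hb : 1 ≤ b) (hD1 : ∀ c, b ≤ Dn n t δ c) (hD2 : ∀ c, Dn n t δ c ≤ 4 * b)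
    (h : Finset (Fin n) → ℝ) (kk : ℕ → ℝ) (ε1 η : ℝ)
    (hh : ∀ v, inL t v → |h v| ≤ ε1) (hk : ∀ v : Finset (Fin n), inL t v → |kk v.card - 1| ≤ ε1)
    (hS : ∀ v, inL t v → |Sf t α (Dn n t δ) h v - kk v.card| ≤ η)
    (hdg : ∀ v, inL t v → |dg t α v / Dn n t δ v.card - 1| ≤ ε1)
    (Dele : Finset (Fin n) → Fin n → Prop) (K2 m : ℕ) (hm : Odd m)
    (hK2 : ∀ v, inL t v → ((univ : Finset (Finset (Fin n) × Fin n)).filter (fun y =>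
      y.1.card = c0 ∧ y.2 ∈ nb t y.1 ∧ α y.1 y.2 ≠ 0 ∧ Dele y.1 y.2 ∧
      ∃ l ≤ m, cnt t α l y.1 ∅ v ≠ 0)).card ≤ K2)
    (D : ℕ) (δ1 : ℝ) (hδ1 : 0 < δ1) (hδ1' : δ1 ≤ 1 / 2) (hDu : (D : ℝ) ≤ (1 - δ1) * Dn n t δ c0)
    (hDl : Dn n t δ c0 ≤ 4 * D) (hε : ε1 ≤ δ1 / 16) (hη0 : 0 ≤ η) (hη : η ≤ δ1 / 16)
    (hsmall : 2 * (K2 : ℝ) ^ 2 * m.factorial * 16 ^ m ≤ δ1 / 8 * b)
    (hbm : 4 * ((K2 : ℝ) + m) ≤ b) :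
    ∃ f : Finset (Fin n) → Fin n → ℝ, (∀ v e, e ∈ nb t v → f (tg v e) e = f v e) ∧
      (∀ v e, inL t v → e ∈ nb t v → 0 ≤ f v e ∧ f v e ≤ 1) ∧
      (∀ v e, v.card = c0 → e ∈ nb t v → f v e ≠ 0 → α v e ≠ 0 ∧ ¬ Dele v e) ∧
      (∀ v, v.card = c0 → ∑ e ∈ nb t v, f v e = D) ∧
      (∀ v, v.card = c1 → ∑ e ∈ nb t v, f v e
        ≤ D * ((1 + 8 * η) * (Dn n t δ c1 / Dn n t δ c0))
          + (K2 : ℝ) ^ 2 * m.factorial * (2 / b) ^ m) := sorry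

end Pool.Agent.SK.Lin
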