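import Pool.Agent.Lib.MP_5fcc10_co_lin.MidDefs
import Pool.Agent.Lib.MP_5fcc10_co_lin.Deg
import Pool.Agent.Lib.MP_5fcc10_co.OddA

set_option linter.unusedSectionVars false

namespace Pool.Agent.SK.Lin

open Finset
open scoped symmDiff

/-! ### module ISO (use `johnson_iso`) -/

theorem iso_mid {n k : ℕ} (hn : n = 2 * k + 1) (Q : Finset (Finset (Fin n)))
    (hQ : ∀ v ∈ Q, inL k v) (hc : Q.card ≤ n.choose k) :
    Q.card ≤ 8 * (k + 1) ^ 2 * (bdy k Q).card := sorry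

/-! ### module BYP: hexagons -/

theorem dep_byp {n p k : ℕ} (s : ZMod 2) (x : Finset (Fin n)) :
    Dep (BypBad (p := p) k s x) (hamI x 3) := sorry

theorem P_byp {n p k : ℕ} [NeZero p] (hn : n = 2 * k + 1) (s : ZMod 2) (x : Finset (Fin n)) :
    P (BypBad (p := p) k s x) ≤ n * (15 / 16 : ℝ) ^ k := sorry

theorem byp_bdy {n p k : ℕ} (hn : n = 2 * k + 1) (ψ : Ix n → Lb p) (s : ZMod 2)
    (hψ : ∀ x, ¬ BypBad k s x ψ) (Q : Finset (Finset (Fin n))) (hQ : ∀ v ∈ Q, inL k v) :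
    (bdy k Q).card ≤ (n + 1) ^ 5 * ((bdy k Q).filter (fun x => ty ψ x.1 x.2 = s)).card := sorry

/-! ### module SPR: sprinkling -/

open Classical in
theorem sprinkle {V κ : Type*} [Fintype V] [DecidableEq V] [Fintype κ] [Nonempty κ]
    (a0 a1 : κ) (h01 : a0 ≠ a1) (hκ : 4 ≤ Fintype.card κ) (T : (V → κ) → Finset V)
    (hT0 : ∀ ψ, ∀ v ∈ T ψ, ψ v ≠ a0)
    (hT : ∀ ψ ψ', (∀ v, v ∉ T ψ → ψ' v = ψ v) → (∀ v ∈ T ψ, ψ' v ≠ a0) → T ψ' = T ψ)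
    (m0 θ : ℕ) (hθ : θ ≤ m0) :
    P (fun ψ => m0 ≤ (T ψ).card ∧ ((T ψ).filter (fun v => ψ v = a1)).card ≤ θ)
      ≤ 2 ^ θ * Real.exp (-(((m0 : ℝ) - θ) / (4 * Fintype.card κ))) := sorry

/-! ### module BALL -/

theorem dep_BS {n p k : ℕ} (cl : Lb p) (ρ m0 : ℕ) (S : Finset (Finset (Fin n))) :
    Dep (BSev k cl ρ m0 S) (S.biUnion (fun r => hamI r (2 * ρ + 1))) := sorry

theorem P_BS {n p k : ℕ} [NeZero p] (hp : 2 ≤ p) (cl : Lb p) (ρ m0 : ℕ) (hm0 : 1 ≤ m0)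
    (S : Finset (Finset (Fin n))) :
    P (BSev k cl ρ m0 S) ≤ 2 ^ S.card *
      Real.exp (-((((m0 : ℝ) - 1) * S.card) / (8 * p))) := sorry

/-! ### module BALLSIZE -/

theorem ball_size {n p k : ℕ} (cl : Lb p) (ψ : Ix n → Lb p) (ρ : ℕ) (b : ℝ)
    (hb : 2 * (ρ : ℝ) ≤ b) (hdeg : ∀ v, inL k v → b ≤ dg k (opn0 cl ψ) v)
    (r : Finset (Fin n)) (hr : inL k r) :
    (b / 2) ^ ρ / ρ.factorial ≤ ((KB k cl ψ r ρ).card : ℝ) := sorry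

theorem dg0_tail {n p k : ℕ} [NeZero p] (cl : Lb p) (v : Finset (Fin n)) (d : ℝ)
    (hd : d = ((nb k v).card : ℝ) / (4 * p)) (hd0 : 0 < d) :
    P (fun ψ : Ix n → Lb p => dg k (opn0 cl ψ) v < d / 2) ≤ 2 * Real.exp (-(d / 16)) := sorry

theorem dg0_dep {n p k : ℕ} (cl : Lb p) (v : Finset (Fin n)) (c : ℝ) :
    Dep (fun ψ : Ix n → Lb p => dg k (opn0 cl ψ) v < c) (hamI v 1) := sorry

/-! ### module EXP: expansion of the class graph -/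

open Classical in
theorem expansion {n p k : ℕ} (hn : n = 2 * k + 1) (cl : Lb p) (ψ : Ix n → Lb p)
    (hbyp : ∀ x, ¬ BypBad k cl.2 x ψ) (ρ m0 : ℕ)
    (hBS : ∀ S : Finset (Finset (Fin n)), S.Nonempty → (∀ r ∈ S, inL k r) →
      ¬ BSev k cl ρ m0 S ψ)
    (hball : ∀ r, inL k r → (m0 + 1) * (8 * (k + 1) ^ 2 * (n + 1) ^ 5)
      ≤ (KB k cl ψ r ρ).card)
    (Q : Finset (Finset (Fin n))) (hQ : ∀ v ∈ Q, inL k v) (hc : Q.card ≤ n.choose k) :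
    Q.card ≤ (n + 1) ^ (4 * ρ + 8) *
      ((bdy k Q).filter (fun x => opP cl ψ x.1 x.2)).card := sorry

/-! ### module FAC: exact regular subgraphs of the middle levels -/

open Classical in
theorem mid_factor {n k : ℕ} (hn : n = 2 * k + 1) (op : Finset (Fin n) → Fin n → Prop)
    (hop : ∀ v e, e ∈ nb k v → (op (tg v e) e ↔ op v e)) (w : Finset (Fin n) → Fin n → ℝ)
    (hw : ∀ v e, e ∈ nb k v → w (tg v e) e = w v e) (δ1 : ℝ) (hδ1 : 0 < δ1) (hδ1' : δ1 ≤ 1 / 2)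
    (hw1 : ∀ v e, inL k v → e ∈ nb k v → op v e → 1 / 8 ≤ w v e ∧ w v e ≤ 1 - δ1 / 2)
    (hw0 : ∀ v e, inL k v → e ∈ nb k v → ¬ op v e → w v e = 0) (D : ℕ) (η : ℝ)
    (hrow : ∀ v, inL k v → |∑ e ∈ nb k v, w v e - D| ≤ D * η) (Cx : ℕ)
    (hexp : ∀ Q : Finset (Finset (Fin n)), (∀ v ∈ Q, inL k v) → Q.card ≤ n.choose k →
      Q.card ≤ Cx * ((bdy k Q).filter (fun x => op x.1 x.2)).card)
    (hsmall : 8 * (D * η) * Cx ≤ δ1) :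
    ∃ f : Finset (Fin n) → Fin n → ℝ, (∀ v e, e ∈ nb k v → f (tg v e) e = f v e) ∧
      (∀ v e, inL k v → e ∈ nb k v → f v e = 0 ∨ f v e = 1) ∧
      (∀ v e, inL k v → e ∈ nb k v → f v e ≠ 0 → op v e) ∧
      (∀ v, inL k v → ∑ e ∈ nb k v, f v e = D) := sorry

end Pool.Agent.SK.Lin
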