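import Pool.Agent.Lib.MP_5fcc10_co_lin.DelDef
import Pool.Agent.Lib.MP_5fcc10_co_lin.Deg

set_option linter.unusedSectionVars false

namespace Pool.Agent.SK.Lin

open Finset
open scoped symmDiff

/-! ### module CLS: exact weights of a class at a stage -/

open Classical in
theorem class_weights {n t : ℕ} (α : Wt n) (hα : ∀ v e, e ∈ nb t v → α (tg v e) e = α v e)
    (hα01 : ∀ v e, α v e = 0 ∨ α v e = 1) (c0 c1 : ℕ)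
    (hc : (c0 = t ∧ c1 = t + 1) ∨ (c0 = t + 1 ∧ c1 = t)) (hn : t < n) (δ : ℝ) (hδ : 0 < δ)
    (b : ℝ) (hb : 1 ≤ b) (hD1 : ∀ c, b ≤ Dn n t δ c) (hD2 : ∀ c, Dn n t δ c ≤ 4 * b)
    (h : Finset (Fin n) → ℝ) (kk : ℕ → ℝ) (ε1 η : ℝ)
    (hh : ∀ v, inL t v → |h v| ≤ ε1) (hk : ∀ v : Finset (Fin n), inL t v → |kk v.card - 1| ≤ ε1)
    (hS : ∀ v, inL t v → |Sf t α (Dn n t δ) h v - kk v.card| ≤ η)
    (hdg : ∀ v, inL t v → |dg t α v / Dn n t δ v.card - 1| ≤ ε1)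
    (Dele : Finset (Fin n) → Fin n → Prop) (K2 m : ℕ) (hm : Odd m)
    (hK2 : ∀ v, inL t v → ((univ : Finset (Finset (Fin n) × Fin n)).filter (fun y =>
      y.1.card = c0 ∧ y.2 ∈ nb t y.1 ∧ α y.1 y.2 ≠ 0 ∧ Dele y.1 y.2 ∧
      ∃ l ≤ m, cnt t α l y.1 ∅ v ≠ 0)).card ≤ K2)
    (D : ℕ) (δ1 : ℝ) (hδ1 : 0 < δ1) (hδ1' : δ1 ≤ 1 / 2) (hDu : (D : ℝ) ≤ (1 - δ1) * Dn n t δ c0)
    (hDl : Dn n t δ c0 ≤ 4 * D) (hε : ε1 ≤ δ1 / 16) (hη0 : 0 ≤ η) (hη : η ≤ δ1 / 16)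
    (hsmall : 2 * (K2 : ℝ) ^ 2 * m.factorial * 16 ^ m ≤ δ1 / 8 * b)
    (hbm : 4 * ((K2 : ℝ) + m) ≤ b) :
    ∃ f : Finset (Fin n) → Fin n → ℝ, (∀ v e, e ∈ nb t v → f (tg v e) e = f v e) ∧
      (∀ v e, inL t v → e ∈ nb t v → 0 ≤ f v e ∧ f v e ≤ 1) ∧
      (∀ v e, v.card = c0 → e ∈ nb t v → f v e ≠ 0 → α v e ≠ 0 ∧ ¬ Dele v e) ∧
      (∀ v, v.card = c0 → ∑ e ∈ nb t v, f v e = D) ∧
      (∀ v, v.card = c1 → ∑ e ∈ nb t v, f v e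
        ≤ D * ((1 + 8 * η) * (Dn n t δ c1 / Dn n t δ c0))
          + (K2 : ℝ) ^ 2 * m.factorial * (2 / b) ^ m) := sorry

end Pool.Agent.SK.Lin
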