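import Pool.Agent.Lib.MP_5fcc10_co_lin.DPDefs
import Pool.Agent.Lib.MP_5fcc10_co.LLL

set_option linter.unusedSectionVars false

namespace Pool.Agent.SK.Lin

open Finset
open scoped symmDiff

/-! ### module DP1: the weight of the new structures -/

/-- The expected number of structures that are not contained in the revealed set `U` is small. -/
theorem step_weight (m d0 u0 : ℕ) : ∃ C : ℝ, 0 ≤ C ∧ ∀ (n p : ℕ) (_ : NeZero p)
    (v : Finset (Fin n)) (i : ZMod p) (U : Finset (Ix n)) (ψ0 : Ix n → Lb p) (g : ℝ),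
    U.card ≤ u0 → g = (n : ℝ) / p → (u0 : ℝ) + m ≤ g → 1 ≤ g → 2 * g ≤ p →
    ∀ F : Finset (Str n p m d0), (∀ x ∈ F, x.ok ∧ ¬ x.S v ⊆ U ∧ x.okU ψ0 U v i) →
      ∑ x ∈ F, (1 / (p : ℝ)) ^ (x.S v \ U).card ≤ C * (g / p + g ^ (m + 3) / (p : ℝ) ^ 2) := sorry

/-! ### module DP2: chains -/

open Classical in
/-- The expected number of chains of `T` structures, each containing a new edge. -/
theorem chain_weight {n p : ℕ} [NeZero p] (m d0 : ℕ) (v : Finset (Fin n)) (i : ZMod p) (ζ : ℝ)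
    (T : ℕ)
    (hζ : ∀ (U : Finset (Ix n)) (ψ0 : Ix n → Lb p), U.card ≤ T * (m + 2 * d0) →
      ∀ F : Finset (Str n p m d0), (∀ x ∈ F, x.ok ∧ ¬ x.S v ⊆ U ∧ x.okU ψ0 U v i) →
      ∑ x ∈ F, (1 / (p : ℝ)) ^ (x.S v \ U).card ≤ ζ) :
    ∑ lam ∈ (univ : Finset (Fin T → Str n p m d0)).filter (fun lam => ∀ r, (lam r).ok ∧
        ¬ (lam r).S v ⊆ (univ.filter (fun s => s < r)).biUnion (fun s => (lam s).S v)),
      P (fun ψ : Ix n → Lb p => ∀ r, (lam r).occ ψ v i) ≤ ζ ^ T := sorry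

/-- If no chain of length `T` occurs, then few pairs (end of path, first direction) occur. -/
theorem few_of_no_chain {n p : ℕ} (m d0 : ℕ) (v : Finset (Fin n)) (i : ZMod p) (T : ℕ)
    (ψ : Ix n → Lb p)
    (hno : ∀ lam : Fin T → Str n p m d0, (∀ r, (lam r).ok ∧ (lam r).occ ψ v i ∧
      ¬ (lam r).S v ⊆ (univ.filter (fun s => s < r)).biUnion (fun s => (lam s).S v)) → False)
    (W : Finset (Finset (Fin n) × Fin n))
    (hW : ∀ y ∈ W, ∃ x : Str n p m d0, x.ok ∧ x.occ ψ v i ∧ x.w v = y.1 ∧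
      ∃ h : 0 < x.2.1.1.val, x.2.1.2.1 ⟨0, h⟩ = y.2) :
    W.card ≤ 2 * (T * (m + 2 * d0)) := sorry

/-! ### module DP3: long double paths -/

/-- The total weight of the long double paths through a given edge. -/
theorem long_weight {n p : ℕ} [NeZero p] (d : ℕ) (hd : 2 ≤ d) (y : Ix n)
    (F : Finset (Finset (Fin n) × (Fin d → Fin n) × Equiv.Perm (Fin d)))
    (hF : ∀ x ∈ F, Function.Injective x.2.1 ∧ conn x.2.2 ∧
      (y ∈ pes x.1 x.2.1 ∨ y ∈ pes x.1 (x.2.1 ∘ x.2.2))) :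
    F.card ≤ 4 * d * n ^ (d - 1) * d.factorial := sorry

/-- The probability of a double path. -/
theorem prob_DPo {n p : ℕ} [NeZero p] (d : ℕ) (hd : 2 ≤ d) (w : Finset (Fin n))
    (a : Fin d → Fin n) (π : Equiv.Perm (Fin d)) (ha : Function.Injective a) (hπ : conn π)
    (i j : ZMod p) :
    P (fun ψ : Ix n → Lb p => DPo ψ w a π i j) ≤ (1 / (p : ℝ)) ^ (2 * d) := sorry

end Pool.Agent.SK.Lin
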