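import Pool.Agent.Lib.MP_5fcc10_co_lin.MidDefs
import Pool.Agent.Lib.MP_5fcc10_co_lin.Deg
import Pool.Agent.Lib.MP_5fcc10_co.OddA
import Pool.Agent.Lib.MP_5fcc10_co_lin_h69.BALL

set_option linter.unusedSectionVars false

namespace Pool.Agent.SK.Lin

open Finset
open scoped symmDiff

/-! ### module BYP: hexagons -/

theorem dep_byp {n p k : ℕ} (s : ZMod 2) (x : Finset (Fin n)) :
    Dep (BypBad (p := p) k s x) (hamI x 3) := sorry

theorem P_byp {n p k : ℕ} [NeZero p] (hn : n = 2 * k + 1) (s : ZMod 2) (x : Finset (Fin n)) :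
    P (BypBad (p := p) k s x) ≤ n * (15 / 16 : ℝ) ^ k := sorry

theorem byp_bdy {n p k : ℕ} (hn : n = 2 * k + 1) (ψ : Ix n → Lb p) (s : ZMod 2)
    (hψ : ∀ x, ¬ BypBad k s x ψ) (Q : Finset (Finset (Fin n))) (hQ : ∀ v ∈ Q, inL k v) :
    (bdy k Q).card ≤ (n + 1) ^ 5 * ((bdy k Q).filter (fun x => ty ψ x.1 x.2 = s)).card := sorry

/-! ### module BALLSIZE -/

theorem ball_size {n p k : ℕ} (cl : Lb p) (ψ : Ix n → Lb p) (ρ : ℕ) (b : ℝ)
    (hb : 2 * (ρ : ℝ) ≤ b) (hdeg : ∀ v, inL k v → b ≤ dg k (opn0 cl ψ) v)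
    (r : Finset (Fin n)) (hr : inL k r) :
    (b / 2) ^ ρ / ρ.factorial ≤ ((KB k cl ψ r ρ).card : ℝ) := sorry

theorem dg0_tail {n p k : ℕ} [NeZero p] (cl : Lb p) (v : Finset (Fin n)) (d : ℝ)
    (hd : d = ((nb k v).card : ℝ) / (4 * p)) (hd0 : 0 < d) :
    P (fun ψ : Ix n → Lb p => dg k (opn0 cl ψ) v < d / 2) ≤ 2 * Real.exp (-(d / 16)) := sorry

theorem dg0_dep {n p k : ℕ} (cl : Lb p) (v : Finset (Fin n)) (c : ℝ) :
    Dep (fun ψ : Ix n → Lb p => dg k (opn0 cl ψ) v < c) (hamI v 1) := sorry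

end Pool.Agent.SK.Lin
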