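import Pool.Agent.Lib.MP_5fcc10_co_lin.Paths

set_option linter.unusedSectionVars false

namespace Pool.Agent.SK.Lin

open Finset
open scoped symmDiff

open Classical in
/-- Rerouting the missing flow `q` of the vertices of one side to the other side, along the
outward paths of odd length `m`. -/
theorem repair {n t : ℕ} (α : Wt n) (hα : ∀ v e, e ∈ nb t v → α (tg v e) e = α v e) (c0 : ℕ)
    (hc0 : c0 = t ∨ c0 = t + 1) (m : ℕ) (hm : Odd m) (q : Finset (Fin n) → ℝ)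
    (hq0 : ∀ v, 0 ≤ q v) (Q : ℝ) (hqQ : ∀ v, q v ≤ Q) (hqc : ∀ v, q v ≠ 0 → v.card = c0)
    (N0 : ℝ) (hN0 : 0 < N0) (hN : ∀ v, v.card = c0 → N0 ≤ NO t α m v ∅) (B : ℝ) (hB : 1 ≤ B)
    (hNB : ∀ l v U, l ≤ m → inL t v → NO t α l v U ≤ B ^ l) (K : ℕ)
    (hK : ∀ v, inL t v → (univ.filter (fun w : Finset (Fin n) =>
      q w ≠ 0 ∧ ∃ l ≤ m, cnt t α l w ∅ v ≠ 0)).card ≤ K) :
    ∃ φ : Finset (Fin n) → Fin n → ℝ, (∀ v e, e ∈ nb t v → φ (tg v e) e = φ v e) ∧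
      (∀ v e, e ∈ nb t v →
        |φ v e| ≤ α v e * (2 * K * Q * m.factorial * B ^ (m - 1) / N0)) ∧
      (∀ v, v.card = c0 → ∑ e ∈ nb t v, φ v e = q v) ∧
      (∀ v, inL t v → v.card ≠ c0 → |∑ e ∈ nb t v, φ v e| ≤ K * Q * m.factorial / N0) := sorry

end Pool.Agent.SK.Lin
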