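import Pool.Agent.Lib.MP_5fcc10_co_lin.Model
import Pool.Agent.Lib.MP_5fcc10_co.GosE

/-! Invariant and local functionals of the labels, and the conditional mean. -/

set_option linter.unusedSectionVars false

namespace Pool.Agent.SK.Lin

open Finset
open scoped symmDiff

section inv

variable {n p : ℕ} {t : ℕ} {cl : Lb p}

/-- functionals invariant under permutations of the ground set and shifts of the labels -/
structure Inv (f : (Ix n → Lb p) → Finset (Fin n) → ℝ) : Prop where
  perm : ∀ (σ : Equiv.Perm (Fin n)) ψ v, f ψ (ma σ v) = f (act σ ψ) v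
  shift : ∀ (c : Lb p) ψ v, f (shf c ψ) v = f ψ v

/-- local functionals -/
def Loc (f : (Ix n → Lb p) → Finset (Fin n) → ℝ) (r : ℕ) : Prop :=
  ∀ v ψ ψ', (∀ u ∈ hamI v r, ψ u = ψ' u) → f ψ v = f ψ' v

lemma Loc.mono {f : (Ix n → Lb p) → Finset (Fin n) → ℝ} {r s : ℕ} (h : Loc f r)
    (hrs : r ≤ s) : Loc f s := fun v ψ ψ' hu => h v ψ ψ' (fun u hu' => hu u (hamI_mono hrs hu'))

lemma Inv.const (c : ℕ → ℝ) : Inv (fun (_ : Ix n → Lb p) v => c v.card) :=
  ⟨fun σ _ v => by rw [card_ma], fun _ _ _ => rfl⟩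

lemma Loc.const (c : ℕ → ℝ) (r : ℕ) : Loc (fun (_ : Ix n → Lb p) v => c v.card) r :=
  fun _ _ _ _ => rfl

lemma Inv.add {f g : (Ix n → Lb p) → Finset (Fin n) → ℝ} (hf : Inv f) (hg : Inv g) :
    Inv (fun ψ v => f ψ v + g ψ v) :=
  ⟨fun σ ψ v => by rw [hf.perm, hg.perm], fun c ψ v => by rw [hf.shift, hg.shift]⟩

lemma Loc.add {f g : (Ix n → Lb p) → Finset (Fin n) → ℝ} {r : ℕ} (hf : Loc f r)
    (hg : Loc g r) : Loc (fun ψ v => f ψ v + g ψ v) r :=
  fun v ψ ψ' h => by simp only [hf v ψ ψ' h, hg v ψ ψ' h]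

lemma Inv.mul {f g : (Ix n → Lb p) → Finset (Fin n) → ℝ} (hf : Inv f) (hg : Inv g) :
    Inv (fun ψ v => f ψ v * g ψ v) :=
  ⟨fun σ ψ v => by rw [hf.perm, hg.perm], fun c ψ v => by rw [hf.shift, hg.shift]⟩

lemma Loc.mul {f g : (Ix n → Lb p) → Finset (Fin n) → ℝ} {r : ℕ} (hf : Loc f r)
    (hg : Loc g r) : Loc (fun ψ v => f ψ v * g ψ v) r :=
  fun v ψ ψ' h => by simp only [hf v ψ ψ' h, hg v ψ ψ' h]

lemma Inv.dg : Inv (fun (ψ : Ix n → Lb p) v => dg t (opn cl ψ) v) := by
  constructor
  · intro σ ψ v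
    simp only [Lin.dg]
    rw [sum_nb_ma]
    exact sum_congr rfl (fun e _ => opn_ma cl ψ σ v e)
  · intro c ψ v
    simp only [Lin.dg]
    exact sum_congr rfl (fun e _ => opn_shift cl ψ c v e)

lemma Loc.dg : Loc (fun (ψ : Ix n → Lb p) v => dg t (opn cl ψ) v) 1 := by
  intro v ψ ψ' h
  simp only [Lin.dg]
  exact sum_congr rfl (fun e _ => opn_congr (h _ (mem_hamI_none.2 (ham_self v 1)))
    (h _ (mem_hamI_none.2 (tg_mem_ham v e))) (h _ (ed_mem_hamI (ham_self v 1) (tg_mem_ham v e))))

lemma Inv.Bop {f : (Ix n → Lb p) → Finset (Fin n) → ℝ} (hf : Inv f) (Dl : ℕ → ℝ) :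
    Inv (fun ψ v => Bop t (opn cl ψ) Dl (f ψ) v) := by
  constructor
  · intro σ ψ v
    simp only [Lin.Bop, nsum]
    rw [sum_nb_ma, card_ma]
    congr 1
    refine sum_congr rfl (fun e _ => ?_)
    rw [opn_ma, ← ma_tg, hf.perm]
  · intro c ψ v
    simp only [Lin.Bop, nsum]
    congr 1
    refine sum_congr rfl (fun e _ => ?_)
    rw [opn_shift, hf.shift]

lemma Loc.Bop {f : (Ix n → Lb p) → Finset (Fin n) → ℝ} {r : ℕ} (hf : Loc f r)
    (Dl : ℕ → ℝ) : Loc (fun ψ v => Bop t (opn cl ψ) Dl (f ψ) v) (r + 1) := by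
  intro v ψ ψ' h
  simp only [Lin.Bop, nsum]
  congr 1
  refine sum_congr rfl (fun e _ => ?_)
  have h1 : ∀ u ∈ hamI (tg v e) r, ψ u = ψ' u := by
    intro u hu
    apply h
    have := hamI_trans (tg_mem_ham v e) hu
    rwa [add_comm 1 r] at this
  have h2 : tg v e ∈ ham v (r + 1) := ham_mono (by omega) (tg_mem_ham v e)
  rw [opn_congr (h _ (mem_hamI_none.2 (ham_self v _))) (h1 _ (mem_hamI_none.2 (ham_self _ _)))
    (h _ (ed_mem_hamI (ham_self v _) h2)), hf _ ψ ψ' h1]

lemma Inv.Bit {f : (Ix n → Lb p) → Finset (Fin n) → ℝ} (hf : Inv f) (Dl : ℕ → ℝ) (i : ℕ) :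
    Inv (fun ψ v => Bit t (opn cl ψ) Dl (f ψ) i v) := by
  induction i with
  | zero => exact hf
  | succ i ih => exact Inv.Bop ih Dl

lemma Loc.Bit {f : (Ix n → Lb p) → Finset (Fin n) → ℝ} {r : ℕ} (hf : Loc f r)
    (Dl : ℕ → ℝ) (i : ℕ) : Loc (fun ψ v => Bit t (opn cl ψ) Dl (f ψ) i v) (r + i) := by
  induction i with
  | zero => exact hf
  | succ i ih => exact Loc.Bop ih Dl

lemma Inv.theta {f : (Ix n → Lb p) → Finset (Fin n) → ℝ} (hf : Inv f) (Dl : ℕ → ℝ)
    (L : ℕ) : Inv (fun ψ v => theta t (opn cl ψ) Dl L (f ψ) v) := by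
  constructor
  · intro σ ψ v
    simp only [Lin.theta]
    refine sum_congr rfl (fun i _ => ?_)
    have := (Inv.Bit (t := t) (cl := cl) hf Dl i).perm σ ψ v
    rw [this]
  · intro c ψ v
    simp only [Lin.theta]
    refine sum_congr rfl (fun i _ => ?_)
    have := (Inv.Bit (t := t) (cl := cl) hf Dl i).shift c ψ v
    rw [this]

lemma Loc.theta {f : (Ix n → Lb p) → Finset (Fin n) → ℝ} {r : ℕ} (hf : Loc f r)
    (Dl : ℕ → ℝ) (L : ℕ) : Loc (fun ψ v => theta t (opn cl ψ) Dl L (f ψ) v) (r + L) := by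
  intro v ψ ψ' h
  simp only [Lin.theta]
  refine sum_congr rfl (fun i hi => ?_)
  have := ((Loc.Bit (t := t) (cl := cl) hf Dl i).mono (by
    have := mem_range.1 hi; omega : r + i ≤ r + L)) v ψ ψ' h
  simp only at this
  rw [this]

lemma Inv.Sf {h : (Ix n → Lb p) → Finset (Fin n) → ℝ} (hh : Inv h) (Dl : ℕ → ℝ) :
    Inv (fun ψ v => Sf t (opn cl ψ) Dl (h ψ) v) := by
  constructor
  · intro σ ψ v
    simp only [Lin.Sf]
    have h1 := (Inv.Bop (t := t) (cl := cl) hh Dl).perm σ ψ v
    have h2 := (Inv.dg (n := n) (t := t) (cl := cl)).perm σ ψ v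
    rw [h1, h2, card_ma, hh.perm]
  · intro c ψ v
    simp only [Lin.Sf]
    have h1 := (Inv.Bop (t := t) (cl := cl) hh Dl).shift c ψ v
    have h2 := (Inv.dg (n := n) (t := t) (cl := cl)).shift c ψ v
    rw [h1, h2, hh.shift]

lemma Loc.Sf {h : (Ix n → Lb p) → Finset (Fin n) → ℝ} {r : ℕ} (hh : Loc h r)
    (Dl : ℕ → ℝ) : Loc (fun ψ v => Sf t (opn cl ψ) Dl (h ψ) v) (r + 1) := by
  intro v ψ ψ' hu
  simp only [Lin.Sf]
  have h1 := (Loc.Bop (t := t) (cl := cl) hh Dl) v ψ ψ' hu
  have h2 := ((Loc.dg (n := n) (t := t) (cl := cl)).mono (by omega : 1 ≤ r + 1)) v ψ ψ' hu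
  have h3 := (hh.mono (by omega : r ≤ r + 1)) v ψ ψ' hu
  simp only at h1 h2 h3
  rw [h1, h2, h3]

end inv

section mean

variable {n p : ℕ} [NeZero p] {t : ℕ} {cl : Lb p}

lemma act_injective (σ : Equiv.Perm (Fin n)) :
    Function.Injective (act σ : (Ix n → Lb p) → (Ix n → Lb p)) := by
  intro ψ ψ' h
  funext x
  obtain ⟨u, o⟩ := x
  cases o with
  | none =>
    have h1 := congrFun h (ma σ.symm u, none)
    have h2 : ma σ (ma σ.symm u) = u := by
      ext a; rw [mem_ma', mem_ma']; simp
    simp only [act, h2] at h1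
    exact add_right_cancel h1
  | some e =>
    have h1 := congrFun h (ma σ.symm u, some (σ.symm e))
    have h2 : ma σ (ma σ.symm u) = u := by
      ext a; rw [mem_ma', mem_ma']; simp
    simp only [act, h2, Equiv.apply_symm_apply] at h1
    exact h1

lemma shf_injective (c : Lb p) :
    Function.Injective (shf c : (Ix n → Lb p) → (Ix n → Lb p)) := by
  intro ψ ψ' h
  funext x
  obtain ⟨u, o⟩ := x
  cases o with
  | none => exact add_right_cancel (congrFun h (u, none))
  | some e => exact congrFun h (u, some e)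

lemma E_perm (σ : Equiv.Perm (Fin n)) (G : (Ix n → Lb p) → ℝ) :
    E (fun φ : Ix n → Lb p => G (act σ φ)) = E G := by
  unfold E
  congr 1
  exact Fintype.sum_bijective _ (Finite.injective_iff_bijective.1 (act_injective σ)) _ _
    (fun φ => rfl)

lemma E_shift (c : Lb p) (G : (Ix n → Lb p) → ℝ) :
    E (fun φ : Ix n → Lb p => G (shf c φ)) = E G := by
  unfold E
  congr 1
  exact Fintype.sum_bijective _ (Finite.injective_iff_bijective.1 (shf_injective c)) _ _
    (fun φ => rfl)

lemma indl_ma (ψ : Ix n → Lb p) (σ : Equiv.Perm (Fin n)) (es : List (Fin n)) :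
    ∀ w : Finset (Fin n), indl (opn cl ψ) (ma σ w) (es.map σ)
      = indl (opn cl (act σ ψ)) w es := by
  induction es with
  | nil => intro w; rfl
  | cons e es ih =>
    intro w
    change opn cl ψ (ma σ w) (σ e) * indl (opn cl ψ) (tg (ma σ w) (σ e)) (es.map σ) = _
    rw [opn_ma, ← ma_tg, ih]
    rfl

lemma indl_shift (ψ : Ix n → Lb p) (c : Lb p) (es : List (Fin n)) :
    ∀ w : Finset (Fin n), indl (opn cl (shf c ψ)) w es = indl (opn cl ψ) w es := by
  induction es with
  | nil => intro w; rfl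
  | cons e es ih =>
    intro w
    change opn cl (shf c ψ) w e * indl (opn cl (shf c ψ)) (tg w e) es = _
    rw [opn_shift, ih]
    rfl

variable (t cl)

/-- expected value of `f` at the end of a path, on the event that the path is open -/
noncomputable def val (f : (Ix n → Lb p) → Finset (Fin n) → ℝ) (w : Finset (Fin n))
    (a : Lb p) (es : List (Fin n)) : ℝ :=
  E (fun φ : Ix n → Lb p => indl (opn cl (Function.update φ (w, none) a)) w es
    * f (Function.update φ (w, none) a) (endp w es))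

lemma val_shift {f : (Ix n → Lb p) → Finset (Fin n) → ℝ} (hf : Inv f)
    (w : Finset (Fin n)) (a c : Lb p) (es : List (Fin n)) :
    val cl f w (a + c) es = val cl f w a es := by
  unfold val
  rw [← E_shift c (fun φ => indl (opn cl (Function.update φ (w, none) (a+c))) w es
    * f (Function.update φ (w, none) (a+c)) (endp w es))]
  refine E_congr (fun φ => ?_)
  have h : Function.update (shf c φ) (w, none) (a + c)
      = shf c (Function.update φ (w, none) a) := by
    funext x
    obtain ⟨u, o⟩ := x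
    cases o with
    | none =>
      by_cases hu : u = w
      · subst hu
        simp only [shf]
        rw [Function.update_self, Function.update_self]
      · have h1 : ((u, none) : Ix n) ≠ (w, none) := fun hh => hu (congrArg Prod.fst hh)
        rw [Function.update_of_ne h1]
        simp only [shf]
        rw [Function.update_of_ne h1]
    | some e =>
      have h1 : ((u, some e) : Ix n) ≠ (w, none) := fun hh => by
        have := congrArg Prod.snd hh
        simp at this
      rw [Function.update_of_ne h1]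
      simp only [shf]
      rw [Function.update_of_ne h1]
  rw [h, indl_shift, hf.shift]

lemma val_perm {f : (Ix n → Lb p) → Finset (Fin n) → ℝ} (hf : Inv f)
    (σ : Equiv.Perm (Fin n)) (w : Finset (Fin n)) (a : Lb p) (es : List (Fin n)) :
    val cl f (ma σ w) a (es.map σ) = val cl f w a es := by
  rw [← val_shift cl hf w a (0, beta σ w) es]
  unfold val
  rw [← E_perm σ (fun φ => indl (opn cl (Function.update φ (w, none) (a + (0, beta σ w)))) w es
    * f (Function.update φ (w, none) (a + (0, beta σ w))) (endp w es))]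
  refine E_congr (fun φ => ?_)
  have h : act σ (Function.update φ (ma σ w, none) a)
      = Function.update (act σ φ) (w, none) (a + (0, beta σ w)) := by
    funext x
    obtain ⟨u, o⟩ := x
    cases o with
    | none =>
      by_cases hu : u = w
      · subst hu
        simp only [act]
        rw [Function.update_self, Function.update_self]
      · have h1 : ((u, none) : Ix n) ≠ (w, none) := fun hh => hu (congrArg Prod.fst hh)
        have h2 : ((ma σ u, none) : Ix n) ≠ (ma σ w, none) := fun hh =>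
          hu (ma_injective σ (congrArg Prod.fst hh))
        rw [Function.update_of_ne h1]
        simp only [act]
        rw [Function.update_of_ne h2]
    | some e =>
      have h1 : ((u, some e) : Ix n) ≠ (w, none) := fun hh => by
        have := congrArg Prod.snd hh
        simp at this
      have h2 : ((ma σ u, some (σ e)) : Ix n) ≠ (ma σ w, none) := fun hh => by
        have := congrArg Prod.snd hh
        simp at this
      rw [Function.update_of_ne h1]
      simp only [act]
      rw [Function.update_of_ne h2]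
  rw [indl_ma, endp_ma, hf.perm, h]

lemma okp_mono {es : List (Fin n)} : ∀ {w U U' : Finset (Fin n)}, U' ⊆ U → okp t w U es →
    okp t w U' es := by
  induction es with
  | nil => intro w U U' _ _; trivial
  | cons e es ih =>
    intro w U U' hU h
    exact ⟨⟨h.1.1, fun hh => h.1.2 (hU hh)⟩, ih (insert_subset_insert _ hU) h.2⟩

lemma val_const {f : (Ix n → Lb p) → Finset (Fin n) → ℝ} (hf : Inv f)
    {w w' : Finset (Fin n)} {es es' : List (Fin n)} (a a' : Lb p) (hc : w.card = w'.card)
    (hl : es.length = es'.length) (h : okp t w ∅ es) (h' : okp t w' ∅ es') :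
    val cl f w a es = val cl f w' a' es' := by
  obtain ⟨σ, h1, _, h3⟩ := exists_perm_okp es es' [] [] w w' hl hc
    (by rw [List.toFinset_nil]; exact h) (by rw [List.toFinset_nil]; exact h')
    List.Forall₂.nil List.nodup_nil List.nodup_nil
  rw [← h1, ← h3, val_perm cl hf]
  have : a' = a + (a' - a) := by abel
  rw [this, val_shift cl hf]

open Classical in
/-- the conditional mean of `f` at the end of an open path of length `r` starting at level `c` -/
noncomputable def cmean (f : (Ix n → Lb p) → Finset (Fin n) → ℝ) (r c : ℕ) : ℝ :=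
  if h : ∃ q : Finset (Fin n) × Lb p × List (Fin n), q.1.card = c ∧ q.2.2.length = r ∧
      okp t q.1 ∅ q.2.2 then
    val cl f h.choose.1 h.choose.2.1 h.choose.2.2
      / val cl (fun _ _ => 1) h.choose.1 h.choose.2.1 h.choose.2.2
  else 0

lemma E_eq_zero {g : (Ix n → Lb p) → ℝ} (h0 : ∀ φ, 0 ≤ g φ) (h : E g = 0) :
    ∀ φ, g φ = 0 := by
  unfold E at h
  rw [div_eq_zero_iff] at h
  have hpos := card_pos' (V := Ix n) (κ := Lb p)
  rcases h with h | h
  · intro φ
    exact (Finset.sum_eq_zero_iff_of_nonneg (fun φ _ => h0 φ)).1 h φ (mem_univ φ)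
  · exact absurd h hpos.ne'

lemma cmean_spec {f : (Ix n → Lb p) → Finset (Fin n) → ℝ} (hf : Inv f)
    (w : Finset (Fin n)) (a : Lb p) (es : List (Fin n)) (h : okp t w ∅ es) :
    val cl f w a es = cmean t cl f es.length w.card * val cl (fun _ _ => 1) w a es := by
  have hex : ∃ q : Finset (Fin n) × Lb p × List (Fin n), q.1.card = w.card ∧
      q.2.2.length = es.length ∧ okp t q.1 ∅ q.2.2 := ⟨(w, a, es), rfl, rfl, h⟩
  unfold cmean
  rw [dif_pos hex]
  obtain ⟨h1, h2, h3⟩ := hex.choose_spec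
  have hone : Inv (fun (_ : Ix n → Lb p) (_ : Finset (Fin n)) => (1:ℝ)) :=
    ⟨fun _ _ _ => rfl, fun _ _ _ => rfl⟩
  rw [val_const t cl hf a hex.choose.2.1 h1.symm h2.symm h h3,
    val_const t cl hone a hex.choose.2.1 h1.symm h2.symm h h3]
  set w0 := hex.choose.1
  set a0 := hex.choose.2.1
  set es0 := hex.choose.2.2
  by_cases hz : val cl (fun _ _ => 1) w0 a0 es0 = 0
  · rw [hz, mul_zero]
    unfold val at hz ⊢
    have h4 := E_eq_zero (g := fun φ : Ix n → Lb p =>
      indl (opn cl (Function.update φ (w0, none) a0)) w0 es0 * 1)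
      (fun φ => by rw [mul_one]; exact indl_nonneg _ es0 w0) hz
    have h5 : ∀ φ : Ix n → Lb p, indl (opn cl (Function.update φ (w0, none) a0)) w0 es0
        * f (Function.update φ (w0, none) a0) (endp w0 es0) = 0 := by
      intro φ
      have := h4 φ
      rw [mul_one] at this
      rw [this, zero_mul]
    rw [E_congr h5]
    exact E_const 0
  · rw [div_mul_cancel₀ _ hz]

end mean

end Pool.Agent.SK.Lin
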