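import Pool.Agent.Lib.MP_5fcc10_co_lin.SmD

/-! Concentration of outward averages. -/

set_option linter.unusedSectionVars false

namespace Pool.Agent.SK.Lin

open Finset
open scoped symmDiff

variable {n p : ℕ} [NeZero p] {t : ℕ} {cl : Lb p}

lemma cnt_card (α : Wt n) (l : ℕ) : ∀ (v U w : Finset (Fin n)),
    cnt t α l v U w ≠ 0 → w.card = (oth t)^[l] v.card := by
  induction l with
  | zero =>
    intro v U w h
    have : v = w := by
      by_contra hne
      apply h
      change (if v = w then (1:ℝ) else 0) = 0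
      rw [if_neg hne]
    rw [this]; rfl
  | succ l ih =>
    intro v U w h
    rw [cnt_succ] at h
    obtain ⟨e, he, hne⟩ := exists_ne_zero_of_sum_ne_zero h
    rw [ih _ _ _ (right_ne_zero_of_mul hne), card_tg_nb (mem_sdiff.1 he).1,
      Function.iterate_succ_apply]

lemma cmean_abs_le {f : (Ix n → Lb p) → Finset (Fin n) → ℝ} (M0 : ℝ) (hM0 : 0 ≤ M0)
    (hf : ∀ ψ u, |f ψ u| ≤ M0) (r c : ℕ) : |cmean t cl f r c| ≤ M0 := by
  unfold cmean
  split_ifs with h
  · rw [abs_div]
    have h1 : |val cl f h.choose.1 h.choose.2.1 h.choose.2.2|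
        ≤ M0 * |val cl (fun _ _ => 1) h.choose.1 h.choose.2.1 h.choose.2.2| := by
      have h2 : 0 ≤ val cl (fun _ _ => 1) h.choose.1 h.choose.2.1 h.choose.2.2 := by
        unfold val
        apply E_nonneg
        intro φ
        rw [mul_one]
        exact indl_nonneg _ _ _
      rw [abs_of_nonneg h2]
      unfold val
      rw [abs_le, ← E_mul_left, ← E_neg]
      constructor
      · apply E_mono
        intro φ
        have h3 := indl_nonneg (opn cl (Function.update φ (h.choose.1, none) h.choose.2.1))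
          h.choose.2.2 h.choose.1
        have h4 := (abs_le.1 (hf (Function.update φ (h.choose.1, none) h.choose.2.1)
          (endp h.choose.1 h.choose.2.2))).1
        nlinarith
      · apply E_mono
        intro φ
        have h3 := indl_nonneg (opn cl (Function.update φ (h.choose.1, none) h.choose.2.1))
          h.choose.2.2 h.choose.1
        have h4 := (abs_le.1 (hf (Function.update φ (h.choose.1, none) h.choose.2.1)
          (endp h.choose.1 h.choose.2.2))).2
        nlinarith
    by_cases h5 : |val cl (fun _ _ => 1) h.choose.1 h.choose.2.1 h.choose.2.2| = 0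
    · rw [h5, div_zero]; exact hM0
    · rw [div_le_iff₀ (lt_of_le_of_ne (abs_nonneg _) (Ne.symm h5))]
      exact h1
  · rw [abs_zero]; exact hM0

/-- the coordinates outside of a ball -/
def outI (v : Finset (Fin n)) (l : ℕ) : Finset (Ix n) := (hamI v l)ᶜ

lemma mix_outI_in {v : Finset (Fin n)} {x : Ix n} {l : ℕ} (φ ψ : Ix n → Lb p)
    (h : x ∉ hamI v l) : mix (outI v l) φ ψ x = φ x :=
  mix_in (mem_compl.2 h)

lemma mix_outI_out {v : Finset (Fin n)} {x : Ix n} {l : ℕ} (φ ψ : Ix n → Lb p)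
    (h : x ∈ hamI v l) : mix (outI v l) φ ψ x = ψ x :=
  mix_out (fun hh => mem_compl.1 hh h)

lemma not_hamI_of_fst {v : Finset (Fin n)} {x : Ix n} {l : ℕ} (h : l < (v ∆ x.1).card) :
    x ∉ hamI v l := by
  intro hh
  have := fst_mem_of_hamI hh
  rw [mem_ham] at this
  omega

lemma mean_zero {f : (Ix n → Lb p) → Finset (Fin n) → ℝ} (hf : Inv f) {R : ℕ}
    (hloc : Loc f R) (v b : Finset (Fin n)) (ψ : Ix n → Lb p) :
    E (fun φ => OutA t (opn cl (mix (outI v (v ∆ b).card) φ ψ)) (R+1) b (v ∆ b)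
      (fun u _ => f (mix (outI v (v ∆ b).card) φ ψ) u - cmean t cl f (R+1) b.card)) = 0 := by
  have h1 : ∀ φ : Ix n → Lb p, OutA t (opn cl (mix (outI v (v ∆ b).card) φ ψ)) (R+1) b (v ∆ b)
      (fun u _ => f (mix (outI v (v ∆ b).card) φ ψ) u - cmean t cl f (R+1) b.card)
      = ∑ es ∈ PLf t (R+1) b (v ∆ b),
        (indl (opn cl (Function.update φ (b, none) (ψ (b, none)))) b es
        * f (Function.update φ (b, none) (ψ (b, none))) (endp b es)
        - cmean t cl f (R+1) b.card *
          (indl (opn cl (Function.update φ (b, none) (ψ (b, none)))) b es * 1)) := by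
    intro φ
    rw [OutA_eq_list]
    refine sum_congr rfl (fun es hes => ?_)
    rw [mem_PLf] at hes
    have hi : indl (opn cl (mix (outI v (v ∆ b).card) φ ψ)) b es
        = indl (opn cl (Function.update φ (b, none) (ψ (b, none)))) b es := by
      apply indl_congr t (v := v) es b (v ∆ b) (le_refl _) hes.2
      intro u e hu hu'
      have hu2 : (v ∆ b).card ≤ (v ∆ u).card := by
        rcases hu with hu | hu
        · rw [hu]
        · exact hu.le
      have ht : tg u e ∉ ham v (v ∆ b).card := by rw [mem_ham]; omega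
      apply opn_congr
      · rcases hu with hu | hu
        · rw [hu, mix_outI_out φ ψ (mem_hamI_none.2 (by rw [mem_ham])), Function.update_self]
        · rw [mix_outI_in φ ψ (not_hamI_of_fst hu), Function.update_of_ne]
          intro h
          have h2 : u = b := congrArg Prod.fst h
          rw [h2] at hu
          omega
      · rw [mix_outI_in φ ψ (fun h => ht (mem_hamI_none.1 h)), Function.update_of_ne]
        intro h
        have h2 : tg u e = b := congrArg Prod.fst h
        rw [h2] at hu'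
        omega
      · rw [mix_outI_in φ ψ (fun h => ht (ed_mem_hamI_iff.1 h).2), Function.update_of_ne]
        intro h
        have := congrArg Prod.snd h
        simp [ed] at this
    have hd := okp_dist t (v := v) es b (v ∆ b) (le_refl _) hes.2
    have hff : f (mix (outI v (v ∆ b).card) φ ψ) (endp b es)
        = f (Function.update φ (b, none) (ψ (b, none))) (endp b es) := by
      apply hloc
      intro u hu
      have hu1 := fst_mem_of_hamI hu
      rw [mem_ham] at hu1
      have h3 := symmDiff_card_triangle v u.1 (endp b es)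
      rw [symmDiff_comm u.1 (endp b es)] at h3
      have h4 : (v ∆ b).card < (v ∆ u.1).card := by omega
      rw [mix_outI_in φ ψ (not_hamI_of_fst h4), Function.update_of_ne]
      intro h
      have h2 : u.1 = b := congrArg Prod.fst h
      rw [h2] at h4
      omega
    rw [hi, hff]
    ring
  rw [E_congr h1, E_sum]
  refine sum_eq_zero (fun es hes => ?_)
  rw [mem_PLf] at hes
  rw [E_sub, E_mul_left]
  have h2 := cmean_spec t cl hf b (ψ (b, none)) es (okp_mono t (empty_subset _) hes.2)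
  unfold val at h2
  rw [h2, hes.1, sub_self]

theorem conc {f : (Ix n → Lb p) → Finset (Fin n) → ℝ} (hf : Inv f) {R : ℕ}
    (hloc : Loc f R) (M0 : ℝ) (hM0 : 0 < M0) (hfb : ∀ ψ u, |f ψ u| ≤ M0) (hn : 1 ≤ n)
    (v : Finset (Fin n)) (hv : inL t v) (l0 : ℕ) (Nb : ℝ) (hNb : 0 < Nb) (s : ℝ) (hs0 : 0 ≤ s)
    (hs : s ≤ 2 * (2 * M0 * (n:ℝ) ^ (R+1)) * Nb) :
    P (fun ψ : Ix n → Lb p => NO t (opn cl ψ) l0 v ∅ ≤ Nb ∧
      s < |OutA t (opn cl ψ) (l0 + (R+1)) v ∅
        (fun u _ => f ψ u - cmean t cl f (R+1) ((oth t)^[l0] v.card))|)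
    ≤ 2 * (n+1)^(2*(2*R+1)) * Real.exp (- ((s / (n+1)^(2*(2*R+1))) ^ 2
        / (4 * (l0.factorial * (2 * M0 * (n:ℝ) ^ (R+1)) ^ 2 * Nb)))) := by
  classical
  set Mt : ℝ := 2 * M0 * (n:ℝ) ^ (R+1) with hMt
  have hnr : (1:ℝ) ≤ n := by exact_mod_cast hn
  have hMt0 : 0 < Mt := by positivity
  set cm := cmean t cl f (R+1) ((oth t)^[l0] v.card) with hcm
  have hcmb : |cm| ≤ M0 := cmean_abs_le M0 hM0.le hfb _ _
  set ρ := 2 * R + 1 with hρ
  set D := (n+1)^(2*ρ) with hD
  have hDpos : 0 < D := by positivity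
  have hDr : (1:ℝ) ≤ (D:ℝ) := by exact_mod_cast hDpos
  have hDcast : ((n:ℝ)+1)^(2*ρ) = (D:ℝ) := by rw [hD]; push_cast; rfl
  set Vt : ℝ := l0.factorial * Mt ^ 2 * Nb with hVt
  have hfac : (1:ℝ) ≤ l0.factorial := by exact_mod_cast Nat.factorial_pos l0
  have hVt0 : 0 < Vt := by positivity
  -- the colouring
  obtain ⟨χ, hχ⟩ := exists_colouring (fun b b' : Finset (Fin n) => ¬ Disjoint (ham b ρ) (ham b' ρ))
    (fun b b' h h' => h h'.symm) D hDpos (by
      intro b
      refine ⟨ham b (2*ρ), ?_, ham_self _ _, card_ham b (2*ρ)⟩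
      intro w hw
      rw [Finset.not_disjoint_iff] at hw
      obtain ⟨z, h1, h2⟩ := hw
      rw [mem_ham] at h1 h2 ⊢
      have := symmDiff_card_triangle b z w
      rw [symmDiff_comm w z] at h2
      omega)
  -- the terms
  set Th : (Ix n → Lb p) → Finset (Fin n) → ℝ := fun ψ b =>
    OutA t (opn cl ψ) (R+1) b (v ∆ b) (fun u _ => f ψ u - cm) with hTh
  set T : Finset (Fin n) → (Ix n → Lb p) → ℝ := fun b ψ =>
    if NO t (opn cl ψ) l0 v ∅ ≤ Nb then cnt t (opn cl ψ) l0 v ∅ b * Th ψ b else 0 with hT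
  have hNOmix : ∀ φ ψ : Ix n → Lb p,
      NO t (opn cl (mix (outI v l0) φ ψ)) l0 v ∅ = NO t (opn cl ψ) l0 v ∅ := by
    intro φ ψ
    apply OutA_congr
    · intro u e hu hu'
      exact opn_congr (mix_outI_out φ ψ (mem_hamI_none.2 hu)) (mix_outI_out φ ψ (mem_hamI_none.2 hu'))
        (mix_outI_out φ ψ (ed_mem_hamI hu hu'))
    · intro _ _ _; rfl
  have hcntmix : ∀ (φ ψ : Ix n → Lb p) (b : Finset (Fin n)),
      cnt t (opn cl (mix (outI v l0) φ ψ)) l0 v ∅ b = cnt t (opn cl ψ) l0 v ∅ b := by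
    intro φ ψ b
    apply OutA_congr
    · intro u e hu hu'
      exact opn_congr (mix_outI_out φ ψ (mem_hamI_none.2 hu)) (mix_outI_out φ ψ (mem_hamI_none.2 hu'))
        (mix_outI_out φ ψ (ed_mem_hamI hu hu'))
    · intro _ _ _; rfl
  have hThb : ∀ ψ b, inL t b → |Th ψ b| ≤ Mt := by
    intro ψ b hb
    have h1 : |Th ψ b| ≤ (2 * M0) * NO t (opn cl ψ) (R+1) b (v ∆ b) := by
      apply OutA_abs_le t _ (R+1) b (v ∆ b) _ hb
      intro w _ _
      have h2 := abs_sub (f ψ w) cm
      have h3 := hfb ψ w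
      linarith
    have h2 : NO t (opn cl ψ) (R+1) b (v ∆ b) ≤ (n:ℝ) ^ (R+1) := by
      unfold NO
      rw [OutA_eq_list t _ (R+1) b (v ∆ b) (fun _ => 1)]
      calc ∑ es ∈ PLf t (R+1) b (v ∆ b), indl (opn cl ψ) b es * 1
          ≤ ∑ es ∈ PLf t (R+1) b (v ∆ b), (1:ℝ) :=
            sum_le_sum (fun es _ => by rw [mul_one]; exact indl_le_one _ es b)
        _ = ((PLf t (R+1) b (v ∆ b)).card : ℝ) := by simp
        _ ≤ (n:ℝ) ^ (R+1) := by exact_mod_cast card_PLf_le t (R+1) b (v ∆ b)
    calc |Th ψ b| ≤ (2 * M0) * NO t (opn cl ψ) (R+1) b (v ∆ b) := h1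
      _ ≤ (2 * M0) * (n:ℝ) ^ (R+1) := by gcongr
      _ = Mt := by rw [hMt]
  have hcntL : ∀ ψ b, cnt t (opn cl ψ) l0 v ∅ b ≠ 0 → inL t b := by
    intro ψ b h
    have h1 := cnt_card (t := t) (opn cl ψ) l0 v ∅ b h
    have : ∀ (l c : ℕ), (c = t ∨ c = t + 1) → ((oth t)^[l] c = t ∨ (oth t)^[l] c = t + 1) := by
      intro l
      induction l with
      | zero => intro c hc; exact hc
      | succ l ih =>
        intro c hc
        rw [Function.iterate_succ_apply]
        apply ih
        unfold oth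
        split_ifs
        · exact Or.inr rfl
        · exact Or.inl rfl
    unfold inL
    rw [h1]
    exact this l0 _ hv
  have hTabs : ∀ b ψ, |cnt t (opn cl ψ) l0 v ∅ b * Th ψ b| ≤ cnt t (opn cl ψ) l0 v ∅ b * Mt := by
    intro b ψ
    by_cases h0 : cnt t (opn cl ψ) l0 v ∅ b = 0
    · rw [h0]; simp
    · rw [abs_mul, abs_of_nonneg (cnt_nonneg t _ l0 v ∅ b)]
      exact mul_le_mul_of_nonneg_left (hThb ψ b (hcntL ψ b h0)) (cnt_nonneg t _ l0 v ∅ b)
  have hsumT : ∀ ψ, NO t (opn cl ψ) l0 v ∅ ≤ Nb → ∑ b : Finset (Fin n), T b ψ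
      = OutA t (opn cl ψ) (l0 + (R+1)) v ∅ (fun u _ => f ψ u - cm) := by
    intro ψ hψ
    rw [OutA_add, OutA_eq_cnt]
    refine sum_congr rfl (fun b _ => ?_)
    simp only [hT, hTh]
    rw [if_pos hψ, empty_union]
  -- class bound
  have hclass : ∀ c : Fin D, P (fun ψ : Ix n → Lb p =>
      s / D < |∑ b ∈ univ.filter (fun b => χ b = c), T b ψ|)
      ≤ 2 * Real.exp (- ((s / D) ^ 2 / (4 * Vt))) := by
    intro c
    refine tail_bound (outI v l0) (univ.filter (fun b => χ b = c)) (fun b => hamI b ρ) ?_ T ?_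
      (l0.factorial * Mt) ?_ ?_
      (fun b ψ => if NO t (opn cl ψ) l0 v ∅ ≤ Nb then cnt t (opn cl ψ) l0 v ∅ b * (l0.factorial * Mt ^ 2) else 0)
      ?_ Vt hVt0 ?_ (s / D) (by positivity) ?_
    · intro b hb b' hb' hne
      by_contra hcon
      rw [Finset.not_disjoint_iff] at hcon
      obtain ⟨x, hx1, hx2⟩ := hcon
      exact hχ b b' hne (Finset.not_disjoint_iff.2 ⟨x.1, fst_mem_of_hamI hx1, fst_mem_of_hamI hx2⟩)
        ((mem_filter.1 hb).2.trans (mem_filter.1 hb').2.symm)
    · intro b _ ψ φ φ' h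
      simp only [hT]
      rw [hNOmix, hNOmix, hcntmix, hcntmix]
      have : Th (mix (outI v l0) φ ψ) b = Th (mix (outI v l0) φ' ψ) b := by
        have hag : ∀ u ∈ hamI b ρ, mix (outI v l0) φ ψ u = mix (outI v l0) φ' ψ u := by
          intro u hu
          unfold mix
          rw [h u hu]
        apply OutA_congr
        · intro u e hu hu'
          have g1 : u ∈ ham b ρ := ham_mono (by omega) hu
          have g2 : tg u e ∈ ham b ρ := ham_mono (by omega) hu'
          exact opn_congr (hag _ (mem_hamI_none.2 g1)) (hag _ (mem_hamI_none.2 g2))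
            (hag _ (ed_mem_hamI g1 g2))
        · intro w hw _
          have : f (mix (outI v l0) φ ψ) w = f (mix (outI v l0) φ' ψ) w := by
            apply hloc
            intro u hu
            apply hag
            have := hamI_trans hw hu
            exact hamI_mono (by omega) this
          rw [this]
      rw [this]
    · intro b _ ψ
      simp only [hT]
      split_ifs
      · refine (hTabs b ψ).trans ?_
        exact mul_le_mul_of_nonneg_right (cnt_le t _ l0 v ∅ b) hMt0.le
      · rw [abs_zero]; positivity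
    · intro b _ ψ
      simp only [hT]
      by_cases hNO : NO t (opn cl ψ) l0 v ∅ ≤ Nb
      · by_cases h0 : cnt t (opn cl ψ) l0 v ∅ b = 0
        · have : ∀ φ : Ix n → Lb p, (if NO t (opn cl (mix (outI v l0) φ ψ)) l0 v ∅ ≤ Nb then
              cnt t (opn cl (mix (outI v l0) φ ψ)) l0 v ∅ b * Th (mix (outI v l0) φ ψ) b else 0)
              = (0:ℝ) := by
            intro φ
            rw [hcntmix, h0, zero_mul, ite_self]
          rw [E_congr this]
          exact E_const 0
        · obtain ⟨_, hcard⟩ := cnt_ne_zero t _ l0 v ∅ b h0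
          have hbc := cnt_card (t := t) (opn cl ψ) l0 v ∅ b h0
          have : ∀ φ : Ix n → Lb p, (if NO t (opn cl (mix (outI v l0) φ ψ)) l0 v ∅ ≤ Nb then
              cnt t (opn cl (mix (outI v l0) φ ψ)) l0 v ∅ b * Th (mix (outI v l0) φ ψ) b else 0)
              = cnt t (opn cl ψ) l0 v ∅ b * OutA t (opn cl (mix (outI v (v ∆ b).card) φ ψ)) (R+1) b (v ∆ b)
                (fun u _ => f (mix (outI v (v ∆ b).card) φ ψ) u - cmean t cl f (R+1) b.card) := by
            intro φ
            rw [hNOmix, if_pos hNO, hcntmix, hcard, hbc]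
          rw [E_congr this, E_mul_left, mean_zero hf hloc v b ψ, mul_zero]
      · have : ∀ φ : Ix n → Lb p, (if NO t (opn cl (mix (outI v l0) φ ψ)) l0 v ∅ ≤ Nb then
              cnt t (opn cl (mix (outI v l0) φ ψ)) l0 v ∅ b * Th (mix (outI v l0) φ ψ) b else 0)
              = (0:ℝ) := by
          intro φ
          rw [hNOmix, if_neg hNO]
        rw [E_congr this]
        exact E_const 0
    · intro b _ ψ
      have hpt : ∀ φ : Ix n → Lb p, (T b (mix (outI v l0) φ ψ)) ^ 2
          ≤ (if NO t (opn cl ψ) l0 v ∅ ≤ Nb then cnt t (opn cl ψ) l0 v ∅ b * (l0.factorial * Mt ^ 2) else 0) := by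
        intro φ
        simp only [hT]
        rw [hNOmix]
        split_ifs with hNO
        · have h1 := hTabs b (mix (outI v l0) φ ψ)
          rw [hcntmix] at h1 ⊢
          have h2 := cnt_le t (opn cl ψ) l0 v ∅ b
          have h3 := cnt_nonneg t (opn cl ψ) l0 v ∅ b
          calc (cnt t (opn cl ψ) l0 v ∅ b * Th (mix (outI v l0) φ ψ) b) ^ 2
              = |cnt t (opn cl ψ) l0 v ∅ b * Th (mix (outI v l0) φ ψ) b| ^ 2 := (sq_abs _).symm
            _ ≤ (cnt t (opn cl ψ) l0 v ∅ b * Mt) ^ 2 := by gcongr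
            _ = cnt t (opn cl ψ) l0 v ∅ b * (cnt t (opn cl ψ) l0 v ∅ b * Mt ^ 2) := by ring
            _ ≤ cnt t (opn cl ψ) l0 v ∅ b * (l0.factorial * Mt ^ 2) := by gcongr
        · simp
      refine (E_mono hpt).trans ?_
      rw [E_const]
    · intro ψ
      by_cases hNO : NO t (opn cl ψ) l0 v ∅ ≤ Nb
      · simp only [hNO, if_true]
        calc ∑ b ∈ univ.filter (fun b => χ b = c), cnt t (opn cl ψ) l0 v ∅ b * (l0.factorial * Mt ^ 2)
            ≤ ∑ b : Finset (Fin n), cnt t (opn cl ψ) l0 v ∅ b * (l0.factorial * Mt ^ 2) := by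
              apply sum_le_sum_of_subset_of_nonneg (filter_subset _ _)
              intro b _ _
              exact mul_nonneg (cnt_nonneg t _ l0 v ∅ b) (by positivity)
          _ = NO t (opn cl ψ) l0 v ∅ * (l0.factorial * Mt ^ 2) := by rw [← sum_mul, sum_cnt]
          _ ≤ Nb * (l0.factorial * Mt ^ 2) := by gcongr
          _ = Vt := by rw [hVt]; ring
      · simp only [hNO, if_false, sum_const_zero]
        exact hVt0.le
    · have h1 : s / D ≤ 2 * Mt * Nb := (div_le_self hs0 hDr).trans (by linarith)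
      calc s / D * (l0.factorial * Mt) ≤ (2 * Mt * Nb) * (l0.factorial * Mt) := by gcongr
        _ = 2 * Vt := by rw [hVt]; ring
  -- union
  have hunion : P (fun ψ : Ix n → Lb p => NO t (opn cl ψ) l0 v ∅ ≤ Nb ∧
      s < |OutA t (opn cl ψ) (l0 + (R+1)) v ∅ (fun u _ => f ψ u - cm)|)
      ≤ P (fun ψ : Ix n → Lb p => ∃ c ∈ (univ : Finset (Fin D)),
        s / D < |∑ b ∈ univ.filter (fun b => χ b = c), T b ψ|) := by
    apply P_mono
    rintro ψ ⟨h1, h2⟩
    rw [← hsumT ψ h1] at h2
    by_contra hcon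
    push Not at hcon
    have h3 : ∑ b : Finset (Fin n), T b ψ
        = ∑ c : Fin D, ∑ b ∈ univ.filter (fun b => χ b = c), T b ψ :=
      (sum_fiberwise (univ : Finset (Finset (Fin n))) χ (fun b => T b ψ)).symm
    rw [h3] at h2
    have h4 : |∑ c : Fin D, ∑ b ∈ univ.filter (fun b => χ b = c), T b ψ| ≤ s := by
      refine (abs_sum_le_sum_abs _ _).trans ?_
      calc ∑ c : Fin D, |∑ b ∈ univ.filter (fun b => χ b = c), T b ψ|
          ≤ ∑ c : Fin D, s / D := sum_le_sum (fun c hc => hcon c hc)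
        _ = s := by
            rw [sum_const, card_univ, Fintype.card_fin, nsmul_eq_mul, mul_div_cancel₀]
            positivity
    linarith
  rw [hDcast]
  refine hunion.trans ((P_exists _ _).trans ?_)
  refine (sum_le_sum (fun c _ => hclass c)).trans ?_
  rw [sum_const, card_univ, Fintype.card_fin, nsmul_eq_mul]
  apply le_of_eq
  ring

end Pool.Agent.SK.Lin
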