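import Pool.Agent.Lib.MP_5fcc10_co_lin.SmF

/-! The stage theorem: fine analysis. -/

set_option linter.unusedSectionVars false

namespace Pool.Agent.SK.Lin

open Finset
open scoped symmDiff

section fine

variable {n : ℕ} {t : ℕ}

lemma fine (Dl : ℕ → ℝ) (β : ℝ) (hβ : 2 ≤ β) (hD1 : ∀ c, β ^ 4 ≤ Dl c)
    (hD2 : ∀ c, Dl c ≤ 4 * β ^ 4) (α : Wt n)
    (hdeg : ∀ v : Finset (Fin n), inL t v → |dg t α v / Dl v.card - 1| ≤ 1 / β)
    (f : Finset (Fin n) → ℝ) (τ : ℝ) (hτ : 0 ≤ τ) (hf : ∀ v, inL t v → |f v| ≤ τ)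
    (L : ℕ) (hL : 1 ≤ L) (hβL : 4 * (L:ℝ) ≤ β) (v : Finset (Fin n)) (hv : inL t v)
    (cm σ : ℝ) (hout : |OutA t α L v ∅ (fun u _ => f u - cm)| ≤ σ * PiL t Dl L v.card) :
    |Bit t α Dl f L v - cm * (NO t α L v ∅ / PiL t Dl L v.card)|
      ≤ τ * (L ^ 2 * 8 ^ L) / β ^ 4 + σ ∧
    |NO t α L v ∅ / PiL t Dl L v.card - 1| ≤ (2 ^ L + 2 * L) / β ∧
    1 / 2 ≤ NO t α L v ∅ / PiL t Dl L v.card ∧
    |Bit t α Dl f L v| ≤ 2 ^ L * τ := by
  have hβ0 : 0 < β := by linarith
  have hβ4 : 0 < β ^ 4 := by positivity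
  have hD0 : ∀ c, 0 < Dl c := fun c => lt_of_lt_of_le hβ4 (hD1 c)
  have hPi := PiL_pos t Dl hD0 L v.card
  have hinv : 1 / β ≤ 1 / 2 := one_div_le_one_div_of_le (by norm_num) hβ
  have hinv0 : 0 < 1 / β := by positivity
  have hdg1 : ∀ v : Finset (Fin n), inL t v → dg t α v ≤ (1 + 1 / β) * Dl v.card := by
    intro v hv
    have h1 := (abs_le.1 (hdeg v hv)).2
    have h2 := hD0 v.card
    rw [sub_le_iff_le_add, div_le_iff₀ h2] at h1
    linarith
  have hdg0 : ∀ v : Finset (Fin n), inL t v → (1 - 1 / β) * Dl v.card ≤ dg t α v := by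
    intro v hv
    have h1 := (abs_le.1 (hdeg v hv)).1
    have h2 := hD0 v.card
    have h3 : 1 - 1 / β ≤ dg t α v / Dl v.card := by linarith
    rwa [le_div_iff₀ h2] at h3
  have hdg2 : ∀ v : Finset (Fin n), inL t v → dg t α v ≤ 2 * Dl v.card := by
    intro v hv
    refine (hdg1 v hv).trans ?_
    apply mul_le_mul_of_nonneg_right _ (hD0 _).le
    linarith
  have hdgD : ∀ v : Finset (Fin n), inL t v → dg t α v ≤ 8 * β ^ 4 := by
    intro v hv
    have := hD2 v.card
    have := hdg2 v hv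
    linarith
  have hLr : (1:ℝ) ≤ L := by exact_mod_cast hL
  refine ⟨?_, ?_, ?_, ?_⟩
  · have hw := (walk_out Dl hD0 f (8 * β ^ 4) (by positivity) hdgD τ hτ hf L).2 v ∅ hv
    rw [card_empty] at hw
    push_cast at hw
    rw [zero_add, mul_pow, ← pow_mul] at hw
    have hPi2 : β ^ (4 * L) ≤ PiL t Dl L v.card := by
      have := PiL_ge (t := t) Dl (β ^ 4) (by positivity) hD1 L v.card
      rwa [← pow_mul] at this
    set W := |PiL t Dl L v.card * Bit t α Dl f L v - OutA t α L v ∅ (fun w _ => f w)| with hW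
    have hW0 : 0 ≤ W := abs_nonneg _
    have hW1 : β ^ 4 * W ≤ τ * (L ^ 2 * 8 ^ L) * PiL t Dl L v.card := by
      calc β ^ 4 * W ≤ 8 * β ^ 4 * W := by nlinarith [mul_nonneg hβ4.le hW0]
        _ ≤ τ * (L * L) * (8 ^ L * β ^ (4 * L)) := hw
        _ = τ * (L ^ 2 * 8 ^ L) * β ^ (4 * L) := by ring
        _ ≤ τ * (L ^ 2 * 8 ^ L) * PiL t Dl L v.card := by
            apply mul_le_mul_of_nonneg_left hPi2 (by positivity)
    have hW2 : W ≤ τ * (L ^ 2 * 8 ^ L) / β ^ 4 * PiL t Dl L v.card := by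
      rw [div_mul_eq_mul_div, le_div_iff₀ hβ4]
      linarith
    have h3 : OutA t α L v ∅ (fun u _ => f u - cm)
        = OutA t α L v ∅ (fun w _ => f w) - cm * NO t α L v ∅ := by
      rw [OutA_sub t α L v ∅ (fun u _ => f u) (fun _ _ => cm)]
      congr 1
      have := OutA_smul t α L cm v ∅ (fun _ _ => 1)
      simp only [mul_one] at this
      exact this
    rw [h3] at hout
    have h4 : Bit t α Dl f L v - cm * (NO t α L v ∅ / PiL t Dl L v.card)
        = (PiL t Dl L v.card * Bit t α Dl f L v - cm * NO t α L v ∅) / PiL t Dl L v.card := by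
      field_simp
    rw [h4, abs_div, abs_of_pos hPi, div_le_iff₀ hPi]
    have h5 : PiL t Dl L v.card * Bit t α Dl f L v - cm * NO t α L v ∅
        = (PiL t Dl L v.card * Bit t α Dl f L v - OutA t α L v ∅ (fun w _ => f w))
          + (OutA t α L v ∅ (fun w _ => f w) - cm * NO t α L v ∅) := by ring
    rw [h5]
    refine (abs_add_le _ _).trans ?_
    rw [add_mul]
    exact add_le_add hW2 hout
  · have h1 := NO_le t α Dl hD0 (1 + 1 / β) (by positivity) hdg1 L v ∅ hv
    have h2 := NO_ge t α Dl hD0 (1 - 2 / β) (by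
        rw [sub_nonneg, div_le_one hβ0]; exact hβ) L (by
      intro v hv
      have h3 := hdg0 v hv
      have h4 : (L:ℝ) ≤ 1 / β * Dl v.card := by
        rw [div_mul_eq_mul_div, one_mul, le_div_iff₀ hβ0]
        have h5 := hD1 v.card
        have h6 : (L:ℝ) * β ≤ β ^ 4 := by
          have : (L:ℝ) ≤ β := by linarith
          calc (L:ℝ) * β ≤ β * β := mul_le_mul_of_nonneg_right this hβ0.le
            _ = β ^ 2 := by ring
            _ ≤ β ^ 4 := pow_le_pow_right₀ (by linarith) (by norm_num)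
        linarith
      have : (1 - 2 / β) * Dl v.card = (1 - 1/β) * Dl v.card - 1 / β * Dl v.card := by ring
      linarith) L v ∅ hv (by simp)
    have h3 := one_add_pow_le (1 / β) hinv0.le (by linarith) L
    have h4 : 1 - 2 * (L:ℝ) / β ≤ (1 - 2 / β) ^ L := by
      have := one_add_mul_le_pow (a := -(2 / β)) (by
        have : 2 / β ≤ 1 := by rw [div_le_one hβ0]; exact hβ
        linarith) L
      have e : 1 + (L:ℝ) * -(2 / β) = 1 - 2 * (L:ℝ) / β := by ring
      rw [e] at this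
      exact this
    rw [abs_le]
    have h5 : NO t α L v ∅ / PiL t Dl L v.card ≤ (1 + 1 / β) ^ L := by
      rw [div_le_iff₀ hPi]; exact h1
    have h6 : (1 - 2 / β) ^ L ≤ NO t α L v ∅ / PiL t Dl L v.card := by
      rw [le_div_iff₀ hPi]; exact h2
    have h7 : (2 ^ L + 2 * (L:ℝ)) / β = 2 ^ L * (1 / β) + 2 * (L:ℝ) / β := by ring
    have h8 : 0 ≤ 2 * (L:ℝ) / β := by positivity
    have h9 : (0:ℝ) ≤ 2 ^ L * (1 / β) := by positivity
    constructor
    · rw [h7]; linarith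
    · rw [h7]; nlinarith
  · have h2 := NO_ge t α Dl hD0 (1 - 2 / β) (by
        rw [sub_nonneg, div_le_one hβ0]; exact hβ) L (by
      intro v hv
      have h3 := hdg0 v hv
      have h4 : (L:ℝ) ≤ 1 / β * Dl v.card := by
        rw [div_mul_eq_mul_div, one_mul, le_div_iff₀ hβ0]
        have h5 := hD1 v.card
        have h6 : (L:ℝ) * β ≤ β ^ 4 := by
          have : (L:ℝ) ≤ β := by linarith
          calc (L:ℝ) * β ≤ β * β := mul_le_mul_of_nonneg_right this hβ0.le
            _ = β ^ 2 := by ring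
            _ ≤ β ^ 4 := pow_le_pow_right₀ (by linarith) (by norm_num)
        linarith
      have : (1 - 2 / β) * Dl v.card = (1 - 1/β) * Dl v.card - 1 / β * Dl v.card := by ring
      linarith) L v ∅ hv (by simp)
    have h4 : 1 - 2 * (L:ℝ) / β ≤ (1 - 2 / β) ^ L := by
      have := one_add_mul_le_pow (a := -(2 / β)) (by
        have : 2 / β ≤ 1 := by rw [div_le_one hβ0]; exact hβ
        linarith) L
      have e : 1 + (L:ℝ) * -(2 / β) = 1 - 2 * (L:ℝ) / β := by ring
      rw [e] at this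
      exact this
    have h6 : (1 - 2 / β) ^ L ≤ NO t α L v ∅ / PiL t Dl L v.card := by
      rw [le_div_iff₀ hPi]; exact h2
    have h7 : 2 * (L:ℝ) / β ≤ 1 / 2 := by
      rw [div_le_div_iff₀ hβ0 (by norm_num)]; linarith
    linarith
  · exact Bit_abs_le Dl hD0 f 2 (by norm_num) hdg2 τ hτ hf L v hv

end fine

end Pool.Agent.SK.Lin
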