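import Pool.Agent.Lib.MP_5fcc10_co_lin.SmG

/-! The stage theorem. -/

set_option linter.unusedSectionVars false

namespace Pool.Agent.SK.Lin

open Finset
open scoped symmDiff

/-- the event that the outward sum deviates -/
def devEv {n : ℕ} {p : ℕ} [NeZero p] (t : ℕ) (cl : Lb p)
    (f : (Ix n → Lb p) → Finset (Fin n) → ℝ) (R l0 : ℕ) (Nb s : ℝ) (v : Finset (Fin n))
    (ψ : Ix n → Lb p) : Prop :=
  NO t (opn cl ψ) l0 v ∅ ≤ Nb ∧
    s < |OutA t (opn cl ψ) (l0 + (R+1)) v ∅ (fun u _ => f ψ u - cmean t cl f (R+1) ((oth t)^[l0] v.card))|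

lemma devEv_dep {n : ℕ} {p : ℕ} [NeZero p] {t : ℕ} {cl : Lb p}
    {f : (Ix n → Lb p) → Finset (Fin n) → ℝ} {R : ℕ} (hf : Loc f R) (l0 : ℕ) (Nb s : ℝ)
    (v : Finset (Fin n)) : Dep (devEv t cl f R l0 Nb s v) (hamI v (l0 + (R+1) + R)) := by
  intro φ ψ h
  unfold devEv
  have hop : ∀ {l : ℕ}, l ≤ l0 + (R+1) + R → ∀ u e, u ∈ ham v l → tg u e ∈ ham v l →
      opn cl φ u e = opn cl ψ u e := by
    intro l hl u e hu hu'
    exact opn_congr (h _ (mem_hamI_none.2 (ham_mono hl hu)))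
      (h _ (mem_hamI_none.2 (ham_mono hl hu')))
      (h _ (ed_mem_hamI (ham_mono hl hu) (ham_mono hl hu')))
  have h1 : NO t (opn cl φ) l0 v ∅ = NO t (opn cl ψ) l0 v ∅ :=
    OutA_congr t l0 v ∅ _ _ (hop (by omega)) (fun _ _ _ => rfl)
  have h2 : OutA t (opn cl φ) (l0 + (R+1)) v ∅
        (fun u _ => f φ u - cmean t cl f (R+1) ((oth t)^[l0] v.card))
      = OutA t (opn cl ψ) (l0 + (R+1)) v ∅
        (fun u _ => f ψ u - cmean t cl f (R+1) ((oth t)^[l0] v.card)) := by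
    apply OutA_congr
    · exact hop (by omega)
    · intro w hw _
      rw [hf w φ ψ (fun u hu => h u (hamI_trans hw hu))]
  rw [h1, h2]

lemma stage_prob {g C M R l0 : ℕ} {β : ℝ} {n t : ℕ} {p : ℕ} [NeZero p] {cl : Lb p} {Dl : ℕ → ℝ} (he : Env g β n t p cl Dl)
    {f : (Ix n → Lb p) → Finset (Fin n) → ℝ} (hf : Inv f) (hloc : Loc f R)
    (hfb : ∀ ψ u, |f ψ u| ≤ β ^ (C + g + 2))
    (hl0 : 2 + (2 * (C + g + 2) + 2 * (g * (R + 1)) + 2 * (g * (2 * (2 * R + 1)))) + 2 * (M + 2) ≤ l0)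
    (hβ0 : 16 * (l0.factorial : ℝ) * 8 ^ l0 ≤ β)
    (v : Finset (Fin n)) (hv : inL t v) :
    P (devEv t cl f R l0 ((8 * β ^ 4) ^ l0) (β ^ (4 * (l0 + (R+1)) - (M + 2))) v)
      ≤ β ^ (g * (2 * (2 * R + 1)) + 1) * Real.exp (-β) := by
  have hβ := he.hβ
  have hβp : 0 < β := by linarith
  have hβ1 : 1 ≤ β := by linarith
  have hnr : (1:ℝ) ≤ n := by exact_mod_cast he.hn1
  have hnβ : (n:ℝ) ≤ β ^ g := by linarith [he.hn]
  set q := 2 * (2 * R + 1) with hq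
  set e := 4 * (l0 + (R+1)) - (M + 2) with hedef
  have hee : e + (M + 2) = 4 * (l0 + (R+1)) := by omega
  have hs : β ^ e ≤ 2 * (2 * β ^ (C + g + 2) * (n:ℝ) ^ (R+1)) * (8 * β ^ 4) ^ l0 := by
    have h1 : β ^ e ≤ β ^ (4 * (R+1)) * β ^ (4 * l0) := by
      rw [← pow_add]
      exact pow_le_pow_right₀ hβ1 (by omega)
    have h2 : β ^ (4 * (R+1)) ≤ (n:ℝ) ^ (R+1) := by
      rw [pow_mul]
      exact pow_le_pow_left₀ (by positivity) he.hn4 _
    have h3 : β ^ (4 * l0) ≤ (8 * β ^ 4) ^ l0 := by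
      rw [pow_mul]
      exact pow_le_pow_left₀ (by positivity) (by nlinarith [pow_pos hβp 4]) _
    have h4 : (1:ℝ) ≤ β ^ (C + g + 2) := one_le_pow₀ hβ1
    have h5 : (0:ℝ) < (n:ℝ) ^ (R+1) := by positivity
    have h6 : (0:ℝ) < (8 * β ^ 4) ^ l0 := by positivity
    calc β ^ e ≤ β ^ (4 * (R+1)) * β ^ (4 * l0) := h1
      _ ≤ (n:ℝ) ^ (R+1) * (8 * β ^ 4) ^ l0 := mul_le_mul h2 h3 (by positivity) h5.le
      _ ≤ (2 * (2 * β ^ (C + g + 2) * (n:ℝ) ^ (R+1))) * (8 * β ^ 4) ^ l0 := by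
          apply mul_le_mul_of_nonneg_right _ h6.le
          nlinarith
  have hconc := conc (t := t) (cl := cl) hf hloc (β ^ (C + g + 2)) (by positivity) hfb he.hn1 v hv l0
    ((8 * β ^ 4) ^ l0) (by positivity) (β ^ e) (by positivity) hs
  have hN1 : ((n:ℝ) + 1) ^ q ≤ β ^ (g * q) := by
    rw [pow_mul β g q]
    exact pow_le_pow_left₀ (by positivity) he.hn _
  have hN0 : (0:ℝ) < ((n:ℝ) + 1) ^ q := by positivity
  have hX : β ≤ (β ^ e / ((n:ℝ)+1) ^ q) ^ 2 / (4 * (l0.factorial *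
      (2 * β ^ (C + g + 2) * (n:ℝ) ^ (R+1)) ^ 2 * (8 * β ^ 4) ^ l0)) := by
    have hden : (0:ℝ) < 4 * (l0.factorial *
      (2 * β ^ (C + g + 2) * (n:ℝ) ^ (R+1)) ^ 2 * (8 * β ^ 4) ^ l0) := by
      have : (0:ℝ) < l0.factorial := by exact_mod_cast Nat.factorial_pos l0
      positivity
    rw [le_div_iff₀ hden, div_pow, le_div_iff₀ (by positivity)]
    have hfac : (0:ℝ) < l0.factorial := by exact_mod_cast Nat.factorial_pos l0
    have h1 : (n:ℝ) ^ (R+1) ≤ β ^ (g * (R+1)) := by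
      rw [pow_mul]
      exact pow_le_pow_left₀ (by positivity) hnβ _
    calc β * (4 * (l0.factorial * (2 * β ^ (C + g + 2) * (n:ℝ) ^ (R+1)) ^ 2 * (8 * β ^ 4) ^ l0))
          * (((n:ℝ)+1) ^ q) ^ 2
        ≤ β * (4 * (l0.factorial * (2 * β ^ (C + g + 2) * β ^ (g * (R+1))) ^ 2
            * (8 * β ^ 4) ^ l0)) * (β ^ (g * q)) ^ 2 := by
          gcongr
      _ = (16 * l0.factorial * 8 ^ l0) * β ^ (1 + 2 * (C + g + 2) + 2 * (g * (R+1)) + 4 * l0
            + 2 * (g * q)) := by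
          rw [mul_pow, mul_pow, mul_pow]
          ring
      _ ≤ β * β ^ (1 + 2 * (C + g + 2) + 2 * (g * (R+1)) + 4 * l0 + 2 * (g * q)) := by
          apply mul_le_mul_of_nonneg_right hβ0 (by positivity)
      _ = β ^ (2 + 2 * (C + g + 2) + 2 * (g * (R+1)) + 4 * l0 + 2 * (g * q)) := by
          rw [← pow_succ']
          congr 1
          omega
      _ ≤ β ^ (e * 2) := pow_le_pow_right₀ hβ1 (by omega)
      _ = (β ^ e) ^ 2 := by rw [pow_mul]
  refine le_trans ?_ ((le_trans hconc ?_))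
  · exact le_of_eq rfl
  · have h1 : Real.exp (- ((β ^ e / ((n:ℝ)+1) ^ q) ^ 2 / (4 * (l0.factorial *
      (2 * β ^ (C + g + 2) * (n:ℝ) ^ (R+1)) ^ 2 * (8 * β ^ 4) ^ l0)))) ≤ Real.exp (-β) :=
      Real.exp_le_exp.2 (neg_le_neg hX)
    calc 2 * ((n:ℝ)+1) ^ q * Real.exp (- ((β ^ e / ((n:ℝ)+1) ^ q) ^ 2 / (4 * (l0.factorial *
      (2 * β ^ (C + g + 2) * (n:ℝ) ^ (R+1)) ^ 2 * (8 * β ^ 4) ^ l0))))
        ≤ 2 * β ^ (g * q) * Real.exp (-β) := by gcongr
      _ ≤ β * β ^ (g * q) * Real.exp (-β) := by gcongr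
      _ = β ^ (g * q + 1) * Real.exp (-β) := by rw [pow_succ, mul_comm β]

theorem stage_zero (g : ℕ) {β : ℝ} {n t : ℕ} {p : ℕ} [NeZero p] {cl : Lb p} {Dl : ℕ → ℝ} (he : Env g β n t p cl Dl) :
    Out 0 1 1 1 β n t p cl Dl (fun _ _ => 0) (fun _ => 1)
      (fun v ψ => 1 / β < |dg t (opn cl ψ) v / Dl v.card - 1|) := by
  have hβ := he.hβ
  have hβp : 0 < β := by linarith
  refine ⟨⟨fun _ _ _ => rfl, fun _ _ _ => rfl⟩, fun _ _ _ _ => rfl, ?_, ?_, ?_, ?_, ?_, ?_, ?_, ?_⟩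
  · intro ψ v; rw [abs_zero]; positivity
  · intro c; rw [abs_one, pow_one]; linarith
  · intro v φ ψ h
    have := Loc.dg (n := n) (t := t) (cl := cl) v φ ψ h
    simp only at this ⊢
    rw [this]
  · intro v hv
    refine (he.hdeg v hv).trans ?_
    rw [pow_one]
    exact mul_le_mul_of_nonneg_right hβ (Real.exp_pos _).le
  · intro ψ hψ v hv
    have := hψ v hv
    push Not at this
    exact this
  · intro ψ hψ v hv
    have := hψ v hv
    push Not at this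
    have h0 : Sf t (opn cl ψ) Dl (fun _ => 0) v = dg t (opn cl ψ) v / Dl v.card := by
      unfold Sf Bop nsum
      simp
    rw [h0]
    simpa using this
  · intro ψ _ v _
    rw [abs_zero]; positivity
  · intro ψ _ v _
    rw [sub_self, abs_zero]; positivity

theorem stage_step (g M R C : ℕ) (K : ℝ) (hK : 0 ≤ K) :
    ∃ (K' : ℝ) (R' C' : ℕ) (β0 : ℝ), 0 ≤ K' ∧ ∀ (β : ℝ) (n t : ℕ) (p : ℕ) [NeZero p] (cl : Lb p) (Dl : ℕ → ℝ), β0 ≤ β → Env g β n t p cl Dl → ∀ h k Bd,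
      Out M K R C β n t p cl Dl h k Bd → ∃ h' k' Bd', Out (M+1) K' R' C' β n t p cl Dl h' k' Bd' := by
  obtain ⟨l0, hl0, hpar⟩ : ∃ l0 : ℕ, 2 + (2 * (C + g + 2) + 2 * (g * ((R+1) + 1))
      + 2 * (g * (2 * (2 * (R+1) + 1)))) + 2 * (M + 2) ≤ l0 ∧ Even (l0 + ((R+1)+1)) := by
    set E0 := 2 + (2 * (C + g + 2) + 2 * (g * ((R+1) + 1))
      + 2 * (g * (2 * (2 * (R+1) + 1)))) + 2 * (M + 2) with hE0
    by_cases h : Even (E0 + ((R+1)+1))
    · exact ⟨E0, le_rfl, h⟩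
    · refine ⟨E0 + 1, by omega, ?_⟩
      rw [Nat.not_even_iff_odd] at h
      have : E0 + 1 + ((R+1)+1) = E0 + ((R+1)+1) + 1 := by omega
      rw [this]
      exact h.add_one
  set L := l0 + ((R+1)+1) with hL
  set K1 : ℝ := 2 * (2 ^ L * K + L ^ 2 * 8 ^ L * K + 1) with hK1
  have hK10 : 0 ≤ K1 := by positivity
  refine ⟨K * (L ^ 2 * 8 ^ L) + 1 + K1 * (2 ^ L + 2 * L) + 2 ^ L * K + K + K1, L + (R+1),
    C + g + 3 + g * L + L + g * (2 * (2 * (R+1) + 1)),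
    max (4 * L) (max (16 * (l0.factorial : ℝ) * 8 ^ l0) 2), by positivity, ?_⟩
  intro β n t p _ cl Dl hβ0 he h k Bd ho
  have hb1 : 4 * (L:ℝ) ≤ β := (le_max_left _ _).trans hβ0
  have hb2 : 16 * (l0.factorial : ℝ) * 8 ^ l0 ≤ β :=
    (le_max_left _ _).trans ((le_max_right _ _).trans hβ0)
  have hβ := he.hβ
  have hβp : 0 < β := by linarith
  have hβ1 : 1 ≤ β := by linarith
  have hβ4 : 0 < β ^ 4 := by positivity
  have hnr : (1:ℝ) ≤ n := by exact_mod_cast he.hn1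
  have hnβ : (n:ℝ) ≤ β ^ g := by linarith [he.hn]
  have hDl1 : ∀ c, 1 ≤ Dl c := fun c => (one_le_pow₀ hβ1).trans (he.hD1 c)
  have hDl0 : ∀ c, 0 < Dl c := fun c => lt_of_lt_of_le one_pos (hDl1 c)
  set ρ : (Ix n → Lb p) → Finset (Fin n) → ℝ :=
    fun ψ u => Sf t (opn cl ψ) Dl (h ψ) u - k u.card with hρ
  have hρinv : Inv ρ := by
    have h1 := (Inv.Sf (t := t) (cl := cl) ho.inv Dl).add (Inv.const (n := n) (p := p) (fun c => - k c))
    have h2 : ρ = fun ψ v => Sf t (opn cl ψ) Dl (h ψ) v + - k v.card := by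
      funext ψ v; simp only [hρ]; ring
    rw [h2]; exact h1
  have hρloc : Loc ρ (R+1) := by
    have h1 := (Loc.Sf (t := t) (cl := cl) ho.loc Dl).add
      (Loc.const (n := n) (p := p) (fun c => - k c) (R+1))
    have h2 : ρ = fun ψ v => Sf t (opn cl ψ) Dl (h ψ) v + - k v.card := by
      funext ψ v; simp only [hρ]; ring
    rw [h2]; exact h1
  have hρb : ∀ ψ u, |ρ ψ u| ≤ β ^ (C + g + 2) := by
    intro ψ u
    have h1 := Sf_crude (t := t) Dl hDl1 (opn cl ψ) (h ψ) (β ^ C) (by positivity) (ho.hh ψ) u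
    have h2 := ho.hk u.card
    have h3 : |ρ ψ u| ≤ |Sf t (opn cl ψ) Dl (h ψ) u| + |k u.card| := abs_sub _ _
    have h4 : (1:ℝ) ≤ β ^ C := one_le_pow₀ hβ1
    have h5 : (1:ℝ) ≤ β ^ g := one_le_pow₀ hβ1
    have h6 : (1 + β ^ C) * n + n * β ^ C ≤ 3 * (β ^ C * β ^ g) := by
      have : (n:ℝ) ≤ β ^ C * β ^ g := by nlinarith
      have h7 : (n:ℝ) * β ^ C ≤ β ^ C * β ^ g := by nlinarith
      nlinarith
    have h8 : β ^ C ≤ β ^ C * β ^ g := by nlinarith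
    have h9 : β ^ (C + g + 2) = β ^ C * β ^ g * β ^ 2 := by rw [pow_add, pow_add]
    rw [h9]
    have h10 : (4:ℝ) ≤ β ^ 2 := by nlinarith
    nlinarith [mul_pos (lt_of_lt_of_le one_pos h4) (lt_of_lt_of_le one_pos h5)]
  set cmf : ℕ → ℝ := fun c => cmean t cl ρ ((R+1)+1) ((oth t)^[l0] c) with hcmf
  have hcmb : ∀ c, |cmf c| ≤ β ^ (C + g + 2) := fun c =>
    cmean_abs_le _ (by positivity) hρb _ _
  have hCbig : (2:ℝ) * β ^ (C + g + 2) ≤ β ^ (C + g + 3) := by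
    have : β ^ (C + g + 3) = β ^ (C + g + 2) * β := by rw [← pow_succ]
    rw [this]
    have : 0 < β ^ (C + g + 2) := by positivity
    nlinarith
  refine ⟨fun ψ v => h ψ v + theta t (opn cl ψ) Dl L (ρ ψ) v, fun c => k c + cmf c,
    fun v ψ => Bd v ψ ∨ devEv t cl ρ (R+1) l0 ((8 * β ^ 4) ^ l0)
      (β ^ (4 * (l0 + ((R+1)+1)) - (M + 2))) v ψ, ?_⟩
  -- the fine consequences
  have key : ∀ ψ, (∀ v, inL t v → ¬ (Bd v ψ ∨ devEv t cl ρ (R+1) l0 ((8 * β ^ 4) ^ l0)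
      (β ^ (4 * (l0 + ((R+1)+1)) - (M + 2))) v ψ)) → ∀ v, inL t v →
      |dg t (opn cl ψ) v / Dl v.card - 1| ≤ 1 / β ∧ |cmf v.card| ≤ K1 / β ^ (M+1) ∧
      |theta t (opn cl ψ) Dl L (ρ ψ) v| ≤ 2 ^ L * K / β ^ (M+1) ∧
      |Bit t (opn cl ψ) Dl (ρ ψ) L v - cmf v.card|
        ≤ (K * (L ^ 2 * 8 ^ L) + 1 + K1 * (2 ^ L + 2 * L)) / β ^ (M+2) := by
    intro ψ hψ v hv
    have hg : ∀ v, inL t v → ¬ Bd v ψ := fun v hv hb => hψ v hv (Or.inl hb)
    have hdeg := ho.deg ψ hg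
    have hsf := ho.sf ψ hg
    have hτ0 : 0 ≤ K / β ^ (M+1) := by positivity
    have hdg2 : ∀ v : Finset (Fin n), inL t v → dg t (opn cl ψ) v ≤ 2 * Dl v.card := by
      intro v hv
      have h1 := (abs_le.1 (hdeg v hv)).2
      have h2 := hDl0 v.card
      rw [sub_le_iff_le_add, div_le_iff₀ h2] at h1
      have h3 : 1 / β ≤ 1 := by rw [div_le_one hβp]; exact hβ1
      refine h1.trans ?_
      apply mul_le_mul_of_nonneg_right _ h2.le
      linarith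
    have hout : |OutA t (opn cl ψ) L v ∅ (fun u _ => ρ ψ u - cmf v.card)|
        ≤ (1 / β ^ (M+2)) * PiL t Dl L v.card := by
      have hNO : NO t (opn cl ψ) l0 v ∅ ≤ (8 * β ^ 4) ^ l0 := by
        refine (NO_le t (opn cl ψ) Dl hDl0 2 (by norm_num) hdg2 l0 v ∅ hv).trans ?_
        have := PiL_le (t := t) Dl (4 * β ^ 4) (fun c => (hDl0 c).le) he.hD2 l0 v.card
        calc 2 ^ l0 * PiL t Dl l0 v.card ≤ 2 ^ l0 * (4 * β ^ 4) ^ l0 := by gcongr
          _ = (8 * β ^ 4) ^ l0 := by rw [← mul_pow]; congr 1; ring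
      have h1 : ¬ devEv t cl ρ (R+1) l0 ((8 * β ^ 4) ^ l0)
        (β ^ (4 * (l0 + ((R+1)+1)) - (M + 2))) v ψ := fun hb => hψ v hv (Or.inr hb)
      have h2 : |OutA t (opn cl ψ) L v ∅ (fun u _ => ρ ψ u - cmf v.card)|
          ≤ β ^ (4 * (l0 + ((R+1)+1)) - (M + 2)) := by
        by_contra hcon
        push Not at hcon
        exact h1 ⟨hNO, hcon⟩
      refine h2.trans ?_
      rw [one_div, inv_mul_eq_div, le_div_iff₀ (by positivity), ← pow_add]
      have h3 : 4 * (l0 + ((R+1)+1)) - (M + 2) + (M + 2) = 4 * L := by omega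
      rw [h3, pow_mul]
      exact PiL_ge (t := t) Dl (β ^ 4) (by positivity) he.hD1 L v.card
    obtain ⟨f1, f2, f3, f4⟩ := fine Dl β hβ he.hD1 he.hD2 (opn cl ψ) hdeg (ρ ψ) (K / β ^ (M+1)) hτ0 hsf L
      (by omega) hb1 v hv (cmf v.card) (1 / β ^ (M+2)) hout
    set r := NO t (opn cl ψ) L v ∅ / PiL t Dl L v.card with hr
    set Bv := Bit t (opn cl ψ) Dl (ρ ψ) L v with hBv
    have hb12 : β ^ (M+2) = β ^ (M+1) * β := by rw [← pow_succ]
    have hb4 : β ^ 4 = β * β ^ 3 := by ring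
    have hb3 : 1 ≤ β ^ 3 := one_le_pow₀ hβ1
    have e1 : K / β ^ (M+1) * (L ^ 2 * 8 ^ L) / β ^ 4 ≤ K * (L ^ 2 * 8 ^ L) / β ^ (M+2) := by
      rw [div_mul_eq_mul_div, div_div, hb12, hb4]
      apply div_le_div_of_nonneg_left (by positivity) (by positivity)
      apply mul_le_mul_of_nonneg_left _ (by positivity)
      nlinarith
    have e2 : K * (L ^ 2 * 8 ^ L) / β ^ (M+2) ≤ K * (L ^ 2 * 8 ^ L) / β ^ (M+1) := by
      apply div_le_div_of_nonneg_left (by positivity) (by positivity)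
      exact pow_le_pow_right₀ hβ1 (by omega)
    have e3 : 1 / β ^ (M+2) ≤ 1 / β ^ (M+1) := by
      apply div_le_div_of_nonneg_left (by positivity) (by positivity)
      exact pow_le_pow_right₀ hβ1 (by omega)
    have hcm : |cmf v.card| ≤ K1 / β ^ (M+1) := by
      have h1 : |cmf v.card| * (1 / 2) ≤ |cmf v.card * r| := by
        rw [abs_mul]
        apply mul_le_mul_of_nonneg_left _ (abs_nonneg _)
        exact f3.trans (le_abs_self _)
      have h2 : |cmf v.card * r| ≤ |Bv| + |Bv - cmf v.card * r| := by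
        have h4 : cmf v.card * r = Bv - (Bv - cmf v.card * r) := by ring
        calc |cmf v.card * r| = |Bv - (Bv - cmf v.card * r)| := by rw [← h4]
          _ ≤ |Bv| + |Bv - cmf v.card * r| := abs_sub _ _
      have h3 : K1 / β ^ (M+1) = 2 * (2 ^ L * (K / β ^ (M+1)) + K * (L ^ 2 * 8 ^ L) / β ^ (M+1)
          + 1 / β ^ (M+1)) := by
        rw [hK1]; ring
      rw [h3]
      linarith
    refine ⟨hdeg v hv, hcm, ?_, ?_⟩
    · have := theta_fine Dl hDl0 L (opn cl ψ) (ρ ψ) hdg2 (K / β ^ (M+1)) hτ0 hsf v hv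
      rw [mul_div_assoc]
      exact this
    · have h1 : Bv - cmf v.card = (Bv - cmf v.card * r) + cmf v.card * (r - 1) := by ring
      rw [h1]
      refine (abs_add_le _ _).trans ?_
      rw [abs_mul]
      have h2 : |cmf v.card| * |r - 1| ≤ K1 / β ^ (M+1) * ((2 ^ L + 2 * L) / β) :=
        mul_le_mul hcm f2 (abs_nonneg _) (by positivity)
      have h3 : K1 / β ^ (M+1) * ((2 ^ L + 2 * L) / β) = K1 * (2 ^ L + 2 * L) / β ^ (M+2) := by
        rw [div_mul_div_comm, hb12]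
      rw [h3] at h2
      rw [add_div, add_div]
      linarith
  have hK'1 : K ≤ K * (L ^ 2 * 8 ^ L) + 1 + K1 * (2 ^ L + 2 * L) + 2 ^ L * K + K + K1 := by
    have : 0 ≤ K * ((L:ℝ) ^ 2 * 8 ^ L) + 1 + K1 * (2 ^ L + 2 * L) + 2 ^ L * K + K1 := by positivity
    linarith
  refine ⟨?_, ?_, ?_, ?_, ?_, ?_, ?_, ?_, ?_, ?_⟩
  · exact ho.inv.add (Inv.theta (t := t) (cl := cl) hρinv Dl L)
  · exact (ho.loc.mono (by omega)).add ((Loc.theta (t := t) (cl := cl) hρloc Dl L).mono (by omega))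
  · intro ψ v
    have h1 := theta_crude (t := t) he.hn1 Dl hDl1 L (opn cl ψ) (ρ ψ) (β ^ (C + g + 2))
      (by positivity) (hρb ψ) v
    have h2 : (L:ℝ) ≤ β ^ L := by
      have h3 : (L:ℝ) ≤ 2 ^ L := by exact_mod_cast (Nat.lt_two_pow_self).le
      exact h3.trans (pow_le_pow_left₀ (by norm_num) hβ L)
    have h3 : (n:ℝ) ^ L ≤ β ^ (g * L) := by
      rw [pow_mul]
      exact pow_le_pow_left₀ (by positivity) hnβ _
    have h4 : (L:ℝ) * ((n:ℝ) ^ L * β ^ (C + g + 2)) ≤ β ^ (C + g + 2 + g * L + L) := by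
      calc (L:ℝ) * ((n:ℝ) ^ L * β ^ (C + g + 2)) ≤ β ^ L * (β ^ (g * L) * β ^ (C + g + 2)) := by
            gcongr
        _ = β ^ (C + g + 2 + g * L + L) := by
            rw [← pow_add, ← pow_add]; congr 1; omega
    have h5 : β ^ C ≤ β ^ (C + g + 2 + g * L + L) := pow_le_pow_right₀ hβ1 (by omega)
    have h6 : 2 * β ^ (C + g + 2 + g * L + L) ≤ β ^ (C + g + 2 + g * L + L + 1) := by
      rw [pow_succ]
      have : 0 < β ^ (C + g + 2 + g * L + L) := by positivity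
      nlinarith
    have h7 : β ^ (C + g + 2 + g * L + L + 1)
        ≤ β ^ (C + g + 3 + g * L + L + g * (2 * (2 * (R+1) + 1))) :=
      pow_le_pow_right₀ hβ1 (by omega)
    have h8 := ho.hh ψ v
    refine (abs_add_le _ _).trans ?_
    linarith
  · intro c
    refine (abs_add_le _ _).trans ?_
    have h1 := ho.hk c
    have h2 := hcmb c
    have h3 : β ^ C ≤ β ^ (C + g + 2) := pow_le_pow_right₀ hβ1 (by omega)
    have h4 : β ^ (C + g + 3) ≤ β ^ (C + g + 3 + g * L + L + g * (2 * (2 * (R+1) + 1))) :=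
      pow_le_pow_right₀ hβ1 (by omega)
    linarith
  · intro v φ ψ hφ
    have h1 : Bd v φ = Bd v ψ := ho.dep v φ ψ (fun u hu => hφ u (hamI_mono (by omega) hu))
    have h2 := devEv_dep (t := t) (cl := cl) hρloc l0 ((8 * β ^ 4) ^ l0)
      (β ^ (4 * (l0 + ((R+1)+1)) - (M + 2))) v φ ψ (fun u hu => hφ u (hamI_mono (by omega) hu))
    simp only [h1, h2]
  · intro v hv
    refine (P_or _ _).trans ?_
    have h1 := ho.prob v hv
    have h2 := stage_prob he hρinv hρloc hρb hl0 hb2 v hv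
    have h3 : β ^ C ≤ β ^ (C + g + 2 + g * (2 * (2 * (R+1) + 1))) :=
      pow_le_pow_right₀ hβ1 (by omega)
    have h4 : β ^ (g * (2 * (2 * (R+1) + 1)) + 1) ≤ β ^ (C + g + 2 + g * (2 * (2 * (R+1) + 1))) :=
      pow_le_pow_right₀ hβ1 (by omega)
    have h5 : 2 * β ^ (C + g + 2 + g * (2 * (2 * (R+1) + 1)))
        ≤ β ^ (C + g + 2 + g * (2 * (2 * (R+1) + 1)) + 1) := by
      rw [pow_succ]
      have : 0 < β ^ (C + g + 2 + g * (2 * (2 * (R+1) + 1))) := by positivity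
      nlinarith
    have h6 : β ^ (C + g + 2 + g * (2 * (2 * (R+1) + 1)) + 1)
        ≤ β ^ (C + g + 3 + g * L + L + g * (2 * (2 * (R+1) + 1))) :=
      pow_le_pow_right₀ hβ1 (by omega)
    have hexp : 0 < Real.exp (-β) := Real.exp_pos _
    calc P (Bd v) + P (devEv t cl ρ (R+1) l0 ((8 * β ^ 4) ^ l0)
          (β ^ (4 * (l0 + ((R+1)+1)) - (M + 2))) v)
        ≤ β ^ C * Real.exp (-β) + β ^ (g * (2 * (2 * (R+1) + 1)) + 1) * Real.exp (-β) :=
          add_le_add h1 h2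
      _ = (β ^ C + β ^ (g * (2 * (2 * (R+1) + 1)) + 1)) * Real.exp (-β) := by ring
      _ ≤ β ^ (C + g + 3 + g * L + L + g * (2 * (2 * (R+1) + 1))) * Real.exp (-β) := by
          apply mul_le_mul_of_nonneg_right _ hexp.le
          linarith
  · intro ψ hψ v hv
    exact (key ψ hψ v hv).1
  · intro ψ hψ v hv
    obtain ⟨k1, k2, k3, k4⟩ := key ψ hψ v hv
    have hstep := Sf_step (t := t) (α := opn cl ψ) Dl L hpar (h ψ) k v
    have h1 : Sf t (opn cl ψ) Dl (fun v => h ψ v + theta t (opn cl ψ) Dl L (ρ ψ) v) v - (k v.card + cmf v.card)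
        = (Bit t (opn cl ψ) Dl (ρ ψ) L v - cmf v.card)
          + (dg t (opn cl ψ) v / Dl v.card - 1) * theta t (opn cl ψ) Dl L (ρ ψ) v := by
      have h2 : Sf t (opn cl ψ) Dl (fun v => h ψ v + theta t (opn cl ψ) Dl L (ρ ψ) v) v
          = k v.card + Bit t (opn cl ψ) Dl (ρ ψ) L v
          + (dg t (opn cl ψ) v / Dl v.card - 1) * theta t (opn cl ψ) Dl L (ρ ψ) v := hstep
      rw [h2]; ring
    rw [h1]
    refine (abs_add_le _ _).trans ?_
    rw [abs_mul]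
    have h2 : |dg t (opn cl ψ) v / Dl v.card - 1| * |theta t (opn cl ψ) Dl L (ρ ψ) v|
        ≤ (1 / β) * (2 ^ L * K / β ^ (M+1)) :=
      mul_le_mul k1 k3 (abs_nonneg _) (by positivity)
    have h3 : (1 / β) * (2 ^ L * K / β ^ (M+1)) = 2 ^ L * K / β ^ (M+2) := by
      rw [div_mul_div_comm, one_mul, ← pow_succ']
    rw [h3] at h2
    have h4 : (K * (L ^ 2 * 8 ^ L) + 1 + K1 * (2 ^ L + 2 * L)) / β ^ (M+2) + 2 ^ L * K / β ^ (M+2)
        ≤ (K * (L ^ 2 * 8 ^ L) + 1 + K1 * (2 ^ L + 2 * L) + 2 ^ L * K + K + K1) / β ^ (M+1+1) := by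
      rw [← add_div]
      apply div_le_div_of_nonneg_right _ (by positivity)
      linarith
    linarith
  · intro ψ hψ v hv
    obtain ⟨k1, k2, k3, k4⟩ := key ψ hψ v hv
    have h1 := ho.hf ψ (fun v hv hb => hψ v hv (Or.inl hb)) v hv
    refine (abs_add_le _ _).trans ?_
    have h2 : 2 ^ L * K / β ^ (M+1) ≤ 2 ^ L * K / β := by
      apply div_le_div_of_nonneg_left (by positivity) hβp
      calc β = β ^ 1 := (pow_one β).symm
        _ ≤ β ^ (M+1) := pow_le_pow_right₀ hβ1 (by omega)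
    have h3 : K / β + 2 ^ L * K / β
        ≤ (K * (L ^ 2 * 8 ^ L) + 1 + K1 * (2 ^ L + 2 * L) + 2 ^ L * K + K + K1) / β := by
      rw [← add_div]
      apply div_le_div_of_nonneg_right _ hβp.le
      have : 0 ≤ K * ((L:ℝ) ^ 2 * 8 ^ L) + 1 + K1 * (2 ^ L + 2 * L) + K1 := by positivity
      linarith
    linarith
  · intro ψ hψ v hv
    obtain ⟨k1, k2, k3, k4⟩ := key ψ hψ v hv
    have h1 := ho.kf ψ (fun v hv hb => hψ v hv (Or.inl hb)) v hv
    have h0 : k v.card + cmf v.card - 1 = (k v.card - 1) + cmf v.card := by ring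
    rw [h0]
    refine (abs_add_le _ _).trans ?_
    have h2 : K1 / β ^ (M+1) ≤ K1 / β := by
      apply div_le_div_of_nonneg_left (by positivity) hβp
      calc β = β ^ 1 := (pow_one β).symm
        _ ≤ β ^ (M+1) := pow_le_pow_right₀ hβ1 (by omega)
    have h3 : K / β + K1 / β
        ≤ (K * (L ^ 2 * 8 ^ L) + 1 + K1 * (2 ^ L + 2 * L) + 2 ^ L * K + K + K1) / β := by
      rw [← add_div]
      apply div_le_div_of_nonneg_right _ hβp.le
      have : 0 ≤ K * ((L:ℝ) ^ 2 * 8 ^ L) + 1 + K1 * (2 ^ L + 2 * L) + 2 ^ L * K := by positivity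
      linarith
    linarith

theorem stage (g M : ℕ) :
    ∃ (K : ℝ) (R C : ℕ) (β0 : ℝ), 0 ≤ K ∧ ∀ (β : ℝ) (n t : ℕ) (p : ℕ) [NeZero p] (cl : Lb p) (Dl : ℕ → ℝ), β0 ≤ β → Env g β n t p cl Dl →
      ∃ h k Bd, Out M K R C β n t p cl Dl h k Bd := by
  induction M with
  | zero =>
    refine ⟨1, 1, 1, 0, by norm_num, ?_⟩
    intro β n t p _ cl Dl _ he
    exact ⟨_, _, _, stage_zero g he⟩
  | succ M ih =>
    obtain ⟨K, R, C, β0, hK, hall⟩ := ih
    obtain ⟨K', R', C', β0', hK', hall'⟩ := stage_step g M R C K hK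
    refine ⟨K', R', C', max β0 β0', hK', ?_⟩
    intro β n t p _ cl Dl hβ he
    obtain ⟨h, k, Bd, ho⟩ := hall β n t p cl Dl ((le_max_left _ _).trans hβ) he
    exact hall' β n t p cl Dl ((le_max_right _ _).trans hβ) he h k Bd ho

end Pool.Agent.SK.Lin
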