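import Mathlib

/-! The elementary upper bound for the number of pairwise orthogonal Dilworth decompositions. -/

set_option linter.unusedSectionVars false

namespace Pool.Agent.SK.Lin

open Finset

lemma upper_aux {n r k : ℕ} (hr : n.choose (r + 1) = n.choose (n / 2)) (hrn : r ≤ n)
    (c : Fin k → Finset (Fin n) → Fin (n.choose (n / 2)))
    (h1 : ∀ i x y, c i x = c i y → x ⊆ y ∨ y ⊆ x)
    (h2 : ∀ i j, i ≠ j → ∀ x y, x ≠ y → c i x = c i y → c j x ≠ c j y) : k ≤ n - r := by
  obtain ⟨y, -, hy⟩ := exists_subset_card_eq (s := (univ : Finset (Fin n))) (n := r)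
    (by rw [card_univ, Fintype.card_fin]; exact hrn)
  have hsurj : ∀ i, ∃ z : Finset (Fin n), z.card = r + 1 ∧ c i z = c i y := by
    intro i
    have hinj : Function.Injective (fun z : {z : Finset (Fin n) // z.card = r + 1} => c i z.1) := by
      intro z z' h
      apply Subtype.ext
      rcases h1 i _ _ h with h3 | h3
      · exact eq_of_subset_of_card_le h3 (by rw [z.2, z'.2])
      · exact (eq_of_subset_of_card_le h3 (by rw [z.2, z'.2])).symm
    have hbij := (Fintype.bijective_iff_injective_and_card
      (fun z : {z : Finset (Fin n) // z.card = r + 1} => c i z.1)).2 ⟨hinj, by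
        rw [Fintype.card_finset_len, Fintype.card_fin, Fintype.card_fin, hr]⟩
    obtain ⟨z, hz⟩ := hbij.2 (c i y)
    exact ⟨z.1, z.2, hz⟩
  choose z hz1 hz2 using hsurj
  have hsub : ∀ i, y ⊆ z i := by
    intro i
    rcases h1 i _ _ (hz2 i) with h3 | h3
    · have := card_le_card h3
      rw [hz1 i, hy] at this
      omega
    · exact h3
  have hex : ∀ i, ∃ a : Fin n, a ∉ y ∧ z i = insert a y := by
    intro i
    have h3 : (z i \ y).card = 1 := by
      rw [card_sdiff_of_subset (hsub i), hz1 i, hy]; omega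
    obtain ⟨a, ha⟩ := card_eq_one.1 h3
    refine ⟨a, ?_, ?_⟩
    · have : a ∈ z i \ y := by rw [ha]; exact mem_singleton_self a
      exact (mem_sdiff.1 this).2
    · rw [insert_eq, ← ha, sdiff_union_of_subset (hsub i)]
  choose a ha1 ha2 using hex
  have hinj : Function.Injective a := by
    intro i j hij
    by_contra hne
    have h3 : z i = z j := by rw [ha2 i, ha2 j, hij]
    have h4 : z i ≠ y := by
      intro h5
      have := hz1 i
      rw [h5, hy] at this
      omega
    exact h2 i j hne (z i) y h4 (hz2 i) (by rw [h3]; exact hz2 j)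
  have h3 : (univ.image a).card ≤ (univ \ y : Finset (Fin n)).card := by
    apply card_le_card
    intro b hb
    obtain ⟨i, -, rfl⟩ := mem_image.1 hb
    exact mem_sdiff.2 ⟨mem_univ _, ha1 i⟩
  rw [card_image_of_injective _ hinj, card_univ, Fintype.card_fin,
    card_sdiff_of_subset (subset_univ _), card_univ, Fintype.card_fin, hy] at h3
  exact h3

theorem upper {n k : ℕ} (hn : 1 ≤ n) (c : Fin k → Finset (Fin n) → Fin (n.choose (n / 2)))
    (h1 : ∀ i x y, c i x = c i y → x ⊆ y ∨ y ⊆ x)
    (h2 : ∀ i j, i ≠ j → ∀ x y, x ≠ y → c i x = c i y → c j x ≠ c j y) : k ≤ (n + 2) / 2 := by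
  rcases Nat.even_or_odd' n with ⟨q, hq | hq⟩
  · have h3 := upper_aux (r := q - 1) (by
      rw [hq, show q - 1 + 1 = q by omega, show 2 * q / 2 = q by omega]) (by omega) c h1 h2
    omega
  · have h3 := upper_aux (r := q) (by
      rw [hq, show (2 * q + 1) / 2 = q by omega]
      exact Nat.choose_symm_of_eq_add (by omega)) (by omega) c h1 h2
    omega

end Pool.Agent.SK.Lin
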